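import Pool.Agent.Helper27.SqSpec

/-!
Module G: arithmetic of the rational case.
-/

namespace Pool.Agent.Helper95.SqG

open Pool.Agent.Helper27.Sq

/-- lifting of units -/
theorem lift {D d : ℕ} (hD : 0 < D) (u : ℤ) (hu : IsCoprime u (d : ℤ)) :
    ∃ c : ℤ, IsCoprime c (4 * D : ℤ) ∧ ∀ x : ℚ, (∃ k : ℤ, x * D = k) → (∃ k : ℤ, x * d = k) →
      ∃ k : ℤ, (c : ℚ) * x = u * x + k := by
  have hg : Nat.gcd d D ∣ 4 * D := Dvd.dvd.mul_left (Nat.gcd_dvd_right d D) 4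
  have : NeZero (4 * D) := ⟨by positivity⟩
  have hug : IsCoprime u ((Nat.gcd d D : ℕ) : ℤ) :=
    hu.of_isCoprime_of_dvd_right (by exact_mod_cast Nat.gcd_dvd_left d D)
  obtain ⟨w, hw⟩ := ZMod.unitsMap_surjective hg (ZMod.unitOfIsCoprime u hug)
  refine ⟨(ZMod.val (w : ZMod (4 * D)) : ℤ), ?_, ?_⟩
  · have := ZMod.val_coe_unit_coprime w
    have h2 := Nat.isCoprime_iff_coprime.2 this
    push_cast at h2 ⊢
    exact h2
  · intro x hxD hxd
    obtain ⟨k, hk⟩ := hxD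
    obtain ⟨k', hk'⟩ := hxd
    have h1 : (((ZMod.val (w : ZMod (4 * D)) : ℤ)) : ZMod (Nat.gcd d D)) = (u : ZMod (Nat.gcd d D)) := by
      have h3 := congrArg (fun z : (ZMod (Nat.gcd d D))ˣ => (z : ZMod (Nat.gcd d D))) hw
      simp only [ZMod.unitsMap_val] at h3
      rw [← ZMod.natCast_val] at h3
      simpa using h3
    rw [ZMod.intCast_eq_intCast_iff_dvd_sub] at h1
    obtain ⟨t, ht⟩ := h1
    have hb := Nat.gcd_eq_gcd_ab d D
    refine ⟨-t * (k' * Nat.gcdA d D + k * Nat.gcdB d D), ?_⟩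
    have hc : ((ZMod.val (w : ZMod (4 * D)) : ℤ) : ℚ) = u - (Nat.gcd d D : ℤ) * t := by
      have : (ZMod.val (w : ZMod (4 * D)) : ℤ) = u - (Nat.gcd d D : ℤ) * t := by linarith
      exact_mod_cast this
    have hb' : ((Nat.gcd d D : ℤ) : ℚ) = d * Nat.gcdA d D + D * Nat.gcdB d D := by
      exact_mod_cast hb
    rw [hc, hb']
    push_cast
    rw [← hk, ← hk']
    ring

/-- the hypothesis of `SpecG` -/
def Hyp (P Q : ℕ) (x0 x1 : ℚ) (D : ℕ) : Prop :=
    (∀ c : ℤ, IsCoprime c (4 * D : ℤ) → ∃ (e k0 k1 k2 : ℤ), (e = 1 ∨ e = -1) ∧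
      0 < e * c * x0 - k0 ∧ 0 < e * c * x1 - k1 ∧ 0 < e * c * (1 - x0 - x1) - k2 ∧
      (e * c * x0 - k0) + (e * c * x1 - k1) + (e * c * (1 - x0 - x1) - k2) = 1 ∧
      P * (e * c * x0 - k0) + Q * (e * c * x1 - k1) ≤ 1)

theorem Hyp.symm {P Q : ℕ} {x0 x1 : ℚ} {D : ℕ} (h : Hyp P Q x0 x1 D) : Hyp Q P x1 x0 D := by
  intro c hc
  obtain ⟨e, k0, k1, k2, he, h0, h1, h2, h3, h4⟩ := h c hc
  refine ⟨e, k1, k0, k2, he, h1, h0, ?_, ?_, ?_⟩
  · rw [sub_right_comm]; exact h2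
  · rw [sub_right_comm]; linarith
  · linarith

/-- both coordinates -/
theorem Hyp.two {P Q : ℕ} {x0 x1 : ℚ} {D : ℕ} (h : Hyp P Q x0 x1 D) (hD : 0 < D)
    (hPQ : P * x0 + Q * x1 = 1) (h0 : ∃ k : ℤ, x0 * D = k) (h1 : ∃ k : ℤ, x1 * D = k)
    (d : ℕ) (hd : 0 < d) (m0 m1 : ℤ) (hm0 : x0 * d = m0) (hm1 : x1 * d = m1)
    (u : ℤ) (hu : IsCoprime u (d : ℤ)) :
    ∃ e k0 k1 : ℤ, (e = 1 ∨ e = -1) ∧ 0 < e * u * m0 - k0 * d ∧ 0 < e * u * m1 - k1 * d ∧
      (e * u * m0 - k0 * d) + (e * u * m1 - k1 * d) < d ∧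
      P * (e * u * m0 - k0 * d) + Q * (e * u * m1 - k1 * d) = d := by
  obtain ⟨c, hc, hx⟩ := lift (d := d) hD u hu
  obtain ⟨t0, ht0⟩ := hx x0 h0 ⟨m0, hm0⟩
  obtain ⟨t1, ht1⟩ := hx x1 h1 ⟨m1, hm1⟩
  obtain ⟨e, k0, k1, k2, he, g0, g1, g2, g3, g4⟩ := h c hc
  have e0 : (e : ℚ) * c * x0 - k0 = e * u * x0 - ((k0 - e * t0 : ℤ) : ℚ) := by
    push_cast
    linear_combination (e : ℚ) * ht0
  have e1 : (e : ℚ) * c * x1 - k1 = e * u * x1 - ((k1 - e * t1 : ℤ) : ℚ) := by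
    push_cast
    linear_combination (e : ℚ) * ht1
  rw [e0] at g0 g3 g4
  rw [e1] at g1 g3 g4
  have hd' : (0 : ℚ) < d := by exact_mod_cast hd
  have f0 : ((e * u * m0 - (k0 - e * t0) * d : ℤ) : ℚ) = d * (e * u * x0 - ((k0 - e * t0 : ℤ) : ℚ)) := by
    push_cast
    rw [← hm0]; ring
  have f1 : ((e * u * m1 - (k1 - e * t1) * d : ℤ) : ℚ) = d * (e * u * x1 - ((k1 - e * t1 : ℤ) : ℚ)) := by
    push_cast
    rw [← hm1]; ring
  refine ⟨e, k0 - e * t0, k1 - e * t1, he, ?_, ?_, ?_, ?_⟩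
  · have : (0 : ℚ) < ((e * u * m0 - (k0 - e * t0) * d : ℤ) : ℚ) := by rw [f0]; positivity
    exact_mod_cast this
  · have : (0 : ℚ) < ((e * u * m1 - (k1 - e * t1) * d : ℤ) : ℚ) := by rw [f1]; positivity
    exact_mod_cast this
  · have : (((e * u * m0 - (k0 - e * t0) * d : ℤ) + (e * u * m1 - (k1 - e * t1) * d : ℤ) : ℤ) : ℚ) < (d : ℤ) := by
      rw [Int.cast_add, f0, f1]
      push_cast
      push_cast at g3 g2
      nlinarith
    exact_mod_cast this
  · -- the integer `P y0 + Q y1`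
    set y0 : ℚ := e * u * x0 - ((k0 - e * t0 : ℤ) : ℚ) with hy0
    set y1 : ℚ := e * u * x1 - ((k1 - e * t1 : ℤ) : ℚ) with hy1
    have hint : (P : ℚ) * y0 + Q * y1 = ((e * u - P * (k0 - e * t0) - Q * (k1 - e * t1) : ℤ) : ℚ) := by
      rw [hy0, hy1]; push_cast
      linear_combination (e * u : ℚ) * hPQ
    have hpos : 0 < (P : ℚ) * y0 + Q * y1 := by
      rcases Nat.eq_zero_or_pos P with hP | hP
      · rcases Nat.eq_zero_or_pos Q with hQ | hQ
        · subst hP hQ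
          norm_num at hPQ
        · have : (0:ℚ) < Q := by exact_mod_cast hQ
          have := mul_pos this g1
          have h5 : (0:ℚ) ≤ (P:ℚ) * y0 := by positivity
          linarith
      · have : (0:ℚ) < P := by exact_mod_cast hP
        have := mul_pos this g0
        have h5 : (0:ℚ) ≤ (Q:ℚ) * y1 := by positivity
        linarith
    have hone : (e * u - P * (k0 - e * t0) - Q * (k1 - e * t1) : ℤ) = 1 := by
      rw [hint] at hpos g4
      have a1 : 0 < (e * u - P * (k0 - e * t0) - Q * (k1 - e * t1) : ℤ) := by exact_mod_cast hpos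
      have a2 : (e * u - P * (k0 - e * t0) - Q * (k1 - e * t1) : ℤ) ≤ 1 := by exact_mod_cast g4
      omega
    rw [hone] at hint
    have : ((P * (e * u * m0 - (k0 - e * t0) * d) + Q * (e * u * m1 - (k1 - e * t1) * d) : ℤ) : ℚ) = (d : ℤ) := by
      rw [Int.cast_add, Int.cast_mul, Int.cast_mul, f0, f1]
      push_cast at hint ⊢
      linear_combination (d : ℚ) * hint
    exact_mod_cast this

/-- one coordinate -/
theorem Hyp.one {P Q : ℕ} {x0 x1 : ℚ} {D : ℕ} (h : Hyp P Q x0 x1 D) (hD : 0 < D)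
    (h0 : ∃ k : ℤ, x0 * D = k) (hQ : 0 < Q)
    (d : ℕ) (hd : 0 < d) (m0 : ℤ) (hm0 : x0 * d = m0)
    (u : ℤ) (hu : IsCoprime u (d : ℤ)) :
    ∃ e k0 : ℤ, (e = 1 ∨ e = -1) ∧ 0 < e * u * m0 - k0 * d ∧ P * (e * u * m0 - k0 * d) < d := by
  obtain ⟨c, hc, hx⟩ := lift (d := d) hD u hu
  obtain ⟨t0, ht0⟩ := hx x0 h0 ⟨m0, hm0⟩
  obtain ⟨e, k0, k1, k2, he, g0, g1, g2, g3, g4⟩ := h c hc
  have e0 : (e : ℚ) * c * x0 - k0 = e * u * x0 - ((k0 - e * t0 : ℤ) : ℚ) := by
    push_cast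
    linear_combination (e : ℚ) * ht0
  rw [e0] at g0 g4
  have hd' : (0 : ℚ) < d := by exact_mod_cast hd
  have f0 : ((e * u * m0 - (k0 - e * t0) * d : ℤ) : ℚ) = d * (e * u * x0 - ((k0 - e * t0 : ℤ) : ℚ)) := by
    push_cast
    rw [← hm0]; ring
  have hQ' : (0:ℚ) < Q := by exact_mod_cast hQ
  have h5 := mul_pos hQ' g1
  refine ⟨e, k0 - e * t0, he, ?_, ?_⟩
  · have : (0 : ℚ) < ((e * u * m0 - (k0 - e * t0) * d : ℤ) : ℚ) := by rw [f0]; positivity
    exact_mod_cast this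
  · have : ((P * (e * u * m0 - (k0 - e * t0) * d) : ℤ) : ℚ) < (d : ℤ) := by
      rw [Int.cast_mul, f0]
      have h6 : (P : ℚ) * (e * u * x0 - ((k0 - e * t0 : ℤ) : ℚ)) < 1 := by linarith
      have h7 := mul_lt_mul_of_pos_left h6 hd'
      push_cast at h7 ⊢
      linarith
    exact_mod_cast this

theorem no_sol {d u : ℤ} (h1 : d ≤ 3 * u) (h2 : 2 * u ≤ d) (_hu : 0 < u)
    (h : ∃ e k : ℤ, (e = 1 ∨ e = -1) ∧ 0 < e * u - k * d ∧ 3 * (e * u - k * d) < d) : False := by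
  obtain ⟨e, k, he, ha, hb⟩ := h
  rcases he with rfl | rfl
  · rcases le_or_gt k 0 with hk | hk
    · nlinarith
    · nlinarith
  · rcases le_or_gt k (-1) with hk | hk
    · nlinarith
    · have : 0 ≤ k := by omega
      nlinarith

theorem no_solZ {d u : ℤ} (h1 : 1 < u) (h2 : u + 1 < d)
    (h : ∃ e k : ℤ, (e = 1 ∨ e = -1) ∧ e * u - k * d = 1) : False := by
  obtain ⟨e, k, he, ha⟩ := h
  rcases he with rfl | rfl
  · rcases le_or_gt k 0 with hk | hk
    · nlinarith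
    · nlinarith
  · rcases le_or_gt k (-1) with hk | hk
    · nlinarith
    · have : 0 ≤ k := by omega
      nlinarith

theorem cop1 (j : ℤ) : IsCoprime j (2 * j + 1) := ⟨-2, 1, by ring⟩
theorem cop2 (i : ℤ) : IsCoprime (2 * i - 1) (4 * i + 2) :=
  ⟨(2 * i - 1) + 2 * i * (i - 1), -(i * (i - 1)), by ring⟩
theorem cop3 (i : ℤ) : IsCoprime (2 * i - 1) (4 * i) := ⟨2 * i - 1, -(i - 1), by ring⟩

theorem den3 (d : ℕ) (hd : 0 < d)
    (h : ∀ u : ℤ, IsCoprime u (d : ℤ) → ∃ e k : ℤ, (e = 1 ∨ e = -1) ∧ 0 < e * u - k * d ∧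
      3 * (e * u - k * d) < d) : d = 4 ∨ d = 6 ∨ d = 10 := by
  rcases Nat.even_or_odd' d with ⟨j, hj | hj⟩
  · rcases Nat.even_or_odd' j with ⟨i, hi | hi⟩
    · -- d = 4 i
      have e1 : (d : ℤ) = 4 * (i : ℤ) := by push_cast [hj, hi]; ring
      by_contra hcon
      have hi2 : 2 ≤ i := by omega
      refine no_sol (d := (d : ℤ)) (u := 2 * (i : ℤ) - 1) ?_ ?_ ?_ (h _ (by rw [e1]; exact cop3 _))
      · rw [e1]; omega
      · rw [e1]; omega
      · omega
    · have e1 : (d : ℤ) = 4 * (i : ℤ) + 2 := by push_cast [hj, hi]; ring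
      by_contra hcon
      rcases Nat.eq_zero_or_pos i with h0 | h0
      · subst h0
        norm_num at hi
        subst hi
        norm_num at hj
        subst hj
        exact no_sol (d := 2) (u := 1) (by norm_num) (by norm_num) (by norm_num)
          (h 1 (isCoprime_one_left))
      have hi2 : 3 ≤ i := by omega
      refine no_sol (d := (d : ℤ)) (u := 2 * (i : ℤ) - 1) ?_ ?_ ?_ (h _ (by rw [e1]; exact cop2 _))
      · rw [e1]; omega
      · rw [e1]; omega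
      · omega
  · have e1 : (d : ℤ) = 2 * (j : ℤ) + 1 := by push_cast [hj]; ring
    by_contra hcon
    rcases Nat.eq_zero_or_pos j with h0 | h0
    · subst h0
      norm_num at hj
      subst hj
      obtain ⟨e, k, -, h1, h2⟩ := h 1 isCoprime_one_left
      push_cast at h1 h2
      omega
    refine no_sol (d := (d : ℤ)) (u := (j : ℤ)) ?_ ?_ ?_ (h _ (by rw [e1]; exact cop1 _))
    · rw [e1]; omega
    · rw [e1]; omega
    · omega

theorem denZ (d : ℕ) (hd : 3 ≤ d)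
    (h : ∀ u : ℤ, IsCoprime u (d : ℤ) → ∃ e k : ℤ, (e = 1 ∨ e = -1) ∧ e * u - k * d = 1) :
    d = 3 ∨ d = 4 ∨ d = 6 := by
  rcases Nat.even_or_odd' d with ⟨j, hj | hj⟩
  · rcases Nat.even_or_odd' j with ⟨i, hi | hi⟩
    · -- d = 4 i
      have e1 : (d : ℤ) = 4 * (i : ℤ) := by push_cast [hj, hi]; ring
      by_contra hcon
      refine no_solZ (d := (d : ℤ)) (u := 2 * (i : ℤ) - 1) ?_ ?_ (h _ (by rw [e1]; exact cop3 _))
      · omega
      · rw [e1]; omega
    · have e1 : (d : ℤ) = 4 * (i : ℤ) + 2 := by push_cast [hj, hi]; ring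
      by_contra hcon
      refine no_solZ (d := (d : ℤ)) (u := 2 * (i : ℤ) - 1) ?_ ?_ (h _ (by rw [e1]; exact cop2 _))
      · omega
      · rw [e1]; omega
  · have e1 : (d : ℤ) = 2 * (j : ℤ) + 1 := by push_cast [hj]; ring
    by_contra hcon
    refine no_solZ (d := (d : ℤ)) (u := (j : ℤ)) ?_ ?_ (h _ (by rw [e1]; exact cop1 _))
    · omega
    · rw [e1]; omega

/-- `P ≥ 3`, `Q ≥ 1`: the values of `x0` -/
theorem Hyp.three {P Q : ℕ} {x0 x1 : ℚ} {D : ℕ} (h : Hyp P Q x0 x1 D) (hD : 0 < D)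
    (h0 : ∃ k : ℤ, x0 * D = k) (hQ : 0 < Q) (hP : 3 ≤ P) (hx0 : 0 < x0) (hx1 : 0 < x1)
    (hPQ : P * x0 + Q * x1 = 1) :
    (x0 = 1/4 ∧ P = 3) ∨ (x0 = 1/6 ∧ (P = 3 ∨ P = 4 ∨ P = 5)) ∨ (x0 = 1/10 ∧ P = 3) ∨
      (x0 = 3/10 ∧ P = 3) := by
  have hd : 0 < x0.den := x0.den_pos
  have hm : x0 * x0.den = x0.num := Rat.mul_den_eq_num x0
  have hcop : IsCoprime x0.num (x0.den : ℤ) := by
    rw [Int.isCoprime_iff_gcd_eq_one]
    exact x0.reduced
  have hQx : (0:ℚ) < Q * x1 := mul_pos (by exact_mod_cast hQ) hx1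
  have hPx : (P : ℚ) * x0 < 1 := by linarith
  have hP3 : (3 : ℚ) ≤ P := by exact_mod_cast hP
  have hden : x0.den = 4 ∨ x0.den = 6 ∨ x0.den = 10 := by
    apply den3 _ hd
    intro u hu
    obtain ⟨a, b, hab⟩ := hcop
    have hcu : IsCoprime (u * a) (x0.den : ℤ) :=
      hu.mul_left ⟨x0.num, b, by linarith⟩
    obtain ⟨e, k0, he, h1, h2⟩ := h.one hD h0 hQ x0.den hd x0.num hm (u * a) hcu
    refine ⟨e, k0 + e * u * b, he, ?_, ?_⟩
    · have : e * u - (k0 + e * u * b) * (x0.den : ℤ) = e * (u * a) * x0.num - k0 * x0.den := by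
        linear_combination (-(e * u)) * hab
      rw [this]; exact h1
    · have : e * u - (k0 + e * u * b) * (x0.den : ℤ) = e * (u * a) * x0.num - k0 * x0.den := by
        linear_combination (-(e * u)) * hab
      rw [this]
      have : (3 : ℤ) ≤ P := by exact_mod_cast hP
      nlinarith
  have hnum : 0 < x0.num := Rat.num_pos.2 hx0
  have hPn : (P : ℤ) * x0.num < x0.den := by
    have h1 : (P : ℚ) * x0 * x0.den < 1 * x0.den :=
      mul_lt_mul_of_pos_right hPx (by exact_mod_cast hd)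
    rw [mul_assoc, hm, one_mul] at h1
    exact_mod_cast h1
  have hP3' : (3 : ℤ) ≤ P := by exact_mod_cast hP
  have h3n : 3 * x0.num < x0.den := by nlinarith
  have hx : x0 = x0.num / x0.den := (Rat.num_div_den x0).symm
  rw [Int.isCoprime_iff_gcd_eq_one] at hcop
  rcases hden with hden | hden | hden
  · rw [hden] at h3n hPn hx
    have hn : x0.num = 1 := by omega
    rw [hn] at hx hPn
    left
    exact ⟨by rw [hx]; norm_num, by omega⟩
  · rw [hden] at h3n hPn hx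
    have hn : x0.num = 1 := by omega
    rw [hn] at hx hPn
    right; left
    exact ⟨by rw [hx]; norm_num, by omega⟩
  · rw [hden] at h3n hPn hx
    have hn : x0.num = 1 ∨ x0.num = 3 := by
      have : x0.num = 1 ∨ x0.num = 2 ∨ x0.num = 3 := by omega
      rcases this with h | h | h
      · exact Or.inl h
      · rw [h, hden] at hcop
        norm_num at hcop
      · exact Or.inr h
    rcases hn with hn | hn
    · right; right; left
      rw [hn] at hx
      have hx' : x0 = 1/10 := by rw [hx]; norm_num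
      refine ⟨hx', ?_⟩
      obtain ⟨e, k0, he, h1, h2⟩ := h.one hD h0 hQ 10 (by norm_num) 1 (by rw [hx']; norm_num) 3
        ⟨-3, 1, by norm_num⟩
      push_cast at h1 h2
      rcases he with rfl | rfl
      · have : 3 ≤ 3 - k0 * 10 := by omega
        have : (P : ℤ) ≤ 3 := by nlinarith
        omega
      · exfalso
        have : 7 ≤ -3 - k0 * 10 := by omega
        nlinarith
    · right; right; right
      rw [hn] at hx hPn
      exact ⟨by rw [hx]; norm_num, by omega⟩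

/-- the core case `P ≥ 3`, `Q ≥ 1` -/
theorem Hyp.core {P Q : ℕ} {x0 x1 : ℚ} {D : ℕ} (h : Hyp P Q x0 x1 D) (hD : 0 < D)
    (h0 : ∃ k : ℤ, x0 * D = k) (h1 : ∃ k : ℤ, x1 * D = k) (hQ : 0 < Q) (hP : 3 ≤ P)
    (hx0 : 0 < x0) (hx1 : 0 < x1) (hPQ : P * x0 + Q * x1 = 1) :
    ((∃ k : ℤ, x0 * 6 = k) ∧ ∃ k : ℤ, x1 * 6 = k) ∨
    ((∃ k : ℤ, x0 * 4 = k) ∧ ∃ k : ℤ, x1 * 4 = k) ∨
    (P = 3 ∧ Q = 1 ∧ ((x0 = 1/10 ∧ x1 = 7/10) ∨ (x0 = 3/10 ∧ x1 = 1/10))) := by
  have hthree := h.three hD h0 hQ hP hx0 hx1 hPQ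
  rcases Nat.lt_or_ge Q 3 with hQ3 | hQ3
  · have hQ12 : Q = 1 ∨ Q = 2 := by omega
    rcases hthree with ⟨a, rfl⟩ | ⟨a, hh⟩ | ⟨a, rfl⟩ | ⟨a, rfl⟩
    · -- x0 = 1/4
      rcases hQ12 with rfl | rfl
      · right; left
        refine ⟨⟨1, by rw [a]; norm_num⟩, ⟨1, ?_⟩⟩
        rw [a] at hPQ
        push_cast at hPQ ⊢
        linarith
      · exfalso
        have b : x1 = 1/8 := by rw [a] at hPQ; push_cast at hPQ; linarith
        obtain ⟨e, k0, k1, he, g0, g1, g2, g3⟩ := h.two hD hPQ h0 h1 8 (by norm_num) 2 1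
          (by rw [a]; norm_num) (by rw [b]; norm_num) 3 ⟨3, -1, by norm_num⟩
        push_cast at g0 g1 g2 g3
        rcases he with rfl | rfl <;> omega
    · rcases hh with rfl | rfl | rfl
      · rcases hQ12 with rfl | rfl
        · left
          refine ⟨⟨1, by rw [a]; norm_num⟩, ⟨3, ?_⟩⟩
          rw [a] at hPQ
          push_cast at hPQ ⊢
          linarith
        · exfalso
          have b : x1 = 1/4 := by rw [a] at hPQ; push_cast at hPQ; linarith
          obtain ⟨e, k0, k1, he, g0, g1, g2, g3⟩ := h.two hD hPQ h0 h1 12 (by norm_num) 2 3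
            (by rw [a]; norm_num) (by rw [b]; norm_num) 5 ⟨5, -2, by norm_num⟩
          push_cast at g0 g1 g2 g3
          rcases he with rfl | rfl <;> omega
      · rcases hQ12 with rfl | rfl
        · left
          refine ⟨⟨1, by rw [a]; norm_num⟩, ⟨2, ?_⟩⟩
          rw [a] at hPQ
          push_cast at hPQ ⊢
          linarith
        · left
          refine ⟨⟨1, by rw [a]; norm_num⟩, ⟨1, ?_⟩⟩
          rw [a] at hPQ
          push_cast at hPQ ⊢
          linarith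
      · rcases hQ12 with rfl | rfl
        · left
          refine ⟨⟨1, by rw [a]; norm_num⟩, ⟨1, ?_⟩⟩
          rw [a] at hPQ
          push_cast at hPQ ⊢
          linarith
        · exfalso
          have b : x1 = 1/12 := by rw [a] at hPQ; push_cast at hPQ; linarith
          obtain ⟨e, k0, k1, he, g0, g1, g2, g3⟩ := h.two hD hPQ h0 h1 12 (by norm_num) 2 1
            (by rw [a]; norm_num) (by rw [b]; norm_num) 5 ⟨5, -2, by norm_num⟩
          push_cast at g0 g1 g2 g3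
          rcases he with rfl | rfl <;> omega
    · rcases hQ12 with rfl | rfl
      · right; right
        refine ⟨rfl, rfl, Or.inl ⟨a, ?_⟩⟩
        rw [a] at hPQ
        push_cast at hPQ
        linarith
      · exfalso
        have b : x1 = 7/20 := by rw [a] at hPQ; push_cast at hPQ; linarith
        obtain ⟨e, k0, k1, he, g0, g1, g2, g3⟩ := h.two hD hPQ h0 h1 20 (by norm_num) 2 7
          (by rw [a]; norm_num) (by rw [b]; norm_num) 7 ⟨3, -1, by norm_num⟩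
        push_cast at g0 g1 g2 g3
        rcases he with rfl | rfl <;> omega
    · rcases hQ12 with rfl | rfl
      · right; right
        refine ⟨rfl, rfl, Or.inr ⟨a, ?_⟩⟩
        rw [a] at hPQ
        push_cast at hPQ
        linarith
      · exfalso
        have b : x1 = 1/20 := by rw [a] at hPQ; push_cast at hPQ; linarith
        obtain ⟨e, k0, k1, he, g0, g1, g2, g3⟩ := h.two hD hPQ h0 h1 20 (by norm_num) 6 1
          (by rw [a]; norm_num) (by rw [b]; norm_num) 3 ⟨7, -1, by norm_num⟩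
        push_cast at g0 g1 g2 g3
        rcases he with rfl | rfl <;> omega
  · have hthree' := h.symm.three hD h1 (by omega) hQ3 hx1 hx0 (by linarith)
    rcases hthree with ⟨a, rfl⟩ | ⟨a, rfl | rfl | rfl⟩ | ⟨a, rfl⟩ | ⟨a, rfl⟩ <;>
    rcases hthree' with ⟨b, rfl⟩ | ⟨b, rfl | rfl | rfl⟩ | ⟨b, rfl⟩ | ⟨b, rfl⟩ <;>
    first
    | (exfalso; rw [a, b] at hPQ; norm_num at hPQ; done)
    | (left; exact ⟨⟨1, by rw [a]; norm_num⟩, ⟨1, by rw [b]; norm_num⟩⟩)

/-- the case `Q = 0` -/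
theorem Hyp.zero {P : ℕ} {x0 x1 : ℚ} {D : ℕ} (h : Hyp P 0 x0 x1 D) (hD : 0 < D)
    (h0 : ∃ k : ℤ, x0 * D = k) (_h1 : ∃ k : ℤ, x1 * D = k) (hP : 3 ≤ P)
    (hPQ : P * x0 = 1) : P = 3 ∨ P = 4 ∨ P = 6 := by
  have hP' : (P : ℤ) ≠ 0 := by omega
  apply denZ P hP
  intro u hu
  obtain ⟨c, hc, hx⟩ := lift (d := P) hD u hu
  obtain ⟨t0, ht0⟩ := hx x0 h0 ⟨1, by rw [mul_comm, hPQ]; norm_num⟩
  obtain ⟨e, k0, k1, k2, he, g0, g1, g2, g3, g4⟩ := h c hc
  have e0 : (e : ℚ) * c * x0 - k0 = e * u * x0 - ((k0 - e * t0 : ℤ) : ℚ) := by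
    push_cast
    linear_combination (e : ℚ) * ht0
  rw [e0] at g0 g4
  have f0 : ((e * u - (k0 - e * t0) * P : ℤ) : ℚ) = P * (e * u * x0 - ((k0 - e * t0 : ℤ) : ℚ)) := by
    push_cast
    linear_combination (-(e : ℚ) * u) * hPQ
  have hPpos : (0:ℚ) < P := by exact_mod_cast (by omega : 0 < P)
  refine ⟨e, k0 - e * t0, he, ?_⟩
  have a1 : (0:ℚ) < ((e * u - (k0 - e * t0) * P : ℤ) : ℚ) := by rw [f0]; positivity
  have a2 : ((e * u - (k0 - e * t0) * P : ℤ) : ℚ) ≤ (1 : ℤ) := by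
    rw [f0]
    push_cast at g4 ⊢
    linarith
  have a1' : 0 < (e * u - (k0 - e * t0) * P : ℤ) := by exact_mod_cast a1
  have a2' : (e * u - (k0 - e * t0) * P : ℤ) ≤ 1 := by exact_mod_cast a2
  omega

/-- **Module G.** -/
theorem specG : SpecG := by
  intro P Q x0 x1 hx0 hx1 _ hPQ D hD h0 h1 h
  have h' : Hyp P Q x0 x1 D := h
  rcases Nat.lt_or_ge P 3 with hP | hP
  · rcases Nat.lt_or_ge Q 3 with hQ | hQ
    · left; omega
    · rcases Nat.eq_zero_or_pos P with hP0 | hP0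
      · subst hP0
        right; right; left
        refine ⟨rfl, ?_⟩
        exact h'.symm.zero hD h1 h0 hQ (by push_cast at hPQ; linarith)
      · rcases h'.symm.core hD h1 h0 hP0 hQ hx1 hx0 (by linarith) with hh | hh | ⟨a, b, hh⟩
        · right; right; right; left; exact ⟨hh.2, hh.1⟩
        · right; right; right; right; left; exact ⟨hh.2, hh.1⟩
        · right; right; right; right; right; right; exact ⟨b, a, hh⟩
  · rcases Nat.eq_zero_or_pos Q with hQ0 | hQ0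
    · subst hQ0
      right; left
      refine ⟨rfl, ?_⟩
      exact h'.zero hD h0 h1 hP (by push_cast at hPQ; linarith)
    · rcases h'.core hD h0 h1 hQ0 hP hx0 hx1 hPQ with hh | hh | hh
      · right; right; right; left; exact hh
      · right; right; right; right; left; exact hh
      · right; right; right; right; right; left; exact hh

end Pool.Agent.Helper95.SqG
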