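import Pool.Agent.Helper95.SqN1
import Pool.Agent.Helper95.SqG

/-!
Module R: the rational case.
-/

open scoped Real

namespace Pool.Agent.Helper95.SqR

open Pool.Agent.Helper27.Sq Pool.Agent.Helper95.SqN1

variable {n : ℕ} {a t X th : Fin 3 → ℝ} {M D : Fin 3 → Fin 3 → ℕ}

theorem exists_perm3 : ∀ i j k : Fin 3, i ≠ j → i ≠ k → j ≠ k →
    ∃ σ : Equiv.Perm (Fin 3), σ 0 = i ∧ σ 1 = j ∧ σ 2 = k := by decide

/-- a 3 × 2 matrix, as a function, entries `< 4` -/
theorem enumA0 : ∀ c0 c1 : Fin 3 → Fin 3, (c0 0 : ℕ) + c0 1 + c0 2 ≤ 2 →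
    (c1 0 : ℕ) + c1 1 + c1 2 ≤ 2 → (∀ k, (c0 k : ℕ) + c1 k ≠ 0) →
    (∀ k l, k ≠ l → ¬ (c0 k = c0 l ∧ c1 k = c1 l)) →
    (∃ i, c0 i = 1 ∧ c1 i = 0) ∧ (∃ i, c0 i = 0 ∧ c1 i = 1) ∧ (∃ i, c0 i = 1 ∧ c1 i = 1) := by
  decide +kernel

set_option synthInstance.maxSize 1000 in
theorem enumE0 : ∀ c0 c1 : Fin 3 → Fin 4, (c0 0 : ℕ) + c0 1 + c0 2 ≤ 3 →
    (c1 0 : ℕ) + c1 1 + c1 2 ≤ 1 → (∀ k, (c0 k : ℕ) + c1 k ≠ 0) →
    (∀ k l, k ≠ l → ¬ (c0 k = c0 l ∧ c1 k = c1 l)) →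
    (∃ i, c0 i = 1 ∧ c1 i = 0) ∧ (∃ i, c0 i = 0 ∧ c1 i = 1) ∧ (∃ i, c0 i = 2 ∧ c1 i = 0) := by
  decide +kernel

theorem enumA (c0 c1 : Fin 3 → ℕ) (h0 : c0 0 + c0 1 + c0 2 ≤ 2) (h1 : c1 0 + c1 1 + c1 2 ≤ 2)
    (hz : ∀ k, c0 k + c1 k ≠ 0) (hd : ∀ k l, k ≠ l → ¬ (c0 k = c0 l ∧ c1 k = c1 l)) :
    (∃ i, c0 i = 1 ∧ c1 i = 0) ∧ (∃ i, c0 i = 0 ∧ c1 i = 1) ∧ (∃ i, c0 i = 1 ∧ c1 i = 1) := by
  have b0 : ∀ k, c0 k < 3 := by
    intro k; fin_cases k <;> simp <;> omega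
  have b1 : ∀ k, c1 k < 3 := by
    intro k; fin_cases k <;> simp <;> omega
  have := enumA0 (fun k => ⟨c0 k, b0 k⟩) (fun k => ⟨c1 k, b1 k⟩) h0 h1 hz (by
    intro k l hkl h
    exact hd k l hkl ⟨congrArg Fin.val h.1, congrArg Fin.val h.2⟩)
  obtain ⟨⟨i, i1, i2⟩, ⟨j, j1, j2⟩, ⟨k, k1, k2⟩⟩ := this
  exact ⟨⟨i, congrArg Fin.val i1, congrArg Fin.val i2⟩, ⟨j, congrArg Fin.val j1, congrArg Fin.val j2⟩,
    ⟨k, congrArg Fin.val k1, congrArg Fin.val k2⟩⟩

theorem enumE (c0 c1 : Fin 3 → ℕ) (h0 : c0 0 + c0 1 + c0 2 ≤ 3) (h1 : c1 0 + c1 1 + c1 2 ≤ 1)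
    (hz : ∀ k, c0 k + c1 k ≠ 0) (hd : ∀ k l, k ≠ l → ¬ (c0 k = c0 l ∧ c1 k = c1 l)) :
    (∃ i, c0 i = 1 ∧ c1 i = 0) ∧ (∃ i, c0 i = 0 ∧ c1 i = 1) ∧ (∃ i, c0 i = 2 ∧ c1 i = 0) := by
  have b0 : ∀ k, c0 k < 4 := by
    intro k; fin_cases k <;> simp <;> omega
  have b1 : ∀ k, c1 k < 4 := by
    intro k; fin_cases k <;> simp <;> omega
  have := enumE0 (fun k => ⟨c0 k, b0 k⟩) (fun k => ⟨c1 k, b1 k⟩) h0 h1 hz (by
    intro k l hkl h
    exact hd k l hkl ⟨congrArg Fin.val h.1, congrArg Fin.val h.2⟩)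
  obtain ⟨⟨i, i1, i2⟩, ⟨j, j1, j2⟩, ⟨k, k1, k2⟩⟩ := this
  exact ⟨⟨i, congrArg Fin.val i1, congrArg Fin.val i2⟩, ⟨j, congrArg Fin.val j1, congrArg Fin.val j2⟩,
    ⟨k, congrArg Fin.val k1, congrArg Fin.val k2⟩⟩

/-- the conjugate condition is invariant under relabelling the tile -/
theorem conj_perm {d : ℕ} (h : Conj t M d) (ρ : Equiv.Perm (Fin 3)) :
    Conj (t ∘ ρ) (fun k j => M k (ρ j)) d := by
  intro c hc
  obtain ⟨e, k, he, h1, h2, h3⟩ := h c hc
  refine ⟨e, k ∘ ρ, he, fun j => h1 (ρ j), ?_, ?_⟩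
  · have e1 := Equiv.sum_comp ρ (fun j => (e * c * t j - k j * π : ℝ))
    rw [Fin.sum_univ_three, Fin.sum_univ_three] at e1
    simp only [Function.comp]
    rw [e1]; exact h2
  · have e1 := Equiv.sum_comp ρ (fun j => ((M 0 j + M 1 j + M 2 j : ℝ) * (e * c * t j - k j * π)))
    rw [Fin.sum_univ_three, Fin.sum_univ_three] at e1
    simp only [Function.comp]
    rw [e1]; exact h3

/-- all angles of `T` multiples of `π / q` -/
theorem angq (F : Facts n a t X th M D) (hX : Function.Injective X) (q : ℕ) (hq : 0 < q)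
    (h : ∀ k, ∃ m : ℤ, th k * q = m * π) :
    6 ≤ q ∧ (q = 6 → ExcX X) := by
  choose m hm using h
  have hpi := Real.pi_pos
  have hq' : (0:ℝ) < q := by exact_mod_cast hq
  have hpos : ∀ k, 0 < m k := by
    intro k
    have h1 : 0 < th k * q := mul_pos (F.th_pos k) hq'
    rw [hm k] at h1
    have h2 : (0:ℝ) < m k := by
      by_contra hc
      push Not at hc
      have := mul_nonpos_of_nonpos_of_nonneg hc hpi.le
      linarith
    exact_mod_cast h2
  have hsum : m 0 + m 1 + m 2 = q := by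
    have h1 : ((m 0 + m 1 + m 2 : ℤ) : ℝ) * π = (q : ℤ) * π := by
      push_cast
      have := F.th_sum
      linear_combination (q : ℝ) * this - hm 0 - hm 1 - hm 2
    exact_mod_cast mul_right_cancel₀ hpi.ne' h1
  have hne : ∀ k l, k ≠ l → m k ≠ m l := by
    intro k l hkl he
    apply hkl
    apply th_inj F hX
    have h1 := hm k
    rw [he, ← hm l] at h1
    exact mul_right_cancel₀ hq'.ne' h1
  have p0 := hpos 0
  have p1 := hpos 1
  have p2 := hpos 2
  have n01 := hne 0 1 (by decide)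
  have n02 := hne 0 2 (by decide)
  have n12 := hne 1 2 (by decide)
  refine ⟨by omega, ?_⟩
  rintro rfl
  push_cast at hsum
  obtain ⟨i, j, k, hi, hj, hk⟩ : ∃ i j k, m i = 1 ∧ m j = 2 ∧ m k = 3 := by
    have c0 : m 0 = 1 ∨ m 0 = 2 ∨ m 0 = 3 := by omega
    have c1 : m 1 = 1 ∨ m 1 = 2 ∨ m 1 = 3 := by omega
    rcases c0 with c0 | c0 | c0 <;> rcases c1 with c1 | c1 | c1
    · omega
    · exact ⟨0, 1, 2, c0, c1, by omega⟩
    · exact ⟨0, 2, 1, c0, by omega, c1⟩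
    · exact ⟨1, 0, 2, c1, c0, by omega⟩
    · omega
    · exact ⟨2, 0, 1, by omega, c0, c1⟩
    · exact ⟨1, 2, 0, c1, by omega, c0⟩
    · exact ⟨2, 1, 0, by omega, c1, c0⟩
    · omega
  have hij : i ≠ j := by rintro rfl; omega
  have hik : i ≠ k := by rintro rfl; omega
  have hjk : j ≠ k := by rintro rfl; omega
  obtain ⟨σ, s0, s1, s2⟩ := exists_perm3 i j k hij hik hjk
  apply excX_perm σ
  obtain ⟨κ, hκ, hs⟩ := F.sin_th
  have t0 : th i = π / 6 := by
    have := hm i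
    rw [hi] at this
    push_cast at this
    linarith
  have t1 : th j = π / 3 := by
    have := hm j
    rw [hj] at this
    push_cast at this
    linarith
  have t2 : th k = π / 2 := by
    have := hm k
    rw [hk] at this
    push_cast at this
    linarith
  have x0 := hs i
  have x1 := hs j
  have x2 := hs k
  rw [t0, Real.sin_pi_div_six] at x0
  rw [t1, Real.sin_pi_div_three] at x1
  rw [t2, Real.sin_pi_div_two] at x2
  refine ⟨![1, √3, 2], Or.inr (Or.inl rfl), 1, 1 / (2 * κ), by positivity, ?_⟩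
  intro l
  fin_cases l
  · show X (σ 0) = 1 / (2 * κ) * 1
    rw [s0]
    field_simp
    linarith
  · show X (σ 1) = 1 / (2 * κ) * √3
    rw [s1]
    field_simp
    linarith
  · show X (σ 2) = 1 / (2 * κ) * 2
    rw [s2]
    field_simp
    linarith

/-- the right-angled similar case -/
theorem caseA (F : Facts n a t X th M D) (hn : ¬ IsSquare n)
    (h0 : M 0 0 = 1 ∧ M 0 1 = 0) (h1 : M 1 0 = 0 ∧ M 1 1 = 1) (h2 : M 2 0 = 1 ∧ M 2 1 = 1)
    (hM : ∀ k, M k 2 = 0) : ExcX X := by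
  have a0 : th 0 = t 0 := by rw [F.ang 0, h0.1, h0.2, hM 0]; simp
  have a1 : th 1 = t 1 := by rw [F.ang 1, h1.1, h1.2, hM 1]; simp
  have a2' : th 2 = t 0 + t 1 := by rw [F.ang 2, h2.1, h2.2, hM 2]; simp
  have hpi2 : th 2 = π / 2 := by
    have := F.th_sum
    linarith
  have a2 : th 2 = t 2 := by
    have := F.t_sum
    have := F.th_sum
    linarith
  have hth : ∀ k, th k = t k := by
    intro k; fin_cases k
    · exact a0
    · exact a1
    · exact a2
  have hD := simil F hn hth 2 (by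
    intro k hk j
    fin_cases k
    · fin_cases j
      · simpa using h0.1
      · simpa using h0.2
      · simpa using hM 0
    · fin_cases j
      · simpa using h1.1
      · simpa using h1.2
      · simpa using hM 1
    · exact absurd rfl hk)
  have hR := ratio F hth
  have x0 := F.sid 0
  have x1 := F.sid 1
  rw [hD 0 (by decide) 0 (by decide), hD 0 (by decide) 1 (by decide)] at x0
  rw [hD 1 (by decide) 0 (by decide), hD 1 (by decide) 1 (by decide)] at x1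
  simp only [Nat.cast_zero, zero_mul, zero_add] at x0 x1
  have hpyth : X 0 ^ 2 + X 1 ^ 2 = X 2 ^ 2 := by
    obtain ⟨κ, hκ, hs⟩ := F.sin_th
    have e1 : th 1 = π / 2 - th 0 := by
      have := F.th_sum
      linarith
    have s0 := hs 0
    have s1 := hs 1
    have s2 := hs 2
    rw [e1, Real.sin_pi_div_two_sub] at s1
    rw [hpi2, Real.sin_pi_div_two] at s2
    have := Real.sin_sq_add_cos_sq (th 0)
    rw [s0, s1] at this
    have h5 : κ ^ 2 * (X 0 ^ 2 + X 1 ^ 2) = κ ^ 2 * X 2 ^ 2 := by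
      calc κ ^ 2 * (X 0 ^ 2 + X 1 ^ 2) = 1 := by linarith
        _ = (κ * X 2) ^ 2 := by rw [← s2]; norm_num
        _ = κ ^ 2 * X 2 ^ 2 := by ring
    exact mul_left_cancel₀ (by positivity) h5
  have ha2 := F.a_pos 2
  have hn2 : n = D 0 2 ^ 2 + D 1 2 ^ 2 := by
    rw [x0, x1, hR 2, mul_pow (√(n:ℝ)), Real.sq_sqrt (Nat.cast_nonneg n)] at hpyth
    have h6 : ((D 0 2 ^ 2 + D 1 2 ^ 2 : ℕ) : ℝ) * a 2 ^ 2 = (n : ℝ) * a 2 ^ 2 := by
      push_cast; linarith
    have := mul_right_cancel₀ (by positivity) h6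
    exact_mod_cast this.symm
  have hp : 0 < D 0 2 := by
    rcases Nat.eq_zero_or_pos (D 0 2) with h | h
    · have := F.X_pos 0
      rw [x0, h] at this
      simp at this
    · exact h
  have hq : 0 < D 1 2 := by
    rcases Nat.eq_zero_or_pos (D 1 2) with h | h
    · have := F.X_pos 1
      rw [x1, h] at this
      simp at this
    · exact h
  refine ⟨_, Or.inl ⟨D 0 2, D 1 2, hp, hq, by rw [← hn2]; exact hn, rfl⟩, 1, a 2, ha2, ?_⟩
  intro l
  fin_cases l
  · show X 0 = a 2 * (D 0 2 : ℝ)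
    rw [x0]; ring
  · show X 1 = a 2 * (D 1 2 : ℝ)
    rw [x1]; ring
  · show X 2 = a 2 * √((D 0 2 : ℝ) ^ 2 + (D 1 2 : ℝ) ^ 2)
    rw [hR 2, hn2]
    push_cast
    ring

theorem cos_three_pi_div_five : Real.cos (3 * π / 5) = (1 - √5) / 4 := by
  have h1 : (3 * π / 5 : ℝ) = π - 2 * (π / 5) := by ring
  rw [h1, Real.cos_pi_sub, Real.cos_two_mul, Real.cos_pi_div_five]
  have h5 : √5 ^ 2 = (5:ℝ) := Real.sq_sqrt (by norm_num)
  have : ((1 + √5) / 4) ^ 2 = (1 + 2 * √5 + √5 ^ 2) / 16 := by ring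
  rw [this, h5]; ring

theorem irr5 : Irrational √5 := by
  have := Nat.Prime.irrational_sqrt (p := 5) (by norm_num)
  exact_mod_cast this

/-- the similar case with angles `π/10, 7π/10` or `3π/10, π/10` -/
theorem caseE (F : Facts n a t X th M D) (hn : ¬ IsSquare n)
    (h0 : M 0 0 = 1 ∧ M 0 1 = 0) (h1 : M 1 0 = 0 ∧ M 1 1 = 1) (h2 : M 2 0 = 2 ∧ M 2 1 = 0)
    (hM : ∀ k, M k 2 = 0)
    (ht : (t 0 = π / 10 ∧ t 1 = 7 * π / 10) ∨ (t 0 = 3 * π / 10 ∧ t 1 = π / 10)) : False := by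
  have a0 : th 0 = t 0 := by rw [F.ang 0, h0.1, h0.2, hM 0]; simp
  have a1 : th 1 = t 1 := by rw [F.ang 1, h1.1, h1.2, hM 1]; simp
  have a2' : th 2 = 2 * t 0 := by rw [F.ang 2, h2.1, h2.2, hM 2]; simp
  have ht2 : t 2 = 2 * t 0 := by
    have := F.t_sum
    rcases ht with ⟨h, h'⟩ | ⟨h, h'⟩ <;> rw [h, h'] at this <;> rw [h] <;> linarith
  have hth : ∀ k, th k = t k := by
    intro k; fin_cases k
    · exact a0
    · exact a1
    · show th 2 = t 2
      rw [a2', ht2]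
  have hD := simil F hn hth 2 (by
    intro k hk j
    fin_cases k
    · fin_cases j
      · simpa using h0.1
      · simpa using h0.2
      · simpa using hM 0
    · fin_cases j
      · simpa using h1.1
      · simpa using h1.2
      · simpa using hM 1
    · exact absurd rfl hk)
  have hR := ratio F hth
  have x0 := F.sid 0
  rw [hD 0 (by decide) 0 (by decide), hD 0 (by decide) 1 (by decide)] at x0
  simp only [Nat.cast_zero, zero_mul, zero_add] at x0
  have hp : (0:ℝ) < D 0 2 := by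
    rcases Nat.eq_zero_or_pos (D 0 2) with h | h
    · have := F.X_pos 0
      rw [x0, h] at this
      simp at this
    · exact_mod_cast h
  obtain ⟨κ, hκ, hs⟩ := F.sin_t
  have ha0 := F.a_pos 0
  have e2 : a 2 = 2 * Real.cos (t 0) * a 0 := by
    have s0 := hs 0
    have s2 := hs 2
    rw [ht2, Real.sin_two_mul, s0] at s2
    have : κ * a 2 = κ * (2 * Real.cos (t 0) * a 0) := by linarith
    exact mul_left_cancel₀ hκ.ne' this
  have e3 : √(n : ℝ) = 2 * D 0 2 * Real.cos (t 0) := by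
    have h3 := hR 0
    rw [x0, e2] at h3
    have : √(n : ℝ) * a 0 = (2 * D 0 2 * Real.cos (t 0)) * a 0 := by linarith
    exact mul_right_cancel₀ ha0.ne' this
  have e4 : (n : ℝ) = 2 * (D 0 2 : ℝ) ^ 2 * (1 + Real.cos (2 * t 0)) := by
    rw [← Real.sq_sqrt (Nat.cast_nonneg n : (0:ℝ) ≤ n), e3, Real.cos_two_mul]; ring
  have hcos : Real.cos (2 * t 0) = (1 + √5) / 4 ∨ Real.cos (2 * t 0) = (1 - √5) / 4 := by
    rcases ht with ⟨h, -⟩ | ⟨h, -⟩
    · left
      rw [h, show 2 * (π / 10) = π / 5 by ring, Real.cos_pi_div_five]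
    · right
      rw [h, show 2 * (3 * π / 10) = 3 * π / 5 by ring, cos_three_pi_div_five]
  have hp2 : ((D 0 2 : ℝ)) ^ 2 ≠ 0 := by positivity
  rcases hcos with h | h
  · apply irr5
    rw [h] at e4
    refine ⟨(2 * n / (D 0 2 : ℚ) ^ 2) - 5, ?_⟩
    push_cast
    rw [e4]
    field_simp
    ring
  · apply irr5
    rw [h] at e4
    refine ⟨5 - (2 * n / (D 0 2 : ℚ) ^ 2), ?_⟩
    push_cast
    rw [e4]
    field_simp
    ring

/-- relabel the rows -/
theorem fullA (h : FactsAll n a t X th M D) (hn : ¬ IsSquare n) (hX : Function.Injective X)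
    (hM : ∀ k, M k 2 = 0) (hP : M 0 0 + M 1 0 + M 2 0 ≤ 2) (hQ : M 0 1 + M 1 1 + M 2 1 ≤ 2) :
    ExcX X := by
  have F := facts h
  obtain ⟨⟨i, i1, i2⟩, ⟨j, j1, j2⟩, ⟨k, k1, k2⟩⟩ := enumA (fun k => M k 0) (fun k => M k 1) hP hQ
    (fun k => by have := row_nz F k; rw [hM k] at this; exact this)
    (fun k l hkl hh => row_ne F hX hkl ⟨hh.1, hh.2, by rw [hM k, hM l]⟩)
  have hij : i ≠ j := by rintro rfl; omega
  have hik : i ≠ k := by rintro rfl; omega
  have hjk : j ≠ k := by rintro rfl; omega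
  obtain ⟨σ, s0, s1, s2⟩ := exists_perm3 i j k hij hik hjk
  apply excX_perm σ
  have F' := h σ 1
  refine caseA F' hn ?_ ?_ ?_ ?_
  · simp only [Equiv.Perm.coe_one, id_eq, s0]; exact ⟨i1, i2⟩
  · simp only [Equiv.Perm.coe_one, id_eq, s1]; exact ⟨j1, j2⟩
  · simp only [Equiv.Perm.coe_one, id_eq, s2]; exact ⟨k1, k2⟩
  · intro l; simp only [Equiv.Perm.coe_one, id_eq]; exact hM _

theorem fullE (h : FactsAll n a t X th M D) (hn : ¬ IsSquare n) (hX : Function.Injective X)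
    (hM : ∀ k, M k 2 = 0) (hP : M 0 0 + M 1 0 + M 2 0 ≤ 3) (hQ : M 0 1 + M 1 1 + M 2 1 ≤ 1)
    (ht : (t 0 = π / 10 ∧ t 1 = 7 * π / 10) ∨ (t 0 = 3 * π / 10 ∧ t 1 = π / 10)) : False := by
  have F := facts h
  obtain ⟨⟨i, i1, i2⟩, ⟨j, j1, j2⟩, ⟨k, k1, k2⟩⟩ := enumE (fun k => M k 0) (fun k => M k 1) hP hQ
    (fun k => by have := row_nz F k; rw [hM k] at this; exact this)
    (fun k l hkl hh => row_ne F hX hkl ⟨hh.1, hh.2, by rw [hM k, hM l]⟩)
  have hij : i ≠ j := by rintro rfl; omega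
  have hik : i ≠ k := by rintro rfl; omega
  have hjk : j ≠ k := by rintro rfl; omega
  obtain ⟨σ, s0, s1, s2⟩ := exists_perm3 i j k hij hik hjk
  have F' := h σ 1
  refine caseE F' hn ?_ ?_ ?_ ?_ ht
  · simp only [Equiv.Perm.coe_one, id_eq, s0]; exact ⟨i1, i2⟩
  · simp only [Equiv.Perm.coe_one, id_eq, s1]; exact ⟨j1, j2⟩
  · simp only [Equiv.Perm.coe_one, id_eq, s2]; exact ⟨k1, k2⟩
  · intro l; simp only [Equiv.Perm.coe_one, id_eq]; exact hM _

/-- the normalised rational case -/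
theorem main (h : FactsAll n a t X th M D) (hn : ¬ IsSquare n) (hX : Function.Injective X)
    (d : ℕ) (hd : 0 < d) (ht : ∀ j, ∃ k : ℤ, t j * d = k * π) (hc : Conj t M d)
    (hM : ∀ k, M k 2 = 0) : ExcX X := by
  have F := facts h
  have hpi := Real.pi_pos
  have hd' : (0:ℝ) < d := by exact_mod_cast hd
  choose m hm using ht
  have htx : ∀ j, t j = ((m j / d : ℚ) : ℝ) * π := by
    intro j
    push_cast
    have := hm j
    field_simp
    linarith
  set x0 : ℚ := m 0 / d with hx0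
  set x1 : ℚ := m 1 / d with hx1
  have t0 := htx 0
  have t1 := htx 1
  rw [← hx0] at t0
  rw [← hx1] at t1
  have t2 : t 2 = ((1 - x0 - x1 : ℚ) : ℝ) * π := by
    have := F.t_sum
    rw [t0, t1] at this
    push_cast
    linarith
  have pos : ∀ (q : ℚ), 0 < (q : ℝ) * π → 0 < q := by
    intro q hq
    have : (0:ℝ) < q := by
      by_contra hcon
      push Not at hcon
      have := mul_nonpos_of_nonpos_of_nonneg hcon hpi.le
      linarith
    exact_mod_cast this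
  have p0 : 0 < x0 := pos _ (by rw [← t0]; exact F.t_pos 0)
  have p1 : 0 < x1 := pos _ (by rw [← t1]; exact F.t_pos 1)
  have p2 : 0 < 1 - x0 - x1 := pos _ (by rw [← t2]; exact F.t_pos 2)
  have hcol := colsum F
  rw [hM 0, hM 1, hM 2, t0, t1] at hcol
  have hPQ : ((M 0 0 + M 1 0 + M 2 0 : ℕ) : ℚ) * x0 + ((M 0 1 + M 1 1 + M 2 1 : ℕ) : ℚ) * x1 = 1 := by
    have h1 : (((((M 0 0 + M 1 0 + M 2 0 : ℕ) : ℚ) * x0 + ((M 0 1 + M 1 1 + M 2 1 : ℕ) : ℚ) * x1 : ℚ) : ℝ)) * π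
        = ((1 : ℚ) : ℝ) * π := by
      push_cast
      push_cast at hcol
      linarith
    exact_mod_cast mul_right_cancel₀ hpi.ne' h1
  have hxd0 : x0 * d = m 0 := by
    rw [hx0]
    have : (d : ℚ) ≠ 0 := by exact_mod_cast hd.ne'
    field_simp
  have hxd1 : x1 * d = m 1 := by
    rw [hx1]
    have : (d : ℚ) ≠ 0 := by exact_mod_cast hd.ne'
    field_simp
  have key := Pool.Agent.Helper95.SqG.specG (M 0 0 + M 1 0 + M 2 0) (M 0 1 + M 1 1 + M 2 1) x0 x1
    p0 p1 (by linarith) hPQ d hd ⟨m 0, hxd0⟩ ⟨m 1, hxd1⟩ (by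
      intro c hcc
      obtain ⟨e, k, he, h1, h2, h3⟩ := hc c hcc
      rw [t0, t1, t2] at h2
      rw [hM 0, hM 1, hM 2, t0, t1] at h3
      have g0 := h1 0
      have g1 := h1 1
      have g2 := h1 2
      rw [t0] at g0
      rw [t1] at g1
      rw [t2] at g2
      refine ⟨e, k 0, k 1, k 2, he, ?_, ?_, ?_, ?_, ?_⟩
      · apply pos
        push_cast
        linarith
      · apply pos
        push_cast
        linarith
      · apply pos
        push_cast at g2 ⊢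
        linarith
      · have : (((e * c * x0 - k 0 + (e * c * x1 - k 1) + (e * c * (1 - x0 - x1) - k 2) : ℚ)) : ℝ) * π
            = ((1 : ℚ) : ℝ) * π := by
          push_cast at h2 ⊢
          linarith
        exact_mod_cast mul_right_cancel₀ hpi.ne' this
      · have : (((((M 0 0 + M 1 0 + M 2 0 : ℕ) : ℚ) * (e * c * x0 - k 0)
            + ((M 0 1 + M 1 1 + M 2 1 : ℕ) : ℚ) * (e * c * x1 - k 1)) : ℚ) : ℝ) * π
            ≤ ((1 : ℚ) : ℝ) * π := by
          push_cast at h3 ⊢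
          linarith
        exact_mod_cast le_of_mul_le_mul_right this hpi)
  have hthx : ∀ k, th k = ((M k 0 * x0 + M k 1 * x1 : ℚ) : ℝ) * π := by
    intro k
    rw [F.ang k, hM k, t0, t1]
    push_cast
    ring
  rcases key with ⟨hP, hQ⟩ | ⟨hQ, hP⟩ | ⟨hP, hQ⟩ | ⟨⟨k0, h0⟩, ⟨k1, h1⟩⟩ | ⟨⟨k0, h0⟩, ⟨k1, h1⟩⟩ |
    ⟨hP, hQ, hx⟩ | ⟨hP, hQ, hx⟩
  · exact fullA h hn hX hM hP hQ
  · -- `Q = 0`
    have hz : ∀ k, M k 1 = 0 := by
      intro k; fin_cases k <;> simp <;> omega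
    have hang : ∀ k, ∃ l : ℤ, th k * ((M 0 0 + M 1 0 + M 2 0 : ℕ) : ℝ) = l * π := by
      intro k
      refine ⟨M k 0, ?_⟩
      rw [hQ] at hPQ
      have h5 : ((M 0 0 + M 1 0 + M 2 0 : ℕ) : ℝ) * (x0 : ℝ) = 1 := by
        have : ((M 0 0 + M 1 0 + M 2 0 : ℕ) : ℚ) * x0 = 1 := by
          rw [← hPQ]; push_cast; ring
        exact_mod_cast this
      rw [hthx k, hz k]
      push_cast at h5 ⊢
      linear_combination (M k 0 : ℝ) * π * h5
    have := angq F hX (M 0 0 + M 1 0 + M 2 0) (by omega) hang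
    rcases hP with hP | hP | hP
    · omega
    · omega
    · exact this.2 hP
  · have hz : ∀ k, M k 0 = 0 := by
      intro k; fin_cases k <;> simp <;> omega
    have hang : ∀ k, ∃ l : ℤ, th k * ((M 0 1 + M 1 1 + M 2 1 : ℕ) : ℝ) = l * π := by
      intro k
      refine ⟨M k 1, ?_⟩
      rw [hP] at hPQ
      have h5 : ((M 0 1 + M 1 1 + M 2 1 : ℕ) : ℝ) * (x1 : ℝ) = 1 := by
        have : ((M 0 1 + M 1 1 + M 2 1 : ℕ) : ℚ) * x1 = 1 := by
          rw [← hPQ]; push_cast; ring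
        exact_mod_cast this
      rw [hthx k, hz k]
      push_cast at h5 ⊢
      linear_combination (M k 1 : ℝ) * π * h5
    have := angq F hX (M 0 1 + M 1 1 + M 2 1) (by omega) hang
    rcases hQ with hQ | hQ | hQ
    · omega
    · omega
    · exact this.2 hQ
  · have := angq F hX 6 (by norm_num) (by
      intro k
      refine ⟨M k 0 * k0 + M k 1 * k1, ?_⟩
      rw [hthx k]
      have h0' : (x0 : ℝ) * 6 = k0 := by exact_mod_cast h0
      have h1' : (x1 : ℝ) * 6 = k1 := by exact_mod_cast h1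
      push_cast
      linear_combination (M k 0 : ℝ) * π * h0' + (M k 1 : ℝ) * π * h1')
    exact this.2 rfl
  · have := angq F hX 4 (by norm_num) (by
      intro k
      refine ⟨M k 0 * k0 + M k 1 * k1, ?_⟩
      rw [hthx k]
      have h0' : (x0 : ℝ) * 4 = k0 := by exact_mod_cast h0
      have h1' : (x1 : ℝ) * 4 = k1 := by exact_mod_cast h1
      push_cast
      linear_combination (M k 0 : ℝ) * π * h0' + (M k 1 : ℝ) * π * h1')
    omega
  · exfalso
    refine fullE h hn hX hM hP.le hQ.le ?_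
    rcases hx with ⟨a0, a1⟩ | ⟨a0, a1⟩
    · left
      rw [t0, t1, a0, a1]
      push_cast
      constructor <;> ring
    · right
      rw [t0, t1, a0, a1]
      push_cast
      constructor <;> ring
  · exfalso
    have h' := perm h 1 (Equiv.swap 0 1)
    have e0 : (Equiv.swap (0 : Fin 3) 1) 0 = 1 := by decide
    have e1 : (Equiv.swap (0 : Fin 3) 1) 1 = 0 := by decide
    have e2 : (Equiv.swap (0 : Fin 3) 1) 2 = 2 := by decide
    refine fullE h' hn hX ?_ ?_ ?_ ?_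
    · intro k
      simp only [Equiv.Perm.coe_one, id_eq, e2]
      exact hM k
    · simp only [Equiv.Perm.coe_one, id_eq, e0]
      exact hQ.le
    · simp only [Equiv.Perm.coe_one, id_eq, e1]
      exact hP.le
    · simp only [Function.comp, e0, e1]
      rcases hx with ⟨a0, a1⟩ | ⟨a0, a1⟩
      · left
        rw [t0, t1, a0, a1]
        push_cast
        constructor <;> ring
      · right
        rw [t0, t1, a0, a1]
        push_cast
        constructor <;> ring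

/-- **Module R.** -/
theorem specR : SpecR := by
  intro n a t X th M D h hn hX d hd ht hc
  obtain ⟨j, hj⟩ := exists_zero_col h hn
  have h' := perm h 1 (Equiv.swap j 2)
  refine main (X := X) h' hn hX d hd (fun k => ht _) (conj_perm hc _) ?_
  intro k
  simp only [Equiv.Perm.coe_one, id_eq, Equiv.swap_apply_right]
  exact hj k

end Pool.Agent.Helper95.SqR
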