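import Pool.Agent.Helper55.PN_WTS
import Pool.Agent.Helper59.PN_CNT

/-!
Row EXTR of the project PN (MP_08bd45_co): extraction of a sparse linear hypergraph.
-/

namespace Pool.Agent.Helper34.PN

open Finset

noncomputable def kap (m : ℕ) : ℝ :=
  1 / (4 * 16 ^ (2 * m - 1) * ((2 * m - 1).factorial : ℝ))

/-- the `r`-subsets of `p.2` that meet every other `p'.2` in at most one point -/
def cln {α : Type} [DecidableEq α] (P : Finset (Finset α × Finset α)) (r : ℕ)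
    (p : Finset α × Finset α) : Finset (Finset α) :=
  (p.2.powersetCard r).filter (fun e => ∀ p' ∈ P.erase p, (e ∩ p'.2).card ≤ 1)

theorem choose_low (m s n : ℕ) (hm : 2 ≤ m) (hs : 8 * m ≤ s) (hn : s ≤ 2 * n) :
    ((s : ℝ) / 4) ^ (2 * m - 1)
      ≤ ((2 * m - 1).factorial : ℝ) * (n.choose (2 * m - 1) : ℝ) := by
  have h1 : (n + 1 - (2 * m - 1)) ^ (2 * m - 1) ≤ n.descFactorial (2 * m - 1) :=
    Nat.pow_sub_le_descFactorial n (2 * m - 1)
  rw [Nat.descFactorial_eq_factorial_mul_choose] at h1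
  have h2 : ((n + 1 - (2 * m - 1) : ℕ) : ℝ) ^ (2 * m - 1)
      ≤ ((2 * m - 1).factorial : ℝ) * (n.choose (2 * m - 1) : ℝ) := by exact_mod_cast h1
  refine le_trans (pow_le_pow_left₀ (by positivity) ?_ _) h2
  have h3 : s ≤ 4 * (n + 1 - (2 * m - 1)) := by omega
  have h4 : (s : ℝ) ≤ 4 * ((n + 1 - (2 * m - 1) : ℕ) : ℝ) := by exact_mod_cast h3
  linarith

theorem cln_card (m K s : ℕ) (hm : 2 ≤ m) (hs : 8 * m ≤ s) {α : Type} [DecidableEq α]
    (P : Finset (Finset α × Finset α)) (hP : ∀ p ∈ P, s ≤ 2 * p.2.card)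
    (hsep : ∀ p ∈ P, ∀ p' ∈ P, p ≠ p' →
      4 * K * (2 * m - 1) ^ 2 * (p.2 ∩ p'.2).card ≤ s)
    (hdeg : ∀ x, (P.filter (fun p => x ∈ p.2)).card ≤ K)
    (p : Finset α × Finset α) (hp : p ∈ P) :
    p.2.card.choose (2 * m - 1) ≤ 2 * (cln P (2 * m - 1) p).card := by
  have hK : 1 ≤ K := by
    have hne : p.2.Nonempty := by
      rw [← Finset.card_pos]
      have := hP p hp
      omega
    obtain ⟨x, hx⟩ := hne
    have h := hdeg x
    have h' : 0 < (P.filter (fun p => x ∈ p.2)).card :=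
      Finset.card_pos.2 ⟨p, Finset.mem_filter.2 ⟨hp, hx⟩⟩
    omega
  have hr1 : 0 < 2 * m - 1 := by omega
  have hpos : 0 < 4 * K * (2 * m - 1) ^ 2 := by positivity
  have h := many_clean p.2 (P.erase p) (fun p' => p'.2) K (2 * m - 1)
    (s / (4 * K * (2 * m - 1) ^ 2)) (by omega) ?_ ?_ ?_
  · exact h
  · intro p' hp'
    have hne := Finset.ne_of_mem_erase hp'
    have hmem := Finset.mem_of_mem_erase hp'
    rw [Nat.le_div_iff_mul_le hpos]
    have h1 := hsep p hp p' hmem hne.symm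
    calc (p.2 ∩ p'.2).card * (4 * K * (2 * m - 1) ^ 2)
        = 4 * K * (2 * m - 1) ^ 2 * (p.2 ∩ p'.2).card := by ring
      _ ≤ s := h1
  · calc ∑ j ∈ P.erase p, (p.2 ∩ j.2).card
        ≤ ∑ j ∈ P, (p.2 ∩ j.2).card :=
          Finset.sum_le_sum_of_subset (Finset.erase_subset _ _)
      _ = ∑ j ∈ P, ∑ x ∈ p.2, (if x ∈ j.2 then 1 else 0) := by
          refine Finset.sum_congr rfl fun j _ => ?_
          rw [← Finset.card_filter, ← Finset.filter_mem_eq_inter]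
      _ = ∑ x ∈ p.2, (P.filter (fun q => x ∈ q.2)).card := by
          rw [Finset.sum_comm]
          refine Finset.sum_congr rfl fun x _ => ?_
          rw [← Finset.card_filter]
      _ ≤ ∑ x ∈ p.2, K := Finset.sum_le_sum fun x _ => hdeg x
      _ = K * p.2.card := by simp [mul_comm]
  · have h1 : s / (4 * K * (2 * m - 1) ^ 2) * (4 * K * (2 * m - 1) ^ 2) ≤ s :=
      Nat.div_mul_le_self _ _
    have h2 := hP p hp
    have h3 : 4 * (s / (4 * K * (2 * m - 1) ^ 2) * K * (2 * m - 1) ^ 2) ≤ s := by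
      calc 4 * (s / (4 * K * (2 * m - 1) ^ 2) * K * (2 * m - 1) ^ 2)
          = s / (4 * K * (2 * m - 1) ^ 2) * (4 * K * (2 * m - 1) ^ 2) := by ring
        _ ≤ s := h1
    omega

theorem mean_trace {α : Type} [DecidableEq α] (X : Finset α) (p : Finset α × Finset α)
    (hp : p.1 ⊆ X) (hp2 : p.2 ⊆ p.1) (G : Finset (Finset α)) (r : ℕ)
    (hG : ∀ e ∈ G, e ⊆ p.2 ∧ e.card = r) (η : ℝ) :
    ∑ Z ∈ X.powerset.filter (fun Z => p.1 ∩ Z ∈ G), wt X η Z
      = (G.card : ℝ) * (η ^ r * (1 - η) ^ (p.1.card - r)) := by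
  rw [← Finset.sum_fiberwise_of_maps_to (g := fun Z => p.1 ∩ Z) (t := G)
    (fun Z hZ => (Finset.mem_filter.1 hZ).2)]
  have h : ∀ e ∈ G, ∑ Z ∈ (X.powerset.filter (fun Z => p.1 ∩ Z ∈ G)).filter
      (fun Z => p.1 ∩ Z = e), wt X η Z = η ^ r * (1 - η) ^ (p.1.card - r) := by
    intro e he
    obtain ⟨h1, h2⟩ := hG e he
    have h3 := wt_sum_trace X p.1 e hp (h1.trans hp2) η
    rw [h2] at h3
    rw [← h3]
    refine Finset.sum_congr ?_ fun _ _ => rfl
    ext Z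
    simp only [Finset.mem_filter]
    constructor
    · rintro ⟨⟨h4, _⟩, h5⟩
      exact ⟨h4, by rw [Finset.inter_comm]; exact h5⟩
    · rintro ⟨h4, h5⟩
      rw [Finset.inter_comm] at h5
      exact ⟨⟨h4, by rw [h5]; exact he⟩, h5⟩
  rw [Finset.sum_congr rfl h, Finset.sum_const, nsmul_eq_mul]

theorem extract (m K s : ℕ) (hm : 2 ≤ m) (hs : 8 * m ≤ s) {α : Type} [DecidableEq α]
    (X : Finset α) (P : Finset (Finset α × Finset α))
    (hP : ∀ p ∈ P, p.1 ⊆ X ∧ p.2 ⊆ p.1 ∧ p.1.card ≤ 2 * s ∧ s ≤ 2 * p.2.card)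
    (hsep : ∀ p ∈ P, ∀ p' ∈ P, p ≠ p' →
      4 * K * (2 * m - 1) ^ 2 * (p.2 ∩ p'.2).card ≤ s)
    (hdeg : ∀ x, (P.filter (fun p => x ∈ p.2)).card ≤ K) (t : ℝ) :
    ∃ Z : Finset α, Z ⊆ X ∧ ∃ L : Finset (Finset α),
      (∀ e ∈ L, ∃ p ∈ P, e = p.1 ∩ Z) ∧ (∀ e ∈ L, e.card = 2 * m - 1) ∧
      (∀ e ∈ L, ∀ e' ∈ L, e ≠ e' → (e ∩ e').card ≤ 1) ∧
      (∀ x, (L.filter (fun e => x ∈ e)).card ≤ K) ∧
      kap m * (P.card : ℝ) - t * (X.card : ℝ) / (4 * s) ≤ (L.card : ℝ) - t * (Z.card : ℝ) := by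
  have hs0 : (0 : ℝ) < s := by exact_mod_cast (by omega : 0 < s)
  obtain ⟨η, hη⟩ : ∃ η : ℝ, η = 1 / (4 * (s : ℝ)) := ⟨_, rfl⟩
  have hη0 : 0 < η := by rw [hη]; positivity
  have hη1 : η < 1 := by
    rw [hη, div_lt_one (by positivity)]
    have h16 : (16 : ℝ) ≤ s := by exact_mod_cast (by omega : 16 ≤ s)
    linarith
  have hcm : ∀ p e, e ∈ cln P (2 * m - 1) p → e ⊆ p.2 ∧ e.card = 2 * m - 1 ∧
      ∀ p' ∈ P.erase p, (e ∩ p'.2).card ≤ 1 := by
    intro p e he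
    have h1 := Finset.mem_filter.1 he
    have h2 := Finset.mem_powersetCard.1 h1.1
    exact ⟨h2.1, h2.2, h1.2⟩
  -- two members with the same trace coincide
  have hpair : ∀ Z, ∀ p ∈ P, ∀ p' ∈ P, p ≠ p' → p.1 ∩ Z ∈ cln P (2 * m - 1) p →
      p'.1 ∩ Z ∈ cln P (2 * m - 1) p' → ((p.1 ∩ Z) ∩ (p'.1 ∩ Z)).card ≤ 1 := by
    intro Z p _ p' hp' hne h1 h2
    have h3 := (hcm _ _ h1).2.2 p' (Finset.mem_erase.2 ⟨hne.symm, hp'⟩)
    refine le_trans (Finset.card_le_card ?_) h3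
    exact Finset.inter_subset_inter_left (hcm _ _ h2).1
  obtain ⟨PP, hPP⟩ : ∃ PP : Finset α → Finset (Finset α × Finset α),
      ∀ Z, PP Z = P.filter (fun p => p.1 ∩ Z ∈ cln P (2 * m - 1) p) := ⟨_, fun _ => rfl⟩
  have hmemP : ∀ Z p, p ∈ PP Z ↔ p ∈ P ∧ p.1 ∩ Z ∈ cln P (2 * m - 1) p := by
    intro Z p
    rw [hPP, Finset.mem_filter]
  have hinj : ∀ Z, ((PP Z).image (fun p => p.1 ∩ Z)).card = (PP Z).card := by
    intro Z
    refine Finset.card_image_of_injOn ?_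
    intro p hp p' hp' hpp
    by_contra hne
    have h1 := (hmemP Z p).1 (Finset.mem_coe.1 hp)
    have h2 := (hmemP Z p').1 (Finset.mem_coe.1 hp')
    have h3 := hpair Z p h1.1 p' h2.1 hne h1.2 h2.2
    have h4 : p.1 ∩ Z = p'.1 ∩ Z := hpp
    rw [h4, Finset.inter_self, (hcm _ _ h2.2).2.1] at h3
    omega
  -- the mean number of good members
  have hmean : kap m * (P.card : ℝ)
      ≤ ∑ Z ∈ X.powerset, wt X η Z * ((PP Z).card : ℝ) := by
    have h1 : ∑ Z ∈ X.powerset, wt X η Z * ((PP Z).card : ℝ)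
        = ∑ p ∈ P, ∑ Z ∈ X.powerset.filter
            (fun Z => p.1 ∩ Z ∈ cln P (2 * m - 1) p), wt X η Z := by
      calc ∑ Z ∈ X.powerset, wt X η Z * ((PP Z).card : ℝ)
          = ∑ Z ∈ X.powerset, ∑ p ∈ P,
              (if p.1 ∩ Z ∈ cln P (2 * m - 1) p then wt X η Z else 0) := by
            refine Finset.sum_congr rfl fun Z _ => ?_
            rw [hPP, ← Finset.sum_filter, Finset.sum_const, nsmul_eq_mul, mul_comm]
        _ = ∑ p ∈ P, ∑ Z ∈ X.powerset,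
              (if p.1 ∩ Z ∈ cln P (2 * m - 1) p then wt X η Z else 0) := Finset.sum_comm
        _ = _ := by
            refine Finset.sum_congr rfl fun p _ => ?_
            rw [Finset.sum_filter]
    rw [h1, mul_comm, ← nsmul_eq_mul]
    refine Finset.card_nsmul_le_sum _ _ _ fun p hp => ?_
    obtain ⟨hp1, hp2, hp3, hp4⟩ := hP p hp
    rw [mean_trace X p hp1 hp2 (cln P (2 * m - 1) p) (2 * m - 1)
      (fun e he => ⟨(hcm p e he).1, (hcm p e he).2.1⟩) η]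
    have hc := cln_card m K s hm hs P (fun p hp => (hP p hp).2.2.2) hsep hdeg p hp
    have hc' : (p.2.card.choose (2 * m - 1) : ℝ) ≤ 2 * ((cln P (2 * m - 1) p).card : ℝ) := by
      exact_mod_cast hc
    have hl := choose_low m s p.2.card hm hs hp4
    have hf : (0 : ℝ) < ((2 * m - 1).factorial : ℝ) := by exact_mod_cast Nat.factorial_pos _
    have hb : (1 : ℝ) / 2 ≤ (1 - η) ^ (p.1.card - (2 * m - 1)) := by
      have h2 : (1 - η) ^ (2 * s) ≤ (1 - η) ^ (p.1.card - (2 * m - 1)) :=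
        pow_le_pow_of_le_one (by linarith) (by linarith) (by omega)
      have h3 : 1 + ((2 * s : ℕ) : ℝ) * (-η) ≤ (1 + (-η)) ^ (2 * s) :=
        one_add_mul_le_pow (by linarith) _
      have h4 : 1 + ((2 * s : ℕ) : ℝ) * (-η) = 1 / 2 := by
        rw [hη]
        push_cast
        field_simp
        ring
      have h5 : (1 + (-η)) = 1 - η := by ring
      rw [h4, h5] at h3
      exact h3.trans h2
    have hη4 : (s : ℝ) / 4 * η = 1 / 16 := by
      rw [hη]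
      field_simp
      ring
    -- kap m = (1/4) (1/16)^r / r!
    have hk : kap m = (1 / 4) * ((s : ℝ) / 4 * η) ^ (2 * m - 1)
        / ((2 * m - 1).factorial : ℝ) := by
      rw [hη4, kap, one_div_pow]
      field_simp
    have hηr : 0 < η ^ (2 * m - 1) := pow_pos hη0 _
    have hG2 : ((s : ℝ) / 4) ^ (2 * m - 1) / (2 * ((2 * m - 1).factorial : ℝ))
        ≤ ((cln P (2 * m - 1) p).card : ℝ) := by
      rw [div_le_iff₀ (by positivity)]
      calc ((s : ℝ) / 4) ^ (2 * m - 1)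
          ≤ ((2 * m - 1).factorial : ℝ) * (p.2.card.choose (2 * m - 1) : ℝ) := hl
        _ ≤ ((2 * m - 1).factorial : ℝ) * (2 * ((cln P (2 * m - 1) p).card : ℝ)) :=
            mul_le_mul_of_nonneg_left hc' hf.le
        _ = ((cln P (2 * m - 1) p).card : ℝ) * (2 * ((2 * m - 1).factorial : ℝ)) := by ring
    calc kap m = ((s : ℝ) / 4) ^ (2 * m - 1) / (2 * ((2 * m - 1).factorial : ℝ))
          * (η ^ (2 * m - 1) * (1 / 2)) := by
            rw [hk, mul_pow]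
            field_simp
            ring
      _ ≤ ((cln P (2 * m - 1) p).card : ℝ) * (η ^ (2 * m - 1)
            * (1 - η) ^ (p.1.card - (2 * m - 1))) := by
            refine mul_le_mul hG2 ?_ (by positivity) (by positivity)
            exact mul_le_mul_of_nonneg_left hb hηr.le
  -- choose Z
  obtain ⟨c, hc⟩ : ∃ c : ℝ, c = kap m * (P.card : ℝ) - t * (X.card : ℝ) / (4 * s) :=
    ⟨_, rfl⟩
  have hsum : ∑ Z ∈ X.powerset, wt X η Z * c
      ≤ ∑ Z ∈ X.powerset, wt X η Z * (((PP Z).card : ℝ) - t * (Z.card : ℝ)) := by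
    have h1 : ∑ Z ∈ X.powerset, wt X η Z * (((PP Z).card : ℝ) - t * (Z.card : ℝ))
        = ∑ Z ∈ X.powerset, wt X η Z * ((PP Z).card : ℝ)
          - t * ∑ Z ∈ X.powerset, wt X η Z * (Z.card : ℝ) := by
      rw [Finset.mul_sum, ← Finset.sum_sub_distrib]
      refine Finset.sum_congr rfl fun Z _ => ?_
      ring
    rw [h1, wt_sum_card, ← Finset.sum_mul, wt_sum, one_mul, hc]
    have h2 : t * (η * (X.card : ℝ)) = t * (X.card : ℝ) / (4 * s) := by
      rw [hη]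
      field_simp
    rw [h2]
    linarith
  obtain ⟨Z, hZ, hle⟩ := Finset.exists_le_of_sum_le ⟨∅, Finset.empty_mem_powerset X⟩ hsum
  have hw : 0 < wt X η Z := by
    rw [wt]
    exact mul_pos (pow_pos hη0 _) (pow_pos (by linarith) _)
  have hle' : c ≤ ((PP Z).card : ℝ) - t * (Z.card : ℝ) := le_of_mul_le_mul_left hle hw
  refine ⟨Z, Finset.mem_powerset.1 hZ, (PP Z).image (fun p => p.1 ∩ Z), ?_, ?_, ?_, ?_, ?_⟩
  · intro e he
    obtain ⟨p, hp, rfl⟩ := Finset.mem_image.1 he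
    exact ⟨p, ((hmemP Z p).1 hp).1, rfl⟩
  · intro e he
    obtain ⟨p, hp, rfl⟩ := Finset.mem_image.1 he
    exact (hcm _ _ ((hmemP Z p).1 hp).2).2.1
  · intro e he e' he' hne
    obtain ⟨p, hp, rfl⟩ := Finset.mem_image.1 he
    obtain ⟨p', hp', rfl⟩ := Finset.mem_image.1 he'
    have h1 := (hmemP Z p).1 hp
    have h2 := (hmemP Z p').1 hp'
    refine hpair Z p h1.1 p' h2.1 ?_ h1.2 h2.2
    rintro rfl
    exact hne rfl
  · intro x
    refine le_trans (Finset.card_le_card (t := (P.filter (fun p => x ∈ p.2)).image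
      (fun p => p.1 ∩ Z)) ?_) (Finset.card_image_le.trans (hdeg x))
    intro e he
    obtain ⟨he1, hx⟩ := Finset.mem_filter.1 he
    obtain ⟨p, hp, rfl⟩ := Finset.mem_image.1 he1
    have h1 := (hmemP Z p).1 hp
    exact Finset.mem_image.2 ⟨p, Finset.mem_filter.2 ⟨h1.1, (hcm _ _ h1.2).1 hx⟩, rfl⟩
  · rw [hinj, ← hc]
    exact hle'

end Pool.Agent.Helper34.PN
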