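import Mathlib

/-!
# The Euler characteristic of a topological space

`singularComplex X` is the singular chain complex of `X` with rational coefficients and
`eulerChar X` is the alternating sum of the dimensions of its homology.
-/

namespace Pool.Agent.Helper95

/-- The singular chain complex of the space `X` with rational coefficients. -/
noncomputable def singularComplex (X : Type) [TopologicalSpace X] :
    ChainComplex (ModuleCat.{0} ℚ) ℕ :=
  ((AlgebraicTopology.singularChainComplexFunctor (ModuleCat.{0} ℚ)).obj
    (ModuleCat.of ℚ ℚ)).obj (TopCat.of X)

/-- The Euler characteristic of `X`: the alternating sum of its rational Betti numbers. -/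
noncomputable def eulerChar (X : Type) [TopologicalSpace X] : ℤ :=
  (singularComplex X).homologyEulerChar

/-- `X` has finite homological type: all homology groups are finite dimensional, and they
vanish in large degree. -/
def FiniteHomology (X : Type) [TopologicalSpace X] : Prop :=
  (∀ n : ℕ, Module.Finite ℚ ((singularComplex X).homology n)) ∧
    ∃ N : ℕ, ∀ n : ℕ, N ≤ n → Subsingleton ((singularComplex X).homology n)

end Pool.Agent.Helper95
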