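import Pool.Agent.Helper95.Metric3
import Pool.Agent.Helper95.EulerDefs

open Set Filter
open scoped Topology Pointwise

namespace Pool.Agent.Helper95

/-- Statement of the theorem computing Euler characteristics from good covers. -/
def GoodCoverStatement : Prop :=
  ∀ (X : Type) (_ : TopologicalSpace X) (ι : Type) (_ : Fintype ι) (U : ι → Set X),
    (∀ i, IsOpen (U i)) → (⋃ i, U i) = Set.univ →
    (∀ s : Finset ι, s.Nonempty → (⋂ i ∈ s, U i).Nonempty →
      ContractibleSpace ↥(⋂ i ∈ s, U i)) →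
    FiniteHomology X ∧ ∀ N : Finset (Finset ι),
      (∀ s, s ∈ N ↔ s.Nonempty ∧ (⋂ i ∈ s, U i).Nonempty) →
      eulerChar X = ∑ s ∈ N, (-1 : ℤ) ^ (s.card - 1)

lemma even_sum_sub_card {α : Type*} (N : Finset α) (k : α → ℕ) :
    Even (∑ s ∈ N, (-1 : ℤ) ^ (k s) - N.card) := by
  classical
  induction N using Finset.induction_on with
  | empty => simp
  | insert a N ha ih =>
    rw [Finset.sum_insert ha, Finset.card_insert_of_notMem ha]
    have h1 : Even ((-1 : ℤ) ^ (k a) - 1) := by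
      rcases neg_one_pow_eq_or ℤ (k a) with h | h <;> rw [h] <;> decide
    have h2 := h1.add ih
    have h3 : (-1 : ℤ) ^ k a + ∑ x ∈ N, (-1) ^ k x - ((N.card + 1 : ℕ) : ℤ) =
        (-1) ^ k a - 1 + (∑ s ∈ N, (-1) ^ k s - (N.card : ℤ)) := by push_cast; ring
    rw [h3]; exact h2

variable {M : Type} [MetricSpace M] {ρ : ℝ}

theorem Nice.euler_parity (hgood : GoodCoverStatement) [CompactSpace M] (h : Nice M ρ)
    {G : Type*} [Group G] [Finite G] [MulAction G M] [IsIsometricSMul G M] (hG : IsPGroup 2 G)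
    (hfin : (MulAction.fixedPoints G M).Finite) :
    FiniteHomology M ∧ Even (eulerChar M - Nat.card (MulAction.fixedPoints G M)) := by
  classical
  obtain ⟨A, hA⟩ : ∃ A : Finset M, A = hfin.toFinset := ⟨_, rfl⟩
  have memA : ∀ a, a ∈ A ↔ ∀ g : G, g • a = a := by
    intro a; rw [hA]; simp [MulAction.mem_fixedPoints]
  -- the radius
  obtain ⟨r, hr, hrρ, hrA⟩ : ∃ r > 0, 3 * r < ρ ∧ ∀ a ∈ A, ∀ b ∈ A, a ≠ b → r ≤ dist a b := by
    have hρ := h.pos
    by_cases hne : A.offDiag.Nonempty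
    · obtain ⟨p, hp, hmin⟩ := Finset.exists_min_image A.offDiag (fun p ↦ dist p.1 p.2) hne
      have hp' := Finset.mem_offDiag.1 hp
      refine ⟨min (ρ / 4) (dist p.1 p.2), lt_min (by positivity) (dist_pos.2 hp'.2.2), ?_, ?_⟩
      · have := min_le_left (ρ / 4) (dist p.1 p.2)
        linarith
      · intro a ha b hb hab
        exact (min_le_right _ _).trans (hmin (a, b) (Finset.mem_offDiag.2 ⟨ha, hb, hab⟩))
    · refine ⟨ρ / 4, by positivity, by linarith, ?_⟩
      intro a ha b hb hab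
      exact absurd ⟨(a, b), Finset.mem_offDiag.2 ⟨ha, hb, hab⟩⟩ hne
  -- the other centers
  obtain ⟨M', hM'⟩ : ∃ M' : Set M, M' = {x | ∀ a ∈ A, r ≤ dist x a} := ⟨_, rfl⟩
  have hM'c : IsCompact M' := by
    have : M' = ⋂ a ∈ A, {x | r ≤ dist x a} := by
      rw [hM']; ext x; simp
    rw [this]
    exact (isClosed_biInter (fun a _ ↦ isClosed_le continuous_const
      (continuous_id.dist continuous_const))).isCompact
  obtain ⟨t, htM, htf, htc⟩ := hM'c.finite_cover_balls hr
  obtain ⟨X, hX⟩ : ∃ X : Set M, X = (A : Set M) ∪ {x | ∃ g : G, ∃ y ∈ t, x = g • y} := ⟨_, rfl⟩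
  have hXf : X.Finite := by
    rw [hX]
    apply A.finite_toSet.union
    have h1 : {x | ∃ g : G, ∃ y ∈ t, x = g • y} ⊆
        (fun p : G × M ↦ p.1 • p.2) '' ((Set.univ : Set G) ×ˢ t) := by
      rintro x ⟨g, y, hy, rfl⟩
      exact ⟨(g, y), ⟨mem_univ _, hy⟩, rfl⟩
    exact ((Set.finite_univ.prod htf).image _).subset h1
  have hXinv : ∀ (g : G) {x : M}, x ∈ X → g • x ∈ X := by
    intro g x hx
    rw [hX] at hx ⊢
    rcases hx with hx | ⟨k, y, hy, rfl⟩
    · left
      rw [(memA x).1 hx g]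
      exact hx
    · right
      exact ⟨g * k, y, hy, by rw [mul_smul]⟩
  have hAX : ∀ a ∈ A, a ∈ X := fun a ha ↦ by rw [hX]; exact Or.inl ha
  have hsep : ∀ p ∈ A, ∀ x ∈ X, dist p x < r → x = p := by
    intro p hp x hx hd
    rw [hX] at hx
    rcases hx with hx | ⟨k, y, hy, rfl⟩
    · by_contra hne
      have := hrA p hp x hx (Ne.symm hne)
      linarith
    · exfalso
      have h1 := htM hy
      rw [hM'] at h1
      have h2 := h1 p hp
      have h3 : dist (k • y) (k • p) = dist y p := dist_smul _ _ _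
      rw [(memA p).1 hp k, dist_comm] at h3
      linarith
  have hcover : ∀ x : M, ∃ c ∈ X, dist x c < r := by
    intro x
    by_cases hx : x ∈ M'
    · obtain ⟨y, hy, hxy⟩ := mem_iUnion₂.1 (htc hx)
      refine ⟨y, ?_, hxy⟩
      rw [hX]
      exact Or.inr ⟨1, y, hy, (one_smul _ _).symm⟩
    · rw [hM'] at hx
      simp only [mem_ofPred_eq, not_forall, not_le] at hx
      obtain ⟨a, ha, hd⟩ := hx
      exact ⟨a, hAX a ha, hd⟩
  let Xs : SubMulAction G M := ⟨X, fun g x hx ↦ hXinv g hx⟩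
  have hfinX : Finite Xs := hXf.to_subtype
  have : Fintype Xs := Fintype.ofFinite Xs
  have hUo : ∀ i : Xs, IsOpen (Metric.ball (i : M) r) := fun i ↦ Metric.isOpen_ball
  have hUc : (⋃ i : Xs, Metric.ball (i : M) r) = Set.univ := by
    rw [eq_univ_iff_forall]
    intro x
    obtain ⟨c, hc, hd⟩ := hcover x
    exact mem_iUnion.2 ⟨⟨c, hc⟩, hd⟩
  obtain ⟨hF, hχ⟩ := hgood M inferInstance Xs inferInstance (fun i ↦ Metric.ball (i : M) r)
    hUo hUc (fun s hs hne ↦ h.contractible_iInter (fun i : Xs ↦ (i : M)) hrρ s hs hne)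
  refine ⟨hF, ?_⟩
  let N : Finset (Finset Xs) := Finset.univ.filter
    (fun s ↦ s.Nonempty ∧ (⋂ i ∈ s, Metric.ball (i : M) r).Nonempty)
  have hN : ∀ s : Finset Xs, s ∈ N ↔ s.Nonempty ∧ (⋂ i ∈ s, Metric.ball (i : M) r).Nonempty := by
    intro s; simp [N]
  rw [hχ N hN]
  have hev := even_sum_sub_card N (fun s ↦ s.card - 1)
  -- the action on the nerve
  have hNinv : ∀ (g : G) {s : Finset Xs}, s ∈ N → g • s ∈ N := by
    intro g s hs
    rw [hN] at hs ⊢
    refine ⟨hs.1.smul_finset, ?_⟩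
    obtain ⟨w, hw⟩ := hs.2
    refine ⟨g • w, ?_⟩
    simp only [mem_iInter, Metric.mem_ball] at hw ⊢
    intro i hi
    rw [Finset.mem_smul_finset] at hi
    obtain ⟨j, hj, rfl⟩ := hi
    have h1 := hw j hj
    have h2 : ((g • j : Xs) : M) = g • (j : M) := rfl
    rw [h2, dist_smul]
    exact h1
  let Ns : SubMulAction G (Finset Xs) := ⟨(N : Set (Finset Xs)), fun g s hs ↦ by
    have := hNinv g (s := s) (by simpa using hs)
    simpa using this⟩
  have hNs : ∀ s, s ∈ Ns ↔ s ∈ N := fun s ↦ by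
    change s ∈ (N : Set (Finset Xs)) ↔ s ∈ N
    simp
  have hcardN : Nat.card Ns = N.card := by
    have : Nat.card Ns = Nat.card (N : Set (Finset Xs)) := rfl
    rw [this]
    simp
  have hmod := hG.card_modEq_card_fixedPoints Ns
  rw [hcardN] at hmod
  -- fixed points of the nerve
  have hbij : Nat.card (MulAction.fixedPoints G M) = Nat.card (MulAction.fixedPoints G Ns) := by
    have hsing : ∀ a : MulAction.fixedPoints G M, (a : M) ∈ X := fun a ↦
      hAX _ ((memA _).2 (fun g ↦ a.2 g))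
    have hmemN : ∀ a : MulAction.fixedPoints G M,
        ({(⟨a, hsing a⟩ : Xs)} : Finset Xs) ∈ Ns := by
      intro a
      rw [hNs, hN]
      refine ⟨Finset.singleton_nonempty _, ⟨a, ?_⟩⟩
      simp only [mem_iInter, Metric.mem_ball, Finset.mem_singleton]
      rintro i rfl
      simpa using hr
    let F : MulAction.fixedPoints G M → MulAction.fixedPoints G Ns := fun a ↦
      ⟨⟨{(⟨a, hsing a⟩ : Xs)}, hmemN a⟩, by
        intro g
        apply Subtype.ext
        change g • ({(⟨a, hsing a⟩ : Xs)} : Finset Xs) = {(⟨a, hsing a⟩ : Xs)}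
        rw [Finset.smul_finset_singleton]
        congr 1
        apply Subtype.ext
        exact a.2 g⟩
    refine Nat.card_eq_of_bijective F ⟨?_, ?_⟩
    · intro a b hab
      have h1 : ({(⟨a, hsing a⟩ : Xs)} : Finset Xs) = {(⟨b, hsing b⟩ : Xs)} := by
        have := congrArg (fun z : MulAction.fixedPoints G Ns ↦ ((z : Ns) : Finset Xs)) hab
        exact this
      have h2 := Finset.singleton_injective h1
      have h3 := congrArg (fun z : Xs ↦ (z : M)) h2
      exact Subtype.ext h3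
    · rintro ⟨⟨s, hs⟩, hsfix⟩
      have hsN := (hN s).1 ((hNs s).1 hs)
      have hsfix' : ∀ g : G, g • s = s := fun g ↦ congrArg Subtype.val (hsfix g)
      obtain ⟨p, hp, hpfix⟩ := h.exists_fixed (G := G) hrρ (s.image (fun i : Xs ↦ (i : M)))
        (hsN.1.image _) (by
          intro g x hx
          rw [Finset.mem_image] at hx ⊢
          obtain ⟨i, hi, rfl⟩ := hx
          refine ⟨g • i, ?_, rfl⟩
          rw [← hsfix' g]
          exact Finset.smul_mem_smul_finset hi) (by
          obtain ⟨w, hw⟩ := hsN.2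
          refine ⟨w, ?_⟩
          simp only [mem_iInter, Finset.mem_image] at hw ⊢
          rintro x ⟨i, hi, rfl⟩
          exact hw i hi)
      have hpA : p ∈ A := (memA p).2 hpfix
      have hsp : ∀ i ∈ s, (i : M) = p := by
        intro i hi
        simp only [mem_iInter, Finset.mem_image, Metric.mem_ball] at hp
        exact hsep p hpA i i.2 (hp i ⟨i, hi, rfl⟩)
      refine ⟨⟨p, hpfix⟩, ?_⟩
      apply Subtype.ext
      apply Subtype.ext
      change ({(⟨p, _⟩ : Xs)} : Finset Xs) = s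
      obtain ⟨i0, hi0⟩ := hsN.1
      ext j
      rw [Finset.mem_singleton]
      constructor
      · rintro rfl
        have : i0 = (⟨p, hAX p hpA⟩ : Xs) := Subtype.ext (hsp i0 hi0)
        rw [← this]; exact hi0
      · intro hj
        exact Subtype.ext (hsp j hj)
  rw [← hbij] at hmod
  have h5 : Even ((N.card : ℤ) - Nat.card (MulAction.fixedPoints G M)) := by
    have h6 : ((N.card : ℕ) : ℤ) ≡ ((Nat.card (MulAction.fixedPoints G M) : ℕ) : ℤ) [ZMOD 2] :=
      (Int.natCast_modEq_iff (n := 2)).2 hmod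
    exact even_iff_two_dvd.2 (Int.modEq_iff_dvd.1 h6.symm)
  have h7 := hev.add h5
  have h8 : (∑ s ∈ N, (-1 : ℤ) ^ (s.card - 1) - (N.card : ℤ)) +
      ((N.card : ℤ) - Nat.card (MulAction.fixedPoints G M)) =
      ∑ s ∈ N, (-1 : ℤ) ^ (s.card - 1) - Nat.card (MulAction.fixedPoints G M) := by ring
  rw [h8] at h7
  exact h7

end Pool.Agent.Helper95
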