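import Pool.Agent.Helper95.HomBasic
import Pool.Agent.Helper95.Nerve

open Set

namespace Pool.Agent.Helper95

/-- The additivity of the Euler characteristic for open covers by two sets. -/
def MVStatement : Prop :=
  ∀ (X : Type) (_ : TopologicalSpace X) (U V : Set X), IsOpen U → IsOpen V → U ∪ V = univ →
    FiniteHomology ↥U → FiniteHomology ↥V → FiniteHomology ↥(U ∩ V) →
    FiniteHomology X ∧ eulerChar X = eulerChar ↥U + eulerChar ↥V - eulerChar ↥(U ∩ V)

/-- a set contained in a subset, seen in the subset -/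
def homeoPreimage {X : Type} [TopologicalSpace X] {W U : Set X} (h : U ⊆ W) :
    ↥((Subtype.val : W → X) ⁻¹' U) ≃ₜ ↥U where
  toFun x := ⟨x.1.1, x.2⟩
  invFun x := ⟨⟨x.1, h x.2⟩, x.2⟩
  left_inv x := rfl
  right_inv x := rfl
  continuous_toFun := by fun_prop
  continuous_invFun := by fun_prop

lemma MVStatement.union (hMV : MVStatement) {X : Type} [TopologicalSpace X] {U V : Set X}
    (hU : IsOpen U) (hV : IsOpen V) (fU : FiniteHomology ↥U) (fV : FiniteHomology ↥V)
    (fUV : FiniteHomology ↥(U ∩ V)) :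
    FiniteHomology ↥(U ∪ V) ∧
      eulerChar ↥(U ∪ V) = eulerChar ↥U + eulerChar ↥V - eulerChar ↥(U ∩ V) := by
  obtain ⟨a1, b1⟩ := congr_of_homeomorph (homeoPreimage (subset_union_left : U ⊆ U ∪ V))
  obtain ⟨a1', -⟩ := congr_of_homeomorph (homeoPreimage (subset_union_left : U ⊆ U ∪ V)).symm
  obtain ⟨a2, b2⟩ := congr_of_homeomorph (homeoPreimage (subset_union_right : V ⊆ U ∪ V))
  obtain ⟨a2', -⟩ := congr_of_homeomorph (homeoPreimage (subset_union_right : V ⊆ U ∪ V)).symm
  have h3 : U ∩ V ⊆ U ∪ V := inter_subset_left.trans subset_union_left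
  obtain ⟨a3, b3⟩ := congr_of_homeomorph (homeoPreimage h3)
  obtain ⟨a3', -⟩ := congr_of_homeomorph (homeoPreimage h3).symm
  have := hMV ↥(U ∪ V) inferInstance (Subtype.val ⁻¹' U) (Subtype.val ⁻¹' V)
    (hU.preimage continuous_subtype_val) (hV.preimage continuous_subtype_val)
    (by
      ext x
      simp only [mem_union, mem_preimage, mem_univ, iff_true]
      exact x.2)
    (a1' fU) (a2' fV) (a3' fUV)
  refine ⟨this.1, ?_⟩
  rw [this.2, b1, b2, ← b3]
  rfl

open Classical in
/-- signed indicator of the nonempty faces of the nerve -/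
noncomputable def nerveTerm {X ι : Type} (U : ι → Set X) (s : Finset ι) : ℤ :=
  if s.Nonempty ∧ (⋂ i ∈ s, U i).Nonempty then (-1) ^ (s.card + 1) else 0

lemma goodCover_aux (hMV : MVStatement) {X ι : Type} [TopologicalSpace X] [DecidableEq ι]
    (T : Finset ι) : ∀ U : ι → Set X, (∀ i, IsOpen (U i)) →
    (∀ s : Finset ι, s ⊆ T → s.Nonempty → (⋂ i ∈ s, U i).Nonempty →
      ContractibleSpace ↥(⋂ i ∈ s, U i)) →
    FiniteHomology ↥(⋃ i ∈ T, U i) ∧
      eulerChar ↥(⋃ i ∈ T, U i) = ∑ s ∈ T.powerset, nerveTerm U s := by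
  classical
  induction T using Finset.induction_on with
  | empty =>
    intro U _ _
    have : IsEmpty ↥(⋃ i ∈ (∅ : Finset ι), U i) := by
      simp
    obtain ⟨h1, h2⟩ := empty_homology ↥(⋃ i ∈ (∅ : Finset ι), U i)
    refine ⟨h1, ?_⟩
    rw [h2]
    simp [nerveTerm]
  | insert a T ha ih =>
    intro U hU hc
    -- the three pieces
    obtain ⟨f1, e1⟩ := ih U hU (fun s hs ↦ hc s (hs.trans (Finset.subset_insert _ _)))
    have hsetb : ∀ s : Finset ι, s.Nonempty →
        (⋂ i ∈ s, (U i ∩ U a)) = ⋂ i ∈ insert a s, U i := by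
      intro s hs
      obtain ⟨j, hj⟩ := hs
      ext x
      simp only [mem_iInter, mem_inter_iff, Finset.mem_insert]
      constructor
      · rintro h i (rfl | hi)
        · exact (h j hj).2
        · exact (h i hi).1
      · intro h i hi
        exact ⟨h i (Or.inr hi), h a (Or.inl rfl)⟩
    obtain ⟨f2, e2⟩ := ih (fun i ↦ U i ∩ U a) (fun i ↦ (hU i).inter (hU a)) (by
      intro s hs hne hne'
      rw [hsetb s hne] at hne' ⊢
      exact hc _ (Finset.insert_subset_insert a hs) (Finset.insert_nonempty _ _) hne')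
    have hfa : FiniteHomology ↥(U a) ∧ eulerChar ↥(U a) = nerveTerm U {a} := by
      have hsing : (⋂ i ∈ ({a} : Finset ι), U i) = U a := by simp
      by_cases hne : (U a).Nonempty
      · have hcon : ContractibleSpace ↥(U a) := by
          have := hc {a} (by simp) (Finset.singleton_nonempty a) (by rw [hsing]; exact hne)
          rwa [hsing] at this
        obtain ⟨h1, h2⟩ := contractible_homology ↥(U a)
        refine ⟨h1, ?_⟩
        rw [h2, nerveTerm, if_pos ⟨Finset.singleton_nonempty a, by rw [hsing]; exact hne⟩]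
        simp
      · have hemp : IsEmpty ↥(U a) := by
          rw [Set.not_nonempty_iff_eq_empty] at hne
          rw [hne]
          infer_instance
        obtain ⟨h1, h2⟩ := empty_homology ↥(U a)
        refine ⟨h1, ?_⟩
        rw [h2, nerveTerm, if_neg]
        rw [hsing]
        exact fun h ↦ hne h.2
    have hunion : (⋃ i ∈ insert a T, U i) = (⋃ i ∈ T, U i) ∪ U a := by
      rw [Finset.set_biUnion_insert, union_comm]
    have hinter : (⋃ i ∈ T, U i) ∩ U a = ⋃ i ∈ T, (U i ∩ U a) := by
      rw [iUnion₂_inter]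
    have hopen : IsOpen (⋃ i ∈ T, U i) := isOpen_biUnion (fun i _ ↦ hU i)
    obtain ⟨f, e⟩ := hMV.union hopen (hU a) f1 hfa.1 (by rw [hinter]; exact f2)
    rw [hunion]
    refine ⟨f, ?_⟩
    rw [e, e1, hfa.2, Finset.sum_powerset_insert ha]
    have hint : eulerChar ↥((⋃ i ∈ T, U i) ∩ U a) = eulerChar ↥(⋃ i ∈ T, (U i ∩ U a)) := by
      rw [hinter]
    rw [hint, e2]
    have hterm : ∀ s ∈ T.powerset, nerveTerm U (insert a s) =
        (if s = ∅ then nerveTerm U {a} else 0) - nerveTerm (fun i ↦ U i ∩ U a) s := by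
      intro s hs
      rcases s.eq_empty_or_nonempty with rfl | hne
      · simp [nerveTerm]
      · rw [if_neg hne.ne_empty, zero_sub]
        have has : a ∉ s := fun h ↦ ha (Finset.mem_powerset.1 hs h)
        unfold nerveTerm
        rw [hsetb s hne]
        by_cases hi : (⋂ i ∈ insert a s, U i).Nonempty
        · rw [if_pos ⟨Finset.insert_nonempty _ _, hi⟩, if_pos ⟨hne, hi⟩,
            Finset.card_insert_of_notMem has, pow_succ]
          ring
        · rw [if_neg (fun h ↦ hi h.2), if_neg (fun h ↦ hi h.2), neg_zero]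
    rw [Finset.sum_congr rfl hterm, Finset.sum_sub_distrib, Finset.sum_ite_eq',
      if_pos (Finset.empty_mem_powerset T)]
    ring

theorem goodCover_of_MV (hMV : MVStatement) : GoodCoverStatement := by
  classical
  intro X _ ι _ U hU hcov hc
  obtain ⟨h1, h2⟩ := goodCover_aux hMV (X := X) (Finset.univ : Finset ι) U hU
    (fun s _ ↦ hc s)
  have hun : (⋃ i ∈ (Finset.univ : Finset ι), U i) = univ := by
    simpa using hcov
  rw [hun] at h1 h2
  obtain ⟨a, b⟩ := congr_of_homeomorph (Homeomorph.Set.univ X)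
  refine ⟨a h1, ?_⟩
  intro N hN
  rw [← b, h2]
  have hsub : N ⊆ (Finset.univ : Finset ι).powerset := fun s _ ↦ by simp
  rw [← Finset.sum_subset hsub]
  · apply Finset.sum_congr rfl
    intro s hs
    have hs' := (hN s).1 hs
    rw [nerveTerm, if_pos hs']
    obtain ⟨k, hk⟩ : ∃ k, s.card = k + 1 := ⟨s.card - 1, by
      have := hs'.1.card_pos; omega⟩
    rw [hk, pow_succ, pow_succ]
    simp
  · intro s _ hs
    rw [nerveTerm, if_neg]
    intro h
    exact hs ((hN s).2 h)

end Pool.Agent.Helper95
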