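import Mathlib

open Set Filter
open scoped NNReal ContDiff Topology

namespace Pool.Agent.Helper95

variable {E : Type*} [NormedAddCommGroup E] [NormedSpace ℝ E]
  {F : Type*} [NormedAddCommGroup F] [NormedSpace ℝ F]

/-- A `C²` function is locally Lipschitz and has quadratic second differences. -/
lemma exists_second_difference_bound {G : E → F} {a : E} (h : ContDiffAt ℝ 2 G a) :
    ∃ C > 0, ∃ R > 0, (∀ p ∈ Metric.ball a R, ∀ q ∈ Metric.ball a R,
      ‖G p - G q‖ ≤ C * ‖p - q‖) ∧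
      (∀ p u : E, p + u ∈ Metric.ball a R → p - u ∈ Metric.ball a R →
        ‖G (p + u) + G (p - u) - (2 : ℝ) • G p‖ ≤ C * ‖u‖ ^ 2) := by
  obtain ⟨K1, t1, ht1, hK1⟩ := (h.of_le (by norm_num : (1 : ℕ∞ω) ≤ 2)).exists_lipschitzOnWith
  have h2 : ContDiffAt ℝ 1 (fderiv ℝ G) a := h.fderiv_right (by norm_num)
  obtain ⟨K2, t2, ht2, hK2⟩ := h2.exists_lipschitzOnWith
  have h3 : ∀ᶠ y in 𝓝 a, ContDiffAt ℝ 2 G y := h.eventually (by simp)
  obtain ⟨R, hR, hRs⟩ := Metric.mem_nhds_iff.1 (inter_mem (inter_mem ht1 ht2) h3)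
  refine ⟨K1 + 2 * K2 + 1, by positivity, R, hR, ?_, ?_⟩
  · intro p hp q hq
    have h4 := hK1.dist_le_mul p (hRs hp).1.1 q (hRs hq).1.1
    rw [dist_eq_norm, dist_eq_norm] at h4
    refine h4.trans ?_
    apply mul_le_mul_of_nonneg_right _ (norm_nonneg _)
    have : (0 : ℝ) ≤ K2 := K2.2
    linarith
  · intro p u hpu hpu'
    have hseg : ∀ t ∈ Icc (0 : ℝ) 1, p + t • u ∈ Metric.ball a R ∧
        p - t • u ∈ Metric.ball a R := by
      intro t ht
      have hc := convex_ball a R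
      have e1 : p + t • u = ((1 + t) / 2) • (p + u) + ((1 - t) / 2) • (p - u) := by
        module
      have e2 : p - t • u = ((1 - t) / 2) • (p + u) + ((1 + t) / 2) • (p - u) := by
        module
      constructor
      · rw [e1]
        exact hc hpu hpu' (by linarith [ht.1]) (by linarith [ht.2]) (by ring)
      · rw [e2]
        exact hc hpu hpu' (by linarith [ht.2]) (by linarith [ht.1]) (by ring)
    have hdiff : ∀ x ∈ Metric.ball a R, HasFDerivAt G (fderiv ℝ G x) x := by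
      intro x hx
      have h4 : ContDiffAt ℝ 2 G x := (hRs hx).2
      exact (h4.differentiableAt (by norm_num)).hasFDerivAt
    have hd : ∀ x ∈ Icc (0 : ℝ) 1, HasDerivWithinAt
        (fun t : ℝ ↦ G (p + t • u) + G (p - t • u))
        (fderiv ℝ G (p + x • u) u - fderiv ℝ G (p - x • u) u) (Icc (0 : ℝ) 1) x := by
      intro x hx
      have h5 : HasDerivAt (fun t : ℝ ↦ p + t • u) u x := by
        simpa using ((hasDerivAt_id x).smul_const u).const_add p
      have h6 : HasDerivAt (fun t : ℝ ↦ p - t • u) (-u) x := by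
        simpa using ((hasDerivAt_id x).smul_const u).const_sub p
      have h7 := (hdiff _ (hseg x hx).1).comp_hasDerivAt x h5
      have h8 := (hdiff _ (hseg x hx).2).comp_hasDerivAt x h6
      have h9 := h7.add h8
      rw [map_neg, ← sub_eq_add_neg] at h9
      exact h9.hasDerivWithinAt
    have hb : ∀ x ∈ Ico (0 : ℝ) 1,
        ‖fderiv ℝ G (p + x • u) u - fderiv ℝ G (p - x • u) u‖ ≤ 2 * K2 * ‖u‖ ^ 2 := by
      intro x hx
      have hx' : x ∈ Icc (0 : ℝ) 1 := ⟨hx.1, hx.2.le⟩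
      have h5 := hK2.dist_le_mul _ (hRs (hseg x hx').1).1.2 _ (hRs (hseg x hx').2).1.2
      rw [dist_eq_norm, dist_eq_norm] at h5
      have h6 : (p + x • u) - (p - x • u) = (2 * x) • u := by module
      rw [h6, norm_smul, Real.norm_eq_abs, abs_of_nonneg (by linarith [hx.1])] at h5
      rw [← sub_apply]
      calc _ ≤ ‖fderiv ℝ G (p + x • u) - fderiv ℝ G (p - x • u)‖ * ‖u‖ :=
            ContinuousLinearMap.le_opNorm _ _
        _ ≤ (K2 * (2 * x * ‖u‖)) * ‖u‖ := by gcongr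
        _ ≤ (K2 * (2 * 1 * ‖u‖)) * ‖u‖ := by gcongr; exact hx.2.le
        _ = _ := by ring
    have h10 := norm_image_sub_le_of_norm_deriv_le_segment_01' hd hb
    simp only [one_smul, zero_smul, add_zero, sub_zero] at h10
    have h11 : G (p + u) + G (p - u) - (G p + G p) = G (p + u) + G (p - u) - (2 : ℝ) • G p := by
      rw [two_smul]
    rw [h11] at h10
    refine h10.trans ?_
    have : (0 : ℝ) ≤ K1 := K1.2
    have : (0 : ℝ) ≤ K2 := K2.2
    apply mul_le_mul_of_nonneg_right _ (by positivity)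
    linarith

/-- Local data: `e` parametrizes a neighborhood of `e a` in the metric space `M`; the distance
is infinitesimally given by the quadratic forms `G`. -/
structure IsGoodChart {M : Type*} [MetricSpace M] (e : E → M) (a : E) (R : ℝ)
    (G : E → E →L[ℝ] E →L[ℝ] ℝ) (c C : ℝ) : Prop where
  R_pos : 0 < R
  c_pos : 0 < c
  C_pos : 0 < C
  surj : ∀ r > 0, ∃ ρ > 0, ∀ x : M, dist x (e a) < ρ → ∃ p ∈ Metric.closedBall a r, e p = x
  symm : ∀ p ∈ Metric.closedBall a R, ∀ v w : E, G p v w = G p w v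
  lower : ∀ p ∈ Metric.closedBall a R, ∀ v : E, c * ‖v‖ ^ 2 ≤ G p v v
  upper : ∀ p ∈ Metric.closedBall a R, ∀ v w : E, |G p v w| ≤ C * ‖v‖ * ‖w‖
  lip : ∀ p ∈ Metric.closedBall a R, ∀ q ∈ Metric.closedBall a R, ∀ v w : E,
    |G p v w - G q v w| ≤ C * ‖p - q‖ * ‖v‖ * ‖w‖
  second : ∀ p u : E, p + u ∈ Metric.closedBall a R → p - u ∈ Metric.closedBall a R →
    ∀ v w : E, |G (p + u) v w + G (p - u) v w - 2 * G p v w| ≤ C * ‖u‖ ^ 2 * ‖v‖ * ‖w‖
  dist_lower : ∀ p ∈ Metric.closedBall a R, ∀ q ∈ Metric.closedBall a R,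
    c * ‖p - q‖ ≤ dist (e p) (e q)
  dist_upper : ∀ p ∈ Metric.closedBall a R, ∀ q ∈ Metric.closedBall a R,
    dist (e p) (e q) ≤ C * ‖p - q‖
  asymp : ∀ ε > 0, ∃ η > 0, ∀ p ∈ Metric.closedBall a R, ∀ q ∈ Metric.closedBall a R,
    ‖p - q‖ < η → |dist (e p) (e q) ^ 2 - G p (q - p) (q - p)| ≤ ε * ‖q - p‖ ^ 2

end Pool.Agent.Helper95
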