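import Pool.Agent.Helper95.NiceDefs

open Set Filter Finset
open scoped Topology

namespace Pool.Agent.Helper95

variable {M : Type*} [MetricSpace M]

lemma HasProportions.exists_chain (hM : HasProportions M) (N : ℕ) :
    ∀ x y : M, ∃ P : ℕ → M, P 0 = x ∧ P (N + 1) = y ∧
      ∀ i < N + 1, dist (P i) (P (i + 1)) = dist x y / ((N : ℝ) + 1) := by
  induction N with
  | zero =>
    intro x y
    refine ⟨fun i ↦ if i = 0 then x else y, by simp, by simp, ?_⟩
    intro i hi
    have : i = 0 := by omega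
    subst this
    simp
  | succ N ih =>
    intro x y
    have hN : (0 : ℝ) < (N : ℝ) + 1 := by positivity
    obtain ⟨z, hz1, hz2⟩ := hM x y (1 / ((N : ℝ) + 2)) ⟨by positivity, by
      rw [div_le_one (by positivity)]; linarith⟩
    obtain ⟨P, hP0, hP1, hP⟩ := ih z y
    refine ⟨fun i ↦ if i = 0 then x else P (i - 1), by simp, by simpa using hP1, ?_⟩
    intro i hi
    rcases Nat.eq_zero_or_pos i with h0 | h0
    · subst h0
      simp only [if_true, Nat.zero_add, one_ne_zero, if_false, Nat.sub_self, hP0, hz1]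
      push_cast
      field_simp
      ring
    · obtain ⟨j, rfl⟩ : ∃ j, i = j + 1 := ⟨i - 1, by omega⟩
      have := hP j (by omega)
      simp only [Nat.add_sub_cancel, Nat.succ_ne_zero, if_false, this, hz2]
      push_cast
      field_simp
      ring

/-- points of a chain are close -/
lemma dist_chain_le {P : ℕ → M} {N : ℕ} {δ : ℝ}
    (hP : ∀ i < N, dist (P i) (P (i + 1)) = δ) {i j : ℕ} (hij : i ≤ j) (hj : j ≤ N) :
    dist (P i) (P j) ≤ (j - i : ℝ) * δ := by
  have h1 : dist (P i) (P j) ≤ ∑ k ∈ Finset.Ico i j, dist (P k) (P (k + 1)) :=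
    dist_le_Ico_sum_dist P hij
  have h2 : ∑ k ∈ Finset.Ico i j, dist (P k) (P (k + 1)) = (j - i : ℝ) * δ := by
    rw [sum_congr rfl (g := fun _ ↦ δ)
      (fun k hk ↦ hP k (by have := Finset.mem_Ico.1 hk; omega)), sum_const, Nat.card_Ico,
      nsmul_eq_mul, Nat.cast_sub hij]
  rw [h2] at h1
  exact h1

/-- minimal geodesics exist -/
lemma HasProportions.exists_geodesic [CompactSpace M] (hM : HasProportions M) (x y : M) :
    ∃ c : ℝ → M, c 0 = x ∧ c (dist x y) = y ∧
      ∀ s ∈ Icc 0 (dist x y), ∀ t ∈ Icc 0 (dist x y), dist (c s) (c t) = |s - t| := by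
  rcases eq_or_lt_of_le (dist_nonneg (x := x) (y := y)) with h0 | h0
  · refine ⟨fun _ ↦ x, rfl, ?_, ?_⟩
    · exact dist_eq_zero.1 h0.symm
    · intro s hs t ht
      rw [← h0] at hs ht
      have h1 : s = 0 := le_antisymm hs.2 hs.1
      have h2 : t = 0 := le_antisymm ht.2 ht.1
      simp [h1, h2]
  set D := dist x y with hD
  have hch := fun N : ℕ ↦ hM.exists_chain N x y
  choose P hP0 hP1 hP using hch
  obtain ⟨cN, hcN⟩ : ∃ cN : ℕ → ℝ → M, cN = fun N t ↦ P N ⌊t * (N + 1) / D⌋₊ := ⟨_, rfl⟩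
  let 𝒰 := Filter.hyperfilter ℕ
  have hlim : ∀ t : ℝ, ∃ z : M, Tendsto (fun N ↦ cN N t) 𝒰 (𝓝 z) := by
    intro t
    obtain ⟨z, -, hz⟩ := (isCompact_univ (X := M)).ultrafilter_le_nhds
      (𝒰.map (fun N ↦ cN N t)) (by simp)
    exact ⟨z, hz⟩
  choose c hc using hlim
  have hfloor : ∀ (N : ℕ) (t : ℝ), t ≤ D → ⌊t * (N + 1) / D⌋₊ ≤ N + 1 := by
    intro N t ht
    apply Nat.floor_le_of_le
    rw [div_le_iff₀ h0]
    push_cast
    have : (0 : ℝ) < (N : ℝ) + 1 := by positivity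
    nlinarith
  -- almost Lipschitz
  have hlip : ∀ (N : ℕ) (s t : ℝ), 0 ≤ s → s ≤ t → t ≤ D →
      dist (cN N s) (cN N t) ≤ (t - s) + D * (1 / ((N : ℝ) + 1)) := by
    intro N s t hs hst ht
    have hN : (0 : ℝ) < (N : ℝ) + 1 := by positivity
    have hmono : ⌊s * (N + 1) / D⌋₊ ≤ ⌊t * (N + 1) / D⌋₊ := by
      apply Nat.floor_le_floor
      gcongr
    rw [hcN]
    refine (dist_chain_le (hP N) hmono (hfloor N t ht)).trans ?_
    have f1 : (⌊t * (N + 1) / D⌋₊ : ℝ) ≤ t * (N + 1) / D :=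
      Nat.floor_le (by have : 0 ≤ t := hs.trans hst; positivity)
    have f2 : s * (N + 1) / D < ⌊s * (N + 1) / D⌋₊ + 1 := Nat.lt_floor_add_one _
    calc ((⌊t * (N + 1) / D⌋₊ : ℝ) - ⌊s * (N + 1) / D⌋₊) * (D / ((N : ℝ) + 1))
        ≤ (t * (N + 1) / D - (s * (N + 1) / D - 1)) * (D / ((N : ℝ) + 1)) := by
          gcongr
          linarith
      _ = _ := by
        field_simp
        ring
  have hzero : Tendsto (fun N : ℕ ↦ D * (1 / ((N : ℝ) + 1))) 𝒰 (𝓝 0) := by
    have h1 : Tendsto (fun N : ℕ ↦ D * (1 / ((N : ℝ) + 1))) atTop (𝓝 (D * 0)) :=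
      tendsto_const_nhds.mul tendsto_one_div_add_atTop_nhds_zero_nat
    rw [mul_zero] at h1
    exact h1.mono_left (Nat.hyperfilter_le_atTop)
  have hlip' : ∀ (s t : ℝ), 0 ≤ s → s ≤ t → t ≤ D → dist (c s) (c t) ≤ t - s := by
    intro s t hs hst ht
    have h1 : Tendsto (fun N ↦ dist (cN N s) (cN N t)) 𝒰 (𝓝 (dist (c s) (c t))) :=
      (hc s).dist (hc t)
    have h2 : Tendsto (fun N : ℕ ↦ (t - s) + D * (1 / ((N : ℝ) + 1))) 𝒰 (𝓝 ((t - s) + 0)) :=
      tendsto_const_nhds.add hzero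
    have h3 := le_of_tendsto_of_tendsto' h1 h2 (fun N ↦ hlip N s t hs hst ht)
    linarith
  have hc0 : c 0 = x := by
    have h1 : ∀ N, cN N 0 = x := by
      intro N; rw [hcN]; simp [hP0]
    have h2 : Tendsto (fun N ↦ cN N 0) 𝒰 (𝓝 x) := by
      simp only [h1]; exact tendsto_const_nhds
    exact tendsto_nhds_unique (hc 0) h2
  have hcD : c D = y := by
    have h1 : ∀ N, cN N D = y := by
      intro N
      have h3 : D * ((N : ℝ) + 1) / D = ((N + 1 : ℕ) : ℝ) := by
        push_cast; field_simp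
      rw [hcN]
      simp only [h3, Nat.floor_natCast, hP1]
    have h2 : Tendsto (fun N ↦ cN N D) 𝒰 (𝓝 y) := by
      simp only [h1]; exact tendsto_const_nhds
    exact tendsto_nhds_unique (hc D) h2
  refine ⟨c, hc0, hcD, ?_⟩
  have key : ∀ s t : ℝ, 0 ≤ s → s ≤ t → t ≤ D → dist (c s) (c t) = t - s := by
    intro s t hs hst ht
    apply le_antisymm (hlip' s t hs hst ht)
    have h1 := hlip' 0 s le_rfl hs (hst.trans ht)
    have h2 := hlip' t D (hs.trans hst) ht le_rfl
    have h3 := dist_triangle4 (c 0) (c s) (c t) (c D)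
    have h4 : dist (c 0) (c D) = D := by rw [hc0, hcD]
    linarith
  intro s hs t ht
  rcases le_total s t with hst | hst
  · rw [key s t hs.1 hst ht.2, abs_sub_comm, abs_of_nonneg (by linarith)]
  · rw [dist_comm, key t s ht.1 hst hs.2, abs_of_nonneg (by linarith)]

end Pool.Agent.Helper95
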