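import Pool.Agent.Helper95.C2
import Pool.Agent.Helper95.Chains

open Set Filter Finset
open scoped Topology

namespace Pool.Agent.Helper95

variable {E : Type*} [NormedAddCommGroup E] [NormedSpace ℝ E]
  {M : Type*} [MetricSpace M]

section

variable {e : E → M} {a : E} {R : ℝ} {G : E → E →L[ℝ] E →L[ℝ] ℝ} {c C : ℝ}

lemma sq_sum_range_le (n : ℕ) (f : ℕ → ℝ) :
    (∑ i ∈ range n, f i) ^ 2 ≤ n * ∑ i ∈ range n, f i ^ 2 := by
  have h := sq_sum_le_card_mul_sum_sq (s := range n) (f := f)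
  simpa using h

/-- Upper bound of the distance between the ends of a chain. -/
lemma chain_upper {ε η : ℝ}
    (has : ∀ p ∈ Metric.closedBall a R, ∀ q ∈ Metric.closedBall a R,
      ‖p - q‖ < η → |dist (e p) (e q) ^ 2 - G p (q - p) (q - p)| ≤ ε * ‖q - p‖ ^ 2)
    {Q : ℕ → E} {n : ℕ} (hQ : ∀ i ≤ n, Q i ∈ Metric.closedBall a R)
    (hstep : ∀ i < n, ‖Q (i + 1) - Q i‖ < η) :
    dist (e (Q 0)) (e (Q n)) ^ 2 ≤
      n * ∑ i ∈ range n, (G (Q i) (Q (i + 1) - Q i) (Q (i + 1) - Q i)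
        + ε * ‖Q (i + 1) - Q i‖ ^ 2) := by
  have h1 : dist (e (Q 0)) (e (Q n)) ≤ ∑ i ∈ range n, dist (e (Q i)) (e (Q (i + 1))) :=
    dist_le_range_sum_dist (fun i ↦ e (Q i)) n
  calc dist (e (Q 0)) (e (Q n)) ^ 2
      ≤ (∑ i ∈ range n, dist (e (Q i)) (e (Q (i + 1)))) ^ 2 := by gcongr
    _ ≤ n * ∑ i ∈ range n, dist (e (Q i)) (e (Q (i + 1))) ^ 2 := sq_sum_range_le n _
    _ ≤ _ := by
      gcongr with i hi
      have hi' : i < n := Finset.mem_range.1 hi
      have h2 := has (Q i) (hQ i hi'.le) (Q (i + 1)) (hQ (i + 1) hi') (by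
        rw [norm_sub_rev]; exact hstep i hi')
      linarith [(abs_le.1 h2).2]

/-- Lower bound of the distance between the ends of a minimizing chain. -/
lemma chain_lower {ε η : ℝ}
    (has : ∀ p ∈ Metric.closedBall a R, ∀ q ∈ Metric.closedBall a R,
      ‖p - q‖ < η → |dist (e p) (e q) ^ 2 - G p (q - p) (q - p)| ≤ ε * ‖q - p‖ ^ 2)
    {Q : ℕ → E} {n : ℕ} (hn : 0 < n) (hQ : ∀ i ≤ n, Q i ∈ Metric.closedBall a R)
    (hstep : ∀ i < n, ‖Q (i + 1) - Q i‖ < η) {D : ℝ}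
    (hD : ∀ i < n, dist (e (Q i)) (e (Q (i + 1))) = D / n) :
    n * ∑ i ∈ range n, (G (Q i) (Q (i + 1) - Q i) (Q (i + 1) - Q i)
        - ε * ‖Q (i + 1) - Q i‖ ^ 2) ≤ D ^ 2 := by
  have hn' : (0 : ℝ) < n := by exact_mod_cast hn
  calc _ ≤ (n : ℝ) * ∑ i ∈ range n, (D / n) ^ 2 := by
        gcongr with i hi
        have hi' : i < n := Finset.mem_range.1 hi
        have h2 := has (Q i) (hQ i hi'.le) (Q (i + 1)) (hQ (i + 1) hi') (by
          rw [norm_sub_rev]; exact hstep i hi')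
        rw [hD i hi'] at h2
        linarith [(abs_le.1 h2).1]
    _ = D ^ 2 := by
      rw [sum_const, card_range, nsmul_eq_mul]
      field_simp

/-- chains in the chart -/
lemma IsGoodChart.exists_chain (h : IsGoodChart e a R G c C) (hM : HasProportions M) :
    ∃ r > 0, r ≤ R ∧ ∀ p ∈ Metric.closedBall a r, ∀ q ∈ Metric.closedBall a r, ∀ n : ℕ, 0 < n →
      ∃ P : ℕ → E, P 0 = p ∧ P n = q ∧ (∀ i ≤ n, P i ∈ Metric.closedBall a (R / 2)) ∧
        (∀ i < n, dist (e (P i)) (e (P (i + 1))) = dist (e p) (e q) / n) ∧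
        (∀ i ≤ n, ‖P i - p‖ ≤ C / c * ‖q - p‖) ∧
        (∀ i < n, ‖P (i + 1) - P i‖ ≤ C / c * ‖q - p‖ / n) := by
  have hR := h.R_pos
  have hc := h.c_pos
  have hC := h.C_pos
  obtain ⟨ρ, hρ, hsurj⟩ := h.surj (R / 2) (by positivity)
  refine ⟨min R (ρ / (4 * C)), by positivity, min_le_left _ _, ?_⟩
  intro p hp q hq n hn
  have hn' : (0 : ℝ) < n := by exact_mod_cast hn
  set r := min R (ρ / (4 * C)) with hr
  have hr1 : r ≤ R := min_le_left _ _
  have hr2 : C * r ≤ ρ / 4 := by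
    calc C * r ≤ C * (ρ / (4 * C)) := by gcongr; exact min_le_right _ _
      _ = ρ / 4 := by field_simp
  have hpR : p ∈ Metric.closedBall a R := Metric.closedBall_subset_closedBall hr1 hp
  have hqR : q ∈ Metric.closedBall a R := Metric.closedBall_subset_closedBall hr1 hq
  have haR : a ∈ Metric.closedBall a R := Metric.mem_closedBall_self hR.le
  have hda : ∀ p ∈ Metric.closedBall a r, dist (e p) (e a) ≤ ρ / 4 := by
    intro p hp
    refine (h.dist_upper p (Metric.closedBall_subset_closedBall hr1 hp) a haR).trans ?_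
    refine le_trans ?_ hr2
    gcongr
    rw [← dist_eq_norm]; exact hp
  obtain ⟨N, rfl⟩ : ∃ N, n = N + 1 := ⟨n - 1, by omega⟩
  obtain ⟨P, hP0, hP1, hP⟩ := hM.exists_chain N (e p) (e q)
  have hcast : ((N + 1 : ℕ) : ℝ) = (N : ℝ) + 1 := by push_cast; ring
  -- distances from the first point
  have hd0 : ∀ i ≤ N + 1, dist (P 0) (P i) ≤ dist (e p) (e q) := by
    intro i hi
    have h1 : dist (P 0) (P i) ≤ ∑ j ∈ range i, dist (P j) (P (j + 1)) :=
      dist_le_range_sum_dist P i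
    have h2 : ∑ j ∈ range i, dist (P j) (P (j + 1)) =
        i * (dist (e p) (e q) / ((N : ℝ) + 1)) := by
      rw [sum_congr rfl (g := fun _ ↦ dist (e p) (e q) / ((N : ℝ) + 1))
        (fun j hj ↦ hP j (by have := Finset.mem_range.1 hj; omega)), sum_const, card_range,
        nsmul_eq_mul]
    rw [h2] at h1
    refine h1.trans ?_
    have h3 : (i : ℝ) ≤ (N : ℝ) + 1 := by exact_mod_cast hi
    calc (i : ℝ) * (dist (e p) (e q) / ((N : ℝ) + 1))
        ≤ ((N : ℝ) + 1) * (dist (e p) (e q) / ((N : ℝ) + 1)) := by gcongr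
      _ = dist (e p) (e q) := by field_simp
  have hlift : ∀ i : ℕ, ∃ p' : E, i ≤ N + 1 →
      (p' ∈ Metric.closedBall a (R / 2) ∧ e p' = P i) := by
    intro i
    by_cases hi : i ≤ N + 1
    · have h1 := hd0 i hi
      have h2 : dist (e p) (e q) ≤ ρ / 4 + ρ / 4 := by
        calc _ ≤ dist (e p) (e a) + dist (e q) (e a) := dist_triangle_right _ _ _
          _ ≤ _ := add_le_add (hda p hp) (hda q hq)
      have h3 : dist (P i) (e a) < ρ := by
        calc dist (P i) (e a) ≤ dist (P i) (P 0) + dist (P 0) (e a) := dist_triangle _ _ _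
          _ ≤ (ρ / 4 + ρ / 4) + ρ / 4 := by
            rw [dist_comm (P i)]
            refine add_le_add (h1.trans h2) ?_
            rw [hP0]; exact hda p hp
          _ < ρ := by linarith
      obtain ⟨p', hp', hp''⟩ := hsurj _ h3
      exact ⟨p', fun _ ↦ ⟨hp', hp''⟩⟩
    · exact ⟨p, fun h ↦ absurd h hi⟩
  choose Q hQ using hlift
  have hR2 : Metric.closedBall a (R / 2) ⊆ Metric.closedBall a R :=
    Metric.closedBall_subset_closedBall (by linarith)
  have hinj : ∀ p1 ∈ Metric.closedBall a R, ∀ p2 ∈ Metric.closedBall a R, e p1 = e p2 →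
      p1 = p2 := by
    intro p1 h1 p2 h2 h12
    have h3 := h.dist_lower p1 h1 p2 h2
    rw [h12, dist_self] at h3
    have h4 : ‖p1 - p2‖ ≤ 0 := by
      by_contra hcon
      push Not at hcon
      have : 0 < c * ‖p1 - p2‖ := by positivity
      linarith
    exact sub_eq_zero.1 (norm_le_zero_iff.1 h4)
  have hQR : ∀ i ≤ N + 1, Q i ∈ Metric.closedBall a R := fun i hi ↦ hR2 (hQ i hi).1
  have hQ0 : Q 0 = p := by
    apply hinj _ (hQR 0 (by omega)) _ hpR
    rw [(hQ 0 (by omega)).2, hP0]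
  have hQ1 : Q (N + 1) = q := by
    apply hinj _ (hQR _ le_rfl) _ hqR
    rw [(hQ _ le_rfl).2, hP1]
  have hdpq := h.dist_upper p hpR q hqR
  refine ⟨Q, hQ0, hQ1, fun i hi ↦ (hQ i hi).1, ?_, ?_, ?_⟩
  · intro i hi
    rw [(hQ i hi.le).2, (hQ (i + 1) hi).2, hP i hi, hcast]
  · intro i hi
    have h1 := h.dist_lower (Q i) (hQR i hi) p hpR
    rw [(hQ i hi).2, ← hP0, dist_comm] at h1
    have h2 := hd0 i hi
    have h3 : c * ‖Q i - p‖ ≤ C * ‖q - p‖ := by
      rw [norm_sub_rev q p]; linarith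
    calc ‖Q i - p‖ = (c * ‖Q i - p‖) / c := by field_simp
      _ ≤ (C * ‖q - p‖) / c := by gcongr
      _ = _ := by ring
  · intro i hi
    have h1 := h.dist_lower (Q (i + 1)) (hQR _ hi) (Q i) (hQR _ hi.le)
    rw [(hQ i hi.le).2, (hQ (i + 1) hi).2, dist_comm, hP i hi] at h1
    have h3 : c * ‖Q (i + 1) - Q i‖ ≤ C * ‖q - p‖ / ((N : ℝ) + 1) := by
      refine h1.trans ?_
      gcongr
      rw [norm_sub_rev q p]; exact hdpq
    rw [hcast]
    calc ‖Q (i + 1) - Q i‖ = (c * ‖Q (i + 1) - Q i‖) / c := by field_simp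
      _ ≤ (C * ‖q - p‖ / ((N : ℝ) + 1)) / c := by gcongr
      _ = _ := by ring

end

end Pool.Agent.Helper95
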