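import Pool.Agent.Helper95.Energy

open Set Filter Finset
open scoped Topology

namespace Pool.Agent.Helper95

lemma le_of_forall_eps {a b K : ℝ} (hK : 0 ≤ K) (h : ∀ ε > 0, a ≤ b + ε * K) : a ≤ b := by
  apply le_of_forall_pos_le_add
  intro δ hδ
  have h1 := h (δ / (K + 1)) (by positivity)
  refine h1.trans ?_
  gcongr
  calc δ / (K + 1) * K ≤ δ / (K + 1) * (K + 1) := by gcongr; linarith
    _ = δ := by field_simp

lemma exists_nat_div_lt {a η : ℝ} (hη : 0 < η) : ∃ n : ℕ, 0 < n ∧ a / n < η := by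
  obtain ⟨n, hn⟩ := exists_nat_gt (max (a / η) 0)
  have hn0 : (0 : ℝ) < n := lt_of_le_of_lt (le_max_right _ _) hn
  refine ⟨n, by exact_mod_cast hn0, ?_⟩
  have h1 : a / η < n := lt_of_le_of_lt (le_max_left _ _) hn
  rw [div_lt_iff₀ hη] at h1
  rw [div_lt_iff₀ hn0]
  linarith

variable {E : Type*} [NormedAddCommGroup E] [NormedSpace ℝ E]
  {M : Type*} [MetricSpace M]
  {e : E → M} {a : E} {R : ℝ} {G : E → E →L[ℝ] E →L[ℝ] ℝ} {c C : ℝ}

lemma expand_sq (g : E →L[ℝ] E →L[ℝ] ℝ) (hg : ∀ v w, g v w = g w v) (v w : E) :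
    g (v + w) (v + w) = g v v + 2 * g v w + g w w := by
  simp only [map_add, add_apply]
  rw [hg w v]
  ring

lemma expand_sq_sub (g : E →L[ℝ] E →L[ℝ] ℝ) (hg : ∀ v w, g v w = g w v) (v w : E) :
    g (v - w) (v - w) = g v v - 2 * g v w + g w w := by
  simp only [map_sub, sub_apply]
  rw [hg w v]
  ring

/-- first order upper bound -/
lemma IsGoodChart.first_order (h : IsGoodChart e a R G c C) (hM : HasProportions M) :
    ∃ r > 0, ∃ K > 0, r ≤ R ∧ ∀ x z v : E, x ∈ Metric.closedBall a r →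
      z ∈ Metric.closedBall a r → z + v ∈ Metric.closedBall a r →
      dist (e x) (e (z + v)) ^ 2 ≤ dist (e x) (e z) ^ 2 + 2 * G x (z - x) v + G x v v
        + K * ‖v‖ * (‖z - x‖ + ‖v‖) ^ 2 := by
  obtain ⟨r0, hr0, hr0R, hch⟩ := h.exists_chain hM
  have hR := h.R_pos
  have hc := h.c_pos
  have hC := h.C_pos
  set L := C / c with hL
  have hL0 : 0 < L := by positivity
  refine ⟨min r0 (R / 8), by positivity, 3 * C * (L + 1) ^ 2, by positivity,
    (min_le_left _ _).trans hr0R, ?_⟩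
  intro x z v hx hz hzv
  set r := min r0 (R / 8)
  have hr1 : r ≤ r0 := min_le_left _ _
  have hr2 : r ≤ R / 8 := min_le_right _ _
  have hx0 := Metric.closedBall_subset_closedBall hr1 hx
  have hz0 := Metric.closedBall_subset_closedBall hr1 hz
  have hxR : x ∈ Metric.closedBall a R :=
    Metric.closedBall_subset_closedBall (by linarith) hx
  have hvR : ‖v‖ ≤ R / 4 := by
    have h1 : ‖z + v - a‖ ≤ r := by rw [← dist_eq_norm]; exact hzv
    have h2 : ‖z - a‖ ≤ r := by rw [← dist_eq_norm]; exact hz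
    have h3 : v = (z + v - a) - (z - a) := by abel
    calc ‖v‖ = ‖(z + v - a) - (z - a)‖ := by rw [← h3]
      _ ≤ ‖z + v - a‖ + ‖z - a‖ := norm_sub_le _ _
      _ ≤ R / 4 := by linarith
  set ℓ := L * ‖z - x‖ with hℓ
  have hℓ0 : 0 ≤ ℓ := by positivity
  set V := ‖v‖ with hV
  have hV0 : 0 ≤ V := norm_nonneg _
  -- main claim with epsilon
  have key : dist (e x) (e (z + v)) ^ 2 ≤ dist (e x) (e z) ^ 2 + 2 * G x (z - x) v + G x v v
      + C * V * (3 * (ℓ + V) ^ 2) := by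
    apply le_of_forall_eps (K := (ℓ + V) ^ 2 + ℓ ^ 2) (by positivity)
    intro ε hε
    obtain ⟨η, hη, has⟩ := h.asymp ε hε
    obtain ⟨n, hn, hn'⟩ := exists_nat_div_lt (a := ℓ + V) hη
    have hnr : (0 : ℝ) < n := by exact_mod_cast hn
    obtain ⟨P, hP0, hPn, hPR, hPd, hPx, hPs⟩ := hch x hx0 z hz0 n hn
    rw [← hℓ] at hPx hPs
    set Q : ℕ → E := fun i ↦ P i + ((i : ℝ) / n) • v with hQ
    have hfrac : ∀ i ≤ n, (i : ℝ) / n ≤ 1 := by
      intro i hi
      rw [div_le_one hnr]; exact_mod_cast hi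
    have hfrac0 : ∀ i : ℕ, 0 ≤ (i : ℝ) / n := fun i ↦ by positivity
    have hδ : ∀ i ≤ n, ‖((i : ℝ) / n) • v‖ ≤ V := by
      intro i hi
      rw [norm_smul, Real.norm_eq_abs, abs_of_nonneg (hfrac0 i)]
      exact mul_le_of_le_one_left hV0 (hfrac i hi)
    have hPR' : ∀ i ≤ n, P i ∈ Metric.closedBall a R := fun i hi ↦
      Metric.closedBall_subset_closedBall (by linarith) (hPR i hi)
    have hQR : ∀ i ≤ n, Q i ∈ Metric.closedBall a R := by
      intro i hi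
      rw [Metric.mem_closedBall, dist_eq_norm]
      have h1 : ‖P i - a‖ ≤ R / 2 := by rw [← dist_eq_norm]; exact hPR i hi
      have h2 : Q i - a = (P i - a) + ((i : ℝ) / n) • v := by simp only [hQ]; abel
      rw [h2]
      calc _ ≤ ‖P i - a‖ + ‖((i : ℝ) / n) • v‖ := norm_add_le _ _
        _ ≤ R := by linarith [hδ i hi]
    have hQ0 : Q 0 = x := by simp [hQ, hP0]
    have hQn : Q n = z + v := by
      simp only [hQ, hPn]
      rw [div_self hnr.ne', one_smul]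
    have hΔQ : ∀ i, Q (i + 1) - Q i = (P (i + 1) - P i) + (1 / (n : ℝ)) • v := by
      intro i
      simp only [hQ]
      push_cast
      rw [add_div, add_smul]
      abel
    have hΔQn : ∀ i < n, ‖Q (i + 1) - Q i‖ ≤ (ℓ + V) / n := by
      intro i hi
      rw [hΔQ i]
      calc _ ≤ ‖P (i + 1) - P i‖ + ‖(1 / (n : ℝ)) • v‖ := norm_add_le _ _
        _ ≤ ℓ / n + V / n := by
          refine add_le_add (hPs i hi) ?_
          rw [norm_smul, Real.norm_eq_abs, abs_of_nonneg (by positivity), ← hV]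
          apply le_of_eq; ring
        _ = _ := by ring
    have hup := chain_upper has hQR (fun i hi ↦ (hΔQn i hi).trans_lt hn')
    have hlo := chain_lower has hn hPR' (fun i hi ↦ by
      refine (hPs i hi).trans_lt (lt_of_le_of_lt ?_ hn')
      gcongr; linarith) hPd
    rw [hQ0, hQn] at hup
    -- termwise comparison
    have hterm : ∀ i ∈ range n,
        (G (Q i) (Q (i + 1) - Q i) (Q (i + 1) - Q i) + ε * ‖Q (i + 1) - Q i‖ ^ 2) ≤
        (G (P i) (P (i + 1) - P i) (P (i + 1) - P i) - ε * ‖P (i + 1) - P i‖ ^ 2) +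
        (2 / n) * G x (P (i + 1) - P i) v +
        (G x v v + C * V * (3 * (ℓ + V) ^ 2) + ε * ((ℓ + V) ^ 2 + ℓ ^ 2)) / n ^ 2 := by
      intro i hi
      have hi' : i < n := Finset.mem_range.1 hi
      set Δ := P (i + 1) - P i with hΔ
      have hΔn : ‖Δ‖ ≤ ℓ / n := hPs i hi'
      have hs : ∀ v w, G (Q i) v w = G (Q i) w v := h.symm (Q i) (hQR i hi'.le)
      have e1 : G (Q i) (Q (i + 1) - Q i) (Q (i + 1) - Q i) =
          G (Q i) Δ Δ + 2 / n * G (Q i) Δ v + G (Q i) v v / n ^ 2 := by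
        rw [hΔQ i, expand_sq _ hs]
        simp only [map_smul, smul_apply, smul_eq_mul]
        ring
      have hQx : ‖Q i - x‖ ≤ ℓ + V := by
        have h2 : Q i - x = (P i - x) + ((i : ℝ) / n) • v := by simp only [hQ]; abel
        rw [h2]
        exact (norm_add_le _ _).trans (add_le_add (hPx i hi'.le) (hδ i hi'.le))
      have hQP : ‖Q i - P i‖ ≤ V := by
        have h2 : Q i - P i = ((i : ℝ) / n) • v := by simp only [hQ]; abel
        rw [h2]; exact hδ i hi'.le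
      have b1 : G (Q i) Δ Δ ≤ G (P i) Δ Δ + C * V * ℓ ^ 2 / n ^ 2 := by
        have h1 := (abs_le.1 (h.lip (Q i) (hQR i hi'.le) (P i) (hPR' i hi'.le) Δ Δ)).2
        have h2 : C * ‖Q i - P i‖ * ‖Δ‖ * ‖Δ‖ ≤ C * V * (ℓ / n) * (ℓ / n) := by gcongr
        have h3 : C * V * (ℓ / n) * (ℓ / n) = C * V * ℓ ^ 2 / n ^ 2 := by ring
        linarith
      have b2 : G (Q i) Δ v ≤ G x Δ v + C * (ℓ + V) * (ℓ / n) * V := by
        have h1 := (abs_le.1 (h.lip (Q i) (hQR i hi'.le) x hxR Δ v)).2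
        have h2 : C * ‖Q i - x‖ * ‖Δ‖ * ‖v‖ ≤ C * (ℓ + V) * (ℓ / n) * V := by gcongr
        linarith
      have b3 : G (Q i) v v ≤ G x v v + C * (ℓ + V) * V * V := by
        have h1 := (abs_le.1 (h.lip (Q i) (hQR i hi'.le) x hxR v v)).2
        have h2 : C * ‖Q i - x‖ * ‖v‖ * ‖v‖ ≤ C * (ℓ + V) * V * V := by gcongr
        linarith
      have b4 : ‖Q (i + 1) - Q i‖ ^ 2 ≤ ((ℓ + V) / n) ^ 2 := by
        gcongr; exact hΔQn i hi'
      have b5 : ‖Δ‖ ^ 2 ≤ (ℓ / n) ^ 2 := by gcongr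
      rw [e1]
      calc G (Q i) Δ Δ + 2 / n * G (Q i) Δ v + G (Q i) v v / n ^ 2
            + ε * ‖Q (i + 1) - Q i‖ ^ 2
          ≤ (G (P i) Δ Δ + C * V * ℓ ^ 2 / n ^ 2) +
            2 / n * (G x Δ v + C * (ℓ + V) * (ℓ / n) * V) +
            (G x v v + C * (ℓ + V) * V * V) / n ^ 2 + ε * ((ℓ + V) / n) ^ 2 := by
            gcongr
        _ = G (P i) Δ Δ - ε * (ℓ / n) ^ 2 + 2 / n * G x Δ v +
            (G x v v + C * V * (ℓ ^ 2 + 2 * (ℓ + V) * ℓ + (ℓ + V) * V)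
              + ε * ((ℓ + V) ^ 2 + ℓ ^ 2)) / n ^ 2 := by
            field_simp
            ring
        _ ≤ G (P i) Δ Δ - ε * ‖Δ‖ ^ 2 + 2 / n * G x Δ v +
            (G x v v + C * V * (3 * (ℓ + V) ^ 2) + ε * ((ℓ + V) ^ 2 + ℓ ^ 2)) / n ^ 2 := by
            have h6 : ℓ ^ 2 + 2 * (ℓ + V) * ℓ + (ℓ + V) * V ≤ 3 * (ℓ + V) ^ 2 := by
              nlinarith [mul_nonneg hℓ0 hV0]
            have h7 : C * V * (ℓ ^ 2 + 2 * (ℓ + V) * ℓ + (ℓ + V) * V) ≤
                C * V * (3 * (ℓ + V) ^ 2) := by gcongr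
            have h8 : ε * ‖Δ‖ ^ 2 ≤ ε * (ℓ / n) ^ 2 := by gcongr
            gcongr
    have hsum := Finset.sum_le_sum hterm
    have hsum' := mul_le_mul_of_nonneg_left hsum hnr.le
    refine hup.trans (hsum'.trans ?_)
    rw [sum_add_distrib, sum_add_distrib, sum_const, card_range, nsmul_eq_mul, ← mul_sum]
    have hsx : ∑ i ∈ range n, G x (P (i + 1) - P i) v = G x (z - x) v := by
      have h1 : ∑ i ∈ range n, G x (P (i + 1) - P i) v =
          G x (∑ i ∈ range n, (P (i + 1) - P i)) v := by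
        rw [map_sum, _root_.sum_apply]
      rw [h1, Finset.sum_range_sub, hP0, hPn]
    rw [hsx]
    have h9 : (n : ℝ) * (∑ i ∈ range n, (G (P i) (P (i + 1) - P i) (P (i + 1) - P i)
        - ε * ‖P (i + 1) - P i‖ ^ 2) + 2 / n * G x (z - x) v +
        n * ((G x v v + C * V * (3 * (ℓ + V) ^ 2) + ε * ((ℓ + V) ^ 2 + ℓ ^ 2)) / n ^ 2)) =
        (n : ℝ) * ∑ i ∈ range n, (G (P i) (P (i + 1) - P i) (P (i + 1) - P i)
        - ε * ‖P (i + 1) - P i‖ ^ 2) + 2 * G x (z - x) v +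
        (G x v v + C * V * (3 * (ℓ + V) ^ 2) + ε * ((ℓ + V) ^ 2 + ℓ ^ 2)) := by
      field_simp
    rw [h9]
    linarith
  refine key.trans ?_
  have h1 : ℓ + V ≤ (L + 1) * (‖z - x‖ + V) := by
    rw [hℓ]
    nlinarith [norm_nonneg (z - x)]
  have h2 : C * V * (3 * (ℓ + V) ^ 2) ≤ 3 * C * (L + 1) ^ 2 * V * (‖z - x‖ + V) ^ 2 := by
    calc C * V * (3 * (ℓ + V) ^ 2) ≤ C * V * (3 * ((L + 1) * (‖z - x‖ + V)) ^ 2) := by gcongr
      _ = _ := by ring
  linarith

end Pool.Agent.Helper95
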