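import Pool.Agent.Helper95.Energy2

open Set Filter Finset
open scoped Topology

namespace Pool.Agent.Helper95

variable {E : Type*} [NormedAddCommGroup E] [NormedSpace ℝ E]
  {M : Type*} [MetricSpace M]
  {e : E → M} {a : E} {R : ℝ} {G : E → E →L[ℝ] E →L[ℝ] ℝ} {c C : ℝ}

/-- second order expansion of the discrete energy -/
lemma IsGoodChart.key_expansion (h : IsGoodChart e a R G c C) {x : E}
    (hx : x ∈ Metric.closedBall a R) {A D : ℕ → E} {n : ℕ} (hn : 0 < n) {ℓ S : ℝ}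
    (hℓ : 0 ≤ ℓ) (hS0 : 0 ≤ S)
    (hp : ∀ i < n, A i + D i ∈ Metric.closedBall a R)
    (hm : ∀ i < n, A i - D i ∈ Metric.closedBall a R)
    (hpx : ∀ i < n, ‖A i + D i - x‖ ≤ ℓ) (hmx : ∀ i < n, ‖A i - D i - x‖ ≤ ℓ)
    (hΔ : ∀ i < n, ‖A (i + 1) - A i‖ ≤ ℓ / n)
    (hS : n * ∑ i ∈ range n, ‖D (i + 1) - D i‖ ^ 2 ≤ S) (hDS : ∀ i < n, ‖D i‖ ^ 2 ≤ S) :
    |n * ∑ i ∈ range n,
        (G (A i + D i) ((A (i + 1) - A i) + (D (i + 1) - D i))
          ((A (i + 1) - A i) + (D (i + 1) - D i))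
        + G (A i - D i) ((A (i + 1) - A i) - (D (i + 1) - D i))
          ((A (i + 1) - A i) - (D (i + 1) - D i))
        - 2 * G (A i) (A (i + 1) - A i) (A (i + 1) - A i))
      - 2 * (n * ∑ i ∈ range n, G x (D (i + 1) - D i) (D (i + 1) - D i))|
      ≤ C * S * (ℓ * (ℓ + 6)) := by
  have hC := h.C_pos
  have hnr : (0 : ℝ) < n := by exact_mod_cast hn
  have hrw : n * ∑ i ∈ range n,
        (G (A i + D i) ((A (i + 1) - A i) + (D (i + 1) - D i))
          ((A (i + 1) - A i) + (D (i + 1) - D i))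
        + G (A i - D i) ((A (i + 1) - A i) - (D (i + 1) - D i))
          ((A (i + 1) - A i) - (D (i + 1) - D i))
        - 2 * G (A i) (A (i + 1) - A i) (A (i + 1) - A i))
      - 2 * (n * ∑ i ∈ range n, G x (D (i + 1) - D i) (D (i + 1) - D i)) =
      n * ∑ i ∈ range n,
        (G (A i + D i) ((A (i + 1) - A i) + (D (i + 1) - D i))
          ((A (i + 1) - A i) + (D (i + 1) - D i))
        + G (A i - D i) ((A (i + 1) - A i) - (D (i + 1) - D i))
          ((A (i + 1) - A i) - (D (i + 1) - D i))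
        - 2 * G (A i) (A (i + 1) - A i) (A (i + 1) - A i)
        - 2 * G x (D (i + 1) - D i) (D (i + 1) - D i)) := by
    rw [sum_sub_distrib (f := fun i ↦
      G (A i + D i) ((A (i + 1) - A i) + (D (i + 1) - D i))
          ((A (i + 1) - A i) + (D (i + 1) - D i))
        + G (A i - D i) ((A (i + 1) - A i) - (D (i + 1) - D i))
          ((A (i + 1) - A i) - (D (i + 1) - D i))
        - 2 * G (A i) (A (i + 1) - A i) (A (i + 1) - A i)), ← mul_sum]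
    ring
  rw [hrw, abs_mul, abs_of_pos hnr]
  have hterm : ∀ i ∈ range n,
      |G (A i + D i) ((A (i + 1) - A i) + (D (i + 1) - D i))
          ((A (i + 1) - A i) + (D (i + 1) - D i))
        + G (A i - D i) ((A (i + 1) - A i) - (D (i + 1) - D i))
          ((A (i + 1) - A i) - (D (i + 1) - D i))
        - 2 * G (A i) (A (i + 1) - A i) (A (i + 1) - A i)
        - 2 * G x (D (i + 1) - D i) (D (i + 1) - D i)| ≤
      C * S * (ℓ ^ 2 + 2 * ℓ) / n ^ 2 + 4 * C * ℓ * ‖D (i + 1) - D i‖ ^ 2 := by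
    intro i hi
    have hi' : i < n := Finset.mem_range.1 hi
    set p := A i with hpdef
    set δ := D i with hδdef
    set Δ := A (i + 1) - p with hΔdef
    set η := D (i + 1) - δ with hηdef
    have hs1 : ∀ v w, G (p + δ) v w = G (p + δ) w v := h.symm _ (hp i hi')
    have hs2 : ∀ v w, G (p - δ) v w = G (p - δ) w v := h.symm _ (hm i hi')
    rw [expand_sq _ hs1, expand_sq_sub _ hs2]
    have hΔn := hΔ i hi'
    have hδS := hDS i hi'
    have t1 : |G (p + δ) Δ Δ + G (p - δ) Δ Δ - 2 * G p Δ Δ| ≤ C * S * (ℓ / n) * (ℓ / n) := by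
      refine (h.second p δ (hp i hi') (hm i hi') Δ Δ).trans ?_
      gcongr
    have t2 : |G (p + δ) Δ η - G (p - δ) Δ η| ≤ C * (2 * ‖δ‖) * (ℓ / n) * ‖η‖ := by
      refine (h.lip _ (hp i hi') _ (hm i hi') Δ η).trans ?_
      have : p + δ - (p - δ) = (2 : ℝ) • δ := by rw [two_smul]; abel
      rw [this, norm_smul, Real.norm_eq_abs, abs_of_pos (by norm_num : (0 : ℝ) < 2)]
      gcongr
    have t3 : |G (p + δ) η η - G x η η| ≤ C * ℓ * ‖η‖ * ‖η‖ := by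
      refine (h.lip _ (hp i hi') _ hx η η).trans ?_
      gcongr
      exact hpx i hi'
    have t4 : |G (p - δ) η η - G x η η| ≤ C * ℓ * ‖η‖ * ‖η‖ := by
      refine (h.lip _ (hm i hi') _ hx η η).trans ?_
      gcongr
      exact hmx i hi'
    have t5 : 2 * (‖δ‖ * ‖η‖) ≤ S / n + n * ‖η‖ ^ 2 := by
      have h1 : 0 ≤ (‖δ‖ - n * ‖η‖) ^ 2 / n := by positivity
      have h2 : (‖δ‖ - n * ‖η‖) ^ 2 / n = ‖δ‖ ^ 2 / n - 2 * (‖δ‖ * ‖η‖) + n * ‖η‖ ^ 2 := by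
        field_simp
        ring
      have h3 : ‖δ‖ ^ 2 / n ≤ S / n := by gcongr
      linarith
    have t6 : C * (2 * ‖δ‖) * (ℓ / n) * ‖η‖ ≤ C * (ℓ / n) * (S / n + n * ‖η‖ ^ 2) := by
      calc C * (2 * ‖δ‖) * (ℓ / n) * ‖η‖ = C * (ℓ / n) * (2 * (‖δ‖ * ‖η‖)) := by ring
        _ ≤ _ := by gcongr
    have e1 : C * S * (ℓ ^ 2 + 2 * ℓ) / n ^ 2 + 4 * C * ℓ * ‖η‖ ^ 2 =
        C * S * (ℓ / n) * (ℓ / n) + 2 * (C * (ℓ / n) * (S / n + n * ‖η‖ ^ 2))
          + 2 * (C * ℓ * ‖η‖ * ‖η‖) := by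
      field_simp
      ring
    rw [e1]
    rw [abs_le] at t1 t2 t3 t4 ⊢
    constructor <;> nlinarith [t1.1, t1.2, t2.1, t2.2, t3.1, t3.2, t4.1, t4.2, t6]
  calc _ ≤ (n : ℝ) * ∑ i ∈ range n, (C * S * (ℓ ^ 2 + 2 * ℓ) / n ^ 2
        + 4 * C * ℓ * ‖D (i + 1) - D i‖ ^ 2) := by
        gcongr
        exact (abs_sum_le_sum_abs _ _).trans (Finset.sum_le_sum hterm)
    _ = C * S * (ℓ ^ 2 + 2 * ℓ) + 4 * C * ℓ * (n * ∑ i ∈ range n, ‖D (i + 1) - D i‖ ^ 2) := by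
        rw [sum_add_distrib, sum_const, card_range, nsmul_eq_mul, ← mul_sum]
        field_simp
    _ ≤ C * S * (ℓ ^ 2 + 2 * ℓ) + 4 * C * ℓ * S := by gcongr
    _ = C * S * (ℓ * (ℓ + 6)) := by ring

end Pool.Agent.Helper95
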