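import Pool.Agent.Helper95.Energy3

open Set Filter Finset
open scoped Topology

namespace Pool.Agent.Helper95

variable {E : Type*} [NormedAddCommGroup E] [NormedSpace ℝ E]
  {M : Type*} [MetricSpace M]
  {e : E → M} {a : E} {R : ℝ} {G : E → E →L[ℝ] E →L[ℝ] ℝ} {c C : ℝ}

lemma sum_eps_le {ε ℓ : ℝ} (hε : 0 ≤ ε) {f : ℕ → ℝ} {n : ℕ} (hn : 0 < n)
    (hf0 : ∀ i < n, 0 ≤ f i) (hf : ∀ i < n, f i ≤ ℓ / n) :
    (n : ℝ) * ∑ i ∈ range n, ε * f i ^ 2 ≤ ε * ℓ ^ 2 := by
  have hnr : (0 : ℝ) < n := by exact_mod_cast hn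
  calc (n : ℝ) * ∑ i ∈ range n, ε * f i ^ 2 ≤ n * ∑ i ∈ range n, ε * (ℓ / n) ^ 2 := by
        gcongr with i hi
        · exact hf0 i (Finset.mem_range.1 hi)
        · exact hf i (Finset.mem_range.1 hi)
    _ = ε * ℓ ^ 2 := by
      rw [sum_const, card_range, nsmul_eq_mul]
      field_simp

lemma chain_upper' {ε η ℓ : ℝ} (hε : 0 ≤ ε)
    (has : ∀ p ∈ Metric.closedBall a R, ∀ q ∈ Metric.closedBall a R,
      ‖p - q‖ < η → |dist (e p) (e q) ^ 2 - G p (q - p) (q - p)| ≤ ε * ‖q - p‖ ^ 2)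
    {Q : ℕ → E} {n : ℕ} (hn : 0 < n) (hQ : ∀ i ≤ n, Q i ∈ Metric.closedBall a R)
    (hstep : ∀ i < n, ‖Q (i + 1) - Q i‖ ≤ ℓ / n) (hη : ℓ / n < η) :
    dist (e (Q 0)) (e (Q n)) ^ 2 ≤
      n * ∑ i ∈ range n, G (Q i) (Q (i + 1) - Q i) (Q (i + 1) - Q i) + ε * ℓ ^ 2 := by
  refine (chain_upper has hQ (fun i hi ↦ (hstep i hi).trans_lt hη)).trans ?_
  rw [sum_add_distrib, mul_add]
  have := sum_eps_le hε hn (f := fun i ↦ ‖Q (i + 1) - Q i‖) (fun i _ ↦ norm_nonneg _) hstep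
  linarith

lemma chain_lower' {ε η ℓ : ℝ} (hε : 0 ≤ ε)
    (has : ∀ p ∈ Metric.closedBall a R, ∀ q ∈ Metric.closedBall a R,
      ‖p - q‖ < η → |dist (e p) (e q) ^ 2 - G p (q - p) (q - p)| ≤ ε * ‖q - p‖ ^ 2)
    {Q : ℕ → E} {n : ℕ} (hn : 0 < n) (hQ : ∀ i ≤ n, Q i ∈ Metric.closedBall a R)
    (hstep : ∀ i < n, ‖Q (i + 1) - Q i‖ ≤ ℓ / n) (hη : ℓ / n < η) {D : ℝ}
    (hD : ∀ i < n, dist (e (Q i)) (e (Q (i + 1))) = D / n) :
    n * ∑ i ∈ range n, G (Q i) (Q (i + 1) - Q i) (Q (i + 1) - Q i) ≤ D ^ 2 + ε * ℓ ^ 2 := by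
  have h1 := chain_lower has hn hQ (fun i hi ↦ (hstep i hi).trans_lt hη) hD
  rw [sum_sub_distrib, mul_sub] at h1
  have := sum_eps_le hε hn (f := fun i ↦ ‖Q (i + 1) - Q i‖) (fun i _ ↦ norm_nonneg _) hstep
  linarith

lemma norm_sub_le_of_mem {x y : E} {r : ℝ} (hx : x ∈ Metric.closedBall a r)
    (hy : y ∈ Metric.closedBall a r) : ‖x - y‖ ≤ 2 * r := by
  rw [← dist_eq_norm]
  calc dist x y ≤ dist x a + dist y a := dist_triangle_right _ _ _
    _ ≤ r + r := add_le_add hx hy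
    _ = 2 * r := by ring

/-- upper bound for second differences of the squared distance -/
lemma IsGoodChart.second_upper (h : IsGoodChart e a R G c C) (hM : HasProportions M) :
    ∃ r > 0, ∃ K > 0, r ≤ R ∧ ∀ x u v : E, x ∈ Metric.closedBall a r →
      u ∈ Metric.closedBall a r → u + v ∈ Metric.closedBall a r →
      u - v ∈ Metric.closedBall a r →
      dist (e x) (e (u + v)) ^ 2 + dist (e x) (e (u - v)) ^ 2 ≤
        2 * dist (e x) (e u) ^ 2 + 2 * G x v v + K * (‖u - x‖ + ‖v‖) * ‖v‖ ^ 2 := by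
  obtain ⟨r0, hr0, hr0R, hch⟩ := h.exists_chain hM
  have hR := h.R_pos
  have hc := h.c_pos
  have hC := h.C_pos
  obtain ⟨L, hL⟩ : ∃ L, L = C / c := ⟨_, rfl⟩
  rw [← hL] at hch
  have hL0 : 0 < L := by rw [hL]; positivity
  refine ⟨min r0 (R / 8), by positivity, C * (L + 1) * ((L + 1) * R + 6), by positivity,
    (min_le_left _ _).trans hr0R, ?_⟩
  intro x u v hx hu hup hum
  obtain ⟨r, hr⟩ : ∃ r, r = min r0 (R / 8) := ⟨_, rfl⟩
  rw [← hr] at hx hu hup hum
  have hr1 : r ≤ r0 := hr ▸ min_le_left _ _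
  have hr2 : r ≤ R / 8 := hr ▸ min_le_right _ _
  have hx0 := Metric.closedBall_subset_closedBall hr1 hx
  have hu0 := Metric.closedBall_subset_closedBall hr1 hu
  have hxR : x ∈ Metric.closedBall a R :=
    Metric.closedBall_subset_closedBall (by linarith) hx
  obtain ⟨V, hV⟩ : ∃ V, V = ‖v‖ := ⟨_, rfl⟩
  have hV0 : 0 ≤ V := hV ▸ norm_nonneg _
  have hvR : V ≤ R / 4 := by
    have h1 := norm_sub_le_of_mem hup hu
    rw [add_sub_cancel_left, ← hV] at h1
    linarith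
  have hux : ‖u - x‖ ≤ R / 4 := by
    have h1 := norm_sub_le_of_mem hu hx
    linarith
  rw [← hV]
  obtain ⟨ℓ, hℓ⟩ : ∃ ℓ, ℓ = L * ‖u - x‖ + V := ⟨_, rfl⟩
  have hℓ0 : 0 ≤ ℓ := by rw [hℓ]; positivity
  have hLℓ : L * ‖u - x‖ ≤ ℓ := by rw [hℓ]; linarith
  have key : dist (e x) (e (u + v)) ^ 2 + dist (e x) (e (u - v)) ^ 2 ≤
        2 * dist (e x) (e u) ^ 2 + 2 * G x v v + C * V ^ 2 * (ℓ * (ℓ + 6)) := by
    apply le_of_forall_eps (K := 4 * ℓ ^ 2) (by positivity)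
    intro ε hε
    obtain ⟨η, hη, has⟩ := h.asymp ε hε
    obtain ⟨n, hn, hn'⟩ := exists_nat_div_lt (a := ℓ) hη
    have hnr : (0 : ℝ) < n := by exact_mod_cast hn
    obtain ⟨P, hP0, hPn, hPR, hPd, hPx, hPs⟩ := hch x hx0 u hu0 n hn
    obtain ⟨D, hD⟩ : ∃ D : ℕ → E, D = fun i : ℕ ↦ ((i : ℝ) / n) • v := ⟨_, rfl⟩
    have hfrac : ∀ i ≤ n, (i : ℝ) / n ≤ 1 := by
      intro i hi
      rw [div_le_one hnr]; exact_mod_cast hi
    have hfrac0 : ∀ i : ℕ, 0 ≤ (i : ℝ) / n := fun i ↦ by positivity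
    have hδ : ∀ i ≤ n, ‖D i‖ ≤ V := by
      intro i hi
      rw [hD, norm_smul, Real.norm_eq_abs, abs_of_nonneg (hfrac0 i), ← hV]
      exact mul_le_of_le_one_left hV0 (hfrac i hi)
    have hPR' : ∀ i ≤ n, P i ∈ Metric.closedBall a R := fun i hi ↦
      Metric.closedBall_subset_closedBall (by linarith) (hPR i hi)
    have hPa : ∀ i ≤ n, ‖P i - a‖ ≤ R / 2 := by
      intro i hi; rw [← dist_eq_norm]; exact hPR i hi
    have hQp : ∀ i ≤ n, P i + D i ∈ Metric.closedBall a R := by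
      intro i hi
      rw [Metric.mem_closedBall, dist_eq_norm, add_sub_right_comm]
      exact (norm_add_le _ _).trans (by linarith [hδ i hi, hPa i hi])
    have hQm : ∀ i ≤ n, P i - D i ∈ Metric.closedBall a R := by
      intro i hi
      rw [Metric.mem_closedBall, dist_eq_norm, sub_right_comm]
      exact (norm_sub_le _ _).trans (by linarith [hδ i hi, hPa i hi])
    have hΔD : ∀ i, D (i + 1) - D i = (1 / (n : ℝ)) • v := by
      intro i
      rw [hD]
      push_cast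
      rw [add_div, add_smul]
      abel
    have hΔDn : ∀ i, ‖D (i + 1) - D i‖ = V / n := by
      intro i
      rw [hΔD i, norm_smul, Real.norm_eq_abs, abs_of_nonneg (by positivity), ← hV]
      ring
    have hsp : ∀ i < n, ‖(P (i + 1) + D (i + 1)) - (P i + D i)‖ ≤ ℓ / n := by
      intro i hi
      have h1 : (P (i + 1) + D (i + 1)) - (P i + D i) =
        (P (i + 1) - P i) + (D (i + 1) - D i) := by abel
      rw [h1]
      calc _ ≤ ‖P (i + 1) - P i‖ + ‖D (i + 1) - D i‖ := norm_add_le _ _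
        _ ≤ L * ‖u - x‖ / n + V / n := add_le_add (hPs i hi) (hΔDn i).le
        _ = ℓ / n := by rw [hℓ]; ring
    have hsm : ∀ i < n, ‖(P (i + 1) - D (i + 1)) - (P i - D i)‖ ≤ ℓ / n := by
      intro i hi
      have h1 : (P (i + 1) - D (i + 1)) - (P i - D i) =
        (P (i + 1) - P i) - (D (i + 1) - D i) := by abel
      rw [h1]
      calc _ ≤ ‖P (i + 1) - P i‖ + ‖D (i + 1) - D i‖ := norm_sub_le _ _
        _ ≤ L * ‖u - x‖ / n + V / n := add_le_add (hPs i hi) (hΔDn i).le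
        _ = ℓ / n := by rw [hℓ]; ring
    have hsP : ∀ i < n, ‖P (i + 1) - P i‖ ≤ ℓ / n := fun i hi ↦
      (hPs i hi).trans (by gcongr)
    have up := chain_upper' (Q := fun i ↦ P i + D i) hε.le has hn hQp hsp hn'
    have um := chain_upper' (Q := fun i ↦ P i - D i) hε.le has hn hQm hsm hn'
    have lo := chain_lower' hε.le has hn hPR' hsP hn' hPd
    have hD0 : D 0 = 0 := by rw [hD]; simp
    have hDn : D n = v := by
      rw [hD]
      simp only
      rw [div_self hnr.ne', one_smul]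
    simp only [hP0, hPn, hD0, hDn, add_zero, sub_zero] at up um
    have hkey := h.key_expansion hxR (A := P) (D := D) hn hℓ0 (S := V ^ 2) (by positivity)
      (fun i hi ↦ hQp i hi.le) (fun i hi ↦ hQm i hi.le)
      (fun i hi ↦ by
        rw [add_sub_right_comm, hℓ]
        exact (norm_add_le _ _).trans (add_le_add (hPx i hi.le) (hδ i hi.le)))
      (fun i hi ↦ by
        rw [sub_right_comm, hℓ]
        exact (norm_sub_le _ _).trans (add_le_add (hPx i hi.le) (hδ i hi.le)))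
      hsP (by
        rw [sum_congr rfl (fun i _ ↦ by rw [hΔDn i]), sum_const, card_range, nsmul_eq_mul]
        apply le_of_eq
        field_simp)
      (fun i hi ↦ by
        have := hδ i hi.le
        gcongr)
    have hGx : (n : ℝ) * ∑ i ∈ range n, G x (D (i + 1) - D i) (D (i + 1) - D i) = G x v v := by
      rw [sum_congr rfl (fun i _ ↦ by rw [hΔD i]), sum_const, card_range, nsmul_eq_mul]
      simp only [map_smul, smul_apply, smul_eq_mul]
      field_simp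
    rw [hGx, sum_sub_distrib, sum_add_distrib, ← mul_sum] at hkey
    have e1 : ∑ i ∈ range n, G (P i + D i) (P (i + 1) + D (i + 1) - (P i + D i))
        (P (i + 1) + D (i + 1) - (P i + D i)) =
        ∑ i ∈ range n, G (P i + D i) ((P (i + 1) - P i) + (D (i + 1) - D i))
        ((P (i + 1) - P i) + (D (i + 1) - D i)) := by
      apply sum_congr rfl
      intro i _
      rw [add_sub_add_comm]
    have e2 : ∑ i ∈ range n, G (P i - D i) (P (i + 1) - D (i + 1) - (P i - D i))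
        (P (i + 1) - D (i + 1) - (P i - D i)) =
        ∑ i ∈ range n, G (P i - D i) ((P (i + 1) - P i) - (D (i + 1) - D i))
        ((P (i + 1) - P i) - (D (i + 1) - D i)) := by
      apply sum_congr rfl
      intro i _
      rw [sub_sub_sub_comm]
    rw [e1] at up
    rw [e2] at um
    have := (abs_le.1 hkey).2
    linarith
  refine key.trans ?_
  have hsum : ‖u - x‖ + V ≤ R / 2 := by linarith
  have hsum0 : 0 ≤ ‖u - x‖ + V := by positivity
  have h1 : ℓ ≤ (L + 1) * (‖u - x‖ + V) := by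
    rw [hℓ]
    nlinarith [norm_nonneg (u - x)]
  have h2 : ℓ + 6 ≤ (L + 1) * R + 6 := by
    have : (L + 1) * (‖u - x‖ + V) ≤ (L + 1) * R := by gcongr; linarith
    linarith
  have h3 : C * V ^ 2 * (ℓ * (ℓ + 6)) ≤
      C * (L + 1) * ((L + 1) * R + 6) * (‖u - x‖ + V) * V ^ 2 := by
    calc C * V ^ 2 * (ℓ * (ℓ + 6)) ≤
          C * V ^ 2 * (((L + 1) * (‖u - x‖ + V)) * ((L + 1) * R + 6)) := by gcongr
      _ = _ := by ring
  linarith

end Pool.Agent.Helper95
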