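import Pool.Agent.Helper95.Energy4

open Set Filter Finset
open scoped Topology

namespace Pool.Agent.Helper95

variable {E : Type*} [NormedAddCommGroup E] [NormedSpace ℝ E]
  {M : Type*} [MetricSpace M]
  {e : E → M} {a : E} {R : ℝ} {G : E → E →L[ℝ] E →L[ℝ] ℝ} {c C : ℝ}

/-- discrete Jensen inequality for a positive semidefinite form -/
lemma jensen_form (g : E →L[ℝ] E →L[ℝ] ℝ) (hg : ∀ v w, g v w = g w v)
    (hpos : ∀ v, 0 ≤ g v v) {n : ℕ} (hn : 0 < n) (w : ℕ → E) :
    g (∑ i ∈ range n, w i) (∑ i ∈ range n, w i) ≤ n * ∑ i ∈ range n, g (w i) (w i) := by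
  have hnr : (0 : ℝ) < n := by exact_mod_cast hn
  set s := ∑ i ∈ range n, w i with hs
  have h1 : 0 ≤ ∑ i ∈ range n, g (w i - (1 / (n : ℝ)) • s) (w i - (1 / (n : ℝ)) • s) :=
    Finset.sum_nonneg (fun i _ ↦ hpos _)
  have h2 : ∑ i ∈ range n, g (w i - (1 / (n : ℝ)) • s) (w i - (1 / (n : ℝ)) • s) =
      ∑ i ∈ range n, g (w i) (w i) - (1 / n) * g s s := by
    have h3 : ∀ i ∈ range n, g (w i - (1 / (n : ℝ)) • s) (w i - (1 / (n : ℝ)) • s) =
        g (w i) (w i) - (2 / n) * g (w i) s + (1 / n ^ 2) * g s s := by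
      intro i _
      rw [expand_sq_sub g hg]
      simp only [map_smul, smul_apply, smul_eq_mul]
      ring
    rw [sum_congr rfl h3, sum_add_distrib, sum_sub_distrib, ← mul_sum, sum_const, card_range,
      nsmul_eq_mul]
    have h4 : ∑ i ∈ range n, g (w i) s = g s s := by
      calc ∑ i ∈ range n, g (w i) s = (∑ i ∈ range n, g (w i)) s := by
            rw [_root_.sum_apply]
        _ = g s s := by rw [← map_sum]
    rw [h4]
    field_simp
    ring
  rw [h2] at h1
  calc g s s = n * ((1 / n) * g s s) := by field_simp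
    _ ≤ n * ∑ i ∈ range n, g (w i) (w i) := by gcongr; linarith

/-- lower bound for second differences of the squared distance -/
lemma IsGoodChart.second_lower (h : IsGoodChart e a R G c C) (hM : HasProportions M) :
    ∃ r > 0, ∃ K > 0, r ≤ R ∧ ∀ x u v : E, x ∈ Metric.closedBall a r →
      u ∈ Metric.closedBall a r → u + v ∈ Metric.closedBall a r →
      u - v ∈ Metric.closedBall a r →
      2 * dist (e x) (e u) ^ 2 + 2 * G x v v ≤
        dist (e x) (e (u + v)) ^ 2 + dist (e x) (e (u - v)) ^ 2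
          + K * (‖u - x‖ + ‖v‖) * ‖v‖ ^ 2 := by
  obtain ⟨r0, hr0, hr0R, hch⟩ := h.exists_chain hM
  have hR := h.R_pos
  have hc := h.c_pos
  have hC := h.C_pos
  obtain ⟨L, hL⟩ : ∃ L, L = C / c := ⟨_, rfl⟩
  rw [← hL] at hch
  have hL0 : 0 < L := by rw [hL]; positivity
  refine ⟨min r0 (min (1 / (4 * L)) (c / (28 * C * L))), by positivity,
    7 * (C / c) * L * C, by positivity, (min_le_left _ _).trans hr0R, ?_⟩
  intro x u v hx hu hup hum
  obtain ⟨r, hr⟩ : ∃ r, r = min r0 (min (1 / (4 * L)) (c / (28 * C * L))) := ⟨_, rfl⟩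
  rw [← hr] at hx hu hup hum
  have hr1 : r ≤ r0 := hr ▸ min_le_left _ _
  have hr2 : r ≤ 1 / (4 * L) := hr ▸ (min_le_right _ _).trans (min_le_left _ _)
  have hr3 : r ≤ c / (28 * C * L) := hr ▸ (min_le_right _ _).trans (min_le_right _ _)
  have hr1R : r ≤ R := hr1.trans hr0R
  have hx0 := Metric.closedBall_subset_closedBall hr1 hx
  have hup0 := Metric.closedBall_subset_closedBall hr1 hup
  have hum0 := Metric.closedBall_subset_closedBall hr1 hum
  have hxR : x ∈ Metric.closedBall a R :=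
    Metric.closedBall_subset_closedBall (by linarith) hx
  obtain ⟨V, hV⟩ : ∃ V, V = ‖v‖ := ⟨_, rfl⟩
  have hV0 : 0 ≤ V := hV ▸ norm_nonneg _
  have hvr : V ≤ 2 * r := by
    have h1 := norm_sub_le_of_mem hup hu
    rwa [add_sub_cancel_left, ← hV] at h1
  have hux : ‖u - x‖ ≤ 2 * r := norm_sub_le_of_mem hu hx
  rw [← hV]
  obtain ⟨ℓ, hℓ⟩ : ∃ ℓ, ℓ = L * (‖u - x‖ + V) := ⟨_, rfl⟩
  have hℓ0 : 0 ≤ ℓ := by rw [hℓ]; positivity
  have hℓr : ℓ ≤ L * (4 * r) := by rw [hℓ]; gcongr; linarith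
  have hℓ1 : ℓ ≤ 1 := by
    calc ℓ ≤ L * (4 * r) := hℓr
      _ ≤ L * (4 * (1 / (4 * L))) := by gcongr
      _ = 1 := by field_simp
  have hκ : C / c * (7 * ℓ) ≤ 1 := by
    calc C / c * (7 * ℓ) ≤ C / c * (7 * (L * (4 * r))) := by gcongr
      _ ≤ C / c * (7 * (L * (4 * (c / (28 * C * L))))) := by gcongr
      _ = 1 := by field_simp; norm_num
  have hκ0 : 0 ≤ C / c * (7 * ℓ) := by positivity
  have key : 2 * dist (e x) (e u) ^ 2 + 2 * G x v v ≤
        dist (e x) (e (u + v)) ^ 2 + dist (e x) (e (u - v)) ^ 2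
          + C / c * (7 * ℓ) * (C * V ^ 2) := by
    apply le_of_forall_eps (K := 4 * ℓ ^ 2) (by positivity)
    intro ε hε
    obtain ⟨η, hη, has⟩ := h.asymp ε hε
    obtain ⟨n, hn, hn'⟩ := exists_nat_div_lt (a := ℓ) hη
    have hnr : (0 : ℝ) < n := by exact_mod_cast hn
    obtain ⟨P, hP0, hPn, hPR, hPd, hPx, hPs⟩ := hch x hx0 (u + v) hup0 n hn
    obtain ⟨Q, hQ0, hQn, hQR, hQd, hQx, hQs⟩ := hch x hx0 (u - v) hum0 n hn
    have hPl : L * ‖u + v - x‖ ≤ ℓ := by
      rw [hℓ, add_sub_right_comm, hV]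
      gcongr
      exact norm_add_le _ _
    have hQl : L * ‖u - v - x‖ ≤ ℓ := by
      rw [hℓ, sub_right_comm, hV]
      gcongr
      exact norm_sub_le _ _
    have hPR' : ∀ i ≤ n, P i ∈ Metric.closedBall a R := fun i hi ↦
      Metric.closedBall_subset_closedBall (by linarith) (hPR i hi)
    have hQR' : ∀ i ≤ n, Q i ∈ Metric.closedBall a R := fun i hi ↦
      Metric.closedBall_subset_closedBall (by linarith) (hQR i hi)
    have hsP : ∀ i < n, ‖P (i + 1) - P i‖ ≤ ℓ / n := fun i hi ↦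
      (hPs i hi).trans (by gcongr)
    have hsQ : ∀ i < n, ‖Q (i + 1) - Q i‖ ≤ ℓ / n := fun i hi ↦
      (hQs i hi).trans (by gcongr)
    obtain ⟨A, hA⟩ : ∃ A : ℕ → E, A = fun i : ℕ ↦ (1 / 2 : ℝ) • (P i + Q i) := ⟨_, rfl⟩
    obtain ⟨D, hD⟩ : ∃ D : ℕ → E, D = fun i : ℕ ↦ (1 / 2 : ℝ) • (P i - Q i) := ⟨_, rfl⟩
    have hAD : ∀ i, A i + D i = P i := by
      intro i; rw [hA, hD]; simp only; module
    have hAD' : ∀ i, A i - D i = Q i := by
      intro i; rw [hA, hD]; simp only; module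
    have hAR : ∀ i ≤ n, A i ∈ Metric.closedBall a R := by
      intro i hi
      have h1 := (convex_closedBall a R) (hPR' i hi) (hQR' i hi) (a := 1 / 2) (b := 1 / 2)
        (by norm_num) (by norm_num) (by norm_num)
      rw [hA]
      simp only [smul_add]
      exact h1
    have hΔA : ∀ i, A (i + 1) - A i = (1 / 2 : ℝ) • ((P (i + 1) - P i) + (Q (i + 1) - Q i)) := by
      intro i; rw [hA]; simp only; module
    have hsA : ∀ i < n, ‖A (i + 1) - A i‖ ≤ ℓ / n := by
      intro i hi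
      rw [hΔA i, norm_smul, Real.norm_eq_abs, abs_of_pos (by norm_num : (0 : ℝ) < 1 / 2)]
      have := norm_add_le (P (i + 1) - P i) (Q (i + 1) - Q i)
      linarith [hsP i hi, hsQ i hi]
    have hA0 : A 0 = x := by
      rw [hA]; simp only [hP0, hQ0]; module
    have hAn : A n = u := by
      rw [hA]; simp only [hPn, hQn]; module
    have hD0 : D 0 = 0 := by
      rw [hD]; simp only [hP0, hQ0]; module
    have hDn : D n = v := by
      rw [hD]; simp only [hPn, hQn]; module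
    have up := chain_upper' hε.le has hn hAR hsA hn'
    have loP := chain_lower' hε.le has hn hPR' hsP hn' hPd
    have loQ := chain_lower' hε.le has hn hQR' hsQ hn' hQd
    rw [hA0, hAn] at up
    obtain ⟨S, hS⟩ : ∃ S : ℝ, S = n * ∑ i ∈ range n, ‖D (i + 1) - D i‖ ^ 2 := ⟨_, rfl⟩
    have hS0 : 0 ≤ S := by rw [hS]; positivity
    have hDS : ∀ i < n, ‖D i‖ ^ 2 ≤ S := by
      intro i hi
      have h1 : D i = ∑ j ∈ range i, (D (j + 1) - D j) := by
        rw [Finset.sum_range_sub, hD0, sub_zero]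
      have h2 : ‖D i‖ ≤ ∑ j ∈ range n, ‖D (j + 1) - D j‖ := by
        calc ‖D i‖ = ‖∑ j ∈ range i, (D (j + 1) - D j)‖ := by rw [← h1]
          _ ≤ ∑ j ∈ range i, ‖D (j + 1) - D j‖ := norm_sum_le _ _
          _ ≤ _ := Finset.sum_le_sum_of_subset_of_nonneg (Finset.range_mono hi.le)
            (fun _ _ _ ↦ norm_nonneg _)
      calc ‖D i‖ ^ 2 ≤ (∑ j ∈ range n, ‖D (j + 1) - D j‖) ^ 2 := by gcongr
        _ ≤ S := by rw [hS]; exact sq_sum_range_le n _
    have hkey := h.key_expansion hxR (A := A) (D := D) hn hℓ0 hS0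
      (fun i hi ↦ by rw [hAD]; exact hPR' i hi.le)
      (fun i hi ↦ by rw [hAD']; exact hQR' i hi.le)
      (fun i hi ↦ by rw [hAD]; exact (hPx i hi.le).trans hPl)
      (fun i hi ↦ by rw [hAD']; exact (hQx i hi.le).trans hQl)
      hsA hS.ge hDS
    obtain ⟨T, hT⟩ : ∃ T : ℝ, T = n * ∑ i ∈ range n, G x (D (i + 1) - D i) (D (i + 1) - D i) :=
      ⟨_, rfl⟩
    have hTS : c * S ≤ T := by
      rw [hT, hS]
      calc c * (n * ∑ i ∈ range n, ‖D (i + 1) - D i‖ ^ 2) =
            n * ∑ i ∈ range n, c * ‖D (i + 1) - D i‖ ^ 2 := by rw [← mul_sum]; ring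
        _ ≤ _ := by
          gcongr with i hi
          exact h.lower x hxR _
    have hTv : G x v v ≤ T := by
      have h1 := jensen_form (G x) (h.symm x hxR)
        (fun w ↦ (by positivity : (0 : ℝ) ≤ c * ‖w‖ ^ 2).trans (h.lower x hxR w)) hn
        (fun i ↦ D (i + 1) - D i)
      rw [Finset.sum_range_sub, hD0, hDn, sub_zero] at h1
      rw [hT]; exact h1
    have hTv0 : 0 ≤ G x v v := (by positivity : (0 : ℝ) ≤ c * ‖v‖ ^ 2).trans (h.lower x hxR v)
    have hGv : G x v v ≤ C * V ^ 2 := by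
      refine (le_abs_self _).trans ((h.upper x hxR v v).trans ?_)
      rw [hV]; apply le_of_eq; ring
    have herr : C * S * (ℓ * (ℓ + 6)) ≤ C / c * (7 * ℓ) * T := by
      have hT0 : 0 ≤ T := hTv0.trans hTv
      have h1 : S ≤ T / c := by
        rw [le_div_iff₀ hc]; linarith
      calc C * S * (ℓ * (ℓ + 6)) ≤ C * (T / c) * (ℓ * (1 + 6)) := by gcongr
        _ = _ := by ring
    rw [← hT, sum_sub_distrib, sum_add_distrib, ← mul_sum] at hkey
    have e1 : ∑ i ∈ range n, G (A i + D i) ((A (i + 1) - A i) + (D (i + 1) - D i))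
        ((A (i + 1) - A i) + (D (i + 1) - D i)) =
        ∑ i ∈ range n, G (P i) (P (i + 1) - P i) (P (i + 1) - P i) := by
      apply sum_congr rfl
      intro i _
      rw [← add_sub_add_comm, hAD, hAD]
    have e2 : ∑ i ∈ range n, G (A i - D i) ((A (i + 1) - A i) - (D (i + 1) - D i))
        ((A (i + 1) - A i) - (D (i + 1) - D i)) =
        ∑ i ∈ range n, G (Q i) (Q (i + 1) - Q i) (Q (i + 1) - Q i) := by
      apply sum_congr rfl
      intro i _
      rw [← sub_sub_sub_comm, hAD', hAD']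
    rw [e1, e2] at hkey
    have hk := (abs_le.1 hkey).1
    -- (2 - κ) T ≥ (2 - κ) G v v
    have h5 : (2 - C / c * (7 * ℓ)) * G x v v ≤ (2 - C / c * (7 * ℓ)) * T := by
      apply mul_le_mul_of_nonneg_left hTv
      linarith
    have h6 : C / c * (7 * ℓ) * G x v v ≤ C / c * (7 * ℓ) * (C * V ^ 2) :=
      mul_le_mul_of_nonneg_left hGv hκ0
    nlinarith [h5, h6, hk, herr, up, loP, loQ]
  refine key.trans ?_
  apply le_of_eq
  rw [hℓ]
  ring

end Pool.Agent.Helper95
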