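import Pool.Agent.Helper95.Energy5

open Set Filter
open scoped Topology

namespace Pool.Agent.Helper95

variable {E : Type*} [NormedAddCommGroup E] [NormedSpace ℝ E]
  {M : Type*} [MetricSpace M]
  {e : E → M} {a : E} {R : ℝ} {G : E → E →L[ℝ] E →L[ℝ] ℝ} {c C : ℝ}

/-- the metric midpoint is quadratically close to the midpoint in the chart -/
lemma IsGoodChart.midpoint_close (h : IsGoodChart e a R G c C) (hM : HasProportions M) :
    ∃ r > 0, ∃ K > 0, r ≤ R ∧ ∀ m u v : E, m ∈ Metric.closedBall a r →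
      u ∈ Metric.closedBall a r → u + v ∈ Metric.closedBall a r →
      u - v ∈ Metric.closedBall a r →
      dist (e (u - v)) (e m) = dist (e (u - v)) (e (u + v)) / 2 →
      dist (e m) (e (u + v)) = dist (e (u - v)) (e (u + v)) / 2 →
      ‖m - u‖ ≤ K * ‖v‖ ^ 2 := by
  obtain ⟨r, hr, K, hK, hrR, hfo⟩ := h.first_order hM
  have hR := h.R_pos
  have hc := h.c_pos
  have hC := h.C_pos
  obtain ⟨L, hL⟩ : ∃ L, L = C / c := ⟨_, rfl⟩
  have hL0 : 0 < L := by rw [hL]; positivity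
  refine ⟨r, hr, (2 * C + K * (2 * L + 1) ^ 2) / c, by positivity, hrR, ?_⟩
  intro m u v hm hu hup hum hd1 hd2
  have hsub := Metric.closedBall_subset_closedBall (x := a) hrR
  have hmR := hsub hm
  have huR := hsub hu
  have hupR := hsub hup
  have humR := hsub hum
  obtain ⟨w, hw⟩ : ∃ w, w = m - u := ⟨_, rfl⟩
  have hmu : m = u + w := by rw [hw]; abel
  obtain ⟨V, hV⟩ : ∃ V, V = ‖v‖ := ⟨_, rfl⟩
  have hV0 : 0 ≤ V := hV ▸ norm_nonneg _
  obtain ⟨W, hW⟩ : ∃ W, W = ‖w‖ := ⟨_, rfl⟩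
  have hW0 : 0 ≤ W := hW ▸ norm_nonneg _
  -- distance bounds
  have h2v : ‖(u - v) - (u + v)‖ = 2 * V := by
    have : (u - v) - (u + v) = (-2 : ℝ) • v := by module
    rw [this, norm_smul, hV]; norm_num
  have hdyz : dist (e (u - v)) (e (u + v)) ≤ 2 * C * V := by
    have := h.dist_upper _ humR _ hupR
    rw [h2v] at this
    linarith
  have hn1 : ‖m - (u - v)‖ ≤ L * V := by
    have h1 := h.dist_lower _ humR _ hmR
    rw [hd1, norm_sub_rev] at h1
    have h2 : c * ‖m - (u - v)‖ ≤ C * V := by linarith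
    calc ‖m - (u - v)‖ = (c * ‖m - (u - v)‖) / c := by field_simp
      _ ≤ (C * V) / c := by gcongr
      _ = L * V := by rw [hL]; ring
  have hn2 : ‖m - (u + v)‖ ≤ L * V := by
    have h1 := h.dist_lower _ hmR _ hupR
    rw [hd2] at h1
    have h2 : c * ‖m - (u + v)‖ ≤ C * V := by linarith
    calc ‖m - (u + v)‖ = (c * ‖m - (u + v)‖) / c := by field_simp
      _ ≤ (C * V) / c := by gcongr
      _ = L * V := by rw [hL]; ring
  have hWV : W ≤ (L + 1) * V := by
    have h1 : w = (m - (u - v)) - v := by rw [hw]; abel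
    calc W = ‖(m - (u - v)) - v‖ := by rw [hW, ← h1]
      _ ≤ ‖m - (u - v)‖ + ‖v‖ := norm_sub_le _ _
      _ ≤ L * V + V := by rw [← hV]; linarith
      _ = _ := by ring
  have hmw : m + -w = u := by rw [hw]; abel
  have f1 := hfo (u - v) m (-w) hum hm (by rw [hmw]; exact hu)
  have f2 := hfo (u + v) m (-w) hup hm (by rw [hmw]; exact hu)
  rw [hmw, norm_neg, ← hW] at f1 f2
  have g1 : K * W * (‖m - (u - v)‖ + W) ^ 2 ≤ K * W * ((2 * L + 1) * V) ^ 2 := by
    gcongr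
    calc _ ≤ L * V + (L + 1) * V := add_le_add hn1 hWV
      _ = _ := by ring
  have g2 : K * W * (‖m - (u + v)‖ + W) ^ 2 ≤ K * W * ((2 * L + 1) * V) ^ 2 := by
    gcongr
    calc _ ≤ L * V + (L + 1) * V := add_le_add hn2 hWV
      _ = _ := by ring
  have e1 : G (u - v) (m - (u - v)) (-w) = -(G (u - v) v w + G (u - v) w w) := by
    have : m - (u - v) = v + w := by rw [hmu]; abel
    rw [this]
    simp only [map_add, map_neg, add_apply]
  have e2 : G (u + v) (m - (u + v)) (-w) = G (u + v) v w - G (u + v) w w := by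
    have : m - (u + v) = -v + w := by rw [hmu]; abel
    rw [this]
    simp only [map_add, map_neg, add_apply, neg_apply]
    ring
  have e3 : G (u - v) (-w) (-w) = G (u - v) w w := by simp
  have e4 : G (u + v) (-w) (-w) = G (u + v) w w := by simp
  rw [e1, e3] at f1
  rw [e2, e4] at f2
  have l1 := h.lower _ humR w
  have l2 := h.lower _ hupR w
  have l3 := (abs_le.1 (h.lip _ hupR _ humR v w)).2
  have h2v' : ‖(u + v) - (u - v)‖ = 2 * V := by rw [norm_sub_rev]; exact h2v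
  rw [h2v', ← hV, ← hW] at l3
  rw [← hW] at l1 l2
  -- the midpoint minimizes
  have hmin : dist (e (u - v)) (e (u + v)) ^ 2 / 2 ≤
      dist (e (u - v)) (e u) ^ 2 + dist (e (u + v)) (e u) ^ 2 := by
    have h1 := dist_triangle_right (e (u - v)) (e (u + v)) (e u)
    have h3 : dist (e (u - v)) (e (u + v)) ^ 2 ≤
      (dist (e (u - v)) (e u) + dist (e (u + v)) (e u)) ^ 2 := by gcongr
    nlinarith [sq_nonneg (dist (e (u - v)) (e u) - dist (e (u + v)) (e u))]
  rw [hd1] at f1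
  rw [dist_comm (e (u + v)) (e m), hd2] at f2
  have main : c * W ^ 2 ≤ (2 * C + K * (2 * L + 1) ^ 2) * V ^ 2 * W := by
    nlinarith [f1, f2, g1, g2, l1, l2, l3, hmin]
  rw [← hw, ← hW, ← hV]
  rcases eq_or_lt_of_le hW0 with h0 | h0
  · rw [← h0]; positivity
  · have h1 : c * W ≤ (2 * C + K * (2 * L + 1) ^ 2) * V ^ 2 := by
      have : W * (c * W) ≤ W * ((2 * C + K * (2 * L + 1) ^ 2) * V ^ 2) := by nlinarith
      exact le_of_mul_le_mul_left this h0
    calc W = (c * W) / c := by field_simp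
      _ ≤ ((2 * C + K * (2 * L + 1) ^ 2) * V ^ 2) / c := by gcongr
      _ = _ := by ring

/-- almost Euclidean parallelogram law near the base point of a good chart -/
lemma IsGoodChart.parallelogram (h : IsGoodChart e a R G c C) (hM : HasProportions M)
    {ε : ℝ} (hε : 0 < ε) :
    ∃ ρ > 0, ∀ x y z m : M, dist x (e a) < ρ → dist y (e a) < ρ → dist z (e a) < ρ →
      dist m (e a) < ρ → dist y m = dist y z / 2 → dist m z = dist y z / 2 →
      |2 * dist x m ^ 2 - dist x y ^ 2 - dist x z ^ 2 + dist y z ^ 2 / 2| ≤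
        ε * dist y z ^ 2 := by
  obtain ⟨r1, hr1, K1, hK1, hr1R, hmid⟩ := h.midpoint_close hM
  obtain ⟨r2, hr2, K2, hK2, hr2R, hsu⟩ := h.second_upper hM
  obtain ⟨r3, hr3, K3, hK3, hr3R, hsl⟩ := h.second_lower hM
  have hR := h.R_pos
  have hc := h.c_pos
  have hC := h.C_pos
  obtain ⟨η, hη, has⟩ := h.asymp (ε * c ^ 2) (by positivity)
  -- total error coefficient
  obtain ⟨B, hB⟩ : ∃ B : ℝ, B = 8 * C ^ 2 * K1 + 4 * K2 + 4 * K3 + 4 * C + 1 := ⟨_, rfl⟩
  have hB0 : 0 < B := by rw [hB]; positivity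
  obtain ⟨r, hr, hrr1, hrr2, hrr3, hrη, hrB⟩ : ∃ r > 0, r ≤ r1 ∧ r ≤ r2 ∧ r ≤ r3 ∧
      2 * r < η ∧ B * r ≤ 2 * ε * c ^ 2 := by
    refine ⟨min (min r1 r2) (min r3 (min (η / 4) (2 * ε * c ^ 2 / B))), by positivity,
      (min_le_left _ _).trans (min_le_left _ _), (min_le_left _ _).trans (min_le_right _ _),
      (min_le_right _ _).trans (min_le_left _ _), ?_, ?_⟩
    · have : min (min r1 r2) (min r3 (min (η / 4) (2 * ε * c ^ 2 / B))) ≤ η / 4 :=
        (min_le_right _ _).trans ((min_le_right _ _).trans (min_le_left _ _))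
      linarith
    · have : min (min r1 r2) (min r3 (min (η / 4) (2 * ε * c ^ 2 / B))) ≤
          2 * ε * c ^ 2 / B :=
        (min_le_right _ _).trans ((min_le_right _ _).trans (min_le_right _ _))
      calc _ ≤ B * (2 * ε * c ^ 2 / B) := by gcongr
        _ = _ := by field_simp
  obtain ⟨ρ, hρ, hsurj⟩ := h.surj r hr
  refine ⟨ρ, hρ, ?_⟩
  intro x y z m hx hy hz hm hd1 hd2
  obtain ⟨px, hpx, rfl⟩ := hsurj x hx
  obtain ⟨py, hpy, rfl⟩ := hsurj y hy
  obtain ⟨pz, hpz, rfl⟩ := hsurj z hz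
  obtain ⟨pm, hpm, rfl⟩ := hsurj m hm
  obtain ⟨u, hu⟩ : ∃ u : E, u = (1 / 2 : ℝ) • py + (1 / 2 : ℝ) • pz := ⟨_, rfl⟩
  obtain ⟨v, hv⟩ : ∃ v : E, v = (1 / 2 : ℝ) • (pz - py) := ⟨_, rfl⟩
  have hy' : u - v = py := by rw [hu, hv]; module
  have hz' : u + v = pz := by rw [hu, hv]; module
  have huB : u ∈ Metric.closedBall a r := by
    rw [hu]
    exact (convex_closedBall a r) hpy hpz (by norm_num) (by norm_num) (by norm_num)
  obtain ⟨V, hV⟩ : ∃ V, V = ‖v‖ := ⟨_, rfl⟩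
  have hV0 : 0 ≤ V := hV ▸ norm_nonneg _
  have hrR : r ≤ R := hrr1.trans hr1R
  have up1 : ∀ q ∈ Metric.closedBall a r, q ∈ Metric.closedBall a r1 := fun q hq ↦
    Metric.closedBall_subset_closedBall hrr1 hq
  have up2 : ∀ q ∈ Metric.closedBall a r, q ∈ Metric.closedBall a r2 := fun q hq ↦
    Metric.closedBall_subset_closedBall hrr2 hq
  have up3 : ∀ q ∈ Metric.closedBall a r, q ∈ Metric.closedBall a r3 := fun q hq ↦
    Metric.closedBall_subset_closedBall hrr3 hq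
  have upR : ∀ q ∈ Metric.closedBall a r, q ∈ Metric.closedBall a R := fun q hq ↦
    Metric.closedBall_subset_closedBall hrR hq
  rw [← hy', ← hz'] at hd1 hd2 ⊢
  rw [← hy'] at hpy
  rw [← hz'] at hpz
  -- step 1
  have s1 := hmid pm u v (up1 _ hpm) (up1 _ huB) (up1 _ hpz) (up1 _ hpy) hd1 hd2
  rw [← hV] at s1
  -- step 2
  have s2 : |dist (e px) (e pm) ^ 2 - dist (e px) (e u) ^ 2| ≤ 4 * C ^ 2 * K1 * r * V ^ 2 := by
    have a1 : dist (e px) (e pm) ≤ 2 * C * r := by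
      refine (h.dist_upper _ (upR _ hpx) _ (upR _ hpm)).trans ?_
      have := norm_sub_le_of_mem hpx hpm
      calc C * ‖px - pm‖ ≤ C * (2 * r) := by gcongr
        _ = _ := by ring
    have a2 : dist (e px) (e u) ≤ 2 * C * r := by
      refine (h.dist_upper _ (upR _ hpx) _ (upR _ huB)).trans ?_
      have := norm_sub_le_of_mem hpx huB
      calc C * ‖px - u‖ ≤ C * (2 * r) := by gcongr
        _ = _ := by ring
    have a3 : dist (e pm) (e u) ≤ C * (K1 * V ^ 2) := by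
      refine (h.dist_upper _ (upR _ hpm) _ (upR _ huB)).trans ?_
      gcongr
    have a4 : |dist (e px) (e pm) - dist (e px) (e u)| ≤ dist (e pm) (e u) := by
      rw [dist_comm (e px) (e pm), dist_comm (e px) (e u)]
      exact abs_dist_sub_le _ _ _
    have a5 : dist (e px) (e pm) ^ 2 - dist (e px) (e u) ^ 2 =
        (dist (e px) (e pm) - dist (e px) (e u)) * (dist (e px) (e pm) + dist (e px) (e u)) := by
      ring
    rw [a5, abs_mul, abs_of_nonneg (by positivity : 0 ≤ dist (e px) (e pm) + dist (e px) (e u))]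
    calc _ ≤ (C * (K1 * V ^ 2)) * (2 * C * r + 2 * C * r) := by
          gcongr
          exact a4.trans a3
      _ = _ := by ring
  -- step 3
  have hux : ‖u - px‖ ≤ 2 * r := norm_sub_le_of_mem huB hpx
  have hVr : V ≤ 2 * r := by
    have := norm_sub_le_of_mem hpz huB
    rwa [add_sub_cancel_left, ← hV] at this
  have s3 := hsu px u v (up2 _ hpx) (up2 _ huB) (up2 _ hpz) (up2 _ hpy)
  have s4 := hsl px u v (up3 _ hpx) (up3 _ huB) (up3 _ hpz) (up3 _ hpy)
  rw [← hV] at s3 s4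
  have b3 : K2 * (‖u - px‖ + V) * V ^ 2 ≤ K2 * (4 * r) * V ^ 2 := by gcongr; linarith
  have b4 : K3 * (‖u - px‖ + V) * V ^ 2 ≤ K3 * (4 * r) * V ^ 2 := by gcongr; linarith
  -- step 4
  have hzy : (u + v) - (u - v) = (2 : ℝ) • v := by module
  have hnorm : ‖(u + v) - (u - v)‖ = 2 * V := by
    rw [hzy, norm_smul, hV]; norm_num
  have s5 := has (u - v) (upR _ hpy) (u + v) (upR _ hpz) (by
    have := norm_sub_le_of_mem hpy hpz
    linarith)
  rw [hnorm, hzy] at s5
  have e5 : G (u - v) ((2 : ℝ) • v) ((2 : ℝ) • v) = 4 * G (u - v) v v := by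
    simp only [map_smul, smul_apply, smul_eq_mul]; ring
  rw [e5] at s5
  have s6 := h.lip (u - v) (upR _ hpy) px (upR _ hpx) v v
  have b6 : C * ‖(u - v) - px‖ * ‖v‖ * ‖v‖ ≤ C * (2 * r) * V * V := by
    rw [← hV]
    have := norm_sub_le_of_mem hpy hpx
    gcongr
  -- lower bound for the distance
  have s7 : c * (2 * V) ≤ dist (e (u - v)) (e (u + v)) := by
    have := h.dist_lower _ (upR _ hpy) _ (upR _ hpz)
    rwa [norm_sub_rev, hnorm] at this
  have s8 : 4 * c ^ 2 * V ^ 2 ≤ dist (e (u - v)) (e (u + v)) ^ 2 := by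
    calc 4 * c ^ 2 * V ^ 2 = (c * (2 * V)) ^ 2 := by ring
      _ ≤ _ := by gcongr
  have tot : |2 * dist (e px) (e pm) ^ 2 - dist (e px) (e (u - v)) ^ 2
      - dist (e px) (e (u + v)) ^ 2 + dist (e (u - v)) (e (u + v)) ^ 2 / 2| ≤
      (B * r) * V ^ 2 + 2 * (ε * c ^ 2) * V ^ 2 := by
    rw [abs_le] at s2 s5 s6 ⊢
    have hV2 : 0 ≤ V ^ 2 := by positivity
    have hrV : 0 ≤ r * V ^ 2 := by positivity
    have hK2V : 0 ≤ K2 * (r * V ^ 2) := by positivity
    have hK3V : 0 ≤ K3 * (r * V ^ 2) := by positivity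
    have hCV : 0 ≤ C * (r * V ^ 2) := by positivity
    have hK1V : 0 ≤ C ^ 2 * K1 * (r * V ^ 2) := by positivity
    rw [hB]
    constructor
    · nlinarith [s2.1, s2.2, s3, s4, b3, b4, s5.1, s5.2, s6.1, s6.2, b6]
    · nlinarith [s2.1, s2.2, s3, s4, b3, b4, s5.1, s5.2, s6.1, s6.2, b6]
  refine tot.trans ?_
  calc (B * r) * V ^ 2 + 2 * (ε * c ^ 2) * V ^ 2
      ≤ (2 * ε * c ^ 2) * V ^ 2 + 2 * (ε * c ^ 2) * V ^ 2 := by gcongr
    _ = ε * (4 * c ^ 2 * V ^ 2) := by ring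
    _ ≤ _ := by gcongr

end Pool.Agent.Helper95
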