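import Pool.Agent.Helper95.EulerDefs

open CategoryTheory AlgebraicTopology Limits

namespace Pool.Agent.Helper95

lemma congr_of_homology_equiv {X Y : Type} [TopologicalSpace X] [TopologicalSpace Y]
    (e : ∀ n, Nonempty ((singularComplex X).homology n ≃ₗ[ℚ] (singularComplex Y).homology n)) :
    (FiniteHomology X → FiniteHomology Y) ∧ eulerChar X = eulerChar Y := by
  constructor
  · rintro ⟨h1, N, h2⟩
    refine ⟨fun n ↦ ?_, N, fun n hn ↦ ?_⟩
    · obtain ⟨e⟩ := e n
      have := h1 n
      exact Module.Finite.equiv e
    · obtain ⟨e⟩ := e n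
      have := h2 n hn
      exact e.symm.injective.subsingleton
  · unfold eulerChar HomologicalComplex.homologyEulerChar GradedObject.eulerChar
    apply finsum_congr
    intro n
    obtain ⟨e⟩ := e n
    rw [LinearEquiv.finrank_eq e]

/-- the chain map induced by a continuous map -/
noncomputable def singularMap {X Y : Type} [TopologicalSpace X] [TopologicalSpace Y]
    (f : C(X, Y)) : singularComplex X ⟶ singularComplex Y :=
  ((singularChainComplexFunctor (ModuleCat.{0} ℚ)).obj (ModuleCat.of ℚ ℚ)).map (TopCat.ofHom f)

lemma singularMap_comp {X Y Z : Type} [TopologicalSpace X] [TopologicalSpace Y]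
    [TopologicalSpace Z] (f : C(X, Y)) (g : C(Y, Z)) :
    singularMap (g.comp f) = singularMap f ≫ singularMap g := by
  unfold singularMap
  rw [TopCat.ofHom_comp, Functor.map_comp]
  rfl

lemma singularMap_id {X : Type} [TopologicalSpace X] :
    singularMap (ContinuousMap.id X) = 𝟙 (singularComplex X) := by
  unfold singularMap
  rw [TopCat.ofHom_id, CategoryTheory.Functor.map_id]
  rfl

open HomologicalComplex in
lemma homologyMap_eq_of_homotopic {X Y : Type} [TopologicalSpace X] [TopologicalSpace Y]
    {f g : C(X, Y)} (H : f.Homotopic g) (n : ℕ) :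
    homologyMap (singularMap f) n = homologyMap (singularMap g) n := by
  obtain ⟨H⟩ := H
  exact TopCat.Homotopy.congr_homologyMap_singularChainComplexFunctor
    (f := TopCat.ofHom f) (g := TopCat.ofHom g) H (ModuleCat.of ℚ ℚ) n

open HomologicalComplex in
/-- homology is a homotopy invariant -/
lemma congr_of_homotopyEquiv {X Y : Type} [TopologicalSpace X] [TopologicalSpace Y]
    (e : ContinuousMap.HomotopyEquiv X Y) :
    (FiniteHomology X → FiniteHomology Y) ∧ eulerChar X = eulerChar Y := by
  apply congr_of_homology_equiv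
  intro n
  have h1 : homologyMap (singularMap e.toFun) n ≫ homologyMap (singularMap e.invFun) n = 𝟙 _ := by
    rw [← homologyMap_comp, ← singularMap_comp,
      homologyMap_eq_of_homotopic e.left_inv n, singularMap_id, homologyMap_id]
  have h2 : homologyMap (singularMap e.invFun) n ≫ homologyMap (singularMap e.toFun) n = 𝟙 _ := by
    rw [← homologyMap_comp, ← singularMap_comp,
      homologyMap_eq_of_homotopic e.right_inv n, singularMap_id, homologyMap_id]
  exact ⟨(Iso.mk _ _ h1 h2).toLinearEquiv⟩

lemma congr_of_homeomorph {X Y : Type} [TopologicalSpace X] [TopologicalSpace Y]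
    (e : X ≃ₜ Y) : (FiniteHomology X → FiniteHomology Y) ∧ eulerChar X = eulerChar Y :=
  congr_of_homotopyEquiv e.toHomotopyEquiv

/-- homology of discrete spaces -/
lemma discrete_homology (X : Type) [TopologicalSpace X] [TotallyDisconnectedSpace X]
    [Finite X] : FiniteHomology X ∧ eulerChar X = Nat.card X := by
  classical
  have := Fintype.ofFinite X
  have hz : ∀ n, n ≠ 0 → Subsingleton ((singularComplex X).homology n) := by
    intro n hn
    have h1 := isZero_singularHomologyFunctor_of_totallyDisconnectedSpace (ModuleCat.{0} ℚ) n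
      (ModuleCat.of ℚ ℚ) (TopCat.of X) hn
    exact ModuleCat.subsingleton_of_isZero h1
  have e0 : (singularComplex X).homology 0 ≃ₗ[ℚ] (X → ℚ) :=
    ((singularHomologyFunctorZeroOfTotallyDisconnectedSpace (ModuleCat.{0} ℚ)
      (ModuleCat.of ℚ ℚ) (TopCat.of X)) ≪≫
      (ModuleCat.coprodIsoDirectSum (fun _ : X ↦ ModuleCat.of ℚ ℚ))).toLinearEquiv ≪≫ₗ
      (DirectSum.linearEquivFunOnFintype ℚ X (fun _ ↦ ℚ))
  have hfin0 : Module.Finite ℚ ((singularComplex X).homology 0) := Module.Finite.equiv e0.symm
  refine ⟨⟨fun n ↦ ?_, 1, fun n hn ↦ hz n (by omega)⟩, ?_⟩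
  · rcases Nat.eq_zero_or_pos n with rfl | hn
    · exact hfin0
    · have := hz n (by omega)
      infer_instance
  · unfold eulerChar
    rw [HomologicalComplex.homologyEulerChar_eq_sum_finSet_of_finrankSupport_subset _ {0}]
    · rw [Finset.sum_singleton, LinearEquiv.finrank_eq e0, Module.finrank_fintype_fun_eq_card]
      simp
    · rw [GradedObject.finrankSupport_subset_iff]
      intro n hn
      have := hz n (by simpa using hn)
      exact Module.finrank_zero_of_subsingleton

lemma contractible_homology (X : Type) [TopologicalSpace X] [ContractibleSpace X] :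
    FiniteHomology X ∧ eulerChar X = 1 := by
  obtain ⟨e⟩ := ContractibleSpace.hequiv_unit X
  have h1 := discrete_homology Unit
  have h2 := congr_of_homotopyEquiv e.symm
  refine ⟨h2.1 h1.1, ?_⟩
  rw [← h2.2, h1.2]
  simp

lemma empty_homology (X : Type) [TopologicalSpace X] [IsEmpty X] :
    FiniteHomology X ∧ eulerChar X = 0 := by
  have h1 := discrete_homology X
  refine ⟨h1.1, ?_⟩
  rw [h1.2]
  simp

end Pool.Agent.Helper95
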