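import Mathlib

open Set

namespace Pool.Agent.Helper95

variable {G : Type*} [Group G]

lemma commute_closure {k : Set G} {a : G} (h : ∀ x ∈ k, a * x = x * a) :
    ∀ x ∈ Subgroup.closure k, a * x = x * a := by
  intro x hx
  induction hx using Subgroup.closure_induction with
  | mem x hx => exact h x hx
  | one => simp
  | mul x y _ _ ihx ihy => rw [← mul_assoc, ihx, mul_assoc, ihy, mul_assoc]
  | inv x _ ih =>
    rw [eq_inv_mul_iff_mul_eq, ← mul_assoc, ← ih, mul_assoc, mul_inv_cancel, mul_one]

lemma finite_closure_involutions {k : Set G} (hk : k.Finite) :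
    (∀ x ∈ k, x * x = 1) → (∀ x ∈ k, ∀ y ∈ k, x * y = y * x) →
    (Subgroup.closure k : Set G).Finite := by
  induction k, hk using Set.Finite.induction_on with
  | empty => intro _ _; simp
  | @insert a k _ _ ih =>
    intro hinv hcomm
    have h1 := ih (fun x hx ↦ hinv x (mem_insert_of_mem _ hx))
      (fun x hx y hy ↦ hcomm x (mem_insert_of_mem _ hx) y (mem_insert_of_mem _ hy))
    have ha : ∀ x ∈ Subgroup.closure k, a * x = x * a :=
      commute_closure (fun x hx ↦ hcomm a (mem_insert _ _) x (mem_insert_of_mem _ hx))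
    have haa : a * a = 1 := hinv a (mem_insert _ _)
    have hainv : a⁻¹ = a := inv_eq_of_mul_eq_one_left haa
    apply (h1.union (h1.image (fun x ↦ a * x))).subset
    intro x hx
    change x ∈ Subgroup.closure (insert a k) at hx
    induction hx using Subgroup.closure_induction with
    | mem x hx =>
      rcases hx with rfl | hx
      · right; exact ⟨1, one_mem _, mul_one _⟩
      · left; exact Subgroup.subset_closure hx
    | one => left; exact one_mem _
    | mul x y _ _ ihx ihy =>
      rcases ihx with ihx | ⟨x', hx', rfl⟩ <;> rcases ihy with ihy | ⟨y', hy', rfl⟩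
      · left; exact mul_mem ihx ihy
      · right
        refine ⟨x * y', mul_mem ihx hy', ?_⟩
        change a * (x * y') = x * (a * y')
        rw [← mul_assoc, ha x ihx, mul_assoc]
      · right
        refine ⟨x' * y, mul_mem hx' ihy, ?_⟩
        change a * (x' * y) = a * x' * y
        rw [mul_assoc]
      · left
        change a * x' * (a * y') ∈ Subgroup.closure k
        have : a * x' * (a * y') = x' * y' := by
          rw [ha x' hx', mul_assoc, ← mul_assoc a a, haa, one_mul]
        rw [this]
        exact mul_mem hx' hy'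
    | inv x _ ih =>
      rcases ih with ih | ⟨x', hx', rfl⟩
      · left; exact inv_mem ih
      · right
        refine ⟨x'⁻¹, inv_mem hx', ?_⟩
        change a * x'⁻¹ = (a * x')⁻¹
        rw [mul_inv_rev, hainv, ha _ (inv_mem hx')]

lemma sq_eq_one_of_mem_closure {k : Set G} (hinv : ∀ x ∈ k, x * x = 1)
    (hcomm : ∀ x ∈ k, ∀ y ∈ k, x * y = y * x) : ∀ x ∈ Subgroup.closure k, x * x = 1 := by
  have h1 : ∀ x ∈ k, ∀ y ∈ Subgroup.closure k, x * y = y * x := fun x hx ↦
    commute_closure (fun y hy ↦ hcomm x hx y hy)
  have h2 : ∀ y ∈ Subgroup.closure k, ∀ x ∈ Subgroup.closure k, y * x = x * y := fun y hy ↦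
    commute_closure (fun x hx ↦ (h1 x hx y hy).symm)
  intro x hx
  induction hx using Subgroup.closure_induction with
  | mem x hx => exact hinv x hx
  | one => simp
  | mul x y hx hy ihx ihy =>
    rw [mul_assoc, ← mul_assoc y x y, h2 y hy x hx, mul_assoc x y y, ihy, mul_one, ihx]
  | inv x hx ih => rw [← mul_inv_rev, ih, inv_one]

/-- a subgroup generated by finitely many commuting involutions is a finite `2`-group -/
lemma closure_involutions {k : Set G} (hk : k.Finite)
    (hinv : ∀ x ∈ k, x * x = 1) (hcomm : ∀ x ∈ k, ∀ y ∈ k, x * y = y * x) :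
    Finite (Subgroup.closure k) ∧ IsPGroup 2 (Subgroup.closure k) := by
  refine ⟨(finite_closure_involutions hk hinv hcomm).to_subtype, ?_⟩
  intro g
  refine ⟨1, ?_⟩
  rw [pow_one]
  apply Subtype.ext
  rw [pow_two]
  exact sq_eq_one_of_mem_closure hinv hcomm g g.2

end Pool.Agent.Helper95
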