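import Pool.Agent.Helper95.NiceDefs

open Set Filter
open scoped Topology

namespace Pool.Agent.Helper95

variable {M : Type*} [MetricSpace M] {ρ : ℝ}

namespace Nice

lemma upper (h : Nice M ρ) {x y z m : M} (hxy : dist x y < ρ) (hxz : dist x z < ρ)
    (h1 : dist y m = dist y z / 2) (h2 : dist m z = dist y z / 2) :
    2 * dist x m ^ 2 ≤ dist x y ^ 2 + dist x z ^ 2 - 7 / 16 * dist y z ^ 2 := by
  have := (abs_le.1 (h.par x y z m hxy hxz h1 h2)).2
  linarith

lemma lower (h : Nice M ρ) {x y z m : M} (hxy : dist x y < ρ) (hxz : dist x z < ρ)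
    (h1 : dist y m = dist y z / 2) (h2 : dist m z = dist y z / 2) :
    dist x y ^ 2 + dist x z ^ 2 - 9 / 16 * dist y z ^ 2 ≤ 2 * dist x m ^ 2 := by
  have := (abs_le.1 (h.par x y z m hxy hxz h1 h2)).1
  linarith

lemma exists_mid (h : Nice M ρ) (y z : M) :
    ∃ m, dist y m = dist y z / 2 ∧ dist m z = dist y z / 2 := by
  obtain ⟨m, h1, h2⟩ := h.prop y z (1 / 2) ⟨by norm_num, by norm_num⟩
  exact ⟨m, by linarith, by linarith⟩

/-- uniqueness of points at given proportion between near points -/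
lemma unique (h : Nice M ρ) {y z : M} (hyz : dist y z < ρ) {t : ℝ} (ht0 : 0 ≤ t) (ht1 : t ≤ 1)
    {a b : M} (ha1 : dist y a = t * dist y z) (ha2 : dist a z = (1 - t) * dist y z)
    (hb1 : dist y b = t * dist y z) (hb2 : dist b z = (1 - t) * dist y z) : a = b := by
  by_contra hne
  have hδ : 0 < dist a b := dist_pos.2 hne
  obtain ⟨m, hm1, hm2⟩ := h.exists_mid a b
  have hD : 0 ≤ dist y z := dist_nonneg
  have htD : t * dist y z ≤ dist y z := mul_le_of_le_one_left hD ht1
  have htD' : (1 - t) * dist y z ≤ dist y z := mul_le_of_le_one_left hD (by linarith)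
  have h1 := h.upper (x := y) (y := a) (z := b) (by linarith) (by linarith) hm1 hm2
  have h2 := h.upper (x := z) (y := a) (z := b) (by rw [dist_comm]; linarith)
    (by rw [dist_comm]; linarith) hm1 hm2
  rw [ha1, hb1] at h1
  rw [dist_comm z a, dist_comm z b, ha2, hb2] at h2
  have h3 : dist y m < t * dist y z := by
    apply lt_of_pow_lt_pow_left₀ 2 (by positivity)
    nlinarith [pow_pos hδ 2]
  have h4 : dist z m < (1 - t) * dist y z := by
    apply lt_of_pow_lt_pow_left₀ 2 (mul_nonneg (by linarith) hD)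
    nlinarith [pow_pos hδ 2]
  have h5 := dist_triangle_right y z m
  linarith

/-- geodesics do not branch -/
lemma nonbranching (h : Nice M ρ) {y p z z' : M} {ℓ : ℝ} (hℓ : 2 * ℓ < ρ)
    (h1 : dist y p = ℓ) (h2 : dist p z = ℓ) (h3 : dist y z = 2 * ℓ)
    (h2' : dist p z' = ℓ) (h3' : dist y z' = 2 * ℓ) : z = z' := by
  by_contra hne
  have hδ : 0 < dist z z' := dist_pos.2 hne
  have hℓ0 : 0 ≤ ℓ := h1 ▸ dist_nonneg
  obtain ⟨m, hm1, hm2⟩ := h.exists_mid z z'
  have hδℓ : dist z z' ≤ 2 * ℓ := by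
    have := dist_triangle_left z z' p
    linarith
  have hℓpos : 0 < ℓ := by linarith
  have u := h.upper (x := p) (by linarith) (by linarith) hm1 hm2
  have l := h.lower (x := y) (by linarith) (by linarith) hm1 hm2
  rw [h2, h2'] at u
  rw [h3, h3'] at l
  have tri := dist_triangle y p m
  rw [h1] at tri
  set s := dist p m with hs
  set δ := dist z z' with hδdef
  have hs0 : 0 ≤ s := dist_nonneg
  have hy0 : 0 ≤ dist y m := dist_nonneg
  have c1 : 2 * (ℓ + s) ^ 2 ≥ 2 * (2 * ℓ) ^ 2 - 9 / 16 * δ ^ 2 := by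
    have : dist y m ^ 2 ≤ (ℓ + s) ^ 2 := by gcongr
    linarith
  have c2 : ℓ * s ≥ ℓ ^ 2 - δ ^ 2 / 32 := by nlinarith
  have c3 : 0 ≤ ℓ ^ 2 - δ ^ 2 / 32 := by nlinarith
  have c4 : (ℓ ^ 2 - δ ^ 2 / 32) ^ 2 ≤ (ℓ * s) ^ 2 := by gcongr
  have c5 : (ℓ * s) ^ 2 ≤ ℓ ^ 2 * (ℓ ^ 2 - 7 / 32 * δ ^ 2) := by
    rw [mul_pow]
    gcongr
    linarith
  have c6 : 0 < ℓ ^ 2 * δ ^ 2 := by positivity
  nlinarith [sq_nonneg (δ ^ 2)]

/-- the point at proportion `t` between `y` and `z` -/
noncomputable def geo (h : Nice M ρ) (y z : M) (t : ℝ) : M :=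
  if ht : t ∈ Icc (0 : ℝ) 1 then (h.prop y z t ht).choose else y

lemma dist_left_geo (h : Nice M ρ) (y z : M) {t : ℝ} (ht : t ∈ Icc (0 : ℝ) 1) :
    dist y (h.geo y z t) = t * dist y z := by
  rw [geo, dif_pos ht]
  exact (h.prop y z t ht).choose_spec.1

lemma dist_geo_right (h : Nice M ρ) (y z : M) {t : ℝ} (ht : t ∈ Icc (0 : ℝ) 1) :
    dist (h.geo y z t) z = (1 - t) * dist y z := by
  rw [geo, dif_pos ht]
  exact (h.prop y z t ht).choose_spec.2

lemma geo_zero (h : Nice M ρ) (y z : M) : h.geo y z 0 = y := by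
  have := h.dist_left_geo y z (t := 0) ⟨le_rfl, zero_le_one⟩
  rw [zero_mul] at this
  exact (dist_eq_zero.1 this).symm

lemma geo_one (h : Nice M ρ) (y z : M) : h.geo y z 1 = z := by
  have := h.dist_geo_right y z (t := 1) ⟨zero_le_one, le_rfl⟩
  rw [sub_self, zero_mul] at this
  exact dist_eq_zero.1 this

lemma dist_geo_geo (h : Nice M ρ) {y z : M} (hyz : dist y z < ρ) {s t : ℝ}
    (hs : 0 ≤ s) (hst : s ≤ t) (ht : t ≤ 1) :
    dist (h.geo y z s) (h.geo y z t) = (t - s) * dist y z := by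
  have hs' : s ∈ Icc (0 : ℝ) 1 := ⟨hs, hst.trans ht⟩
  have ht' : t ∈ Icc (0 : ℝ) 1 := ⟨hs.trans hst, ht⟩
  rcases eq_or_lt_of_le (hs.trans hst) with h0 | h0
  · have : s = 0 := by linarith
    subst this
    rw [← h0]
    simp
  -- the intermediate point on the segment from y to geo t
  have hst' : s / t ∈ Icc (0 : ℝ) 1 := ⟨by positivity, by rw [div_le_one h0]; exact hst⟩
  obtain ⟨w, hw1, hw2⟩ := h.prop y (h.geo y z t) (s / t) hst'
  rw [h.dist_left_geo y z ht'] at hw1 hw2
  have e1 : s / t * (t * dist y z) = s * dist y z := by field_simp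
  have e2 : (1 - s / t) * (t * dist y z) = (t - s) * dist y z := by field_simp
  rw [e1] at hw1
  rw [e2] at hw2
  have hw3 : dist w z = (1 - s) * dist y z := by
    apply le_antisymm
    · calc dist w z ≤ dist w (h.geo y z t) + dist (h.geo y z t) z := dist_triangle _ _ _
        _ = (1 - s) * dist y z := by rw [hw2, h.dist_geo_right y z ht']; ring
    · have := dist_triangle y w z
      linarith
  have : w = h.geo y z s := h.unique hyz hs (hst.trans ht) hw1 hw3
    (h.dist_left_geo y z hs') (h.dist_geo_right y z hs')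
  rw [← this, hw2]

/-- balls are convex -/
lemma dist_geo_le (h : Nice M ρ) {x y z : M} {s : ℝ} (hs : 3 * s < ρ) (hy : dist x y ≤ s)
    (hz : dist x z ≤ s) {t : ℝ} (ht : t ∈ Icc (0 : ℝ) 1) : dist x (h.geo y z t) ≤ s := by
  have hs0 : 0 ≤ s := dist_nonneg.trans hy
  have hyz : dist y z ≤ 2 * s := by
    have := dist_triangle_left y z x
    linarith
  have hyzρ : dist y z < ρ := by linarith
  have hD0 : 0 ≤ dist y z := dist_nonneg
  rcases eq_or_lt_of_le hD0 with h0 | h0
  · have h1 := h.dist_left_geo y z ht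
    rw [← h0, mul_zero] at h1
    rw [← dist_eq_zero.1 h1]
    exact hy
  have hbd : ∀ t ∈ Icc (0 : ℝ) 1, dist x (h.geo y z t) < ρ := by
    intro t ht
    have h1 := h.dist_left_geo y z ht
    have h2 := dist_triangle x y (h.geo y z t)
    have h3 : t * dist y z ≤ dist y z := mul_le_of_le_one_left hD0 ht.2
    linarith
  have hcont : ContinuousOn (fun t ↦ dist x (h.geo y z t)) (Icc 0 1) := by
    have hlip : LipschitzOnWith (Real.toNNReal (dist y z))
        (fun t ↦ h.geo y z t) (Icc 0 1) := by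
      apply LipschitzOnWith.of_dist_le_mul
      intro a ha b hb
      rw [Real.coe_toNNReal _ hD0]
      rcases le_total a b with hab | hab
      · rw [h.dist_geo_geo hyzρ ha.1 hab hb.2, Real.dist_eq, abs_sub_comm,
          abs_of_nonneg (by linarith)]
        exact (mul_comm _ _).le
      · rw [dist_comm, h.dist_geo_geo hyzρ hb.1 hab ha.2, Real.dist_eq,
          abs_of_nonneg (by linarith)]
        exact (mul_comm _ _).le
    exact (continuous_const.dist continuous_id).comp_continuousOn hlip.continuousOn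
  obtain ⟨t0, ht0, hmax⟩ := isCompact_Icc.exists_isMaxOn
    (⟨0, ⟨le_rfl, zero_le_one⟩⟩ : (Icc (0 : ℝ) 1).Nonempty) hcont
  refine (hmax ht).trans ?_
  change dist x (h.geo y z t0) ≤ s
  rcases eq_or_lt_of_le ht0.1 with h00 | h00
  · rw [← h00, geo_zero]; exact hy
  rcases eq_or_lt_of_le ht0.2 with h01 | h01
  · rw [h01, geo_one]; exact hz
  exfalso
  obtain ⟨η, hη, hη0, hη1⟩ : ∃ η > 0, η ≤ t0 ∧ t0 + η ≤ 1 :=
    ⟨min t0 (1 - t0), lt_min h00 (by linarith), min_le_left _ _, by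
      have := min_le_right t0 (1 - t0); linarith⟩
  have m1 : (t0 - η) ∈ Icc (0 : ℝ) 1 := ⟨by linarith, by linarith⟩
  have m2 : (t0 + η) ∈ Icc (0 : ℝ) 1 := ⟨by linarith, by linarith⟩
  have d1 := h.dist_geo_geo hyzρ (s := t0 - η) (t := t0) m1.1 (by linarith) h01.le
  have d2 := h.dist_geo_geo hyzρ (s := t0) (t := t0 + η) h00.le (by linarith) m2.2
  have d3 := h.dist_geo_geo hyzρ (s := t0 - η) (t := t0 + η) m1.1 (by linarith) m2.2
  have hu := h.upper (hbd _ m1) (hbd _ m2) (m := h.geo y z t0) (by rw [d1, d3]; ring)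
    (by rw [d2, d3]; ring)
  have g1 : dist x (h.geo y z (t0 - η)) ≤ dist x (h.geo y z t0) := hmax m1
  have g2 : dist x (h.geo y z (t0 + η)) ≤ dist x (h.geo y z t0) := hmax m2
  have g1' : dist x (h.geo y z (t0 - η)) ^ 2 ≤ dist x (h.geo y z t0) ^ 2 := by gcongr
  have g2' : dist x (h.geo y z (t0 + η)) ^ 2 ≤ dist x (h.geo y z t0) ^ 2 := by gcongr
  rw [d3] at hu
  have : 0 < (t0 + η - (t0 - η)) * dist y z := by
    apply mul_pos _ h0
    linarith
  nlinarith [pow_pos this 2]

end Nice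

end Pool.Agent.Helper95
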