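import Pool.Agent.Helper95.Metric1

open Set Filter
open scoped Topology

namespace Pool.Agent.Helper95

variable {M : Type*} [MetricSpace M] {ρ : ℝ}

namespace Nice

lemma continuous_geo [CompactSpace M] (h : Nice M ρ) (w0 : M) (W : Set M)
    (hW : ∀ w ∈ W, dist w0 w < ρ) :
    Continuous (fun p : unitInterval × W ↦ h.geo w0 p.2 p.1) := by
  rw [continuous_iff_ultrafilter]
  intro p g hg
  set f := fun p : unitInterval × W ↦ h.geo w0 p.2 p.1 with hf
  obtain ⟨z, -, hz⟩ := (isCompact_univ (X := M)).ultrafilter_le_nhds (g.map f)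
    (by simp)
  have hz' : Tendsto f g (𝓝 z) := hz
  have hfst : Tendsto (fun q : unitInterval × W ↦ (q.1 : ℝ)) g (𝓝 (p.1 : ℝ)) :=
    ((continuous_subtype_val.comp continuous_fst).tendsto p).mono_left hg
  have hsnd : Tendsto (fun q : unitInterval × W ↦ (q.2 : M)) g (𝓝 (p.2 : M)) :=
    ((continuous_subtype_val.comp continuous_snd).tendsto p).mono_left hg
  have h1 : dist w0 z = p.1 * dist w0 p.2 := by
    have a1 : Tendsto (fun q ↦ dist w0 (f q)) g (𝓝 (dist w0 z)) := tendsto_const_nhds.dist hz'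
    have a2 : Tendsto (fun q : unitInterval × W ↦ (q.1 : ℝ) * dist w0 q.2) g
        (𝓝 (p.1 * dist w0 p.2)) := hfst.mul (tendsto_const_nhds.dist hsnd)
    refine tendsto_nhds_unique a1 (a2.congr (fun q ↦ ?_))
    rw [hf, h.dist_left_geo w0 q.2 q.1.2]
  have h2 : dist z p.2 = (1 - p.1) * dist w0 p.2 := by
    have a1 : Tendsto (fun q : unitInterval × W ↦ dist (f q) q.2) g (𝓝 (dist z p.2)) :=
      hz'.dist hsnd
    have a2 : Tendsto (fun q : unitInterval × W ↦ (1 - (q.1 : ℝ)) * dist w0 q.2) g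
        (𝓝 ((1 - p.1) * dist w0 p.2)) :=
      (tendsto_const_nhds.sub hfst).mul (tendsto_const_nhds.dist hsnd)
    refine tendsto_nhds_unique a1 (a2.congr (fun q ↦ ?_))
    rw [hf, h.dist_geo_right w0 q.2 q.1.2]
  have h3 : z = h.geo w0 p.2 p.1 := h.unique (hW _ p.2.2) p.1.2.1 p.1.2.2 h1 h2
    (h.dist_left_geo w0 p.2 p.1.2) (h.dist_geo_right w0 p.2 p.1.2)
  rw [← h3]
  exact hz'

/-- star-shaped small sets are contractible -/
lemma contractible_of_star [CompactSpace M] (h : Nice M ρ) {w0 : M} {W : Set M} (hw0 : w0 ∈ W)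
    (hW : ∀ w ∈ W, dist w0 w < ρ)
    (hstar : ∀ w ∈ W, ∀ t ∈ Icc (0 : ℝ) 1, h.geo w0 w t ∈ W) : ContractibleSpace W := by
  rw [contractible_iff_id_nullhomotopic]
  refine ⟨⟨w0, hw0⟩, ?_⟩
  have hc := h.continuous_geo w0 W hW
  refine ⟨{ toFun := fun p ↦ ⟨h.geo w0 p.2 (unitInterval.symm p.1),
              hstar _ p.2.2 _ (unitInterval.symm p.1).2⟩
            continuous_toFun := ?_
            map_zero_left := ?_
            map_one_left := ?_ }⟩
  · apply Continuous.subtype_mk
    exact hc.comp ((unitInterval.continuous_symm.comp continuous_fst).prodMk continuous_snd)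
  · intro w
    ext
    simp [geo_one]
  · intro w
    ext
    simp [geo_zero]

/-- intersections of small balls are contractible -/
lemma contractible_iInter [CompactSpace M] (h : Nice M ρ) {ι : Type*} (c : ι → M) {r : ℝ}
    (hr : 3 * r < ρ) (s : Finset ι) (hs : s.Nonempty)
    (hne : (⋂ i ∈ s, Metric.ball (c i) r).Nonempty) :
    ContractibleSpace ↥(⋂ i ∈ s, Metric.ball (c i) r) := by
  obtain ⟨w0, hw0⟩ := hne
  obtain ⟨i0, hi0⟩ := hs
  simp only [mem_iInter, Metric.mem_ball] at hw0
  have hr0 : 0 < r := dist_nonneg.trans_lt (hw0 i0 hi0)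
  refine h.contractible_of_star (w0 := w0) (by simpa using hw0) ?_ ?_
  · intro w hw
    simp only [mem_iInter, Metric.mem_ball] at hw
    have h1 := hw0 i0 hi0
    have h2 := hw i0 hi0
    have h3 := dist_triangle_right w0 w (c i0)
    linarith
  · intro w hw t ht
    simp only [mem_iInter, Metric.mem_ball] at hw ⊢
    intro i hi
    rw [dist_comm]
    have h1 := hw0 i hi
    have h2 := hw i hi
    rw [dist_comm] at h1 h2
    have hmax : max (dist (c i) w0) (dist (c i) w) < r := max_lt h1 h2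
    have h4 := h.dist_geo_le (x := c i) (y := w0) (z := w)
      (s := max (dist (c i) w0) (dist (c i) w)) (by linarith) (le_max_left _ _)
      (le_max_right _ _) ht
    exact h4.trans_lt hmax

end Nice

end Pool.Agent.Helper95
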