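import Pool.Agent.Helper95.Metric2

open Set Filter
open scoped Topology

namespace Pool.Agent.Helper95

variable {M : Type*} [MetricSpace M] {ρ : ℝ}

namespace Nice

/-- an invariant nonempty intersection of small balls contains a fixed point -/
lemma exists_fixed [CompactSpace M] (h : Nice M ρ) {G : Type*} [Group G] [Finite G]
    [MulAction G M] [IsIsometricSMul G M] {r : ℝ} (hr : 3 * r < ρ) (S : Finset M)
    (hS : S.Nonempty) (hinv : ∀ g : G, ∀ x ∈ S, g • x ∈ S)
    (hne : (⋂ x ∈ S, Metric.ball x r).Nonempty) :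
    ∃ p ∈ ⋂ x ∈ S, Metric.ball x r, ∀ g : G, g • p = p := by
  classical
  have := Fintype.ofFinite G
  obtain ⟨w, hw⟩ := hne
  simp only [mem_iInter, Metric.mem_ball] at hw
  obtain ⟨x0, hx0⟩ := hS
  obtain ⟨s, hs⟩ : ∃ s, s = S.sup' ⟨x0, hx0⟩ (fun x ↦ dist w x) := ⟨_, rfl⟩
  have hsr : s < r := by
    rw [hs, Finset.sup'_lt_iff]
    exact fun x hx ↦ hw x hx
  have hle : ∀ x ∈ S, dist w x ≤ s := by
    intro x hx
    rw [hs]
    exact Finset.le_sup' (fun x ↦ dist w x) hx
  have hs0 : 0 ≤ s := dist_nonneg.trans (hle x0 hx0)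
  have h3s : 3 * s < ρ := by linarith
  obtain ⟨K, hK⟩ : ∃ K : Set M, K = ⋂ x ∈ S, Metric.closedBall x s := ⟨_, rfl⟩
  have memK : ∀ p, p ∈ K ↔ ∀ x ∈ S, dist p x ≤ s := by
    intro p
    rw [hK]
    simp only [mem_iInter, Metric.mem_closedBall]
  have hKc : IsCompact K := by
    rw [hK]
    exact (isClosed_biInter (fun x _ ↦ Metric.isClosed_closedBall)).isCompact
  have hKinv : ∀ g : G, ∀ p ∈ K, g • p ∈ K := by
    intro g p hp
    rw [memK] at hp ⊢
    intro x hx
    have h1 := hp (g⁻¹ • x) (hinv _ x hx)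
    have h2 : dist (g • p) (g • (g⁻¹ • x)) = dist p (g⁻¹ • x) := dist_smul _ _ _
    rw [smul_inv_smul] at h2
    rw [h2]; exact h1
  have hwK : w ∈ K := (memK w).2 hle
  have horb : ∀ g : G, g • w ∈ K := fun g ↦ hKinv g w hwK
  have hdiam : ∀ p ∈ K, ∀ q ∈ K, dist p q < ρ := by
    intro p hp q hq
    have h1 := (memK p).1 hp x0 hx0
    have h2 := (memK q).1 hq x0 hx0
    have h3 := dist_triangle_right p q x0
    linarith
  obtain ⟨f, hf⟩ : ∃ f : M → ℝ, f = fun p ↦ ∑ g : G, dist (g • w) p ^ 2 := ⟨_, rfl⟩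
  have hfc : ContinuousOn f K := by
    rw [hf]
    apply Continuous.continuousOn
    apply continuous_finset_sum
    intro g _
    exact (continuous_const.dist continuous_id).pow 2
  obtain ⟨p0, hp0, hmin⟩ := hKc.exists_isMinOn ⟨w, hwK⟩ hfc
  have hfinv : ∀ g : G, ∀ p, f (g • p) = f p := by
    intro g p
    rw [hf]
    simp only
    rw [← Equiv.sum_comp (Equiv.mulLeft g)]
    apply Finset.sum_congr rfl
    intro k _
    simp only [Equiv.coe_mulLeft, mul_smul]
    rw [dist_smul]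
  have hfix : ∀ g : G, g • p0 = p0 := by
    intro g
    by_contra hne
    have hδ : 0 < dist p0 (g • p0) := dist_pos.2 (Ne.symm hne)
    have hgK := hKinv g p0 hp0
    obtain ⟨m, hm⟩ : ∃ m, m = h.geo p0 (g • p0) (1 / 2) := ⟨_, rfl⟩
    have ht : (1 / 2 : ℝ) ∈ Icc (0 : ℝ) 1 := ⟨by norm_num, by norm_num⟩
    have hm1 : dist p0 m = dist p0 (g • p0) / 2 := by
      rw [hm, h.dist_left_geo _ _ ht]; ring
    have hm2 : dist m (g • p0) = dist p0 (g • p0) / 2 := by
      rw [hm, h.dist_geo_right _ _ ht]; ring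
    have hmK : m ∈ K := by
      rw [memK]
      intro x hx
      rw [dist_comm, hm]
      apply h.dist_geo_le h3s _ _ ht
      · rw [dist_comm]; exact (memK p0).1 hp0 x hx
      · rw [dist_comm]; exact (memK _).1 hgK x hx
    have hsum : 2 * f m ≤ f p0 + f (g • p0) - Fintype.card G * (7 / 16 * dist p0 (g • p0) ^ 2) := by
      rw [hf]
      simp only
      rw [Finset.mul_sum, ← Finset.sum_add_distrib]
      have h1 : ∑ k : G, (7 / 16 * dist p0 (g • p0) ^ 2) =
          Fintype.card G * (7 / 16 * dist p0 (g • p0) ^ 2) := by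
        rw [Finset.sum_const, Finset.card_univ, nsmul_eq_mul]
      rw [← h1, ← Finset.sum_sub_distrib]
      apply Finset.sum_le_sum
      intro k _
      exact h.upper (hdiam _ (horb k) _ hp0) (hdiam _ (horb k) _ hgK) hm1 hm2
    have h2 : f p0 ≤ f m := hmin hmK
    rw [hfinv] at hsum
    have h3 : (0 : ℝ) < Fintype.card G := by exact_mod_cast Fintype.card_pos
    have h4 : 0 < Fintype.card G * (7 / 16 * dist p0 (g • p0) ^ 2) := by positivity
    linarith
  refine ⟨p0, ?_, hfix⟩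
  simp only [mem_iInter, Metric.mem_ball]
  intro x hx
  exact ((memK p0).1 hp0 x hx).trans_lt hsr

end Nice

end Pool.Agent.Helper95
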