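import Mathlib

/-!
Metric spaces which are almost Euclidean at small scale.
-/

namespace Pool.Agent.Helper95

/-- every two points are joined by points at all proportions -/
def HasProportions (M : Type*) [MetricSpace M] : Prop :=
  ∀ x y : M, ∀ t ∈ Set.Icc (0 : ℝ) 1,
    ∃ z : M, dist x z = t * dist x y ∧ dist z y = (1 - t) * dist x y

/-- `M` is a length space satisfying the parallelogram law, up to a small error, at scale `ρ`. -/
structure Nice (M : Type*) [MetricSpace M] (ρ : ℝ) : Prop where
  pos : 0 < ρ
  prop : HasProportions M
  par : ∀ x y z m : M, dist x y < ρ → dist x z < ρ → dist y m = dist y z / 2 →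
    dist m z = dist y z / 2 →
    |2 * dist x m ^ 2 - dist x y ^ 2 - dist x z ^ 2 + dist y z ^ 2 / 2| ≤ dist y z ^ 2 / 16

end Pool.Agent.Helper95
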