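import Pool.Agent.Helper95.Riem6
import Pool.Agent.Helper95.Energy6

open Bundle Set MeasureTheory Manifold Filter
open scoped ENNReal NNReal ContDiff Topology

namespace Pool.Agent.Helper95

variable {E : Type*} [NormedAddCommGroup E] [NormedSpace ℝ E] [FiniteDimensional ℝ E]
  {M : Type*} [MetricSpace M] [ChartedSpace E M]
  [RiemannianBundle (fun (x : M) ↦ TangentSpace 𝓘(ℝ, E) x)]
  [IsManifold 𝓘(ℝ, E) ∞ M]
  [IsContMDiffRiemannianBundle 𝓘(ℝ, E) ∞ E (fun x : M ↦ TangentSpace 𝓘(ℝ, E) x)]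
  [IsRiemannianManifold 𝓘(ℝ, E) M]

variable (E M) in
include E in
/-- Compact Riemannian manifolds are nice. -/
theorem exists_nice [CompactSpace M] : ∃ ρ : ℝ, Nice M ρ := by
  have hprop : HasProportions M := fun x y t ht ↦ exists_proportion E x y ht
  have hex : ∀ x0 : M, ∃ ρ > 0, ∀ x y z m : M, dist x x0 < ρ → dist y x0 < ρ →
      dist z x0 < ρ → dist m x0 < ρ → dist y m = dist y z / 2 → dist m z = dist y z / 2 →
      |2 * dist x m ^ 2 - dist x y ^ 2 - dist x z ^ 2 + dist y z ^ 2 / 2| ≤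
        1 / 16 * dist y z ^ 2 := by
    intro x0
    obtain ⟨e, a, R, G, c, C, rfl, h⟩ := exists_good_chart E x0
    exact h.parallelogram hprop (by norm_num)
  choose ρ hρ hpar using hex
  obtain ⟨δ, hδ, hδs⟩ := lebesgue_number_lemma_of_metric (isCompact_univ (X := M))
    (c := fun x0 : M ↦ Metric.ball x0 (ρ x0)) (fun _ ↦ Metric.isOpen_ball)
    (fun x _ ↦ mem_iUnion.2 ⟨x, Metric.mem_ball_self (hρ x)⟩)
  refine ⟨δ / 2, by positivity, hprop, ?_⟩
  intro x y z m hy hz h1 h2
  obtain ⟨x0, hx0⟩ := hδs x (mem_univ x)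
  have hyz : dist y z < δ := by
    have := dist_triangle_left y z x
    linarith
  have hm : dist x m < δ := by
    have := dist_triangle x y m
    linarith
  have h3 := hpar x0 x y z m (hx0 (Metric.mem_ball_self hδ))
    (hx0 (by rw [Metric.mem_ball, dist_comm]; linarith))
    (hx0 (by rw [Metric.mem_ball, dist_comm]; linarith))
    (hx0 (by rw [Metric.mem_ball, dist_comm]; exact hm)) h1 h2
  linarith

end Pool.Agent.Helper95
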