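import Pool.Agent.Helper95.Sym4
import Pool.Agent.Helper95.RiemNice

open Bundle Manifold
open scoped ContDiff Topology

namespace Pool.Agent.Helper95

/-- The parity theorem for compact Riemannian symmetric spaces, modulo the good cover theorem. -/
theorem parity_of_goodCover (hgood : GoodCoverStatement) {n : ℕ} {M : Type} [MetricSpace M]
    [ChartedSpace (EuclideanSpace ℝ (Fin n)) M] [IsManifold (𝓡 n) ∞ M]
    [RiemannianBundle (fun x : M ↦ TangentSpace (𝓡 n) x)]
    [IsContMDiffRiemannianBundle (𝓡 n) ∞ (EuclideanSpace ℝ (Fin n))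
      (fun x : M ↦ TangentSpace (𝓡 n) x)]
    [IsRiemannianManifold (𝓡 n) M] [CompactSpace M] [ConnectedSpace M]
    (hM : IsSymmetricSpace M) :
    FiniteHomology M ∧ ∃ k : ℕ, twoNumber M = k ∧ Even (eulerChar M - k) := by
  obtain ⟨ρ, h⟩ := exists_nice (EuclideanSpace ℝ (Fin n)) M
  exact h.parity hgood hM

end Pool.Agent.Helper95
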