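import Mathlib

set_option autoImplicit false

open Filter Topology Set

namespace Pool.Agent.Helper95.Perfect

/-! Disjoint sums of Tychonoff spaces. -/

theorem completelyRegular_sum {X Y : Type} [TopologicalSpace X] [TopologicalSpace Y]
    [CompletelyRegularSpace X] [CompletelyRegularSpace Y] : CompletelyRegularSpace (X ⊕ Y) := by
  constructor
  rintro (x | y) K hK hx
  · obtain ⟨f, hf, hfx, hfK⟩ := CompletelyRegularSpace.completely_regular x (Sum.inl ⁻¹' K)
      (hK.preimage continuous_inl) hx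
    refine ⟨Sum.elim f (fun _ => 1), hf.sumElim continuous_const, hfx, ?_⟩
    rintro (a | b) h
    · exact hfK h
    · rfl
  · obtain ⟨f, hf, hfx, hfK⟩ := CompletelyRegularSpace.completely_regular y (Sum.inr ⁻¹' K)
      (hK.preimage continuous_inr) hx
    refine ⟨Sum.elim (fun _ => 1) f, continuous_const.sumElim hf, hfx, ?_⟩
    rintro (a | b) h
    · rfl
    · exact hfK h

theorem t35_sum {X Y : Type} [TopologicalSpace X] [TopologicalSpace Y]
    [T35Space X] [T35Space Y] : T35Space (X ⊕ Y) := by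
  have := completelyRegular_sum (X := X) (Y := Y)
  exact { }

/-! Doubling a space along a closed set, and collapsing the closed set. -/

section General

variable {X : Type} [TopologicalSpace X] (F : Set X)

/-- Continuous functions on `X` that vanish on `F`. -/
abbrev G := {g : C(X, ℝ) // ∀ x ∈ F, g x = 0}

/-- The evaluation map collapsing `F`. -/
def q (x : X) : G F → ℝ := fun g => g.1 x

theorem continuous_q : Continuous (q F) := continuous_pi fun g => g.1.continuous

theorem q_of_mem {x : X} (hx : x ∈ F) : q F x = 0 := funext fun g => g.2 x hx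

/-- The space `X / F` with the completely regular quotient topology. -/
abbrev Y0 := {z : G F → ℝ // ∃ x, q F x = z}

/-- The double of `X` along `F`. -/
abbrev W := {p : X × (G F → ℝ) // p.2 = 0 ∨ p.2 = q F p.1}

def i0 (x : X) : W F := ⟨(x, 0), Or.inl rfl⟩

def i1 (x : X) : W F := ⟨(x, q F x), Or.inr rfl⟩

theorem continuous_i0 : Continuous (i0 F) := by
  unfold i0
  fun_prop

theorem continuous_i1 : Continuous (i1 F) := by
  unfold i1
  have := continuous_q F
  fun_prop

theorem i0_eq_i1 {x : X} (hx : x ∈ F) : i0 F x = i1 F x := by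
  apply Subtype.ext
  simp [i0, i1, q_of_mem F hx]

/-- The difference of the two restrictions. -/
def gf (f : C(W F ⊕ Unit, ℝ)) : G F :=
  ⟨⟨fun x => f (Sum.inl (i1 F x)) - f (Sum.inl (i0 F x)), by
    have h0 := continuous_i0 F
    have h1 := continuous_i1 F
    fun_prop⟩, by
    intro x hx
    simp [i0_eq_i1 F hx]⟩

/-- The isomorphism, forwards. -/
def T (f : C(W F ⊕ Unit, ℝ)) : C(X ⊕ Y0 F, ℝ) :=
  ⟨Sum.elim (fun x => f (Sum.inl (i0 F x))) (fun z => z.1 (gf F f) + f (Sum.inr ())), by
    have h0 := continuous_i0 F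
    refine Continuous.sumElim (by fun_prop) ?_
    exact ((continuous_apply (gf F f)).comp continuous_subtype_val).add continuous_const⟩

variable {F}

/-- The base point. -/
def y0 (hF : F.Nonempty) : Y0 F := ⟨0, hF.choose, q_of_mem F hF.choose_spec⟩

theorem snd_mem (hF : F.Nonempty) (w : W F) : ∃ x, q F x = w.1.2 := by
  rcases w.2 with h | h
  · exact ⟨hF.choose, by rw [h]; exact q_of_mem F hF.choose_spec⟩
  · exact ⟨w.1.1, h.symm⟩

/-- The isomorphism, backwards. -/
def S (hF : F.Nonempty) (h : C(X ⊕ Y0 F, ℝ)) : C(W F ⊕ Unit, ℝ) :=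
  ⟨Sum.elim (fun w => h (Sum.inl w.1.1) + h (Sum.inr ⟨w.1.2, snd_mem hF w⟩) - h (Sum.inr (y0 hF)))
    (fun _ => h (Sum.inr (y0 hF))), by
    refine Continuous.sumElim ?_ continuous_const
    have hc : Continuous (fun w : W F => (⟨w.1.2, snd_mem hF w⟩ : Y0 F)) :=
      Continuous.subtype_mk (continuous_snd.comp continuous_subtype_val) _
    fun_prop⟩

theorem T_inl (f : C(W F ⊕ Unit, ℝ)) (x : X) : T F f (Sum.inl x) = f (Sum.inl (i0 F x)) := rfl

theorem T_inr (f : C(W F ⊕ Unit, ℝ)) (x : X) (h : ∃ x', q F x' = q F x) :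
    T F f (Sum.inr ⟨q F x, h⟩) =
      f (Sum.inl (i1 F x)) - f (Sum.inl (i0 F x)) + f (Sum.inr ()) := rfl

theorem T_S (hF : F.Nonempty) (h : C(X ⊕ Y0 F, ℝ)) : T F (S hF h) = h := by
  ext z
  rcases z with x | ⟨z, x, rfl⟩
  · simp [T, S, i0, y0]
  · simp [T, S, i0, i1, y0, gf, q]
    ring

theorem S_T (hF : F.Nonempty) (f : C(W F ⊕ Unit, ℝ)) : S hF (T F f) = f := by
  ext w
  rcases w with ⟨⟨x, z⟩, hz⟩ | u
  · rcases hz with hz | hz
    · simp only at hz
      subst hz
      simp [T, S, i0, i1, y0, gf]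
    · simp only at hz
      subst hz
      simp [T, S, i0, i1, y0, gf, q]
      ring
  · simp [T, S, y0]

/-- Each value of `T f` is a finite combination of values of `f`. -/
theorem T_finite (y : X ⊕ Y0 F) : ∃ a b c : W F ⊕ Unit, ∃ r s : ℝ,
    ∀ f : C(W F ⊕ Unit, ℝ), T F f y = f a + r * f b + s * f c := by
  rcases y with x | ⟨z, x, rfl⟩
  · exact ⟨Sum.inl (i0 F x), Sum.inl (i0 F x), Sum.inl (i0 F x), 0, 0, fun f => by
      rw [T_inl]; ring⟩
  · exact ⟨Sum.inl (i1 F x), Sum.inl (i0 F x), Sum.inr (), -1, 1, fun f => by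
      rw [T_inr]; ring⟩

/-- Each value of `S h` is a finite combination of values of `h`. -/
theorem S_finite (hF : F.Nonempty) (w : W F ⊕ Unit) : ∃ a b c : X ⊕ Y0 F, ∃ r s : ℝ,
    ∀ h : C(X ⊕ Y0 F, ℝ), S hF h w = h a + r * h b + s * h c := by
  rcases w with w | u
  · exact ⟨Sum.inl w.1.1, Sum.inr ⟨w.1.2, snd_mem hF w⟩, Sum.inr (y0 hF), 1, -1, fun h => by
      simp only [S, ContinuousMap.coe_mk, Sum.elim_inl]; ring⟩
  · exact ⟨Sum.inr (y0 hF), Sum.inr (y0 hF), Sum.inr (y0 hF), 0, 0, fun h => by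
      simp only [S, ContinuousMap.coe_mk, Sum.elim_inr]; ring⟩

theorem isClosedEmbedding_i0 [T35Space X] : IsClosedEmbedding (i0 F) := by
  refine ⟨⟨?_, ?_⟩, ?_⟩
  · refine IsInducing.of_comp (continuous_i0 F) (g := fun w : W F => w.1.1) (by fun_prop) ?_
    exact IsInducing.id
  · intro x y h
    have := congrArg (fun w : W F => w.1.1) h
    exact this
  · have : range (i0 F) = {w : W F | w.1.2 = 0} := by
      ext w
      constructor
      · rintro ⟨x, rfl⟩
        rfl
      · intro hw
        exact ⟨w.1.1, Subtype.ext (Prod.ext rfl hw.symm)⟩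
    rw [this]
    exact isClosed_eq (by fun_prop) continuous_const

theorem isClosedEmbedding_i1 [T35Space X] : IsClosedEmbedding (i1 F) := by
  refine ⟨⟨?_, ?_⟩, ?_⟩
  · refine IsInducing.of_comp (continuous_i1 F) (g := fun w : W F => w.1.1) (by fun_prop) ?_
    exact IsInducing.id
  · intro x y h
    have := congrArg (fun w : W F => w.1.1) h
    exact this
  · have : range (i1 F) = {w : W F | w.1.2 = q F w.1.1} := by
      ext w
      constructor
      · rintro ⟨x, rfl⟩
        rfl
      · intro hw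
        exact ⟨w.1.1, Subtype.ext (Prod.ext rfl hw.symm)⟩
    rw [this]
    have := continuous_q F
    exact isClosed_eq (by fun_prop) (by fun_prop)

/-- Closed sets are `G_delta` in a space that is a union of two closed copies of a perfect
space and a point. -/
theorem perfect_double [T35Space X] (hX : ∀ s : Set X, IsClosed s → IsGδ s)
    (s : Set (W F ⊕ Unit)) (hs : IsClosed s) : IsGδ s := by
  have key : ∀ j : X → W F, IsClosedEmbedding j → IsGδ (s ∪ (Sum.inl '' (range j))ᶜ) := by
    intro j hj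
    have hc : IsClosedEmbedding (fun x => (Sum.inl (j x) : W F ⊕ Unit)) :=
      IsClosedEmbedding.inl.comp hj
    have h1 : IsGδ ((fun x => (Sum.inl (j x) : W F ⊕ Unit)) ⁻¹' s) :=
      hX _ (hs.preimage hc.continuous)
    rw [isGδ_iff_eq_iInter_nat] at h1
    obtain ⟨U, hU, hUs⟩ := h1
    have h2 : s ∪ (Sum.inl '' (range j))ᶜ =
        ⋂ n, ((fun x => (Sum.inl (j x) : W F ⊕ Unit)) '' (U n)ᶜ)ᶜ := by
      ext w
      simp only [mem_union, mem_compl_iff, mem_iInter, mem_image, mem_range]
      constructor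
      · rintro (hw | hw) n ⟨x, hx, rfl⟩
        · apply hx
          have : x ∈ ⋂ n, U n := by
            rw [← hUs]
            exact hw
          exact mem_iInter.mp this n
        · exact hw ⟨j x, ⟨x, rfl⟩, rfl⟩
      · intro h
        by_cases hw : ∃ y, (∃ x, j x = y) ∧ Sum.inl y = w
        · left
          obtain ⟨y, ⟨x, rfl⟩, rfl⟩ := hw
          have : x ∈ (fun x => (Sum.inl (j x) : W F ⊕ Unit)) ⁻¹' s := by
            rw [hUs]
            refine mem_iInter.mpr fun n => ?_
            by_contra hxn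
            exact h n ⟨x, hxn, rfl⟩
          exact this
        · right
          exact hw
    rw [h2]
    exact IsGδ.iInter fun n => ((hc.isClosedMap _ (hU n).isClosed_compl).isOpen_compl).isGδ
  have h3 : s = (s ∪ (Sum.inl '' (range (i0 F)))ᶜ) ∩ (s ∪ (Sum.inl '' (range (i1 F)))ᶜ) ∩
      (s ∪ {(Sum.inr () : W F ⊕ Unit)}ᶜ) := by
    ext w
    constructor
    · intro hw
      exact ⟨⟨Or.inl hw, Or.inl hw⟩, Or.inl hw⟩
    · rintro ⟨⟨h0 | h0, h1 | h1⟩, h2 | h2⟩
      all_goals first | assumption | skip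
      rcases w with ⟨⟨x, z⟩, hz | hz⟩ | u
      · simp only at hz
        subst hz
        exact absurd ⟨i0 F x, ⟨x, rfl⟩, rfl⟩ h0
      · simp only at hz
        subst hz
        exact absurd ⟨i1 F x, ⟨x, rfl⟩, rfl⟩ h1
      · exact absurd rfl h2
  rw [h3]
  refine ((key _ isClosedEmbedding_i0).inter (key _ isClosedEmbedding_i1)).inter ?_
  by_cases h : (Sum.inr () : W F ⊕ Unit) ∈ s
  · have : s ∪ {(Sum.inr () : W F ⊕ Unit)}ᶜ = univ := by
      ext w
      simp only [mem_union, mem_compl_iff, mem_singleton_iff, mem_univ, iff_true]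
      by_cases hw : w = Sum.inr ()
      · left; rw [hw]; exact h
      · right; exact hw
    rw [this]
    exact IsGδ.univ
  · have : s ∪ {(Sum.inr () : W F ⊕ Unit)}ᶜ = {(Sum.inr () : W F ⊕ Unit)}ᶜ := by
      apply union_eq_self_of_subset_left
      intro w hw h'
      rw [mem_singleton_iff.mp h'] at hw
      exact h hw
    rw [this]
    exact isClosed_singleton.isOpen_compl.isGδ

/-- If every closed subset of `X ⊕ X / F` is a `G_delta`, then the closed set `F` is cut out by
countably many functions vanishing on it. -/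
theorem countable_functions [T35Space X] (hF : F.Nonempty) (hFc : IsClosed F)
    (h : ∀ s : Set (X ⊕ Y0 F), IsClosed s → IsGδ s) :
    ∃ g : ℕ → C(X, ℝ), (∀ n, ∀ x ∈ F, g n x = 0) ∧ ∀ x ∉ F, ∃ n, g n x = 1 := by
  have h1 : IsGδ ({Sum.inr (y0 hF)} : Set (X ⊕ Y0 F)) := h _ isClosed_singleton
  have h2 : IsGδ ({y0 hF} : Set (Y0 F)) := by
    have := h1.preimage (f := (Sum.inr : Y0 F → X ⊕ Y0 F)) continuous_inr
    have h3 : (Sum.inr : Y0 F → X ⊕ Y0 F) ⁻¹' {Sum.inr (y0 hF)} = {y0 hF} := by
      ext z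
      simp
    rwa [h3] at this
  rw [isGδ_iff_eq_iInter_nat] at h2
  obtain ⟨U, hU, hUs⟩ := h2
  have hmem : ∀ n, y0 hF ∈ U n := fun n => by
    have : y0 hF ∈ ⋂ n, U n := by
      rw [← hUs]
      rfl
    exact mem_iInter.mp this n
  choose f hf hf0 hf1 using fun n =>
    CompletelyRegularSpace.completely_regular (y0 hF) (U n)ᶜ (hU n).isClosed_compl
      (fun h => h (hmem n))
  have hq : Continuous (fun x : X => (⟨q F x, x, rfl⟩ : Y0 F)) :=
    Continuous.subtype_mk (continuous_q F) _
  refine ⟨fun n => ⟨fun x => (f n ⟨q F x, x, rfl⟩ : ℝ), ?_⟩, ?_, ?_⟩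
  · exact continuous_subtype_val.comp ((hf n).comp hq)
  · intro n x hx
    have : (⟨q F x, x, rfl⟩ : Y0 F) = y0 hF := Subtype.ext (q_of_mem F hx)
    simp only [ContinuousMap.coe_mk, this, hf0 n]
    rfl
  · intro x hx
    have hne : (⟨q F x, x, rfl⟩ : Y0 F) ≠ y0 hF := by
      intro he
      obtain ⟨g, hg, hgx, hgF⟩ := CompletelyRegularSpace.completely_regular x F hFc hx
      have h3 : q F x = 0 := congrArg Subtype.val he
      have h4 := congrFun h3 ⟨⟨fun y => 1 - (g y : ℝ), by fun_prop⟩, fun y hy => by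
        simp [hgF hy]⟩
      simp [q, hgx] at h4
    have : (⟨q F x, x, rfl⟩ : Y0 F) ∉ ⋂ n, U n := by
      rw [← hUs]
      exact hne
    simp only [mem_iInter, not_forall] at this
    obtain ⟨n, hn⟩ := this
    refine ⟨n, ?_⟩
    simp only [ContinuousMap.coe_mk]
    rw [hf1 n hn]
    rfl

end General

end Pool.Agent.Helper95.Perfect
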