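import Mathlib

open Bundle Set MeasureTheory Manifold Filter
open scoped ENNReal NNReal ContDiff Topology

namespace Pool.Agent.Helper95

noncomputable section

variable {E : Type*} [NormedAddCommGroup E] [NormedSpace ℝ E]
  {M : Type*} [TopologicalSpace M] [ChartedSpace E M]

/-- the differential of a real function, as a real number -/
def dR (f : M → ℝ) (z : M) (v : TangentSpace 𝓘(ℝ, E) z) : ℝ :=
  mfderiv 𝓘(ℝ, E) 𝓘(ℝ, ℝ) f z v

variable [RiemannianBundle (fun (x : M) ↦ TangentSpace 𝓘(ℝ, E) x)]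

set_option backward.isDefEq.respectTransparency false in
/-- A real function whose differential is bounded by `K` along a path grows at most by
`K` times the length. -/
lemma enorm_sub_le_of_mfderiv_bound {f : M → ℝ} {U : Set M}
    (hf : ContMDiffOn 𝓘(ℝ, E) 𝓘(ℝ, ℝ) 1 f U) (hU : IsOpen U) {K : ℝ≥0}
    (hK : ∀ z ∈ U, ∀ v : TangentSpace 𝓘(ℝ, E) z, |dR f z v| ≤ K * ‖v‖)
    {γ : ℝ → M} {a b : ℝ} (hab : a < b) (hγ : ContMDiffOn 𝓘(ℝ, ℝ) 𝓘(ℝ, E) 1 γ (Icc a b))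
    (hγU : ∀ t ∈ Icc a b, γ t ∈ U) :
    ‖f (γ b) - f (γ a)‖ₑ ≤ K * pathELength 𝓘(ℝ, E) γ a b := by
  have hcomp : ContMDiffOn 𝓘(ℝ, ℝ) 𝓘(ℝ, ℝ) 1 (f ∘ γ) (Icc a b) := hf.comp hγ hγU
  calc ‖f (γ b) - f (γ a)‖ₑ 
      ≤ ∫⁻ t' in Icc a b, ‖derivWithin (f ∘ γ) (Icc a b) t'‖ₑ := by
        apply enorm_sub_le_lintegral_derivWithin_Icc_of_contDiffOn_Icc _ hab.le
        rwa [← contMDiffOn_iff_contDiffOn]
    _ ≤ ∫⁻ t' in Icc a b, K * ‖mfderivWithin 𝓘(ℝ, ℝ) 𝓘(ℝ, E) γ (Icc a b) t' 1‖ₑ := by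
        apply setLIntegral_mono' measurableSet_Icc (fun t' ht' ↦ ?_)
        have h1 : mfderivWithin 𝓘(ℝ, ℝ) 𝓘(ℝ, ℝ) (f ∘ γ) (Icc a b) t' =
            (mfderiv 𝓘(ℝ, E) 𝓘(ℝ, ℝ) f (γ t')) ∘L
              (mfderivWithin 𝓘(ℝ, ℝ) 𝓘(ℝ, E) γ (Icc a b) t') := by
          apply mfderiv_comp_mfderivWithin
          · exact ((hf _ (hγU _ ht')).contMDiffAt (hU.mem_nhds (hγU _ ht'))).mdifferentiableAt
              one_ne_zero
          · exact (hγ.mdifferentiableOn one_ne_zero) _ ht'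
          · rw [uniqueMDiffWithinAt_iff_uniqueDiffWithinAt]
            exact uniqueDiffOn_Icc hab _ ht'
        have h2 : derivWithin (f ∘ γ) (Icc a b) t' =
            dR f (γ t') (mfderivWithin 𝓘(ℝ, ℝ) 𝓘(ℝ, E) γ (Icc a b) t' 1) := by
          rw [← fderivWithin_derivWithin, ← mfderivWithin_eq_fderivWithin, h1]
          rfl
        rw [h2]
        have h3 := hK _ (hγU _ ht') (mfderivWithin 𝓘(ℝ, ℝ) 𝓘(ℝ, E) γ (Icc a b) t' 1)
        rw [← ofReal_norm, Real.norm_eq_abs, ← ofReal_norm]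
        calc ENNReal.ofReal _ ≤ ENNReal.ofReal (K * ‖_‖) := ENNReal.ofReal_le_ofReal h3
          _ = _ := by
            rw [ENNReal.ofReal_mul (NNReal.coe_nonneg K)]
            simp
    _ = K * pathELength 𝓘(ℝ, E) γ a b := by
        rw [lintegral_const_mul' _ _ ENNReal.coe_ne_top,
          pathELength_eq_lintegral_mfderivWithin_Icc]

variable [IsManifold 𝓘(ℝ, E) 1 M]

/-- coordinates of tangent vectors in the chart at `x0` -/
abbrev Ac (x0 z : M) : TangentSpace 𝓘(ℝ, E) z →L[ℝ] E :=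
  (trivializationAt E (TangentSpace 𝓘(ℝ, E)) x0).continuousLinearMapAt ℝ z

/-- tangent vectors from coordinates in the chart at `x0` -/
abbrev Lc (x0 z : M) : E →L[ℝ] TangentSpace 𝓘(ℝ, E) z :=
  (trivializationAt E (TangentSpace 𝓘(ℝ, E)) x0).symmL ℝ z

set_option backward.isDefEq.respectTransparency false in
lemma riemannianEDist_le_segment (x0 : M) {p q : E} {K : ℝ≥0}
    (hseg : ∀ t ∈ Icc (0 : ℝ) 1,
      ContinuousAffineMap.lineMap (R := ℝ) p q t ∈ (extChartAt 𝓘(ℝ, E) x0).target)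
    (hK : ∀ t ∈ Icc (0 : ℝ) 1,
      ‖Lc x0 ((extChartAt 𝓘(ℝ, E) x0).symm (ContinuousAffineMap.lineMap (R := ℝ) p q t))
        (q - p)‖ ≤ K) :
    riemannianEDist 𝓘(ℝ, E) ((extChartAt 𝓘(ℝ, E) x0).symm p)
      ((extChartAt 𝓘(ℝ, E) x0).symm q) ≤ K := by
  let η := ContinuousAffineMap.lineMap (R := ℝ) p q
  set γ := (extChartAt 𝓘(ℝ, E) x0).symm ∘ η
  have η_smooth : ContMDiffOn 𝓘(ℝ, ℝ) 𝓘(ℝ, E) 1 η (Icc 0 1) := by
    apply ContMDiff.contMDiffOn
    rw [contMDiff_iff_contDiff]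
    exact ContinuousAffineMap.contDiff _
  have hγs : ContMDiffOn 𝓘(ℝ, ℝ) 𝓘(ℝ, E) 1 γ (Icc 0 1) :=
    (contMDiffOn_extChartAt_symm x0).comp η_smooth hseg
  have h1 : riemannianEDist 𝓘(ℝ, E) ((extChartAt 𝓘(ℝ, E) x0).symm p)
      ((extChartAt 𝓘(ℝ, E) x0).symm q) ≤ pathELength 𝓘(ℝ, E) γ 0 1 := by
    apply riemannianEDist_le_pathELength hγs _ _ zero_le_one
    · simp [γ, η, ContinuousAffineMap.coe_lineMap_eq]
    · simp [γ, η, ContinuousAffineMap.coe_lineMap_eq]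
  refine h1.trans ?_
  rw [pathELength_eq_lintegral_mfderivWithin_Icc]
  calc ∫⁻ t in Icc (0 : ℝ) 1, ‖mfderivWithin 𝓘(ℝ, ℝ) 𝓘(ℝ, E) γ (Icc 0 1) t 1‖ₑ
      ≤ ∫⁻ t in Icc (0 : ℝ) 1, (K : ℝ≥0∞) := by
        apply setLIntegral_mono' measurableSet_Icc (fun t ht ↦ ?_)
        have h2 : mfderivWithin 𝓘(ℝ, ℝ) 𝓘(ℝ, E) γ (Icc 0 1) t =
            (mfderivWithin 𝓘(ℝ, E) 𝓘(ℝ, E) (extChartAt 𝓘(ℝ, E) x0).symm (range 𝓘(ℝ, E)) (η t)) ∘L
              (mfderivWithin 𝓘(ℝ, ℝ) 𝓘(ℝ, E) η (Icc 0 1) t) := by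
          apply mfderivWithin_comp
          · exact mdifferentiableWithinAt_extChartAt_symm (hseg t ht)
          · exact η_smooth.mdifferentiableOn one_ne_zero t ht
          · exact fun s hs ↦ (extChartAt_target_subset_range x0) (hseg s hs)
          · rw [uniqueMDiffWithinAt_iff_uniqueDiffWithinAt]
            exact uniqueDiffOn_Icc zero_lt_one t ht
        have h3 : mfderivWithin 𝓘(ℝ, ℝ) 𝓘(ℝ, E) η (Icc 0 1) t 1 = q - p := by
          rw [mfderivWithin_eq_fderivWithin,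
            fderivWithin_eq_fderiv (uniqueDiffOn_Icc zero_lt_one _ ht)
              (ContinuousAffineMap.differentiableAt _)]
          simp [η]
          change (AffineMap.lineMap (k := ℝ) p q).linear 1 = q - p
          simp
        have h4 : Lc (E := E) x0 (γ t) = mfderivWithin 𝓘(ℝ, E) 𝓘(ℝ, E) (extChartAt 𝓘(ℝ, E) x0).symm
            (range 𝓘(ℝ, E)) (η t) := by
          have h5 : γ t ∈ (chartAt E x0).source := by
            have := (extChartAt 𝓘(ℝ, E) x0).map_target (hseg t ht)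
            rwa [extChartAt_source] at this
          have h6 := TangentBundle.symmL_trivializationAt (I := 𝓘(ℝ, E)) h5
          have h7 : extChartAt 𝓘(ℝ, E) x0 (γ t) = η t :=
            (extChartAt 𝓘(ℝ, E) x0).right_inv (hseg t ht)
          rw [h7] at h6
          exact h6
        have h9 : mfderivWithin 𝓘(ℝ, ℝ) 𝓘(ℝ, E) γ (Icc 0 1) t 1 =
            (mfderivWithin 𝓘(ℝ, E) 𝓘(ℝ, E) (extChartAt 𝓘(ℝ, E) x0).symm (range 𝓘(ℝ, E)) (η t))
              (mfderivWithin 𝓘(ℝ, ℝ) 𝓘(ℝ, E) η (Icc 0 1) t 1) := congr($h2 1)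
        rw [h9, h3]
        have h8 := hK t ht
        change ‖Lc x0 (γ t) (q - p)‖ ≤ K at h8
        rw [h4] at h8
        rw [← ofReal_norm]
        calc _ ≤ ENNReal.ofReal (K : ℝ) := by
              apply ENNReal.ofReal_le_ofReal
              exact h8
          _ = K := by simp
    _ = K := by simp

end

end Pool.Agent.Helper95
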