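import Pool.Agent.Helper95.Riem1

open Bundle Set MeasureTheory Manifold Filter
open scoped ENNReal NNReal ContDiff Topology

namespace Pool.Agent.Helper95

noncomputable section

variable {E : Type*} [NormedAddCommGroup E] [NormedSpace ℝ E]
  {M : Type*} [MetricSpace M] [ChartedSpace E M]
  [RiemannianBundle (fun (x : M) ↦ TangentSpace 𝓘(ℝ, E) x)]
  [IsRiemannianManifold 𝓘(ℝ, E) M]

/-- near minimizing paths -/
lemma exists_path (x y : M) {r : ℝ} (hr : dist x y < r) :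
    ∃ γ : ℝ → M, γ 0 = x ∧ γ 1 = y ∧ ContMDiffOn 𝓘(ℝ, ℝ) 𝓘(ℝ, E) 1 γ (Icc 0 1) ∧
      pathELength 𝓘(ℝ, E) γ 0 1 < ENNReal.ofReal r := by
  have h : riemannianEDist 𝓘(ℝ, E) x y < ENNReal.ofReal r := by
    rw [← IsRiemannianManifold.out (I := 𝓘(ℝ, E)), edist_dist]
    exact (ENNReal.ofReal_lt_ofReal_iff_of_nonneg dist_nonneg).2 hr
  exact exists_lt_of_riemannianEDist_lt h

lemma edist_le_pathELength {γ : ℝ → M} {s t : ℝ}
    (hγ : ContMDiffOn 𝓘(ℝ, ℝ) 𝓘(ℝ, E) 1 γ (Icc s t)) (hst : s ≤ t) :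
    edist (γ s) (γ t) ≤ pathELength 𝓘(ℝ, E) γ s t := by
  rw [IsRiemannianManifold.out (I := 𝓘(ℝ, E))]
  exact riemannianEDist_le_pathELength hγ rfl rfl hst

lemma abs_sub_le_of_dR_bound {f : M → ℝ} {U : Set M}
    (hf : ContMDiffOn 𝓘(ℝ, E) 𝓘(ℝ, ℝ) 1 f U) (hU : IsOpen U) {K : ℝ≥0}
    (hK : ∀ z ∈ U, ∀ v : TangentSpace 𝓘(ℝ, E) z, |dR f z v| ≤ K * ‖v‖)
    {x0 : M} {c : ℝ} (hc : 0 < c) (hball : Metric.ball x0 c ⊆ U) {x y : M}
    (hx : dist x x0 < c / 4) (hy : dist y x0 < c / 4) :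
    |f y - f x| ≤ K * dist x y := by
  have hxy : dist x y < c / 2 := by
    have := dist_triangle_right x y x0
    linarith
  have key : ∀ r : ℝ, dist x y < r → r < c / 2 → |f y - f x| ≤ K * r := by
    intro r hr hrc
    obtain ⟨γ, h0, h1, hγ, hlen⟩ := exists_path (E := E) x y hr
    have hr0 : 0 ≤ r := dist_nonneg.trans hr.le
    have hγU : ∀ t ∈ Icc (0 : ℝ) 1, γ t ∈ U := by
      intro t ht
      apply hball
      have h2 : edist (γ 0) (γ t) ≤ pathELength 𝓘(ℝ, E) γ 0 t :=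
        edist_le_pathELength (hγ.mono (Icc_subset_Icc le_rfl ht.2)) ht.1
      have h3 : pathELength 𝓘(ℝ, E) γ 0 t ≤ pathELength 𝓘(ℝ, E) γ 0 1 :=
        pathELength_mono le_rfl ht.2
      have h4 : edist x (γ t) < ENNReal.ofReal r := by
        rw [← h0]; exact (h2.trans h3).trans_lt hlen
      rw [edist_dist, ENNReal.ofReal_lt_ofReal_iff_of_nonneg dist_nonneg] at h4
      rw [Metric.mem_ball]
      have h5 := dist_triangle_left (γ t) x0 x
      linarith
    have h2 := enorm_sub_le_of_mfderiv_bound hf hU hK zero_lt_one hγ hγU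
    rw [h0, h1] at h2
    have h3 : ‖f y - f x‖ₑ ≤ ENNReal.ofReal (K * r) := by
      refine h2.trans ?_
      rw [ENNReal.ofReal_mul (NNReal.coe_nonneg K), ENNReal.ofReal_coe_nnreal]
      gcongr
    rw [← ofReal_norm, Real.norm_eq_abs] at h3
    exact (ENNReal.ofReal_le_ofReal_iff (by positivity)).1 h3
  -- let r tend to the distance
  have hlim : Tendsto (fun r : ℝ ↦ (K : ℝ) * r) (𝓝[>] (dist x y)) (𝓝 (K * dist x y)) := by
    apply tendsto_inf_left
    exact (continuous_const.mul continuous_id).tendsto _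
  refine ge_of_tendsto hlim ?_
  have h1 : ∀ᶠ r in 𝓝[>] (dist x y), r < c / 2 := by
    apply eventually_nhdsWithin_of_eventually_nhds
    exact gt_mem_nhds hxy
  filter_upwards [h1, self_mem_nhdsWithin] with r hr1 hr2
  exact key r hr2 hr1

variable (E) in
include E in
lemma exists_proportion [CompactSpace M] (x y : M) {t : ℝ} (ht : t ∈ Icc (0 : ℝ) 1) :
    ∃ z : M, dist x z = t * dist x y ∧ dist z y = (1 - t) * dist x y := by
  have key : ∀ n : ℕ, ∃ z : M, dist x z = t * dist x y ∧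
      dist z y ≤ (1 - t) * dist x y + 1 / ((n : ℝ) + 1) := by
    intro n
    have hn : (0 : ℝ) < 1 / ((n : ℝ) + 1) := by positivity
    obtain ⟨γ, h0, h1, hγ, hlen⟩ := exists_path (E := E) x y
      (r := dist x y + 1 / ((n : ℝ) + 1)) (by linarith)
    have hcont : ContinuousOn (fun s ↦ dist x (γ s)) (Icc 0 1) :=
      (continuous_const.dist continuous_id).comp_continuousOn hγ.continuousOn
    have hivt := intermediate_value_Icc (zero_le_one (α := ℝ)) hcont
    have hmem : t * dist x y ∈ Icc (dist x (γ 0)) (dist x (γ 1)) := by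
      rw [h0, h1, dist_self]
      have hD : 0 ≤ dist x y := dist_nonneg
      exact ⟨mul_nonneg ht.1 hD, mul_le_of_le_one_left hD ht.2⟩
    obtain ⟨s, hs, hs'⟩ := hivt hmem
    refine ⟨γ s, hs', ?_⟩
    have h2 : edist (γ 0) (γ s) ≤ pathELength 𝓘(ℝ, E) γ 0 s :=
      edist_le_pathELength (hγ.mono (Icc_subset_Icc le_rfl hs.2)) hs.1
    have h3 : edist (γ s) (γ 1) ≤ pathELength 𝓘(ℝ, E) γ s 1 :=
      edist_le_pathELength (hγ.mono (Icc_subset_Icc hs.1 le_rfl)) hs.2
    have h4 : edist (γ 0) (γ s) + edist (γ s) (γ 1) <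
        ENNReal.ofReal (dist x y + 1 / ((n : ℝ) + 1)) := by
      refine lt_of_le_of_lt (add_le_add h2 h3) ?_
      rw [pathELength_add hs.1 hs.2]
      exact hlen
    rw [h0, h1, edist_dist, edist_dist, ← ENNReal.ofReal_add dist_nonneg dist_nonneg,
      ENNReal.ofReal_lt_ofReal_iff (by positivity)] at h4
    change dist x (γ s) = _ at hs'
    rw [hs'] at h4
    linarith
  choose z hz1 hz2 using key
  obtain ⟨w, φ, hφ, hlim⟩ := CompactSpace.tendsto_subseq z
  have h1 : Tendsto (fun n ↦ dist x (z (φ n))) atTop (𝓝 (dist x w)) :=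
    tendsto_const_nhds.dist hlim
  have h2 : dist x w = t * dist x y := by
    refine tendsto_nhds_unique h1 ?_
    simp only [hz1]
    exact tendsto_const_nhds
  have h3 : Tendsto (fun n ↦ dist (z (φ n)) y) atTop (𝓝 (dist w y)) :=
    hlim.dist tendsto_const_nhds
  have h4 : Tendsto (fun n ↦ (1 - t) * dist x y + 1 / ((φ n : ℝ) + 1)) atTop
      (𝓝 ((1 - t) * dist x y + 0)) := by
    apply Tendsto.add tendsto_const_nhds
    exact (tendsto_one_div_add_atTop_nhds_zero_nat (𝕜 := ℝ)).comp hφ.tendsto_atTop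
  have h5 : dist w y ≤ (1 - t) * dist x y + 0 :=
    le_of_tendsto_of_tendsto' h3 h4 (fun n ↦ hz2 (φ n))
  have h6 := dist_triangle x w y
  refine ⟨w, h2, ?_⟩
  linarith

end

end Pool.Agent.Helper95
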