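import Pool.Agent.Helper95.Riem2

open Bundle Set MeasureTheory Manifold Filter
open scoped ENNReal NNReal ContDiff Topology

namespace Pool.Agent.Helper95

noncomputable section

variable {E : Type*} [NormedAddCommGroup E] [NormedSpace ℝ E]
  {M : Type*} [TopologicalSpace M] [ChartedSpace E M]
  [RiemannianBundle (fun (x : M) ↦ TangentSpace 𝓘(ℝ, E) x)]
  [IsManifold 𝓘(ℝ, E) ∞ M]
  [IsContMDiffRiemannianBundle 𝓘(ℝ, E) ∞ E (fun x : M ↦ TangentSpace 𝓘(ℝ, E) x)]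

set_option backward.isDefEq.respectTransparency false in
/-- The metric tensor read in a chart. -/
lemma exists_chart_metric (x0 : M) :
    ∃ G : E → E →L[ℝ] E →L[ℝ] ℝ, ContDiffAt ℝ 2 G (extChartAt 𝓘(ℝ, E) x0 x0) ∧
      ∀ z ∈ (chartAt E x0).source, ∀ v w : E,
        G (extChartAt 𝓘(ℝ, E) x0 z) v w = inner ℝ (Lc x0 z v) (Lc x0 z w) := by
  obtain ⟨g, g_smooth, hg⟩ := IsContMDiffRiemannianBundle.exists_contMDiff (IB := 𝓘(ℝ, E))
    (n := ∞) (F := E) (E := fun x : M ↦ TangentSpace 𝓘(ℝ, E) x)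
  let g' : M → E →L[ℝ] E →L[ℝ] ℝ := fun y ↦
    ContinuousLinearMap.inCoordinates E (TangentSpace 𝓘(ℝ, E)) (E →L[ℝ] ℝ)
      (fun x : M ↦ TangentSpace 𝓘(ℝ, E) x →L[ℝ] ℝ) x0 y x0 y (g y)
  have hg' : ContMDiffAt 𝓘(ℝ, E) 𝓘(ℝ, E →L[ℝ] E →L[ℝ] ℝ) ∞ g' x0 := by
    have h1 := g_smooth.contMDiffAt (x := x0)
    rw [contMDiffAt_hom_bundle] at h1
    exact h1.2
  refine ⟨g' ∘ (extChartAt 𝓘(ℝ, E) x0).symm, ?_, ?_⟩
  · rw [← contMDiffAt_iff_contDiffAt]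
    have h1 : ContMDiffWithinAt 𝓘(ℝ, E) 𝓘(ℝ, E) ∞ (extChartAt 𝓘(ℝ, E) x0).symm
        (range 𝓘(ℝ, E)) (extChartAt 𝓘(ℝ, E) x0 x0) :=
      contMDiffWithinAt_extChartAt_symm_range_self x0
    rw [modelWithCornersSelf_coe, range_id, contMDiffWithinAt_univ] at h1
    have h2 : ContMDiffAt 𝓘(ℝ, E) 𝓘(ℝ, E →L[ℝ] E →L[ℝ] ℝ) ∞ g'
        ((extChartAt 𝓘(ℝ, E) x0).symm (extChartAt 𝓘(ℝ, E) x0 x0)) := by
      rw [extChartAt_to_inv]; exact hg'
    exact (h2.comp _ h1).of_le (by norm_cast)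
  · intro z hz v w
    have hz' : (extChartAt 𝓘(ℝ, E) x0).symm (extChartAt 𝓘(ℝ, E) x0 z) = z :=
      (extChartAt 𝓘(ℝ, E) x0).left_inv (by rwa [extChartAt_source])
    have hb : z ∈ (trivializationAt E (TangentSpace 𝓘(ℝ, E)) x0).baseSet := by
      simpa using hz
    rw [Function.comp_apply, hz', hg]
    simp only [g']
    rw [inCoordinates_apply_eq₂ hb hb (Set.mem_univ _)]
    simp only [Lc, Trivialization.symmL_apply, hb]
    simp

end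

end Pool.Agent.Helper95
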