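import Pool.Agent.Helper95.Riem3

open Bundle Set MeasureTheory Manifold Filter
open scoped ENNReal NNReal ContDiff Topology

namespace Pool.Agent.Helper95

noncomputable section

variable {E : Type*} [NormedAddCommGroup E] [NormedSpace ℝ E]
  {M : Type*} [MetricSpace M] [ChartedSpace E M]
  [RiemannianBundle (fun (x : M) ↦ TangentSpace 𝓘(ℝ, E) x)]
  [IsManifold 𝓘(ℝ, E) ∞ M] [IsRiemannianManifold 𝓘(ℝ, E) M]

set_option backward.isDefEq.respectTransparency false in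
omit [RiemannianBundle (fun (x : M) ↦ TangentSpace 𝓘(ℝ, E) x)]
  [IsRiemannianManifold 𝓘(ℝ, E) M] in
lemma dR_chart (x0 : M) (ξ : E →L[ℝ] ℝ) {z : M} (hz : z ∈ (chartAt E x0).source)
    (v : TangentSpace 𝓘(ℝ, E) z) :
    dR (fun y ↦ ξ (extChartAt 𝓘(ℝ, E) x0 y)) z v = ξ (Ac x0 z v) := by
  have h1 : mfderiv 𝓘(ℝ, E) 𝓘(ℝ, ℝ) (fun y ↦ ξ (extChartAt 𝓘(ℝ, E) x0 y)) z =
      (mfderiv 𝓘(ℝ, E) 𝓘(ℝ, ℝ) ξ (extChartAt 𝓘(ℝ, E) x0 z)) ∘L
        (mfderiv 𝓘(ℝ, E) 𝓘(ℝ, E) (extChartAt 𝓘(ℝ, E) x0) z) := by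
    apply mfderiv_comp
    · rw [mdifferentiableAt_iff_differentiableAt]
      exact ξ.differentiableAt
    · exact mdifferentiableAt_extChartAt hz
  have h2 := TangentBundle.continuousLinearMapAt_trivializationAt (I := 𝓘(ℝ, E)) hz
  unfold dR
  rw [h1]
  have h3 : mfderiv 𝓘(ℝ, E) 𝓘(ℝ, ℝ) ξ (extChartAt 𝓘(ℝ, E) x0 z) = ξ := by
    rw [mfderiv_eq_fderiv]
    exact ξ.fderiv
  rw [h3, ← h2]
  rfl

omit [RiemannianBundle (fun (x : M) ↦ TangentSpace 𝓘(ℝ, E) x)]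
  [IsRiemannianManifold 𝓘(ℝ, E) M] in
lemma contMDiffOn_chart (x0 : M) (ξ : E →L[ℝ] ℝ) :
    ContMDiffOn 𝓘(ℝ, E) 𝓘(ℝ, ℝ) 1 (fun y ↦ ξ (extChartAt 𝓘(ℝ, E) x0 y))
      (chartAt E x0).source := by
  have h1 : ContMDiffOn 𝓘(ℝ, E) 𝓘(ℝ, E) 1 (extChartAt 𝓘(ℝ, E) x0) (chartAt E x0).source :=
    contMDiffOn_extChartAt
  have h2 : ContMDiff 𝓘(ℝ, E) 𝓘(ℝ, ℝ) 1 ξ := ξ.contMDiff
  exact h2.comp_contMDiffOn h1

/-- `G` is the metric tensor read in the chart at `x0`. -/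
def IsChartMetric (x0 : M) (G : E → E →L[ℝ] E →L[ℝ] ℝ) : Prop :=
  ∀ z ∈ (chartAt E x0).source, ∀ v w : E,
    G (extChartAt 𝓘(ℝ, E) x0 z) v w = inner ℝ (Lc x0 z v) (Lc x0 z w)

omit [IsRiemannianManifold 𝓘(ℝ, E) M] in
lemma IsChartMetric.apply_symm {x0 : M} {G : E → E →L[ℝ] E →L[ℝ] ℝ} (hG : IsChartMetric x0 G)
    {p : E} (hp : p ∈ (extChartAt 𝓘(ℝ, E) x0).target) (v w : E) :
    G p v w = inner ℝ (Lc x0 ((extChartAt 𝓘(ℝ, E) x0).symm p) v)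
      (Lc x0 ((extChartAt 𝓘(ℝ, E) x0).symm p) w) := by
  have h1 := (extChartAt 𝓘(ℝ, E) x0).map_target hp
  rw [extChartAt_source] at h1
  rw [← hG _ h1, (extChartAt 𝓘(ℝ, E) x0).right_inv hp]

omit [IsRiemannianManifold 𝓘(ℝ, E) M] in
lemma IsChartMetric.nonneg {x0 : M} {G : E → E →L[ℝ] E →L[ℝ] ℝ} (hG : IsChartMetric x0 G)
    {p : E} (hp : p ∈ (extChartAt 𝓘(ℝ, E) x0).target) (v : E) : 0 ≤ G p v v := by
  rw [hG.apply_symm hp]; exact real_inner_self_nonneg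

omit [IsRiemannianManifold 𝓘(ℝ, E) M] in
lemma IsChartMetric.symm {x0 : M} {G : E → E →L[ℝ] E →L[ℝ] ℝ} (hG : IsChartMetric x0 G)
    {p : E} (hp : p ∈ (extChartAt 𝓘(ℝ, E) x0).target) (v w : E) : G p v w = G p w v := by
  rw [hG.apply_symm hp, hG.apply_symm hp, real_inner_comm]

omit [IsRiemannianManifold 𝓘(ℝ, E) M] in
lemma IsChartMetric.norm_sq {x0 : M} {G : E → E →L[ℝ] E →L[ℝ] ℝ} (hG : IsChartMetric x0 G)
    {p : E} (hp : p ∈ (extChartAt 𝓘(ℝ, E) x0).target) (v : E) :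
    ‖Lc x0 ((extChartAt 𝓘(ℝ, E) x0).symm p) v‖ ^ 2 = G p v v := by
  rw [hG.apply_symm hp, real_inner_self_eq_norm_sq]

omit [IsRiemannianManifold 𝓘(ℝ, E) M] in
/-- Cauchy-Schwarz -/
lemma IsChartMetric.cauchy {x0 : M} {G : E → E →L[ℝ] E →L[ℝ] ℝ} (hG : IsChartMetric x0 G)
    {p : E} (hp : p ∈ (extChartAt 𝓘(ℝ, E) x0).target) (v w : E) :
    |G p v w| ≤ √(G p v v) * √(G p w w) := by
  rw [← hG.norm_sq hp v, ← hG.norm_sq hp w, Real.sqrt_sq (norm_nonneg _),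
    Real.sqrt_sq (norm_nonneg _), hG.apply_symm hp]
  exact abs_real_inner_le_norm _ _

lemma dist_sq_le_of_segment {x0 : M} {G : E → E →L[ℝ] E →L[ℝ] ℝ} (hG : IsChartMetric x0 G)
    {p0 : E} {δ : ℝ} (hδ : Metric.ball p0 δ ⊆ (extChartAt 𝓘(ℝ, E) x0).target) {p q : E}
    (hp : p ∈ Metric.ball p0 δ) (hq : q ∈ Metric.ball p0 δ) {K : ℝ}
    (hK : ∀ m ∈ Metric.ball p0 δ, G m (q - p) (q - p) ≤ K) :
    dist ((extChartAt 𝓘(ℝ, E) x0).symm p) ((extChartAt 𝓘(ℝ, E) x0).symm q) ^ 2 ≤ K := by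
  have hK0 : 0 ≤ K := (hG.nonneg (hδ hp) _).trans (hK p hp)
  have hmem : ∀ t ∈ Icc (0 : ℝ) 1, ContinuousAffineMap.lineMap (R := ℝ) p q t ∈
      Metric.ball p0 δ := by
    intro t ht
    have h1 := (convex_ball p0 δ).segment_subset hp hq
    rw [segment_eq_image_lineMap] at h1
    exact h1 ⟨t, ht, rfl⟩
  have h1 : riemannianEDist 𝓘(ℝ, E) ((extChartAt 𝓘(ℝ, E) x0).symm p)
      ((extChartAt 𝓘(ℝ, E) x0).symm q) ≤ ((√K).toNNReal : ℝ≥0∞) := by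
    apply riemannianEDist_le_segment
    · intro t ht
      exact hδ (hmem t ht)
    · intro t ht
      have h2 := hK _ (hmem t ht)
      rw [← hG.norm_sq (hδ (hmem t ht))] at h2
      rw [Real.coe_toNNReal _ (Real.sqrt_nonneg _)]
      exact Real.le_sqrt_of_sq_le h2
  rw [← IsRiemannianManifold.out (I := 𝓘(ℝ, E)), edist_dist] at h1
  have h2 : dist ((extChartAt 𝓘(ℝ, E) x0).symm p) ((extChartAt 𝓘(ℝ, E) x0).symm q) ≤ √K := by
    exact (ENNReal.ofReal_le_ofReal_iff (Real.sqrt_nonneg _)).1 h1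
  calc _ ≤ √K ^ 2 := by gcongr
    _ = K := Real.sq_sqrt hK0

/-- lower bound for the distance -/
lemma le_dist_sq {x0 : M} {G : E → E →L[ℝ] E →L[ℝ] ℝ} (hG : IsChartMetric x0 G)
    {p0 : E} (hp0 : p0 ∈ (extChartAt 𝓘(ℝ, E) x0).target) {δ : ℝ} (hδ0 : 0 < δ)
    (hδ : Metric.ball p0 δ ⊆ (extChartAt 𝓘(ℝ, E) x0).target) {κ : ℝ} (hκ : 0 ≤ κ)
    (hK : ∀ m ∈ Metric.ball p0 δ, ∀ v : E, G p0 v v ≤ κ * G m v v) :
    ∃ δ' > 0, ∀ p ∈ Metric.ball p0 δ', ∀ q ∈ Metric.ball p0 δ',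
      G p0 (q - p) (q - p) ≤ κ * dist ((extChartAt 𝓘(ℝ, E) x0).symm p)
        ((extChartAt 𝓘(ℝ, E) x0).symm q) ^ 2 := by
  set e := (extChartAt 𝓘(ℝ, E) x0).symm with he
  set φ := extChartAt 𝓘(ℝ, E) x0 with hφ
  -- the open set
  have hsrc : φ.source = (chartAt E x0).source := by rw [hφ, extChartAt_source]
  let V : Set M := φ.source ∩ φ ⁻¹' (Metric.ball p0 δ)
  have hVo : IsOpen V := by
    have h1 : ContinuousOn φ φ.source := continuousOn_extChartAt x0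
    exact h1.isOpen_inter_preimage (by rw [hsrc]; exact (chartAt E x0).open_source)
      Metric.isOpen_ball
  have hVmem : e p0 ∈ V := by
    refine ⟨φ.map_target hp0, ?_⟩
    change φ (e p0) ∈ Metric.ball p0 δ
    rw [he, φ.right_inv hp0]
    exact Metric.mem_ball_self hδ0
  obtain ⟨c, hc, hcV⟩ := Metric.isOpen_iff.1 hVo _ hVmem
  have hcont : ContinuousAt e p0 := by
    have h1 : ContinuousOn e φ.target := continuousOn_extChartAt_symm x0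
    exact h1.continuousAt ((isOpen_extChartAt_target (I := 𝓘(ℝ, E)) x0).mem_nhds hp0)
  obtain ⟨δ1, hδ1, hδ1'⟩ := Metric.continuousAt_iff.1 hcont (c / 4) (by positivity)
  refine ⟨min δ δ1, lt_min hδ0 hδ1, ?_⟩
  intro p hp q hq
  have hpδ : p ∈ Metric.ball p0 δ := Metric.ball_subset_ball (min_le_left _ _) hp
  have hqδ : q ∈ Metric.ball p0 δ := Metric.ball_subset_ball (min_le_left _ _) hq
  have hpt := hδ hpδ
  have hqt := hδ hqδ
  have hpc : dist (e p) (e p0) < c / 4 := hδ1' (lt_of_lt_of_le hp (min_le_right _ _))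
  have hqc : dist (e q) (e p0) < c / 4 := hδ1' (lt_of_lt_of_le hq (min_le_right _ _))
  set a := q - p with ha
  set T := G p0 a a with hT
  have hT0 : 0 ≤ T := hG.nonneg hp0 a
  let K : ℝ≥0 := (√T * √κ).toNNReal
  have hKv : (K : ℝ) = √T * √κ := Real.coe_toNNReal _ (by positivity)
  have hbound : ∀ z ∈ V, ∀ v : TangentSpace 𝓘(ℝ, E) z,
      |dR (fun y ↦ (G p0 a) (φ y)) z v| ≤ K * ‖v‖ := by
    intro z hz v
    have hz1 : z ∈ (chartAt E x0).source := by rw [← hsrc]; exact hz.1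
    have hzt : φ z ∈ φ.target := φ.map_source hz.1
    rw [dR_chart x0 (G p0 a) hz1]
    have h1 := hG.cauchy hp0 a (Ac x0 z v)
    have h2 := hK (φ z) hz.2 (Ac x0 z v)
    have h3 : G (φ z) (Ac x0 z v) (Ac x0 z v) = ‖v‖ ^ 2 := by
      rw [hG z hz1, real_inner_self_eq_norm_sq]
      have hb : z ∈ (trivializationAt E (TangentSpace 𝓘(ℝ, E)) x0).baseSet := by
        simpa using hz1
      rw [Trivialization.symmL_continuousLinearMapAt _ hb]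
    rw [h3] at h2
    refine h1.trans ?_
    rw [hKv, mul_assoc]
    apply mul_le_mul_of_nonneg_left _ (Real.sqrt_nonneg _)
    calc √(G p0 (Ac x0 z v) (Ac x0 z v)) ≤ √(κ * ‖v‖ ^ 2) := Real.sqrt_le_sqrt h2
      _ = √κ * ‖v‖ := by rw [Real.sqrt_mul hκ, Real.sqrt_sq (norm_nonneg _)]
  have hV' : V ⊆ (chartAt E x0).source := by
    intro z hz; rw [← hsrc]; exact hz.1
  have h4 := abs_sub_le_of_dR_bound (f := fun y ↦ (G p0 a) (φ y))
    ((contMDiffOn_chart x0 (G p0 a)).mono hV') hVo hbound hc hcV hpc hqc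
  beta_reduce at h4
  rw [he, φ.right_inv hqt, φ.right_inv hpt, ← map_sub, ← ha, ← hT, ← he, hKv,
    abs_of_nonneg hT0] at h4
  -- now T ≤ √T √κ d
  set D := dist (e p) (e q) with hD
  have hD0 : 0 ≤ D := dist_nonneg
  rcases eq_or_lt_of_le hT0 with h0 | h0
  · rw [← h0]; positivity
  · have h5 : √T ≤ √κ * D := by
      have h6 : √T * √T ≤ √T * (√κ * D) := by
        rw [Real.mul_self_sqrt hT0]; linarith
      exact le_of_mul_le_mul_left h6 (Real.sqrt_pos.2 h0)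
    calc T = √T ^ 2 := (Real.sq_sqrt hT0).symm
      _ ≤ (√κ * D) ^ 2 := by gcongr
      _ = κ * D ^ 2 := by rw [mul_pow, Real.sq_sqrt hκ]

end

end Pool.Agent.Helper95
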