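import Pool.Agent.Helper95.Riem4
import Pool.Agent.Helper95.C2

open Bundle Set MeasureTheory Manifold Filter
open scoped ENNReal NNReal ContDiff Topology

namespace Pool.Agent.Helper95

noncomputable section

variable {E : Type*} [NormedAddCommGroup E] [NormedSpace ℝ E]
  {M : Type*} [MetricSpace M] [ChartedSpace E M]
  [RiemannianBundle (fun (x : M) ↦ TangentSpace 𝓘(ℝ, E) x)]
  [IsManifold 𝓘(ℝ, E) ∞ M] [IsRiemannianManifold 𝓘(ℝ, E) M]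

/-- local two-sided comparison -/
lemma local_comparison {x0 : M} {G : E → E →L[ℝ] E →L[ℝ] ℝ} (hG : IsChartMetric x0 G)
    {p0 : E} {δ0 : ℝ} (hδ0 : 0 < δ0)
    (hδ : Metric.ball p0 δ0 ⊆ (extChartAt 𝓘(ℝ, E) x0).target)
    {c : ℝ} (hc : 0 < c) (hlow : ∀ p ∈ Metric.ball p0 δ0, ∀ v : E, c * ‖v‖ ^ 2 ≤ G p v v)
    {C : ℝ} (hC : 0 < C) (hlip : ∀ p ∈ Metric.ball p0 δ0, ∀ v : E,
      |G p v v - G p0 v v| ≤ C * ‖p - p0‖ * ‖v‖ ^ 2)
    (hupp : ∀ v : E, G p0 v v ≤ C * ‖v‖ ^ 2)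
    {ε : ℝ} (hε : 0 < ε) :
    ∃ δ > 0, ∀ p ∈ Metric.ball p0 δ, ∀ q ∈ Metric.ball p0 δ,
      |dist ((extChartAt 𝓘(ℝ, E) x0).symm p) ((extChartAt 𝓘(ℝ, E) x0).symm q) ^ 2
        - G p0 (q - p) (q - p)| ≤ ε * ‖q - p‖ ^ 2 := by
  -- choose the small parameter
  obtain ⟨ε', hε', hε1, hε2⟩ : ∃ ε' > 0, ε' ≤ ε ∧ ε' / c * (C + ε) ≤ ε := by
    refine ⟨min ε (ε * c / (C + ε)), by positivity, min_le_left _ _, ?_⟩
    calc min ε (ε * c / (C + ε)) / c * (C + ε) ≤ (ε * c / (C + ε)) / c * (C + ε) := by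
          gcongr; exact min_le_right _ _
      _ = ε := by field_simp
  obtain ⟨δ1, hδ1, hδ1'⟩ : ∃ δ1 > 0, C * δ1 ≤ ε' := ⟨ε' / C, by positivity, by field_simp; rfl⟩
  have hclose : ∀ m ∈ Metric.ball p0 (min δ0 δ1), ∀ v : E,
      |G m v v - G p0 v v| ≤ ε' * ‖v‖ ^ 2 := by
    intro m hm v
    have h1 : ‖m - p0‖ < δ1 := by
      rw [← dist_eq_norm]; exact lt_of_lt_of_le hm (min_le_right _ _)
    refine (hlip m (Metric.ball_subset_ball (min_le_left _ _) hm) v).trans ?_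
    gcongr
    calc C * ‖m - p0‖ ≤ C * δ1 := by gcongr
      _ ≤ ε' := hδ1'
  have hsub : Metric.ball p0 (min δ0 δ1) ⊆ (extChartAt 𝓘(ℝ, E) x0).target :=
    (Metric.ball_subset_ball (min_le_left _ _)).trans hδ
  have hp0t : p0 ∈ (extChartAt 𝓘(ℝ, E) x0).target := hδ (Metric.mem_ball_self hδ0)
  have hK : ∀ m ∈ Metric.ball p0 (min δ0 δ1), ∀ v : E,
      G p0 v v ≤ (1 + ε' / c) * G m v v := by
    intro m hm v
    have h1 := hclose m hm v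
    have h2 := hlow m (Metric.ball_subset_ball (min_le_left _ _) hm) v
    rw [abs_le] at h1
    have h3 : ε' * ‖v‖ ^ 2 ≤ ε' / c * G m v v := by
      calc ε' * ‖v‖ ^ 2 = ε' / c * (c * ‖v‖ ^ 2) := by field_simp
        _ ≤ _ := by gcongr
    linarith
  obtain ⟨δ', hδ', hlowd⟩ := le_dist_sq hG hp0t (lt_min hδ0 hδ1) hsub
    (κ := 1 + ε' / c) (by positivity) hK
  refine ⟨min (min δ0 δ1) δ', lt_min (lt_min hδ0 hδ1) hδ', ?_⟩
  intro p hp q hq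
  have hp1 : p ∈ Metric.ball p0 (min δ0 δ1) := Metric.ball_subset_ball (min_le_left _ _) hp
  have hq1 : q ∈ Metric.ball p0 (min δ0 δ1) := Metric.ball_subset_ball (min_le_left _ _) hq
  have hp2 : p ∈ Metric.ball p0 δ' := Metric.ball_subset_ball (min_le_right _ _) hp
  have hq2 : q ∈ Metric.ball p0 δ' := Metric.ball_subset_ball (min_le_right _ _) hq
  have hup := dist_sq_le_of_segment hG hsub hp1 hq1
    (K := G p0 (q - p) (q - p) + ε' * ‖q - p‖ ^ 2) (by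
      intro m hm
      have := (abs_le.1 (hclose m hm (q - p))).2
      linarith)
  have hlo := hlowd p hp2 q hq2
  have hCb : G p0 (q - p) (q - p) ≤ C * ‖q - p‖ ^ 2 := hupp _
  set D := dist ((extChartAt 𝓘(ℝ, E) x0).symm p) ((extChartAt 𝓘(ℝ, E) x0).symm q) with hD
  have hN : 0 ≤ ‖q - p‖ ^ 2 := by positivity
  rw [abs_le]
  constructor
  · have h1 : D ^ 2 ≤ (C + ε) * ‖q - p‖ ^ 2 := by
      calc D ^ 2 ≤ G p0 (q - p) (q - p) + ε' * ‖q - p‖ ^ 2 := hup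
        _ ≤ C * ‖q - p‖ ^ 2 + ε * ‖q - p‖ ^ 2 := by gcongr
        _ = _ := by ring
    have h2 : ε' / c * D ^ 2 ≤ ε * ‖q - p‖ ^ 2 := by
      calc ε' / c * D ^ 2 ≤ ε' / c * ((C + ε) * ‖q - p‖ ^ 2) := by gcongr
        _ = (ε' / c * (C + ε)) * ‖q - p‖ ^ 2 := by ring
        _ ≤ ε * ‖q - p‖ ^ 2 := by gcongr
    have h3 : (1 + ε' / c) * D ^ 2 = D ^ 2 + ε' / c * D ^ 2 := by ring
    rw [h3] at hlo
    linarith
  · have h1 : ε' * ‖q - p‖ ^ 2 ≤ ε * ‖q - p‖ ^ 2 := by gcongr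
    linarith

set_option backward.isDefEq.respectTransparency false in
omit [IsRiemannianManifold 𝓘(ℝ, E) M] in
lemma exists_lower_at {x0 : M} {G : E → E →L[ℝ] E →L[ℝ] ℝ} (hG : IsChartMetric x0 G) :
    ∃ c > 0, ∀ v : E, c * ‖v‖ ^ 2 ≤ G (extChartAt 𝓘(ℝ, E) x0 x0) v v := by
  have hx : x0 ∈ (chartAt E x0).source := mem_chart_source E x0
  have hb : x0 ∈ (trivializationAt E (TangentSpace 𝓘(ℝ, E)) x0).baseSet := by
    simp
  obtain ⟨α, hα⟩ : ∃ α : ℝ, α = ‖Ac (E := E) x0 x0‖ + 1 := ⟨‖Ac (E := E) x0 x0‖ + 1, rfl⟩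
  have hα0 : 0 < α := by
    have : 0 ≤ ‖Ac (E := E) x0 x0‖ := ContinuousLinearMap.opNorm_nonneg _
    linarith
  refine ⟨1 / α ^ 2, by positivity, ?_⟩
  intro v
  rw [hG x0 hx, real_inner_self_eq_norm_sq]
  have h1 : ‖v‖ ≤ ‖Ac (E := E) x0 x0‖ * ‖Lc x0 x0 v‖ := by
    have h2 : Ac x0 x0 (Lc x0 x0 v) = v :=
      Trivialization.continuousLinearMapAt_symmL _ hb v
    calc ‖v‖ = ‖Ac x0 x0 (Lc x0 x0 v)‖ := by rw [h2]
      _ ≤ _ := ContinuousLinearMap.le_opNorm _ _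
  have h3 : ‖v‖ ≤ α * ‖Lc x0 x0 v‖ := by
    refine h1.trans ?_
    apply mul_le_mul_of_nonneg_right _ (norm_nonneg _)
    linarith
  rw [one_div, inv_mul_le_iff₀ (by positivity), ← mul_pow]
  exact pow_le_pow_left₀ (norm_nonneg _) h3 2

end

end Pool.Agent.Helper95
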