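import Pool.Agent.Helper95.Riem5

open Bundle Set MeasureTheory Manifold Filter
open scoped ENNReal NNReal ContDiff Topology

namespace Pool.Agent.Helper95

noncomputable section

variable {E : Type*} [NormedAddCommGroup E] [NormedSpace ℝ E] [FiniteDimensional ℝ E]
  {M : Type*} [MetricSpace M] [ChartedSpace E M]
  [RiemannianBundle (fun (x : M) ↦ TangentSpace 𝓘(ℝ, E) x)]
  [IsManifold 𝓘(ℝ, E) ∞ M]
  [IsContMDiffRiemannianBundle 𝓘(ℝ, E) ∞ E (fun x : M ↦ TangentSpace 𝓘(ℝ, E) x)]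
  [IsRiemannianManifold 𝓘(ℝ, E) M]

variable (E) in
/-- Every point of a Riemannian manifold has a good chart. -/
theorem exists_good_chart (x0 : M) :
    ∃ (e : E → M) (a : E) (R : ℝ) (G : E → E →L[ℝ] E →L[ℝ] ℝ) (c C : ℝ),
      e a = x0 ∧ IsGoodChart e a R G c C := by
  obtain ⟨G, hG2, hG⟩ := exists_chart_metric (E := E) x0
  set a := extChartAt 𝓘(ℝ, E) x0 x0 with ha
  obtain ⟨C1, hC1, R1, hR1, hlip, hsec⟩ := exists_second_difference_bound hG2
  obtain ⟨c0, hc0, hlow0⟩ := exists_lower_at (E := E) (x0 := x0) hG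
  have hat : a ∈ (extChartAt 𝓘(ℝ, E) x0).target := mem_extChartAt_target x0
  obtain ⟨R2, hR2, hR2t⟩ := Metric.isOpen_iff.1 (isOpen_extChartAt_target (I := 𝓘(ℝ, E)) x0) a hat
  obtain ⟨R4, hR4, hR41, hR42, hR43⟩ : ∃ R4 > 0, R4 ≤ R1 ∧ R4 ≤ R2 ∧ C1 * R4 ≤ c0 / 2 := by
    refine ⟨min (min R1 R2) (c0 / 2 / C1), by positivity,
      (min_le_left _ _).trans (min_le_left _ _), (min_le_left _ _).trans (min_le_right _ _), ?_⟩
    calc C1 * min (min R1 R2) (c0 / 2 / C1) ≤ C1 * (c0 / 2 / C1) := by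
          gcongr; exact min_le_right _ _
      _ = c0 / 2 := by field_simp
  have hball1 : ∀ p ∈ Metric.ball a R4, p ∈ Metric.ball a R1 :=
    fun p hp ↦ Metric.ball_subset_ball hR41 hp
  have hball2 : Metric.ball a R4 ⊆ (extChartAt 𝓘(ℝ, E) x0).target :=
    (Metric.ball_subset_ball hR42).trans hR2t
  have hliplip : ∀ p ∈ Metric.ball a R4, ∀ q ∈ Metric.ball a R4, ∀ v w : E,
      |G p v w - G q v w| ≤ C1 * ‖p - q‖ * ‖v‖ * ‖w‖ := by
    intro p hp q hq v w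
    have h1 := hlip p (hball1 p hp) q (hball1 q hq)
    have h2 := (G p - G q).le_opNorm₂ v w
    rw [Real.norm_eq_abs] at h2
    have h3 : (G p - G q) v w = G p v w - G q v w := rfl
    rw [h3] at h2
    refine h2.trans ?_
    gcongr
  have hlow : ∀ p ∈ Metric.ball a R4, ∀ v : E, c0 / 2 * ‖v‖ ^ 2 ≤ G p v v := by
    intro p hp v
    have h1 := hliplip p hp a (Metric.mem_ball_self hR4) v v
    have h2 := hlow0 v
    rw [← ha] at h2
    have h3 : C1 * ‖p - a‖ * ‖v‖ * ‖v‖ ≤ c0 / 2 * ‖v‖ ^ 2 := by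
      calc C1 * ‖p - a‖ * ‖v‖ * ‖v‖ = C1 * ‖p - a‖ * ‖v‖ ^ 2 := by ring
        _ ≤ C1 * R4 * ‖v‖ ^ 2 := by
          gcongr
          rw [← dist_eq_norm]; exact (Metric.mem_ball.1 hp).le
        _ ≤ _ := by gcongr
    have h4 := (abs_le.1 h1).1
    nlinarith
  obtain ⟨Λ, hΛ0, hΛ⟩ : ∃ Λ > 0, ∀ v w : E, |G a v w| ≤ Λ * ‖v‖ * ‖w‖ := by
    refine ⟨‖G a‖ + 1, by positivity, fun v w ↦ ?_⟩
    have h2 := (G a).le_opNorm₂ v w
    rw [Real.norm_eq_abs] at h2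
    refine h2.trans ?_
    gcongr
    linarith
  obtain ⟨C2, hC2, hC21, hC2Λ⟩ : ∃ C2 > 0, C1 ≤ C2 ∧ Λ + c0 ≤ C2 :=
    ⟨C1 + Λ + c0, by positivity, by linarith, by linarith⟩
  have hupp : ∀ p ∈ Metric.ball a R4, ∀ v w : E, |G p v w| ≤ C2 * ‖v‖ * ‖w‖ := by
    intro p hp v w
    have h1 := hliplip p hp a (Metric.mem_ball_self hR4) v w
    have h2 := hΛ v w
    have h3 : C1 * ‖p - a‖ * ‖v‖ * ‖w‖ ≤ c0 * ‖v‖ * ‖w‖ := by
      gcongr
      calc C1 * ‖p - a‖ ≤ C1 * R4 := by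
            gcongr
            rw [← dist_eq_norm]; exact (Metric.mem_ball.1 hp).le
        _ ≤ c0 / 2 := hR43
        _ ≤ c0 := by linarith
    have h4 : |G p v w| ≤ |G a v w| + |G p v w - G a v w| := by
      have := abs_add_le (G a v w) (G p v w - G a v w)
      simpa using this
    calc |G p v w| ≤ Λ * ‖v‖ * ‖w‖ + c0 * ‖v‖ * ‖w‖ := by linarith
      _ = (Λ + c0) * ‖v‖ * ‖w‖ := by ring
      _ ≤ _ := by gcongr
  -- local comparison at every point of the ball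
  have hcomp : ∀ p0 ∈ Metric.ball a R4, ∀ ε > 0, ∃ δ > 0, ∀ p ∈ Metric.ball p0 δ,
      ∀ q ∈ Metric.ball p0 δ,
      |dist ((extChartAt 𝓘(ℝ, E) x0).symm p) ((extChartAt 𝓘(ℝ, E) x0).symm q) ^ 2
        - G p0 (q - p) (q - p)| ≤ ε * ‖q - p‖ ^ 2 := by
    intro p0 hp0 ε hε
    have hsub : Metric.ball p0 (R4 - dist p0 a) ⊆ Metric.ball a R4 := by
      apply Metric.ball_subset_ball'
      linarith
    have hpos : 0 < R4 - dist p0 a := by
      have := Metric.mem_ball.1 hp0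
      linarith
    refine local_comparison hG hpos (hsub.trans hball2) (c := c0 / 2) (by positivity)
      (fun p hp v ↦ hlow p (hsub hp) v) (C := C2) hC2 (fun p hp v ↦ ?_) (fun v ↦ ?_) hε
    · refine (hliplip p (hsub hp) p0 hp0 v v).trans ?_
      rw [mul_assoc, ← pow_two]
      gcongr
    · refine (le_abs_self _).trans ((hupp p0 hp0 v v).trans ?_)
      rw [mul_assoc, ← pow_two]
  obtain ⟨δ5, hδ5, hcmp⟩ := hcomp a (Metric.mem_ball_self hR4) (c0 / 4) (by positivity)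
  -- final constants
  obtain ⟨R, hR, hRR4, hRδ5⟩ : ∃ R > 0, R < R4 ∧ R < δ5 :=
    ⟨min R4 δ5 / 2, by positivity, by
      have := min_le_left R4 δ5
      have : 0 < min R4 δ5 := by positivity
      linarith, by
      have := min_le_right R4 δ5
      have : 0 < min R4 δ5 := by positivity
      linarith⟩
  have hR4' : ∀ p ∈ Metric.closedBall a R, p ∈ Metric.ball a R4 :=
    fun p hp ↦ Metric.closedBall_subset_ball hRR4 hp
  have hδ5' : ∀ p ∈ Metric.closedBall a R, p ∈ Metric.ball a δ5 :=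
    fun p hp ↦ Metric.closedBall_subset_ball hRδ5 hp
  obtain ⟨c, hc, hc1, hc2⟩ : ∃ c > 0, c ≤ c0 / 2 ∧ c ^ 2 ≤ c0 / 4 := by
    refine ⟨min (c0 / 2) (√(c0 / 4)), by positivity, min_le_left _ _, ?_⟩
    calc min (c0 / 2) (√(c0 / 4)) ^ 2 ≤ √(c0 / 4) ^ 2 := by
          gcongr; exact min_le_right _ _
      _ = c0 / 4 := Real.sq_sqrt (by positivity)
  obtain ⟨C, hC, hCC1, hCC2⟩ : ∃ C > 0, C2 ≤ C ∧ C2 + c0 / 4 ≤ C ^ 2 := by
    refine ⟨C2 + c0 + 1, by positivity, by linarith, ?_⟩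
    nlinarith
  have haR : a ∈ Metric.closedBall a R := Metric.mem_closedBall_self hR.le
  refine ⟨(extChartAt 𝓘(ℝ, E) x0).symm, a, R, G, c, C, extChartAt_to_inv x0, ?_⟩
  refine ⟨hR, hc, hC, ?_, ?_, ?_, ?_, ?_, ?_, ?_, ?_, ?_⟩
  · -- surjectivity
    intro r hr
    have h1 : (extChartAt 𝓘(ℝ, E) x0) ⁻¹' (Metric.closedBall a r) ∈ 𝓝 x0 :=
      (continuousAt_extChartAt x0).preimage_mem_nhds (Metric.closedBall_mem_nhds _ hr)
    have h2 : (extChartAt 𝓘(ℝ, E) x0).source ∈ 𝓝 x0 := extChartAt_source_mem_nhds x0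
    obtain ⟨ρ, hρ, hρs⟩ := Metric.mem_nhds_iff.1 (inter_mem h1 h2)
    refine ⟨ρ, hρ, fun x hx ↦ ?_⟩
    rw [extChartAt_to_inv] at hx
    have h3 := hρs hx
    exact ⟨extChartAt 𝓘(ℝ, E) x0 x, h3.1, (extChartAt 𝓘(ℝ, E) x0).left_inv h3.2⟩
  · intro p hp v w
    exact IsChartMetric.symm hG (hball2 (hR4' p hp)) v w
  · intro p hp v
    refine le_trans ?_ (hlow p (hR4' p hp) v)
    gcongr
  · intro p hp v w
    refine (hupp p (hR4' p hp) v w).trans ?_
    gcongr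
  · intro p hp q hq v w
    refine (hliplip p (hR4' p hp) q (hR4' q hq) v w).trans ?_
    gcongr
    linarith
  · intro p u hp hq v w
    have h1 := hsec p u (hball1 _ (hR4' _ hp)) (hball1 _ (hR4' _ hq))
    have h2 := (G (p + u) + G (p - u) - (2 : ℝ) • G p).le_opNorm₂ v w
    rw [Real.norm_eq_abs] at h2
    have h3 : (G (p + u) + G (p - u) - (2 : ℝ) • G p) v w =
      G (p + u) v w + G (p - u) v w - 2 * G p v w := rfl
    rw [h3] at h2
    refine h2.trans ?_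
    gcongr
    refine h1.trans ?_
    gcongr
    linarith
  · intro p hp q hq
    have h1 := (abs_le.1 (hcmp p (hδ5' p hp) q (hδ5' q hq))).1
    have h2 := hlow a (Metric.mem_ball_self hR4) (q - p)
    have h3 : (c * ‖p - q‖) ^ 2 ≤ dist ((extChartAt 𝓘(ℝ, E) x0).symm p)
        ((extChartAt 𝓘(ℝ, E) x0).symm q) ^ 2 := by
      rw [mul_pow, norm_sub_rev p q]
      calc c ^ 2 * ‖q - p‖ ^ 2 ≤ c0 / 4 * ‖q - p‖ ^ 2 := by gcongr
        _ ≤ _ := by nlinarith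
    exact le_of_sq_le_sq h3 dist_nonneg
  · intro p hp q hq
    have h1 := (abs_le.1 (hcmp p (hδ5' p hp) q (hδ5' q hq))).2
    have h2 := (le_abs_self _).trans (hupp a (Metric.mem_ball_self hR4) (q - p) (q - p))
    have h3 : dist ((extChartAt 𝓘(ℝ, E) x0).symm p)
        ((extChartAt 𝓘(ℝ, E) x0).symm q) ^ 2 ≤ (C * ‖p - q‖) ^ 2 := by
      rw [mul_pow, norm_sub_rev p q]
      calc _ ≤ (C2 + c0 / 4) * ‖q - p‖ ^ 2 := by nlinarith
        _ ≤ C ^ 2 * ‖q - p‖ ^ 2 := by gcongr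
    exact le_of_sq_le_sq h3 (by positivity)
  · -- uniform asymptotics
    intro ε hε
    have hex : ∀ p0 : Metric.closedBall a R, ∃ δ > 0, C1 * δ ≤ ε / 2 ∧ ∀ p ∈ Metric.ball (p0 : E) δ,
        ∀ q ∈ Metric.ball (p0 : E) δ,
        |dist ((extChartAt 𝓘(ℝ, E) x0).symm p) ((extChartAt 𝓘(ℝ, E) x0).symm q) ^ 2
          - G p0 (q - p) (q - p)| ≤ ε / 2 * ‖q - p‖ ^ 2 := by
      intro p0
      obtain ⟨δ, hδ, h⟩ := hcomp p0 (hR4' _ p0.2) (ε / 2) (by positivity)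
      refine ⟨min δ (ε / 2 / C1), by positivity, ?_, ?_⟩
      · calc C1 * min δ (ε / 2 / C1) ≤ C1 * (ε / 2 / C1) := by gcongr; exact min_le_right _ _
          _ = ε / 2 := by field_simp
      · intro p hp q hq
        exact h p (Metric.ball_subset_ball (min_le_left _ _) hp) q
          (Metric.ball_subset_ball (min_le_left _ _) hq)
    choose δ hδ hδ1 hδ2 using hex
    have hcpt : IsCompact (Metric.closedBall a R) := isCompact_closedBall a R
    obtain ⟨η, hη, hηs⟩ := lebesgue_number_lemma_of_metric hcpt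
      (c := fun p0 : Metric.closedBall a R ↦ Metric.ball (p0 : E) (δ p0))
      (fun _ ↦ Metric.isOpen_ball)
      (fun p hp ↦ mem_iUnion.2 ⟨⟨p, hp⟩, Metric.mem_ball_self (hδ _)⟩)
    refine ⟨η, hη, ?_⟩
    intro p hp q hq hpq
    obtain ⟨p0, hp0⟩ := hηs p hp
    have hp' : p ∈ Metric.ball (p0 : E) (δ p0) := hp0 (Metric.mem_ball_self hη)
    have hq' : q ∈ Metric.ball (p0 : E) (δ p0) := by
      apply hp0
      rw [Metric.mem_ball, dist_comm, dist_eq_norm]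
      exact hpq
    have h1 := hδ2 p0 p hp' q hq'
    have h2 := hliplip p (hR4' p hp) p0 (hR4' _ p0.2) (q - p) (q - p)
    have h3 : C1 * ‖p - p0‖ * ‖q - p‖ * ‖q - p‖ ≤ ε / 2 * ‖q - p‖ ^ 2 := by
      calc C1 * ‖p - p0‖ * ‖q - p‖ * ‖q - p‖ = C1 * ‖p - p0‖ * ‖q - p‖ ^ 2 := by ring
        _ ≤ C1 * δ p0 * ‖q - p‖ ^ 2 := by
          gcongr
          rw [← dist_eq_norm]; exact (Metric.mem_ball.1 hp').le
        _ ≤ _ := by gcongr; exact hδ1 p0
    have h4 := abs_sub_le (dist ((extChartAt 𝓘(ℝ, E) x0).symm p)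
      ((extChartAt 𝓘(ℝ, E) x0).symm q) ^ 2) (G p0 (q - p) (q - p)) (G p (q - p) (q - p))
    rw [abs_sub_comm (G p0 (q - p) (q - p))] at h4
    linarith

end

end Pool.Agent.Helper95
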