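import Pool.Agent.Helper27.SqFacts
import Pool.Agent.Helper27.SqSim

/-!
Module N1: relabelling, column sums, and the similar case.
-/

open scoped Real

namespace Pool.Agent.Helper95.SqN1

open Pool.Agent.Helper27.Sq

variable {n : ℕ} {a t X th : Fin 3 → ℝ} {M D : Fin 3 → Fin 3 → ℕ}

theorem f3a : ∀ i l : Fin 3, l ≠ i → l = i + 1 ∨ l = i + 2 := by decide
theorem f3b : ∀ i : Fin 3, i + 1 ≠ i := by decide

theorem facts (h : FactsAll n a t X th M D) : Facts n a t X th M D := h 1 1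

theorem perm (h : FactsAll n a t X th M D) (σ ρ : Equiv.Perm (Fin 3)) :
    FactsAll n (a ∘ ρ) (t ∘ ρ) (X ∘ σ) (th ∘ σ) (fun k j => M (σ k) (ρ j))
      (fun l e => D (σ l) (ρ e)) := fun σ' ρ' => h (σ * σ') (ρ * ρ')

theorem excX_perm {X : Fin 3 → ℝ} (τ : Equiv.Perm (Fin 3)) (h : ExcX (X ∘ τ)) : ExcX X := by
  obtain ⟨x, hx, σ, r, hr, hk⟩ := h
  refine ⟨x, hx, σ * τ⁻¹, r, hr, fun k => ?_⟩
  have := hk (τ⁻¹ k)
  simpa using this

theorem colsum (F : Facts n a t X th M D) :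
    (M 0 0 + M 1 0 + M 2 0 : ℝ) * t 0 + (M 0 1 + M 1 1 + M 2 1 : ℝ) * t 1
      + (M 0 2 + M 1 2 + M 2 2 : ℝ) * t 2 = π := by
  have := F.th_sum
  rw [F.ang 0, F.ang 1, F.ang 2] at this
  linarith

theorem th_inj (F : Facts n a t X th M D) (hX : Function.Injective X) :
    Function.Injective th := by
  intro k l hkl
  obtain ⟨κ, hκ, hs⟩ := F.sin_th
  apply hX
  have h1 := hs k
  rw [hkl, hs l] at h1
  exact (mul_left_cancel₀ hκ.ne' h1).symm

theorem row_ne (F : Facts n a t X th M D) (hX : Function.Injective X) {k l : Fin 3}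
    (hkl : k ≠ l) : ¬ (M k 0 = M l 0 ∧ M k 1 = M l 1 ∧ M k 2 = M l 2) := by
  rintro ⟨h0, h1, h2⟩
  apply hkl
  apply th_inj F hX
  rw [F.ang k, F.ang l, h0, h1, h2]

theorem row_nz (F : Facts n a t X th M D) (k : Fin 3) : M k 0 + M k 1 + M k 2 ≠ 0 := by
  intro h
  have h0 : M k 0 = 0 := by omega
  have h1 : M k 1 = 0 := by omega
  have h2 : M k 2 = 0 := by omega
  have := F.th_pos k
  rw [F.ang k, h0, h1, h2] at this
  simp at this

/-- similar triangles: the ratio is `√n` -/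
theorem ratio (F : Facts n a t X th M D) (hth : ∀ k, th k = t k) (k : Fin 3) :
    X k = √n * a k := by
  obtain ⟨κ, hκ, hs⟩ := F.sin_t
  obtain ⟨κ', hκ', hs'⟩ := F.sin_th
  have h1 : ∀ k, X k = κ / κ' * a k := by
    intro k
    have h2 := hs' k
    rw [hth k, hs k] at h2
    field_simp
    linarith
  have h3 : (κ / κ') ^ 2 = n := by
    have h4 := F.area 0 0
    rw [hth 0, h1, h1] at h4
    have hsin : 0 < Real.sin (t 0) := by
      rw [hs 0]; exact mul_pos hκ (F.a_pos 0)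
    have ha1 := F.a_pos (0+1)
    have ha2 := F.a_pos (0+2)
    have h5 : (κ / κ') ^ 2 * (a (0+1) * a (0+2) * Real.sin (t 0))
        = n * (a (0+1) * a (0+2) * Real.sin (t 0)) := by linear_combination h4
    exact mul_right_cancel₀ (by positivity) h5
  have h6 : √(n : ℝ) = κ / κ' := by
    rw [← h3, Real.sqrt_sq (by positivity)]
  rw [h6, h1 k]

/-- the similar case, only the corner `m` may be split -/
theorem simil (F : Facts n a t X th M D) (hn : ¬ IsSquare n) (hth : ∀ k, th k = t k) (m : Fin 3)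
    (hM : ∀ k, k ≠ m → ∀ j, M k j = if j = k then 1 else 0) :
    ∀ l, l ≠ m → ∀ e, e ≠ m → D l e = 0 := by
  have hX := ratio F hth
  have hR : Irrational √(n : ℝ) := irrational_sqrt_natCast_iff.2 hn
  have hR0 : 0 < √(n : ℝ) := Real.sqrt_pos.2 (by exact_mod_cast F.n_pos)
  have key := sim_struct D a F.a_pos (√n) hR hR0 n (Real.sq_sqrt (Nat.cast_nonneg n))
    (fun l => by rw [← hX l]; exact (F.sid l).symm)
  -- an unsplit corner `i` has edges `≠ i` on both sides
  have hce : ∀ i, i ≠ m → (∃ e, e ≠ i ∧ D (i+1) e ≠ 0) ∧ (∃ e, e ≠ i ∧ D (i+2) e ≠ 0) := by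
    intro i hi
    obtain ⟨j, e, j', e', h1, h2, h3, h4, h5, h6, -⟩ := F.ce i
    have hj : j = i := by
      by_contra hne
      exact h3 (by rw [hM i hi, if_neg hne])
    have hj' : j' = i := by
      by_contra hne
      exact h4 (by rw [hM i hi, if_neg hne])
    subst hj
    subst hj'
    exact ⟨⟨e, h1, h5⟩, ⟨e', h2, h6⟩⟩
  have hce' : ∀ i, i ≠ m → ∀ l, l ≠ i → ∃ e, e ≠ i ∧ D l e ≠ 0 := by
    intro i hi l hl
    rcases f3a i l hl with rfl | rfl
    · exact (hce i hi).1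
    · exact (hce i hi).2
  rcases key with ⟨i, j, hij, h1, h2⟩ | ⟨i, h⟩
  · exfalso
    by_cases hi : i = m
    · have hj : j ≠ m := by rw [← hi]; exact hij.symm
      obtain ⟨e, he, hD⟩ := hce' j hj i hij
      exact hD (h1 e he)
    · obtain ⟨e, he, hD⟩ := hce' i hi j hij.symm
      exact hD (h2 e he)
  · by_cases hi : i = m
    · subst hi
      exact h
    · exfalso
      obtain ⟨e, he, hD⟩ := hce' i hi (i+1) (f3b i)
      exact hD (h (i+1) (f3b i) e he)

theorem simil_false (F : Facts n a t X th M D) (hn : ¬ IsSquare n) (hth : ∀ k, th k = t k)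
    (hM : ∀ k, ∀ j, M k j = if j = k then 1 else 0) : False := by
  have h0 := simil F hn hth 0 (fun k _ => hM k)
  have h1 := simil F hn hth 1 (fun k _ => hM k)
  have := F.X_pos 2
  rw [F.sid 2, h1 2 (by decide) 0 (by decide), h0 2 (by decide) 1 (by decide),
    h0 2 (by decide) 2 (by decide)] at this
  simp at this

/-- some column sum vanishes -/
theorem exists_zero_col (h : FactsAll n a t X th M D) (hn : ¬ IsSquare n) :
    ∃ j, ∀ k, M k j = 0 := by
  by_contra hcon
  push Not at hcon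
  have F := facts h
  have hpos : ∀ j, 1 ≤ M 0 j + M 1 j + M 2 j := by
    intro j
    obtain ⟨k, hk⟩ := hcon j
    fin_cases k
    · have : M 0 j ≠ 0 := hk
      omega
    · have : M 1 j ≠ 0 := hk
      omega
    · have : M 2 j ≠ 0 := hk
      omega
  have hone : ∀ j, M 0 j + M 1 j + M 2 j = 1 := by
    have hc := colsum F
    have hs := F.t_sum
    have h0 : (1:ℝ) ≤ M 0 0 + M 1 0 + M 2 0 := by exact_mod_cast hpos 0
    have h1 : (1:ℝ) ≤ M 0 1 + M 1 1 + M 2 1 := by exact_mod_cast hpos 1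
    have h2 : (1:ℝ) ≤ M 0 2 + M 1 2 + M 2 2 := by exact_mod_cast hpos 2
    have p0 := F.t_pos 0
    have p1 := F.t_pos 1
    have p2 := F.t_pos 2
    have q0 : 0 ≤ ((M 0 0 + M 1 0 + M 2 0 : ℝ) - 1) * t 0 := mul_nonneg (by linarith) p0.le
    have q1 : 0 ≤ ((M 0 1 + M 1 1 + M 2 1 : ℝ) - 1) * t 1 := mul_nonneg (by linarith) p1.le
    have q2 : 0 ≤ ((M 0 2 + M 1 2 + M 2 2 : ℝ) - 1) * t 2 := mul_nonneg (by linarith) p2.le
    have r0 : ((M 0 0 + M 1 0 + M 2 0 : ℝ) - 1) * t 0 = 0 := by linarith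
    have r1 : ((M 0 1 + M 1 1 + M 2 1 : ℝ) - 1) * t 1 = 0 := by linarith
    have r2 : ((M 0 2 + M 1 2 + M 2 2 : ℝ) - 1) * t 2 = 0 := by linarith
    have s0 := (mul_eq_zero.1 r0).resolve_right p0.ne'
    have s1 := (mul_eq_zero.1 r1).resolve_right p1.ne'
    have s2 := (mul_eq_zero.1 r2).resolve_right p2.ne'
    have u0 : (M 0 0 + M 1 0 + M 2 0 : ℝ) = (1 : ℕ) := by push_cast; linarith
    have u1 : (M 0 1 + M 1 1 + M 2 1 : ℝ) = (1 : ℕ) := by push_cast; linarith
    have u2 : (M 0 2 + M 1 2 + M 2 2 : ℝ) = (1 : ℕ) := by push_cast; linarith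
    intro j
    fin_cases j
    · exact_mod_cast u0
    · exact_mod_cast u1
    · exact_mod_cast u2
  have hle : ∀ j k l, k ≠ l → M k j ≠ 0 → M l j = 0 ∧ M k j = 1 := by
    intro j k l hkl hk
    have := hone j
    fin_cases k <;> fin_cases l <;> simp at hkl hk ⊢ <;> omega
  have hrow : ∀ k, ∃ j, M k j ≠ 0 := by
    intro k
    have := row_nz F k
    by_contra hc
    push Not at hc
    rw [hc 0, hc 1, hc 2] at this
    exact this rfl
  choose f hf using hrow
  have finj : Function.Injective f := by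
    intro k l hkl
    by_contra hne
    exact hf l (by rw [← hkl]; exact (hle (f k) k l hne (hf k)).1)
  let ρ : Equiv.Perm (Fin 3) := Equiv.ofBijective f (Finite.injective_iff_bijective.1 finj)
  have hρ : ∀ k, ρ k = f k := fun k => rfl
  have F' := h 1 ρ
  have hM : ∀ k j, M k (ρ j) = if j = k then 1 else 0 := by
    intro k j
    rw [hρ]
    split_ifs with hjk
    · subst hjk
      have : ∃ l, j ≠ l := ⟨j + 1, by revert j; decide⟩
      obtain ⟨l, hl⟩ := this
      exact (hle (f j) j l hl (hf j)).2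
    · exact (hle (f j) j k hjk (hf j)).1
  refine simil_false F' hn ?_ hM
  intro k
  have := F'.ang k
  rw [this]
  simp only [Function.comp]
  have e0 := hM k 0
  have e1 := hM k 1
  have e2 := hM k 2
  simp only [Equiv.Perm.coe_one, id_eq]
  rw [e0, e1, e2]
  fin_cases k <;> simp

end Pool.Agent.Helper95.SqN1
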