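import Pool.Agent.Helper95.EulerDefs

/-!
# Symmetric spaces, circles, antipodal sets and the two-number

For a Riemannian manifold `M`, seen as a metric space with its Riemannian distance.
-/

open scoped Topology

namespace Pool.Agent.Helper95

/-- `s` is an isometry of `M` with `s² = id`, having `x` as an isolated fixed point. -/
def IsPointSymmetry {M : Type*} [MetricSpace M] (x : M) (s : M → M) : Prop :=
  Isometry s ∧ (∀ y, s (s y) = y) ∧ s x = x ∧ ∀ᶠ y in 𝓝[≠] x, s y ≠ y

/-- Every point of `M` has a symmetry. -/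
def IsSymmetricSpace (M : Type*) [MetricSpace M] : Prop :=
  ∀ x : M, ∃ s : M → M, IsPointSymmetry x s

/-- `c` is a geodesic parametrized by arc length: locally, it is distance minimizing. -/
def IsGeodesic {M : Type*} [MetricSpace M] (c : ℝ → M) : Prop :=
  ∀ t : ℝ, ∃ ε > 0, ∀ a b : ℝ, |a - t| < ε → |b - t| < ε → dist (c a) (c b) = |a - b|

/-- `c` parametrizes (once) a closed geodesic of length `L`. -/
def IsCircle {M : Type*} [MetricSpace M] (c : ℝ → M) (L : ℝ) : Prop :=
  0 < L ∧ IsGeodesic c ∧ (∀ t, c (t + L) = c t) ∧ Set.InjOn c (Set.Ico 0 L)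

/-- `p` and `q` are antipodal on some circle of `M`: both arcs between them have length `L / 2`. -/
def AntipodalOnCircle {M : Type*} [MetricSpace M] (p q : M) : Prop :=
  ∃ (c : ℝ → M) (L t : ℝ), IsCircle c L ∧ c t = p ∧ c (t + L / 2) = q

/-- Antipodal sets. -/
def IsAntipodalSet {M : Type*} [MetricSpace M] (S : Set M) : Prop :=
  ∀ p ∈ S, ∀ q ∈ S, p ≠ q → AntipodalOnCircle p q

/-- The two-number of `M`: the supremum of the cardinalities of its antipodal sets. -/
noncomputable def twoNumber (M : Type*) [MetricSpace M] : ℕ∞ :=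
  ⨆ (S : Set M) (_ : IsAntipodalSet S), S.encard

end Pool.Agent.Helper95
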