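import Pool.Agent.Helper95.Metric1
import Pool.Agent.Helper95.SymDefs

open Set Filter
open scoped Topology

namespace Pool.Agent.Helper95

variable {M : Type*} [MetricSpace M] {ρ : ℝ}

/-- local geodesics on an interval -/
def IsLocGeod (c : ℝ → M) (a b : ℝ) : Prop :=
  ∀ t ∈ Icc a b, ∃ ε > 0, ∀ s ∈ Icc a b, ∀ s' ∈ Icc a b, |s - t| < ε → |s' - t| < ε →
    dist (c s) (c s') = |s - s'|

lemma IsLocGeod.continuousOn {c : ℝ → M} {a b : ℝ} (h : IsLocGeod c a b) :
    ContinuousOn c (Icc a b) := by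
  intro t ht
  obtain ⟨ε, hε, hc⟩ := h t ht
  rw [Metric.continuousWithinAt_iff]
  intro δ hδ
  refine ⟨min ε δ, lt_min hε hδ, ?_⟩
  intro s hs hst
  rw [Real.dist_eq] at hst
  rw [hc s hs t ht (hst.trans_le (min_le_left _ _)) (by simpa using hε)]
  exact hst.trans_le (min_le_right _ _)

lemma IsGeodesic.isLocGeod {c : ℝ → M} (h : IsGeodesic c) (a b : ℝ) : IsLocGeod c a b := by
  intro t _
  obtain ⟨ε, hε, hc⟩ := h t
  exact ⟨ε, hε, fun s _ s' _ h1 h2 ↦ hc s s' h1 h2⟩

lemma IsLocGeod.comp_isometry {c : ℝ → M} {a b : ℝ} (h : IsLocGeod c a b) {f : M → M}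
    (hf : Isometry f) : IsLocGeod (fun t ↦ f (c t)) a b := by
  intro t ht
  obtain ⟨ε, hε, hc⟩ := h t ht
  exact ⟨ε, hε, fun s hs s' hs' h1 h2 ↦ by rw [hf.dist_eq]; exact hc s hs s' hs' h1 h2⟩

lemma IsLocGeod.reflect {c : ℝ → M} {a b : ℝ} (h : IsLocGeod c a b) (t0 : ℝ) :
    IsLocGeod (fun t ↦ c (t0 - t)) (t0 - b) (t0 - a) := by
  intro t ht
  obtain ⟨ε, hε, hc⟩ := h (t0 - t) ⟨by linarith [ht.2], by linarith [ht.1]⟩
  refine ⟨ε, hε, fun s hs s' hs' h1 h2 ↦ ?_⟩
  rw [hc (t0 - s) ⟨by linarith [hs.2], by linarith [hs.1]⟩ (t0 - s')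
    ⟨by linarith [hs'.2], by linarith [hs'.1]⟩]
  · have : t0 - s - (t0 - s') = -(s - s') := by ring
    rw [this, abs_neg]
  · have : t0 - s - (t0 - t) = -(s - t) := by ring
    rw [this, abs_neg]; exact h1
  · have : t0 - s' - (t0 - t) = -(s' - t) := by ring
    rw [this, abs_neg]; exact h2

lemma IsLocGeod.translate {c : ℝ → M} {a b : ℝ} (h : IsLocGeod c a b) (t0 : ℝ) :
    IsLocGeod (fun t ↦ c (t0 + t)) (a - t0) (b - t0) := by
  intro t ht
  obtain ⟨ε, hε, hc⟩ := h (t0 + t) ⟨by linarith [ht.1], by linarith [ht.2]⟩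
  refine ⟨ε, hε, fun s hs s' hs' h1 h2 ↦ ?_⟩
  rw [hc (t0 + s) ⟨by linarith [hs.1], by linarith [hs.2]⟩ (t0 + s')
    ⟨by linarith [hs'.1], by linarith [hs'.2]⟩]
  · have : t0 + s - (t0 + s') = s - s' := by ring
    rw [this]
  · have : t0 + s - (t0 + t) = s - t := by ring
    rw [this]; exact h1
  · have : t0 + s' - (t0 + t) = s' - t := by ring
    rw [this]; exact h2

lemma IsLocGeod.mono {c : ℝ → M} {a b a' b' : ℝ} (h : IsLocGeod c a b) (ha : a ≤ a')
    (hb : b' ≤ b) : IsLocGeod c a' b' := by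
  intro t ht
  obtain ⟨ε, hε, hc⟩ := h t ⟨ha.trans ht.1, ht.2.trans hb⟩
  exact ⟨ε, hε, fun s hs s' hs' h1 h2 ↦ hc s ⟨ha.trans hs.1, hs.2.trans hb⟩ s'
    ⟨ha.trans hs'.1, hs'.2.trans hb⟩ h1 h2⟩

namespace Nice

/-- unique continuation of local geodesics -/
lemma eqOn_of_eqOn (h : Nice M ρ) {c1 c2 : ℝ → M} {a a' b : ℝ} (haa' : a < a')
    (h1 : IsLocGeod c1 a b) (h2 : IsLocGeod c2 a b) (heq : ∀ t ∈ Icc a a', c1 t = c2 t) :
    ∀ t ∈ Icc a b, c1 t = c2 t := by
  have hcl : IsClosed ({t | c1 t = c2 t} ∩ Icc a b) := by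
    have h3 : {t | c1 t = c2 t} ∩ Icc a b =
        Icc a b ∩ (fun t ↦ (c1 t, c2 t)) ⁻¹' (diagonal M) := by
      ext t
      simp [and_comm]
    rw [h3]
    exact (h1.continuousOn.prodMk h2.continuousOn).preimage_isClosed_of_isClosed isClosed_Icc
      isClosed_diagonal
  have hsub := hcl.Icc_subset_of_forall_mem_nhdsGT_of_Icc_subset
    (heq a ⟨le_rfl, haa'.le⟩) ?_
  · exact fun t ht ↦ hsub ht
  intro x hx hxs
  rcases lt_or_ge x a' with hxa | hxa
  · -- inside the initial interval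
    have : Ioo x a' ∈ 𝓝[>] x := Ioo_mem_nhdsGT hxa
    filter_upwards [this] with y hy
    exact heq y ⟨hx.1.trans hy.1.le, hy.2.le⟩
  · have hxab : x ∈ Icc a b := ⟨hx.1, hx.2.le⟩
    obtain ⟨ε1, hε1, hc1⟩ := h1 x hxab
    obtain ⟨ε2, hε2, hc2⟩ := h2 x hxab
    have hax : a < x := haa'.trans_le hxa
    have hρ := h.pos
    obtain ⟨η, hη, hη1, hη2, hη3, hη4, hη5⟩ : ∃ η > 0, η ≤ ε1 ∧ η ≤ ε2 ∧ η ≤ x - a ∧
        η ≤ b - x ∧ 2 * η ≤ ρ := by
      refine ⟨min (min ε1 ε2) (min (min (x - a) (b - x)) (ρ / 2)), ?_, ?_, ?_, ?_, ?_, ?_⟩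
      · exact lt_min (lt_min hε1 hε2) (lt_min (lt_min (by linarith) (by linarith [hx.2]))
          (by positivity))
      · exact (min_le_left _ _).trans (min_le_left _ _)
      · exact (min_le_left _ _).trans (min_le_right _ _)
      · exact (min_le_right _ _).trans ((min_le_left _ _).trans (min_le_left _ _))
      · exact (min_le_right _ _).trans ((min_le_left _ _).trans (min_le_right _ _))
      · have : min (min ε1 ε2) (min (min (x - a) (b - x)) (ρ / 2)) ≤ ρ / 2 :=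
          (min_le_right _ _).trans (min_le_right _ _)
        linarith
    have hmem : Ioo x (x + η) ∈ 𝓝[>] x := Ioo_mem_nhdsGT (by linarith)
    filter_upwards [hmem] with y hy
    obtain ⟨τ, hτ⟩ : ∃ τ, τ = y - x := ⟨_, rfl⟩
    have hyτ : y = x + τ := by rw [hτ]; ring
    have hτ0 : 0 < τ := by rw [hτ]; linarith [hy.1]
    have hτη : τ < η := by rw [hτ]; linarith [hy.2]
    have m1 : x - τ ∈ Icc a b := ⟨by linarith, by linarith [hx.2]⟩
    have m2 : x + τ ∈ Icc a b := ⟨by linarith, by linarith⟩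
    have a1 : |x - τ - x| = τ := by
      rw [show x - τ - x = -τ by ring, abs_neg, abs_of_pos hτ0]
    have a2 : |x + τ - x| = τ := by
      rw [show x + τ - x = τ by ring, abs_of_pos hτ0]
    have a0 : |x - x| = 0 := by simp
    have e1 : c1 (x - τ) = c2 (x - τ) := hxs ⟨m1.1, by linarith⟩
    have e2 : c1 x = c2 x := hxs ⟨hx.1, le_rfl⟩
    have d1 : dist (c1 (x - τ)) (c1 x) = τ := by
      rw [hc1 _ m1 _ hxab (by rw [a1]; linarith) (by rw [a0]; linarith), a1]
    have d2 : dist (c1 x) (c1 (x + τ)) = τ := by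
      rw [hc1 _ hxab _ m2 (by rw [a0]; linarith) (by rw [a2]; linarith), abs_sub_comm, a2]
    have d3 : dist (c1 (x - τ)) (c1 (x + τ)) = 2 * τ := by
      rw [hc1 _ m1 _ m2 (by rw [a1]; linarith) (by rw [a2]; linarith),
        show x - τ - (x + τ) = -(2 * τ) by ring, abs_neg, abs_of_pos (by linarith)]
    have d4 : dist (c1 x) (c2 (x + τ)) = τ := by
      rw [e2, hc2 _ hxab _ m2 (by rw [a0]; linarith) (by rw [a2]; linarith), abs_sub_comm, a2]
    have d5 : dist (c1 (x - τ)) (c2 (x + τ)) = 2 * τ := by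
      rw [e1, hc2 _ m1 _ m2 (by rw [a1]; linarith) (by rw [a2]; linarith),
        show x - τ - (x + τ) = -(2 * τ) by ring, abs_neg, abs_of_pos (by linarith)]
    change c1 y = c2 y
    rw [hyτ]
    exact h.nonbranching (by linarith) d1 d2 d3 d4 d5

/-- near its center, a symmetry is the geodesic reflection -/
lemma symmetry_mid (h : Nice M ρ) {p : M} {s : M → M} (hs : IsPointSymmetry p s) :
    ∃ ε > 0, ∀ y, dist y p < ε → dist y (s y) = 2 * dist y p := by
  obtain ⟨hiso, hinv, hfix, hisol⟩ := hs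
  rw [eventually_nhdsWithin_iff, Metric.eventually_nhds_iff] at hisol
  obtain ⟨ε0, hε0, hisol⟩ := hisol
  have hρ := h.pos
  refine ⟨min (ε0 / 2) (ρ / 2), by positivity, ?_⟩
  intro y hy
  have hy1 : dist y p < ε0 / 2 := hy.trans_le (min_le_left _ _)
  have hy2 : dist y p < ρ / 2 := hy.trans_le (min_le_right _ _)
  have hps : dist p (s y) = dist y p := by
    have : dist (s p) (s y) = dist p y := hiso.dist_eq _ _
    rw [hfix] at this
    rw [this, dist_comm]
  have hD : dist y (s y) ≤ 2 * dist y p := by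
    have := dist_triangle y p (s y)
    linarith
  obtain ⟨m, hm1, hm2⟩ := h.exists_mid y (s y)
  have hsm1 : dist y (s m) = dist y (s y) / 2 := by
    have h1 : dist (s (s y)) (s m) = dist (s y) m := hiso.dist_eq _ _
    rw [hinv, dist_comm (s y) m] at h1
    rw [h1, hm2]
  have hsm2 : dist (s m) (s y) = dist y (s y) / 2 := by
    rw [hiso.dist_eq, dist_comm, hm1]
  have hmm : s m = m := h.unique (y := y) (z := s y) (t := 1 / 2) (by linarith) (by norm_num) (by norm_num)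
    (by rw [hsm1]; ring) (by rw [hsm2]; ring) (by rw [hm1]; ring) (by rw [hm2]; ring)
  have hmp : m = p := by
    by_contra hne
    have hd : dist m p < ε0 := by
      have := dist_triangle_left m p y
      linarith
    exact hisol hd hne hmm
  rw [hmp] at hm1
  linarith

/-- near its center, a symmetry is determined -/
lemma symmetry_eq (h : Nice M ρ) {p : M} {s : M → M} (hs : IsPointSymmetry p s) :
    ∃ ε > 0, ∀ y z, dist y p < ε → dist p z = dist y p → dist y z = 2 * dist y p → s y = z := by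
  obtain ⟨ε, hε, hmid⟩ := h.symmetry_mid hs
  have hρ := h.pos
  refine ⟨min ε (ρ / 2), by positivity, ?_⟩
  intro y z hy h1 h2
  have hy1 : dist y p < ε := hy.trans_le (min_le_left _ _)
  have hy2 : dist y p < ρ / 2 := hy.trans_le (min_le_right _ _)
  have hps : dist p (s y) = dist y p := by
    have : dist (s p) (s y) = dist p y := hs.1.dist_eq _ _
    rw [hs.2.2.1] at this
    rw [this, dist_comm]
  exact h.nonbranching (by linarith) rfl hps (hmid y hy1) h1 h2

/-- symmetries reverse local geodesics through their center -/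
lemma reverse (h : Nice M ρ) {c : ℝ → M} {t0 b : ℝ} (hb : 0 < b)
    (hc : IsLocGeod c (t0 - b) (t0 + b)) {s : M → M} (hs : IsPointSymmetry (c t0) s) :
    ∀ t ∈ Icc 0 b, s (c (t0 + t)) = c (t0 - t) := by
  obtain ⟨ε1, hε1, hsy⟩ := h.symmetry_eq hs
  have hmem : t0 ∈ Icc (t0 - b) (t0 + b) := ⟨by linarith, by linarith⟩
  obtain ⟨ε2, hε2, hloc⟩ := hc t0 hmem
  obtain ⟨η, hη, hη1, hη2, hη3⟩ : ∃ η > 0, η < ε1 ∧ η < ε2 ∧ η ≤ b := by
    refine ⟨min (min (ε1 / 2) (ε2 / 2)) b, by positivity, ?_, ?_, min_le_right _ _⟩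
    · have : min (min (ε1 / 2) (ε2 / 2)) b ≤ ε1 / 2 :=
        (min_le_left _ _).trans (min_le_left _ _)
      linarith
    · have : min (min (ε1 / 2) (ε2 / 2)) b ≤ ε2 / 2 :=
        (min_le_left _ _).trans (min_le_right _ _)
      linarith
  have hc1 : IsLocGeod (fun t ↦ s (c (t0 + t))) 0 b := by
    have := (hc.translate t0).comp_isometry hs.1
    exact this.mono (by linarith) (by linarith)
  have hc2 : IsLocGeod (fun t ↦ c (t0 - t)) 0 b := by
    have := hc.reflect t0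
    exact this.mono (by linarith) (by linarith)
  refine h.eqOn_of_eqOn hη hc1 hc2 ?_
  intro t ht
  have m1 : t0 + t ∈ Icc (t0 - b) (t0 + b) := ⟨by linarith [ht.1], by linarith [ht.2]⟩
  have m2 : t0 - t ∈ Icc (t0 - b) (t0 + b) := ⟨by linarith [ht.2], by linarith [ht.1]⟩
  have a1 : |t0 + t - t0| = t := by rw [add_sub_cancel_left, abs_of_nonneg ht.1]
  have a2 : |t0 - t - t0| = t := by
    rw [show t0 - t - t0 = -t by ring, abs_neg, abs_of_nonneg ht.1]
  have a0 : |t0 - t0| = 0 := by simp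
  have d1 : dist (c (t0 + t)) (c t0) = t := by
    rw [hloc _ m1 _ hmem (by rw [a1]; linarith [ht.2]) (by rw [a0]; exact hε2), a1]
  have d2 : dist (c t0) (c (t0 - t)) = t := by
    rw [hloc _ hmem _ m2 (by rw [a0]; exact hε2) (by rw [a2]; linarith [ht.2]), abs_sub_comm, a2]
  have d3 : dist (c (t0 + t)) (c (t0 - t)) = 2 * t := by
    rw [hloc _ m1 _ m2 (by rw [a1]; linarith [ht.2]) (by rw [a2]; linarith [ht.2]),
      show t0 + t - (t0 - t) = 2 * t by ring, abs_of_nonneg (by linarith [ht.1])]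
  exact hsy _ _ (by rw [d1]; linarith [ht.2]) (by rw [d1, d2]) (by rw [d1, d3])

end Nice

end Pool.Agent.Helper95
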