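import Pool.Agent.Helper95.Chains
import Pool.Agent.Helper95.Sym1

open Set Filter
open scoped Topology

namespace Pool.Agent.Helper95

variable {M : Type*} [MetricSpace M] {ρ : ℝ}

lemma isLocGeod_of_isometric {c : ℝ → M} {a b : ℝ}
    (h : ∀ s ∈ Icc a b, ∀ t ∈ Icc a b, dist (c s) (c t) = |s - t|) : IsLocGeod c a b :=
  fun _ _ ↦ ⟨1, one_pos, fun s hs s' hs' _ _ ↦ h s hs s' hs'⟩

lemma IsPointSymmetry.exists_isolated {p : M} {s : M → M} (hs : IsPointSymmetry p s) :
    ∃ ε > 0, ∀ y, dist y p < ε → s y = y → y = p := by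
  obtain ⟨_, _, _, hisol⟩ := hs
  rw [eventually_nhdsWithin_iff, Metric.eventually_nhds_iff] at hisol
  obtain ⟨ε, hε, h⟩ := hisol
  refine ⟨ε, hε, fun y hy hsy ↦ ?_⟩
  by_contra hne
  exact h hy hne hsy

lemma IsPointSymmetry.dist_eq {p : M} {s : M → M} (hs : IsPointSymmetry p s) (y : M) :
    dist p (s y) = dist p y := by
  have := hs.1.dist_eq p y
  rwa [hs.2.2.1] at this

/-- conjugating a symmetry by a symmetry fixing its center -/
lemma IsPointSymmetry.conj {p q : M} {s t : M → M} (hs : IsPointSymmetry p s)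
    (ht : IsPointSymmetry q t) (hfix : s q = q) : IsPointSymmetry q (fun x ↦ s (t (s x))) := by
  obtain ⟨ε, hε, hi⟩ := ht.exists_isolated
  refine ⟨hs.1.comp (ht.1.comp hs.1), ?_, ?_, ?_⟩
  · intro y
    simp only [hs.2.1, ht.2.1]
  · simp only [hfix, ht.2.2.1]
  · rw [eventually_nhdsWithin_iff, Metric.eventually_nhds_iff]
    refine ⟨ε, hε, fun y hy hne hsy ↦ hne ?_⟩
    have h1 : t (s y) = s y := by
      have := congrArg s hsy
      rwa [hs.2.1] at this
    have h2 : dist (s y) q < ε := by
      have := hs.1.dist_eq y q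
      rw [hfix] at this
      rw [this]; exact hy
    have h3 := hi _ h2 h1
    have h4 := congrArg s h3
    rw [hs.2.1, hfix] at h4
    exact h4

namespace Nice

/-- symmetries are unique -/
lemma symmetry_unique [CompactSpace M] (h : Nice M ρ) {p : M} {s s' : M → M}
    (hs : IsPointSymmetry p s) (hs' : IsPointSymmetry p s') : s = s' := by
  funext q
  rcases eq_or_ne p q with rfl | hpq
  · rw [hs.2.2.1, hs'.2.2.1]
  have hD : 0 < dist p q := dist_pos.2 hpq
  obtain ⟨c, hc0, hcD, hc⟩ := h.prop.exists_geodesic p q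
  obtain ⟨ε1, hε1, h1⟩ := h.symmetry_eq hs
  obtain ⟨ε2, hε2, h2⟩ := h.symmetry_mid hs'
  have hloc := isLocGeod_of_isometric hc
  have key := h.eqOn_of_eqOn (a' := min (min (ε1 / 2) (ε2 / 2)) (dist p q))
    (by positivity) (hloc.comp_isometry hs.1) (hloc.comp_isometry hs'.1) (by
      intro t ht
      have ht1 : t < ε1 := by
        have := ht.2.trans ((min_le_left _ _).trans (min_le_left _ _)); linarith
      have ht2 : t < ε2 := by
        have := ht.2.trans ((min_le_left _ _).trans (min_le_right _ _)); linarith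
      have ht3 : t ≤ dist p q := ht.2.trans (min_le_right _ _)
      have hd : dist (c t) p = t := by
        rw [← hc0, hc t ⟨ht.1, ht3⟩ 0 ⟨le_rfl, hD.le⟩, sub_zero, abs_of_nonneg ht.1]
      exact h1 (c t) (s' (c t)) (by rw [hd]; exact ht1) (by rw [hs'.dist_eq, dist_comm])
        (h2 _ (by rw [hd]; exact ht2)))
  have := key (dist p q) ⟨hD.le, le_rfl⟩
  simpa only [hcD] using this

/-- symmetries whose centers are fixed by one another commute -/
lemma symmetry_comm [CompactSpace M] (h : Nice M ρ) {p q : M} {s t : M → M}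
    (hs : IsPointSymmetry p s) (ht : IsPointSymmetry q t) (hfix : s q = q) (x : M) :
    s (t x) = t (s x) := by
  have h1 := h.symmetry_unique (hs.conj ht hfix) ht
  have h2 := congrFun h1 (s x)
  simp only [hs.2.1] at h2
  exact h2

/-- other fixed points of a symmetry are far away -/
lemma le_dist_of_fixed (h : Nice M ρ) {p q : M} {s : M → M} (hs : IsPointSymmetry p s)
    (hq : s q = q) (hne : p ≠ q) : ρ ≤ dist p q := by
  by_contra hlt
  push Not at hlt
  obtain ⟨ε, hε, hi⟩ := hs.exists_isolated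
  have hD : 0 < dist p q := dist_pos.2 hne
  obtain ⟨t, ht0, ht1, htε⟩ : ∃ t : ℝ, 0 < t ∧ t ≤ 1 ∧ t * dist p q < ε := by
    refine ⟨min 1 (ε / (2 * dist p q)), by positivity, min_le_left _ _, ?_⟩
    calc min 1 (ε / (2 * dist p q)) * dist p q ≤ ε / (2 * dist p q) * dist p q := by
          gcongr; exact min_le_right _ _
      _ = ε / 2 := by field_simp
      _ < ε := by linarith
  have htI : t ∈ Icc (0 : ℝ) 1 := ⟨ht0.le, ht1⟩
  obtain ⟨m, hm⟩ : ∃ m, m = h.geo p q t := ⟨_, rfl⟩
  have hm1 : dist p m = t * dist p q := by rw [hm]; exact h.dist_left_geo p q htI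
  have hm2 : dist m q = (1 - t) * dist p q := by rw [hm]; exact h.dist_geo_right p q htI
  have hsm : s m = m := by
    apply h.unique hlt ht0.le ht1 _ _ hm1 hm2
    · rw [hs.dist_eq, hm1]
    · have := hs.1.dist_eq m q
      rw [hq] at this
      rw [this, hm2]
  have := hi m (by rw [dist_comm, hm1]; exact htε) hsm
  rw [this, dist_self] at hm1
  have : 0 < t * dist p q := by positivity
  linarith

/-- symmetries reverse geodesic lines through their center -/
lemma reverse_line (h : Nice M ρ) {c : ℝ → M} (hc : IsGeodesic c) {t0 : ℝ} {s : M → M}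
    (hs : IsPointSymmetry (c t0) s) (t : ℝ) : s (c (t0 + t)) = c (t0 - t) := by
  have key : ∀ t : ℝ, 0 ≤ t → s (c (t0 + t)) = c (t0 - t) := by
    intro t ht
    exact h.reverse (b := t + 1) (by linarith) (hc.isLocGeod _ _) hs t ⟨ht, by linarith⟩
  rcases le_total 0 t with ht | ht
  · exact key t ht
  · have h1 := key (-t) (by linarith)
    have h2 := congrArg s h1
    rw [hs.2.1] at h2
    rw [sub_neg_eq_add] at h2
    rw [← h2, ← sub_eq_add_neg]

/-- a geodesic line in a symmetric space meeting itself is periodic -/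
lemma periodic_of_eq (h : Nice M ρ) (hsym : IsSymmetricSpace M) {c : ℝ → M}
    (hc : IsGeodesic c) {a b : ℝ} (hab : c a = c b) (t : ℝ) : c (a + t) = c (b + t) := by
  obtain ⟨s0, hs0⟩ := hsym (c 0)
  obtain ⟨s1, hs1⟩ := hsym (c (t / 2))
  have key : ∀ u, s1 (s0 (c u)) = c (u + t) := by
    intro u
    have h1 := h.reverse_line hc hs0 u
    rw [zero_add, zero_sub] at h1
    rw [h1]
    have h2 := h.reverse_line hc hs1 (-u - t / 2)
    rw [show t / 2 + (-u - t / 2) = -u by ring, show t / 2 - (-u - t / 2) = u + t by ring] at h2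
    exact h2
  rw [← key a, ← key b, hab]

end Nice

/-- isometries form a group -/
def isoSubgroup (M : Type*) [MetricSpace M] : Subgroup (Equiv.Perm M) where
  carrier := {g | Isometry g}
  mul_mem' := fun {a b} ha hb ↦ by
    change Isometry (a ∘ b)
    exact Isometry.comp ha hb
  one_mem' := isometry_id
  inv_mem' := fun {g} hg ↦ by
    change Isometry (g⁻¹ : Equiv.Perm M)
    exact Isometry.right_inv hg (fun x ↦ by simp)

lemma mem_isoSubgroup {g : Equiv.Perm M} : g ∈ isoSubgroup M ↔ Isometry g := Iff.rfl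

/-- the permutation given by an involution -/
def IsPointSymmetry.perm {p : M} {s : M → M} (hs : IsPointSymmetry p s) : Equiv.Perm M :=
  Function.Involutive.toPerm s hs.2.1

@[simp] lemma IsPointSymmetry.perm_apply {p : M} {s : M → M} (hs : IsPointSymmetry p s) (x : M) :
    hs.perm x = s x := rfl

lemma IsPointSymmetry.perm_mem {p : M} {s : M → M} (hs : IsPointSymmetry p s) :
    hs.perm ∈ isoSubgroup M := hs.1

end Pool.Agent.Helper95
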