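import Pool.Agent.Helper95.Sym2

open Set Filter
open scoped Topology

namespace Pool.Agent.Helper95

variable {M : Type*} [MetricSpace M] {ρ : ℝ}

namespace Nice

/-- A minimal geodesic ending at `q` and its image by the symmetry at `q` form a geodesic. -/
lemma join_symmetry (h : Nice M ρ) {q : M} {s : M → M} (hs : IsPointSymmetry q s)
    {c : ℝ → M} {D : ℝ} (hD : 0 < D)
    (hc : ∀ s ∈ Icc 0 D, ∀ t ∈ Icc 0 D, dist (c s) (c t) = |s - t|) (hcD : c D = q) :
    ∃ ε > 0, ∀ u v : ℝ, 0 ≤ u → 0 ≤ v → u < ε → v < ε →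
      dist (c (D - u)) (s (c (D - v))) = u + v := by
  obtain ⟨ε1, hε1, hmid⟩ := h.symmetry_mid hs
  refine ⟨min ε1 D, lt_min hε1 hD, ?_⟩
  intro u v hu hv huε hvε
  have hu1 := huε.trans_le (min_le_left _ _)
  have hv1 := hvε.trans_le (min_le_left _ _)
  have hu2 := huε.trans_le (min_le_right _ _)
  have hv2 := hvε.trans_le (min_le_right _ _)
  have mu : D - u ∈ Icc 0 D := ⟨by linarith, by linarith⟩
  have mv : D - v ∈ Icc 0 D := ⟨by linarith, by linarith⟩
  have mD : D ∈ Icc 0 D := ⟨hD.le, le_rfl⟩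
  have dq : ∀ w, D - w ∈ Icc 0 D → 0 ≤ w → dist (c (D - w)) q = w := by
    intro w hw hw0
    rw [← hcD, hc _ hw _ mD, show D - w - D = -w by ring, abs_neg, abs_of_nonneg hw0]
  have dqs : ∀ w, D - w ∈ Icc 0 D → 0 ≤ w → dist q (s (c (D - w))) = w := by
    intro w hw hw0
    rw [hs.dist_eq, dist_comm, dq w hw hw0]
  apply le_antisymm
  · calc _ ≤ dist (c (D - u)) q + dist q (s (c (D - v))) := dist_triangle _ _ _
      _ = u + v := by rw [dq u mu hu, dqs v mv hv]
  · have duv : dist (c (D - u)) (c (D - v)) = |u - v| := by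
      rw [hc _ mu _ mv, show D - u - (D - v) = -(u - v) by ring, abs_neg]
    rcases le_total u v with huv | huv
    · have h1 := hmid (c (D - v)) (by rw [dq v mv hv]; exact hv1)
      rw [dq v mv hv] at h1
      have h2 := dist_triangle_left (c (D - v)) (s (c (D - v))) (c (D - u))
      rw [h1, duv, abs_sub_comm, abs_of_nonneg (by linarith)] at h2
      linarith
    · have h1 := hmid (c (D - u)) (by rw [dq u mu hu]; exact hu1)
      rw [dq u mu hu] at h1
      have h2 := dist_triangle_right (c (D - u)) (s (c (D - u))) (s (c (D - v)))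
      have h3 : dist (s (c (D - u))) (s (c (D - v))) = |u - v| := by
        rw [hs.1.dist_eq, duv]
      rw [h1, h3, abs_of_nonneg (by linarith)] at h2
      linarith

/-- any two distinct points of a compact symmetric space lie on a geodesic line which is
minimizing between them -/
lemma exists_line [CompactSpace M] (h : Nice M ρ) (hsym : IsSymmetricSpace M) {p q : M}
    (hpq : p ≠ q) :
    ∃ C : ℝ → M, IsGeodesic C ∧ C 0 = p ∧ C (dist p q) = q ∧
      ∀ s ∈ Icc 0 (dist p q), ∀ t ∈ Icc 0 (dist p q), dist (C s) (C t) = |s - t| := by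
  obtain ⟨c, hc0, hcD, hc⟩ := h.prop.exists_geodesic p q
  have hD : 0 < dist p q := dist_pos.2 hpq
  set D := dist p q with hDdef
  obtain ⟨sq, hsq⟩ := hsym q
  obtain ⟨sm, hsm⟩ := hsym (c (D / 2))
  -- the symmetry at the middle swaps the ends
  have hmid : ∀ t ∈ Icc 0 D, sm (c t) = c (D - t) := by
    have hloc : IsLocGeod c (D / 2 - D / 2) (D / 2 + D / 2) := by
      rw [sub_self, add_halves]
      exact isLocGeod_of_isometric hc
    have key := h.reverse (by linarith) hloc hsm
    intro t ht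
    rcases le_total t (D / 2) with h1 | h1
    · have h2 := key (D / 2 - t) ⟨by linarith, by linarith [ht.1]⟩
      rw [show D / 2 + (D / 2 - t) = D - t by ring, show D / 2 - (D / 2 - t) = t by ring] at h2
      have h3 := congrArg sm h2
      rw [hsm.2.1] at h3
      exact h3.symm
    · have h2 := key (t - D / 2) ⟨by linarith, by linarith [ht.2]⟩
      rw [show D / 2 + (t - D / 2) = t by ring, show D / 2 - (t - D / 2) = D - t by ring] at h2
      exact h2
  obtain ⟨T, hT⟩ : ∃ T : Equiv.Perm M, T = hsq.perm * hsm.perm := ⟨_, rfl⟩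
  have hTiso : T ∈ isoSubgroup M := by
    rw [hT]; exact mul_mem hsq.perm_mem hsm.perm_mem
  have hTk : ∀ k : ℤ, Isometry (T ^ k : Equiv.Perm M) := fun k ↦
    mem_isoSubgroup.1 (zpow_mem hTiso k)
  have hTc : ∀ t ∈ Icc 0 D, T (c t) = sq (c (D - t)) := by
    intro t ht
    rw [hT]
    change sq (sm (c t)) = _
    rw [hmid t ht]
  have hTp : T (c 0) = q := by
    rw [hTc 0 ⟨le_rfl, hD.le⟩, sub_zero, hcD, hsq.2.2.1]
  obtain ⟨C, hC⟩ : ∃ C : ℝ → M, C = fun t ↦ (T ^ ⌊t / D⌋ : Equiv.Perm M) (c (D * Int.fract (t / D))) :=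
    ⟨_, rfl⟩
  have hshift : ∀ (k : ℤ) (t : ℝ), C (t + k * D) = (T ^ k : Equiv.Perm M) (C t) := by
    intro k t
    rw [hC]
    simp only
    have h1 : (t + k * D) / D = t / D + k := by field_simp
    rw [h1, Int.floor_add_intCast, Int.fract_add_intCast, add_comm, zpow_add, Equiv.Perm.mul_apply]
  have hC0 : ∀ t, 0 ≤ t → t < D → C t = c t := by
    intro t ht0 htD
    have h1 : t / D < 1 := by rw [div_lt_one hD]; exact htD
    have h2 : 0 ≤ t / D := by positivity
    have h3 : ⌊t / D⌋ = 0 := Int.floor_eq_zero_iff.2 ⟨h2, h1⟩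
    have h4 : Int.fract (t / D) = t / D := Int.fract_eq_self.2 ⟨h2, h1⟩
    rw [hC]
    simp only [h3, h4, zpow_zero, Equiv.Perm.one_apply]
    congr 1
    field_simp
  have hCD : C D = c D := by
    have h1 := hshift 1 0
    rw [Int.cast_one, one_mul, zero_add, zpow_one, hC0 0 le_rfl hD, hTp] at h1
    rw [h1, hcD]
  have hCI : ∀ t ∈ Icc 0 D, C t = c t := by
    intro t ht
    rcases eq_or_lt_of_le ht.2 with h1 | h1
    · rw [h1, hCD]
    · exact hC0 t ht.1 h1
  have hCneg : ∀ t, -D ≤ t → t < 0 → T (C t) = c (t + D) := by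
    intro t ht0 ht1
    have h1 := hshift 1 t
    rw [Int.cast_one, one_mul, zpow_one] at h1
    rw [← h1]
    exact hCI _ ⟨by linarith, by linarith⟩
  have hT1 : Isometry (T : M → M) := mem_isoSubgroup.1 hTiso
  -- local minimality at the points of `[0, D)`
  have hloc0 : ∀ t0, 0 ≤ t0 → t0 < D → ∃ ε > 0, ∀ a b : ℝ, |a - t0| < ε → |b - t0| < ε →
      dist (C a) (C b) = |a - b| := by
    intro t0 h0 h1
    rcases eq_or_lt_of_le h0 with h00 | h00
    · obtain ⟨ε, hε, hj⟩ := h.join_symmetry hsq hD hc hcD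
      refine ⟨min ε D, lt_min hε hD, ?_⟩
      rw [← h00]
      simp only [sub_zero]
      have aux : ∀ a b : ℝ, |a| < min ε D → |b| < min ε D → a ≤ b →
          dist (C a) (C b) = b - a := by
        intro a b ha hb hab
        have ha' := abs_lt.1 (ha.trans_le (min_le_left _ _))
        have hb' := abs_lt.1 (hb.trans_le (min_le_left _ _))
        have haD := abs_lt.1 (ha.trans_le (min_le_right _ _))
        have hbD := abs_lt.1 (hb.trans_le (min_le_right _ _))
        rcases lt_or_ge b 0 with hb0 | hb0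
        · have ha0 : a < 0 := lt_of_le_of_lt hab hb0
          rw [← hT1.dist_eq, hCneg a haD.1.le ha0, hCneg b hbD.1.le hb0,
            hc _ ⟨by linarith, by linarith⟩ _ ⟨by linarith, by linarith⟩,
            show a + D - (b + D) = -(b - a) by ring, abs_neg, abs_of_nonneg (by linarith)]
        · rcases lt_or_ge a 0 with ha0 | ha0
          · rw [← hT1.dist_eq, hCneg a haD.1.le ha0, hCI b ⟨hb0, hbD.2.le⟩,
              hTc b ⟨hb0, hbD.2.le⟩]
            have h2 := hj (-a) b (by linarith) hb0 (by linarith) hb'.2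
            rw [show D - -a = a + D by ring] at h2
            rw [h2]; ring
          · rw [hCI a ⟨ha0, haD.2.le⟩, hCI b ⟨hb0, hbD.2.le⟩,
              hc _ ⟨ha0, haD.2.le⟩ _ ⟨hb0, hbD.2.le⟩, abs_sub_comm, abs_of_nonneg (by linarith)]
      intro a b ha hb
      rcases le_total a b with hab | hab
      · rw [aux a b ha hb hab, abs_sub_comm, abs_of_nonneg (by linarith)]
      · rw [dist_comm, aux b a hb ha hab, abs_of_nonneg (by linarith)]
    · refine ⟨min t0 (D - t0), lt_min h00 (by linarith), ?_⟩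
      intro a b ha hb
      have a1 := abs_lt.1 (ha.trans_le (min_le_left _ _))
      have a2 := abs_lt.1 (ha.trans_le (min_le_right _ _))
      have b1 := abs_lt.1 (hb.trans_le (min_le_left _ _))
      have b2 := abs_lt.1 (hb.trans_le (min_le_right _ _))
      have ma : a ∈ Icc 0 D := ⟨by linarith, by linarith⟩
      have mb : b ∈ Icc 0 D := ⟨by linarith, by linarith⟩
      rw [hCI a ma, hCI b mb, hc a ma b mb]
  refine ⟨C, ?_, ?_, ?_, ?_⟩
  · intro t
    obtain ⟨k, hk⟩ : ∃ k : ℤ, k = ⌊t / D⌋ := ⟨_, rfl⟩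
    have h1 : (k : ℝ) ≤ t / D := by rw [hk]; exact Int.floor_le _
    have h2 : t / D < k + 1 := by rw [hk]; exact Int.lt_floor_add_one _
    rw [le_div_iff₀ hD] at h1
    rw [div_lt_iff₀ hD] at h2
    obtain ⟨ε, hε, hl⟩ := hloc0 (t - k * D) (by linarith) (by linarith)
    refine ⟨ε, hε, ?_⟩
    intro a b ha hb
    have e1 : C a = (T ^ k : Equiv.Perm M) (C (a - k * D)) := by
      rw [← hshift, sub_add_cancel]
    have e2 : C b = (T ^ k : Equiv.Perm M) (C (b - k * D)) := by
      rw [← hshift, sub_add_cancel]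
    rw [e1, e2, (hTk k).dist_eq, hl _ _ (by rw [sub_sub_sub_cancel_right]; exact ha)
      (by rw [sub_sub_sub_cancel_right]; exact hb), sub_sub_sub_cancel_right]
  · rw [hCI 0 ⟨le_rfl, hD.le⟩, hc0]
  · rw [hCD, hcD]
  · intro s hs t ht
    rw [hCI s hs, hCI t ht, hc s hs t ht]

/-- `q` is antipodal to `p` on a circle iff it is fixed by the symmetry at `p` -/
theorem antipodal_iff [CompactSpace M] (h : Nice M ρ) (hsym : IsSymmetricSpace M) {p q : M}
    (hpq : p ≠ q) {s : M → M} (hs : IsPointSymmetry p s) :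
    AntipodalOnCircle p q ↔ s q = q := by
  constructor
  · rintro ⟨c, L, t, ⟨hL, hc, hper, -⟩, hcp, hcq⟩
    subst hcp
    have h1 := h.reverse_line hc hs (L / 2)
    rw [hcq] at h1
    rw [h1, ← hcq]
    have h2 := hper (t - L / 2)
    rw [show t - L / 2 + L = t + L / 2 by ring] at h2
    exact h2.symm
  · intro hq
    obtain ⟨C, hC, hC0, hCD, hCi⟩ := h.exists_line hsym hpq
    have hD : 0 < dist p q := dist_pos.2 hpq
    set D := dist p q with hDdef
    have hs' : IsPointSymmetry (C 0) s := by rw [hC0]; exact hs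
    have hrev : ∀ t, s (C t) = C (-t) := by
      intro t
      have := h.reverse_line hC hs' t
      rwa [zero_add, zero_sub] at this
    have hCnD : C (-D) = C D := by rw [← hrev, hCD, hq]
    have hper : ∀ t, C (t + 2 * D) = C t := by
      intro t
      have := h.periodic_of_eq hsym hC hCnD (t + D)
      rw [show -D + (t + D) = t by ring, show D + (t + D) = t + 2 * D by ring] at this
      exact this.symm
    refine ⟨C, 2 * D, 0, ⟨by positivity, hC, hper, ?_⟩, hC0, ?_⟩
    · -- injectivity
      have key : ∀ a ∈ Ico 0 (2 * D), ∀ b ∈ Ico 0 (2 * D), a < b → C a ≠ C b := by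
        intro a ha b hb hab heq
        have h1 := h.periodic_of_eq hsym hC heq (-a)
        rw [add_neg_cancel, ← sub_eq_add_neg] at h1
        obtain ⟨P, hP⟩ : ∃ P, P = b - a := ⟨_, rfl⟩
        rw [← hP] at h1
        have hP0 : 0 < P := by linarith
        have hP2 : P < 2 * D := by linarith [ha.1, hb.2]
        rcases le_total P D with hPD | hPD
        · have h2 := hCi 0 ⟨le_rfl, hD.le⟩ P ⟨hP0.le, hPD⟩
          rw [h1, dist_self, zero_sub, abs_neg, abs_of_pos hP0] at h2
          linarith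
        · have h3 := hper (P - 2 * D)
          rw [sub_add_cancel, ← neg_sub, ← hrev] at h3
          have h4 := hCi 0 ⟨le_rfl, hD.le⟩ (2 * D - P) ⟨by linarith, by linarith⟩
          have h5 : dist (C 0) (s (C (2 * D - P))) = dist (C 0) (C (2 * D - P)) :=
            hs'.dist_eq _
          rw [← h3, ← h1, dist_self, h4, zero_sub, abs_neg, abs_of_pos (by linarith)] at h5
          linarith
      intro a ha b hb heq
      rcases lt_trichotomy a b with hab | hab | hab
      · exact absurd heq (key a ha b hb hab)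
      · exact hab
      · exact absurd heq.symm (key b hb a ha hab)
    · rw [zero_add, mul_div_cancel_left₀ D two_ne_zero, hCD]

end Nice

end Pool.Agent.Helper95
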