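import Pool.Agent.Helper95.Sym3
import Pool.Agent.Helper95.Nerve
import Pool.Agent.Helper95.Invol

open Set Filter
open scoped Topology

namespace Pool.Agent.Helper95

lemma AntipodalOnCircle.symm {M : Type*} [MetricSpace M] {p q : M}
    (h : AntipodalOnCircle p q) : AntipodalOnCircle q p := by
  obtain ⟨c, L, t, hc, hp, hq⟩ := h
  refine ⟨c, L, t + L / 2, hc, hq, ?_⟩
  rw [add_assoc, add_halves, hc.2.2.1, hp]

section

variable {M : Type*} [MetricSpace M] {ρ : ℝ}

lemma IsAntipodalSet.mono {S T : Set M} (h : IsAntipodalSet T) (hST : S ⊆ T) :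
    IsAntipodalSet S := fun p hp q hq hne ↦ h p (hST hp) q (hST hq) hne

/-- antipodal sets have bounded cardinality -/
lemma Nice.exists_bound [CompactSpace M] (h : Nice M ρ) (hsym : IsSymmetricSpace M) :
    ∃ B : ℕ, ∀ S : Finset M, IsAntipodalSet (S : Set M) → S.card ≤ B := by
  classical
  obtain ⟨t, -, htf, htc⟩ := (isCompact_univ (X := M)).finite_cover_balls (half_pos h.pos)
  refine ⟨htf.toFinset.card, fun S hS ↦ ?_⟩
  have hex : ∀ x : M, ∃ y ∈ t, dist x y < ρ / 2 := by
    intro x
    obtain ⟨y, hy, hxy⟩ := mem_iUnion₂.1 (htc (mem_univ x))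
    exact ⟨y, hy, hxy⟩
  choose f hf1 hf2 using hex
  apply Finset.card_le_card_of_injOn f
  · intro x _
    simpa using hf1 x
  · intro x hx y hy hxy
    by_contra hne
    obtain ⟨s, hs⟩ := hsym x
    have h1 := (h.antipodal_iff hsym hne hs).1 (hS x hx y hy hne)
    have h2 := h.le_dist_of_fixed hs h1 hne
    have h3 := hf2 x
    have h4 := hf2 y
    rw [← hxy] at h4
    have h5 := dist_triangle_right x y (f x)
    linarith

/-- there is an antipodal set of maximal cardinality -/
lemma Nice.exists_max [CompactSpace M] (h : Nice M ρ) (hsym : IsSymmetricSpace M) :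
    ∃ S : Finset M, IsAntipodalSet (S : Set M) ∧ twoNumber M = (S.card : ℕ∞) ∧
      ∀ T : Finset M, IsAntipodalSet (T : Set M) → T.card ≤ S.card := by
  obtain ⟨B, hB⟩ := h.exists_bound hsym
  obtain ⟨N, hN⟩ : ∃ N : Set ℕ, N = {n | ∃ S : Finset M, IsAntipodalSet (S : Set M) ∧
    S.card = n} := ⟨_, rfl⟩
  have hne : N.Nonempty := by
    refine ⟨0, ?_⟩
    rw [hN]
    exact ⟨∅, by intro p hp; simp at hp, rfl⟩
  have hbdd : BddAbove N := by
    refine ⟨B, ?_⟩
    rw [hN]
    rintro n ⟨S, hS, rfl⟩
    exact hB S hS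
  have hmem := Nat.sSup_mem hne hbdd
  have hmax : ∀ T : Finset M, IsAntipodalSet (T : Set M) → T.card ≤ sSup N := by
    intro T hT
    apply le_csSup hbdd
    rw [hN]
    exact ⟨T, hT, rfl⟩
  obtain ⟨k, hk⟩ : ∃ k, k = sSup N := ⟨_, rfl⟩
  rw [← hk] at hmem hmax
  rw [hN] at hmem
  obtain ⟨S, hS, hSk⟩ := hmem
  refine ⟨S, hS, ?_, fun T hT ↦ by rw [hSk]; exact hmax T hT⟩
  apply le_antisymm
  · apply iSup₂_le
    intro T hT
    by_contra hlt
    push Not at hlt
    have h1 : ((S.card + 1 : ℕ) : ℕ∞) ≤ T.encard := by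
      have := Order.add_one_le_of_lt hlt
      exact_mod_cast this
    obtain ⟨T', hT', hcard⟩ := Set.exists_subset_encard_eq h1
    have hfin : T'.Finite := Set.finite_of_encard_eq_coe hcard
    have h2 : IsAntipodalSet ((hfin.toFinset : Finset M) : Set M) := by
      rw [hfin.coe_toFinset]; exact hT.mono hT'
    have h3 := hmax _ h2
    rw [← hSk] at h3
    have h4 : (hfin.toFinset.card : ℕ∞) = ((S.card + 1 : ℕ) : ℕ∞) := by
      rw [← hcard, hfin.encard_eq_coe_toFinset_card]
    have h5 : hfin.toFinset.card = S.card + 1 := by exact_mod_cast h4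
    omega
  · have h1 : (S : Set M).encard = (S.card : ℕ∞) := Set.encard_coe_eq_coe_finsetCard S
    rw [← h1]
    exact le_iSup₂ (f := fun (T : Set M) (_ : IsAntipodalSet T) ↦ T.encard) (S : Set M) hS

end

/-- The parity theorem, for metric spaces. -/
theorem Nice.parity {M : Type} [MetricSpace M] [CompactSpace M] {ρ : ℝ}
    (hgood : GoodCoverStatement) (h : Nice M ρ) (hsym : IsSymmetricSpace M) :
    FiniteHomology M ∧ ∃ k : ℕ, twoNumber M = k ∧ Even (eulerChar M - k) := by
  classical
  obtain ⟨A, hA, hAk, hmax⟩ := h.exists_max hsym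
  have hsym' := hsym
  choose s hs using hsym'
  have hfix : ∀ x ∈ A, ∀ y ∈ A, s x y = y := by
    intro x hx y hy
    rcases eq_or_ne x y with rfl | hne
    · exact (hs x).2.2.1
    · exact (h.antipodal_iff hsym hne (hs x)).1 (hA x hx y hy hne)
  obtain ⟨k, hk⟩ : ∃ k : Set (Equiv.Perm M), k = (fun x ↦ (hs x).perm) '' (A : Set M) := ⟨_, rfl⟩
  have hkf : k.Finite := by rw [hk]; exact A.finite_toSet.image _
  have hinv : ∀ g ∈ k, g * g = 1 := by
    rw [hk]
    rintro g ⟨x, -, rfl⟩
    ext y
    simp [(hs x).2.1]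
  have hcomm : ∀ g ∈ k, ∀ g' ∈ k, g * g' = g' * g := by
    rw [hk]
    rintro g ⟨x, hx, rfl⟩ g' ⟨y, hy, rfl⟩
    ext z
    simp only [Equiv.Perm.mul_apply, IsPointSymmetry.perm_apply]
    exact h.symmetry_comm (hs x) (hs y) (hfix x hx y hy) z
  obtain ⟨hEfin, hEp⟩ := closure_involutions hkf hinv hcomm
  have hiso : Subgroup.closure k ≤ isoSubgroup M := by
    rw [Subgroup.closure_le, hk]
    rintro g ⟨x, -, rfl⟩
    exact (hs x).perm_mem
  have hisosmul : IsIsometricSMul (Subgroup.closure k) M := by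
    refine ⟨fun g ↦ ?_⟩
    have : Isometry ((g : Equiv.Perm M) : M → M) := mem_isoSubgroup.1 (hiso g.2)
    exact this
  have hfixed : MulAction.fixedPoints (Subgroup.closure k) M = (A : Set M) := by
    apply Subset.antisymm
    · intro y hy
      have hy' : ∀ x ∈ A, s x y = y := by
        intro x hx
        have h1 : (hs x).perm ∈ Subgroup.closure k := by
          apply Subgroup.subset_closure
          rw [hk]
          exact ⟨x, hx, rfl⟩
        exact hy ⟨(hs x).perm, h1⟩
      by_contra hyA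
      have hyA' : y ∉ A := fun h ↦ hyA h
      have hanti : ∀ x ∈ A, AntipodalOnCircle x y := by
        intro x hx
        have hne : x ≠ y := fun h ↦ hyA' (h ▸ hx)
        exact (h.antipodal_iff hsym hne (hs x)).2 (hy' x hx)
      have h2 : IsAntipodalSet ((insert y A : Finset M) : Set M) := by
        intro p hp q hq hne
        rw [Finset.coe_insert, mem_insert_iff] at hp hq
        rcases hp with rfl | hp <;> rcases hq with rfl | hq
        · exact absurd rfl hne
        · exact (hanti q hq).symm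
        · exact hanti p hp
        · exact hA p hp q hq hne
      have h3 := hmax _ h2
      rw [Finset.card_insert_of_notMem hyA'] at h3
      omega
    · intro a ha g
      have h1 : Subgroup.closure k ≤ MulAction.stabilizer (Equiv.Perm M) a := by
        rw [Subgroup.closure_le, hk]
        rintro g ⟨x, hx, rfl⟩
        exact hfix x hx a ha
      exact h1 g.2
  have hfinfix : (MulAction.fixedPoints (Subgroup.closure k) M).Finite := by
    rw [hfixed]; exact A.finite_toSet
  obtain ⟨hF, hE⟩ := h.euler_parity hgood (G := Subgroup.closure k) hEp hfinfix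
  refine ⟨hF, A.card, hAk, ?_⟩
  rw [hfixed] at hE
  simpa using hE

end Pool.Agent.Helper95
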