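import Pool.Agent.Helper95.Perfect

set_option autoImplicit false

open Filter Topology Set

namespace Pool.Agent.Helper95.Perfect

/-- The Cantor tree: finite binary sequences are isolated, a branch is the limit of its initial
segments. -/
def Tree : Type := List Bool ⊕ (ℕ → Bool)

def node (l : List Bool) : Tree := Sum.inl l

def br (x : ℕ → Bool) : Tree := Sum.inr x

theorem br_ne_node (x : ℕ → Bool) (l : List Bool) : br x ≠ node l := by
  intro h
  cases h

theorem br_inj {x y : ℕ → Bool} (h : br x = br y) : x = y := Sum.inr_injective h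

theorem node_inj {x y : List Bool} (h : node x = node y) : x = y := Sum.inl_injective h

instance : TopologicalSpace Tree where
  IsOpen U := ∀ x : ℕ → Bool, br x ∈ U → ∀ᶠ n in atTop, node (PiNat.res x n) ∈ U
  isOpen_univ := by
    intro x _
    simp
  isOpen_inter := by
    intro U V hU hV x hx
    filter_upwards [hU x hx.1, hV x hx.2] with n h1 h2 using ⟨h1, h2⟩
  isOpen_sUnion := by
    intro s hs x hx
    obtain ⟨U, hU, hxU⟩ := hx
    filter_upwards [hs U hU x hxU] with n hn using ⟨U, hU, hn⟩

theorem tree_isOpen (U : Set Tree) : IsOpen U ↔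
    ∀ x : ℕ → Bool, br x ∈ U → ∀ᶠ n in atTop, node (PiNat.res x n) ∈ U := Iff.rfl

theorem tendsto_br (x : ℕ → Bool) : Tendsto (fun n => node (PiNat.res x n)) atTop (𝓝 (br x)) := by
  rw [tendsto_nhds]
  intro s hs hx
  exact hs x hx

/-- Basic neighbourhoods of a branch. -/
def V (x : ℕ → Bool) (N : ℕ) : Set Tree := {t | t = br x ∨ ∃ n ≥ N, t = node (PiNat.res x n)}

theorem isClopen_V (x : ℕ → Bool) (N : ℕ) : IsClopen (V x N) := by
  constructor
  · rw [← isOpen_compl_iff, tree_isOpen]
    intro y hy
    have hxy : y ≠ x := fun h => hy (Or.inl (by rw [h]))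
    obtain ⟨m, hm⟩ := Function.ne_iff.mp hxy
    filter_upwards [eventually_gt_atTop m] with n hn
    rintro (h | ⟨k, hk, h⟩)
    · exact br_ne_node _ _ h.symm
    · have h1 := node_inj h
      have h2 : n = k := by
        have := congrArg List.length h1
        simpa using this
      subst h2
      exact hm (PiNat.res_eq_res.mp h1 hn)
  · rw [tree_isOpen]
    rintro y (hy | ⟨k, hk, h⟩)
    · have := br_inj hy
      subst this
      filter_upwards [eventually_ge_atTop N] with n hn
      exact Or.inr ⟨n, hn, rfl⟩
    · exact absurd h (br_ne_node _ _)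

theorem isClopen_node (l : List Bool) : IsClopen ({node l} : Set Tree) := by
  constructor
  · rw [← isOpen_compl_iff, tree_isOpen]
    intro y _
    filter_upwards [eventually_gt_atTop l.length] with n hn h
    have h1 := congrArg List.length (node_inj h)
    simp at h1
    omega
  · rw [tree_isOpen]
    intro y hy
    exact absurd hy (br_ne_node _ _)

theorem tree_basis : TopologicalSpace.IsTopologicalBasis {s : Set Tree | IsClopen s} := by
  refine TopologicalSpace.isTopologicalBasis_of_isOpen_of_nhds (fun u hu => hu.2) ?_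
  intro t U ht hU
  rcases t with l | x
  · exact ⟨{node l}, isClopen_node l, rfl, by
      intro s hs
      rw [mem_singleton_iff] at hs
      rw [hs]
      exact ht⟩
  · obtain ⟨N, hN⟩ := eventually_atTop.mp (hU x ht)
    refine ⟨V x N, isClopen_V x N, Or.inl rfl, ?_⟩
    rintro s (rfl | ⟨n, hn, rfl⟩)
    · exact ht
    · exact hN n hn

instance : T0Space Tree := by
  have : T1Space Tree := by
    refine ⟨?_⟩
    rintro (l | x)
    · exact (isClopen_node l).1
    · rw [← isOpen_compl_iff]
      intro y _
      exact Eventually.of_forall fun n h => br_ne_node _ _ h.symm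
  infer_instance

instance : T35Space Tree := by
  have := CompletelyRegularSpace.of_isTopologicalBasis_clopens tree_basis
  exact { }

theorem isOpen_of_node (U : Set Tree) (hU : ∀ x, br x ∉ U) : IsOpen U := by
  rw [tree_isOpen]
  intro x hx
  exact absurd hx (hU x)

theorem isClosed_of_br (K : Set Tree) (hK : ∀ l, node l ∉ K) : IsClosed K := by
  rw [← isOpen_compl_iff, tree_isOpen]
  intro x _
  exact Eventually.of_forall fun n h => hK _ h

/-- Every subset of the Cantor tree is a `G_delta`. -/
theorem tree_gdelta (s : Set Tree) : IsGδ s := by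
  have h1 : s = (s ∪ range node) ∩ ⋂ l : List Bool, (s ∪ {node l}ᶜ) := by
    ext t
    constructor
    · intro ht
      exact ⟨Or.inl ht, mem_iInter.mpr fun l => Or.inl ht⟩
    · rintro ⟨h1, h2⟩
      rw [mem_iInter] at h2
      rcases t with l | x
      · rcases h2 l with h | h
        · exact h
        · exact absurd rfl h
      · rcases h1 with h | ⟨l, h⟩
        · exact h
        · exact absurd h.symm (br_ne_node _ _)
  rw [h1]
  have e1 : IsGδ (s ∪ range node) := by
    apply IsOpen.isGδ
    rw [tree_isOpen]
    intro x _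
    exact Eventually.of_forall fun n => Or.inr ⟨_, rfl⟩
  have e2 : ∀ l : List Bool, IsGδ (s ∪ {node l}ᶜ) := by
    intro l
    by_cases h : node l ∈ s
    · have : s ∪ {node l}ᶜ = univ := by
        ext t
        simp only [mem_union, mem_compl_iff, mem_singleton_iff, mem_univ, iff_true]
        by_cases ht : t = node l
        · left; rw [ht]; exact h
        · right; exact ht
      rw [this]
      exact IsGδ.univ
    · have : s ∪ {node l}ᶜ = {node l}ᶜ := by
        apply union_eq_self_of_subset_left
        intro t ht h'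
        rw [mem_singleton_iff.mp h'] at ht
        exact h ht
      rw [this]
      exact (isClopen_node l).1.isOpen_compl.isGδ
  exact e1.inter (IsGδ.iInter e2)

/-- Binary sequences that are eventually `false`. -/
def Q : Set (ℕ → Bool) := {x | ∃ N, ∀ n ≥ N, x n = false}

theorem Q_countable : Q.Countable := by
  have : Q ⊆ range (fun s : Finset ℕ => fun k : ℕ => decide (k ∈ s)) := by
    rintro x ⟨N, hN⟩
    refine ⟨(Finset.range N).filter (fun k => x k = true), ?_⟩
    ext k
    by_cases hk : k < N
    · cases h : x k <;> simp [hk, h]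
    · simp [hk, hN k (not_lt.mp hk)]
  exact (countable_range _).mono this

theorem tendsto_trunc (x : ℕ → Bool) (b : Bool) :
    Tendsto (fun n : ℕ => fun k : ℕ => if k < n then x k else b) atTop (𝓝 x) := by
  rw [tendsto_pi_nhds]
  intro k
  refine tendsto_const_nhds.congr' ?_
  filter_upwards [eventually_gt_atTop k] with n hn
  simp [hn]

theorem Q_dense : Dense Q := by
  intro x
  refine mem_closure_of_tendsto (tendsto_trunc x false) (Eventually.of_forall fun n => ?_)
  exact ⟨n, fun k hk => by simp [not_lt.mpr hk]⟩

theorem Q_compl_dense : Dense Qᶜ := by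
  intro x
  refine mem_closure_of_tendsto (tendsto_trunc x true) (Eventually.of_forall fun n => ?_)
  rintro ⟨N, hN⟩
  have := hN (max N n) (le_max_left _ _)
  simp at this

theorem Q_not_gdelta : ¬ IsGδ Q := by
  intro h
  have h1 : Dense (Q ∩ Qᶜ) :=
    Dense.inter_of_Gδ h Q_countable.isGδ_compl Q_dense Q_compl_dense
  rw [inter_compl_self] at h1
  have := h1 (fun _ => false)
  simp at this

theorem res_locallyConstant (k : ℕ) : IsLocallyConstant (fun x : ℕ → Bool => PiNat.res x k) := by
  rw [IsLocallyConstant.iff_eventually_eq]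
  intro x
  induction k with
  | zero => exact Eventually.of_forall fun y => rfl
  | succ n ih =>
    have h1 : ∀ᶠ y in 𝓝 x, y n = x n := by
      have : ContinuousAt (fun y : ℕ → Bool => y n) x := (continuous_apply n).continuousAt
      exact this (isOpen_discrete {x n} |>.mem_nhds rfl)
    filter_upwards [ih, h1] with y hy h2
    simp only [PiNat.res_succ]
    rw [h2]
    exact congrArg _ hy

/-- The set of branches coming from `Q`. -/
def FQ : Set Tree := br '' Q

theorem FQ_nonempty : FQ.Nonempty := ⟨_, ⟨fun _ => false, ⟨0, fun _ _ => rfl⟩, rfl⟩⟩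

theorem FQ_closed : IsClosed FQ := by
  apply isClosed_of_br
  rintro l ⟨x, _, h⟩
  exact br_ne_node _ _ h

theorem FQ_not_functions : ¬ ∃ g : ℕ → C(Tree, ℝ), (∀ n, ∀ t ∈ FQ, g n t = 0) ∧
    ∀ t ∉ FQ, ∃ n, g n t = 1 := by
  rintro ⟨g, hg0, hg1⟩
  apply Q_not_gdelta
  have hlim : ∀ n x, Tendsto (fun k => g n (node (PiNat.res x k))) atTop (𝓝 (g n (br x))) :=
    fun n x => ((g n).continuous.tendsto _).comp (tendsto_br x)
  let B : ℕ → ℕ → Set (ℕ → Bool) := fun n m => ⋂ k, {x | m ≤ k → 1 / 2 ≤ g n (node (PiNat.res x k))}
  have hB : ∀ n m, IsClosed (B n m) := by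
    intro n m
    refine isClosed_iInter fun k => ?_
    have : IsOpen ((fun x : ℕ → Bool => PiNat.res x k) ⁻¹'
        {l | ¬ (m ≤ k → 1 / 2 ≤ g n (node l))}) := res_locallyConstant k _
    rw [← isOpen_compl_iff]
    exact this
  have hQ : Q = ⋂ n, ⋂ m, (B n m)ᶜ := by
    ext x
    constructor
    · intro hx
      refine mem_iInter.mpr fun n => mem_iInter.mpr fun m hxB => ?_
      have h1 : (1 / 2 : ℝ) ≤ g n (br x) := by
        refine ge_of_tendsto (hlim n x) ?_
        filter_upwards [eventually_ge_atTop m] with k hk
        exact mem_iInter.mp hxB k hk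
      rw [hg0 n _ ⟨x, hx, rfl⟩] at h1
      norm_num at h1
    · intro hx
      by_contra hxQ
      have hbr : br x ∉ FQ := by
        rintro ⟨y, hy, h⟩
        exact hxQ (br_inj h ▸ hy)
      obtain ⟨n, hn⟩ := hg1 _ hbr
      have h2 : ∀ᶠ k in atTop, (1 / 2 : ℝ) ≤ g n (node (PiNat.res x k)) := by
        have := hlim n x
        rw [hn] at this
        exact this.eventually_const_le (by norm_num)
      obtain ⟨m, hm⟩ := eventually_atTop.mp h2
      exact mem_iInter.mp (mem_iInter.mp hx n) m (mem_iInter.mpr fun k hk => hm k hk)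
  rw [hQ]
  exact IsGδ.iInter fun n => IsGδ.iInter fun m => (hB n m).isOpen_compl.isGδ

end Pool.Agent.Helper95.Perfect
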